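import Pool.Agent.Helper21.FC.Defs

/-!
MP_0aa406_nt, project FC (helper21): basic properties of the weight function.
-/

set_option autoImplicit false

namespace Pool.Agent.Helper21.FC

open Finset

theorem A1_pos {p n : ℕ} (hp : 2 ≤ p) (hn : 1 ≤ n) : (0 : ℝ) < (p : ℝ) ^ n - 1 := by
  have h1 : (1 : ℝ) < (p : ℝ) ^ n := one_lt_pow₀ (by exact_mod_cast hp) (by omega)
  linarith

theorem A1_fract_mul {p n : ℕ} (hp : 2 ≤ p) (hn : 1 ≤ n) (b t : ℤ) (x : ℕ) :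
    Int.fract ((p : ℝ) ^ x * ((b + NN p n * t : ℤ) : ℝ) / ((p : ℝ) ^ n - 1)) =
      Int.fract ((p : ℝ) ^ x * (b : ℝ) / ((p : ℝ) ^ n - 1)) := by
  have h0 := (A1_pos hp hn).ne'
  have h1 : (p : ℝ) ^ x * ((b + NN p n * t : ℤ) : ℝ) / ((p : ℝ) ^ n - 1) =
      (p : ℝ) ^ x * (b : ℝ) / ((p : ℝ) ^ n - 1) + (((p : ℤ) ^ x * t : ℤ) : ℝ) := by
    unfold NN
    push_cast
    field_simp
  rw [h1, Int.fract_add_intCast]

theorem W_congr {p n : ℕ} (hp : 2 ≤ p) (hn : 1 ≤ n) {a b : ℤ} (h : NN p n ∣ a - b) :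
    W p n a = W p n b := by
  obtain ⟨t, ht⟩ := h
  have h1 : a = b + NN p n * t := by linarith
  unfold W
  rw [h1]
  exact Finset.sum_congr rfl fun x _ => A1_fract_mul hp hn b t x

theorem W_zero {p n : ℕ} (hp : 2 ≤ p) (hn : 1 ≤ n) {a : ℤ} (h : NN p n ∣ a) : W p n a = 0 := by
  have h1 : W p n a = W p n 0 := W_congr hp hn (by simpa using h)
  rw [h1]
  unfold W
  simp

theorem W_nonneg (p n : ℕ) (a : ℤ) : 0 ≤ W p n a :=
  Finset.sum_nonneg fun _ _ => Int.fract_nonneg _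

theorem W_le (p n : ℕ) (a : ℤ) : W p n a ≤ n := by
  unfold W
  refine (Finset.sum_le_sum fun x _ => (Int.fract_lt_one _).le).trans ?_
  simp

theorem A1_mul_p {p n : ℕ} (hp : 2 ≤ p) (hn : 1 ≤ n) (a : ℤ) :
    W p n ((p : ℤ) * a) = W p n a := by
  have h0 := (A1_pos hp hn).ne'
  obtain ⟨f, hf⟩ : ∃ f : ℕ → ℝ, f = fun x => Int.fract ((p : ℝ) ^ x * (a : ℝ) / ((p : ℝ) ^ n - 1)) :=
    ⟨_, rfl⟩
  have h1 : W p n a = ∑ x ∈ range n, f x := by rw [hf]; rfl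
  have h2 : W p n ((p : ℤ) * a) = ∑ x ∈ range n, f (x + 1) := by
    unfold W
    rw [hf]
    refine Finset.sum_congr rfl fun x _ => ?_
    congr 1
    push_cast
    rw [pow_succ]
    ring
  have h3 : f n = f 0 := by
    rw [hf]
    have h4 : (p : ℝ) ^ n * (a : ℝ) / ((p : ℝ) ^ n - 1) =
        (p : ℝ) ^ 0 * (a : ℝ) / ((p : ℝ) ^ n - 1) + ((a : ℤ) : ℝ) := by
      field_simp
      ring
    simp only
    rw [h4, Int.fract_add_intCast]
  have h5 := Finset.sum_range_succ f n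
  have h6 := Finset.sum_range_succ' f n
  rw [h1, h2]
  linarith

theorem W_pow_mul {p n : ℕ} (hp : 2 ≤ p) (hn : 1 ≤ n) (r : ℕ) (a : ℤ) :
    W p n ((p : ℤ) ^ r * a) = W p n a := by
  induction r with
  | zero => simp
  | succ r ih =>
    rw [pow_succ, mul_comm ((p : ℤ) ^ r) (p : ℤ), mul_assoc, A1_mul_p hp hn, ih]

theorem A1_not_dvd {p n : ℕ} (hn : 1 ≤ n) {a : ℤ} (h : ¬ NN p n ∣ a) (x : ℕ) :
    ¬ NN p n ∣ (p : ℤ) ^ x * a := by
  intro h1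
  apply h
  have h2 : IsCoprime (NN p n) ((p : ℤ) ^ x) := by
    apply IsCoprime.pow_right
    refine ⟨-1, (p : ℤ) ^ (n - 1), ?_⟩
    unfold NN
    have : (p : ℤ) ^ n = (p : ℤ) ^ (n - 1) * p := by
      rw [← pow_succ, Nat.sub_add_cancel hn]
    rw [this]
    ring
  exact h2.dvd_of_dvd_mul_left h1

theorem W_neg {p n : ℕ} (hp : 2 ≤ p) (hn : 1 ≤ n) {a : ℤ} (h : ¬ NN p n ∣ a) :
    W p n (-a) = n - W p n a := by
  have h0 := (A1_pos hp hn).ne'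
  have h1 : ∀ x ∈ range n, Int.fract ((p : ℝ) ^ x * ((-a : ℤ) : ℝ) / ((p : ℝ) ^ n - 1)) =
      1 - Int.fract ((p : ℝ) ^ x * (a : ℝ) / ((p : ℝ) ^ n - 1)) := by
    intro x _
    have h2 : (p : ℝ) ^ x * ((-a : ℤ) : ℝ) / ((p : ℝ) ^ n - 1) =
        -((p : ℝ) ^ x * (a : ℝ) / ((p : ℝ) ^ n - 1)) := by
      push_cast
      ring
    rw [h2]
    apply Int.fract_neg
    intro h3
    rw [Int.fract_eq_iff] at h3
    obtain ⟨-, -, z, hz⟩ := h3
    apply A1_not_dvd hn h x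
    refine ⟨z, ?_⟩
    have h4 : (((p : ℤ) ^ x * a : ℤ) : ℝ) = ((NN p n * z : ℤ) : ℝ) := by
      unfold NN
      push_cast
      rw [sub_zero, div_eq_iff h0] at hz
      rw [hz]
      ring
    exact_mod_cast h4
  unfold W
  rw [Finset.sum_congr rfl h1, Finset.sum_sub_distrib]
  simp

/-- subadditivity -/
theorem W_add_le (p n : ℕ) (a b : ℤ) : W p n (a + b) ≤ W p n a + W p n b := by
  unfold W
  rw [← Finset.sum_add_distrib]
  refine Finset.sum_le_sum fun x _ => ?_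
  have h2 : (p : ℝ) ^ x * ((a + b : ℤ) : ℝ) / ((p : ℝ) ^ n - 1) =
      (p : ℝ) ^ x * (a : ℝ) / ((p : ℝ) ^ n - 1) + (p : ℝ) ^ x * (b : ℝ) / ((p : ℝ) ^ n - 1) := by
    push_cast
    ring
  rw [h2]
  exact Int.fract_add_le _ _

/-- bound for natural numbers -/
theorem W_le_self {p n : ℕ} (hp : 2 ≤ p) (hn : 1 ≤ n) (m : ℕ) :
    W p n (m : ℤ) ≤ (m : ℝ) / ((p : ℝ) - 1) := by
  have h0 := A1_pos hp hn
  have hp1 : (0 : ℝ) < (p : ℝ) - 1 := by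
    have : (2 : ℝ) ≤ p := by exact_mod_cast hp
    linarith
  unfold W
  have h1 : ∀ x ∈ range n, Int.fract ((p : ℝ) ^ x * (((m : ℕ) : ℤ) : ℝ) / ((p : ℝ) ^ n - 1)) ≤
      (p : ℝ) ^ x * ((m : ℝ) / ((p : ℝ) ^ n - 1)) := by
    intro x _
    have h2 : (p : ℝ) ^ x * (((m : ℕ) : ℤ) : ℝ) / ((p : ℝ) ^ n - 1) =
        (p : ℝ) ^ x * ((m : ℝ) / ((p : ℝ) ^ n - 1)) := by
      push_cast
      ring
    rw [h2]
    have h3 : 0 ≤ (p : ℝ) ^ x * ((m : ℝ) / ((p : ℝ) ^ n - 1)) := by positivity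
    have h4 : (0 : ℤ) ≤ ⌊(p : ℝ) ^ x * ((m : ℝ) / ((p : ℝ) ^ n - 1))⌋ := Int.floor_nonneg.2 h3
    have h5 : (0 : ℝ) ≤ (⌊(p : ℝ) ^ x * ((m : ℝ) / ((p : ℝ) ^ n - 1))⌋ : ℝ) := by exact_mod_cast h4
    unfold Int.fract
    linarith
  refine (Finset.sum_le_sum h1).trans (le_of_eq ?_)
  have h3 : (p : ℝ) ≠ 1 := by
    intro h
    rw [h] at hp1
    linarith
  rw [← Finset.sum_mul, geom_sum_eq h3]
  field_simp

/-- `d` and its inverse have the same gains -/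
theorem gain_inv {p n : ℕ} (hp : 2 ≤ p) (hn : 1 ≤ n) {d d' : ℤ} (h : NN p n ∣ d * d' - 1) {c : ℝ}
    (hg : Gain p n d' c) : Gain p n d c := by
  obtain ⟨a, ha, hc⟩ := hg
  have h1 : NN p n ∣ d * (d' * a) - a := by
    have : d * (d' * a) - a = (d * d' - 1) * a := by ring
    rw [this]
    exact h.mul_right a
  have h2 : ¬ NN p n ∣ d' * a := by
    intro h3
    apply ha
    have h4 : NN p n ∣ d * (d' * a) := h3.mul_left d
    have h5 := dvd_sub h4 h1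
    rwa [sub_sub_cancel] at h5
  refine ⟨-(d' * a), fun h3 => h2 ((dvd_neg).1 h3), ?_⟩
  have h3 : W p n (d * -(d' * a)) = W p n (-a) := by
    apply W_congr hp hn
    have : d * -(d' * a) - -a = -(d * (d' * a) - a) := by ring
    rw [this]
    exact (dvd_neg).2 h1
  rw [h3, W_neg hp hn ha, W_neg hp hn h2]
  linarith

theorem gain_mono {p n : ℕ} {d : ℤ} {c c' : ℝ} (hc : c' ≤ c) (hg : Gain p n d c) :
    Gain p n d c' := by
  obtain ⟨a, ha, h⟩ := hg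
  exact ⟨a, ha, hc.trans h⟩

end Pool.Agent.Helper21.FC
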