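import Pool.Agent.Helper21.FC.Defs

/-!
MP_0aa406_nt, project FC (helper21): the weight function and digit sums.
-/

set_option autoImplicit false

namespace Pool.Agent.Helper21.FC

open Finset

/-- the digit sum is the sum of the residues of the quotients by the powers of `p` -/
theorem A2_digits_sum {p : ℕ} (hp : 2 ≤ p) : ∀ n a : ℕ, a < p ^ n →
    (Nat.digits p a).sum = ∑ j ∈ range n, a / p ^ j % p := by
  intro n
  induction n with
  | zero =>
    intro a ha
    have h0 : a = 0 := by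
      simpa using ha
    subst h0
    simp
  | succ n ih =>
    intro a ha
    rcases Nat.eq_zero_or_pos a with h0 | hpos
    · subst h0
      simp
    · rw [Nat.digits_def' (by omega) hpos, List.sum_cons, sum_range_succ']
      have h1 : a / p < p ^ n := by
        apply Nat.div_lt_of_lt_mul
        rw [pow_succ'] at ha
        exact ha
      rw [ih (a / p) h1, pow_zero, Nat.div_one, add_comm]
      congr 1
      apply sum_congr rfl
      intro j _
      rw [Nat.div_div_eq_div_mul, pow_succ']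

/-- the strict inequality behind the floor computation -/
theorem A2_lt {p n x a : ℕ} (hx : x ≤ n) (ha : a < p ^ n - 1) :
    (a % p ^ (n - x)) * p ^ x + a / p ^ (n - x) + 1 < p ^ n := by
  have hpn : p ^ n = p ^ (n - x) * p ^ x := by
    rw [← pow_add, Nat.sub_add_cancel hx]
  have hpos : 0 < p ^ n := by omega
  have hb : 0 < p ^ (n - x) := by
    rcases Nat.eq_zero_or_pos (p ^ (n - x)) with h | h
    · rw [hpn, h, zero_mul] at hpos
      omega
    · exact h
  generalize p ^ (n - x) = b at *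
  generalize p ^ x = c at *
  have hv : a % b < b := Nat.mod_lt _ hb
  have hdm : b * (a / b) + a % b = a := Nat.div_add_mod a b
  have hu : a / b < c := by
    apply Nat.div_lt_of_lt_mul
    omega
  generalize a / b = u at *
  generalize a % b = v at *
  have h1 : (v + 1) * c ≤ b * c := Nat.mul_le_mul_right c hv
  by_contra hcon
  push Not at hcon
  have h2 : v * c + c ≤ b * c := by
    have : (v + 1) * c = v * c + c := by ring
    omega
  have hu2 : u + 1 = c := by omega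
  have h3 : v * c + c = b * c := by omega
  have hc : 0 < c := by omega
  have h4 : v + 1 = b := by
    have : (v + 1) * c = b * c := by
      rw [← h3]
      ring
    exact Nat.eq_of_mul_eq_mul_right hc this
  have h5 : a + 1 = p ^ n := by
    rw [hpn, ← hdm, ← hu2, ← h4]
    ring
  omega

/-- the integral parts of `p ^ x a / (p ^ n - 1)` are the quotients by the powers of `p` -/
theorem A2_floor {p n x a : ℕ} (hx : x ≤ n) (ha : a < p ^ n - 1) :
    ⌊(p : ℝ) ^ x * (a : ℝ) / ((p : ℝ) ^ n - 1)⌋ = ((a / p ^ (n - x) : ℕ) : ℤ) := by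
  have hlt := A2_lt hx ha
  have hpn : p ^ n = p ^ (n - x) * p ^ x := by
    rw [← pow_add, Nat.sub_add_cancel hx]
  have hdm : p ^ (n - x) * (a / p ^ (n - x)) + a % p ^ (n - x) = a := Nat.div_add_mod a _
  generalize a / p ^ (n - x) = u at *
  generalize a % p ^ (n - x) = v at *
  have hN : (0 : ℝ) < (p : ℝ) ^ n - 1 := by
    have h : 1 < p ^ n := by omega
    have h2 : (1 : ℝ) < ((p ^ n : ℕ) : ℝ) := by exact_mod_cast h
    push_cast at h2
    linarith
  have hpn' : (p : ℝ) ^ n = (p : ℝ) ^ (n - x) * (p : ℝ) ^ x := by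
    exact_mod_cast hpn
  have hdm' : (a : ℝ) = (p : ℝ) ^ (n - x) * (u : ℝ) + (v : ℝ) := by
    exact_mod_cast hdm.symm
  have hlt' : (v : ℝ) * (p : ℝ) ^ x + (u : ℝ) + 1 < (p : ℝ) ^ n := by
    exact_mod_cast hlt
  have hkey : (p : ℝ) ^ x * (a : ℝ) = (u : ℝ) * (p : ℝ) ^ n + (v : ℝ) * (p : ℝ) ^ x := by
    rw [hdm', hpn']
    ring
  have hv0 : (0 : ℝ) ≤ (v : ℝ) * (p : ℝ) ^ x := by positivity
  have hu0 : (0 : ℝ) ≤ (u : ℝ) := by positivity
  rw [Int.floor_eq_iff]
  constructor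
  · rw [le_div_iff₀ hN, hkey]
    push_cast
    nlinarith
  · rw [div_lt_iff₀ hN, hkey]
    push_cast
    nlinarith

theorem W_digits {p n : ℕ} (hp : 2 ≤ p) (hn : 1 ≤ n) (a : ℕ) (ha : a < p ^ n - 1) :
    ((Nat.digits p a).sum : ℝ) = ((p : ℝ) - 1) * W p n (a : ℤ) := by
  have hN : (0 : ℝ) < (p : ℝ) ^ n - 1 := by
    have h : 1 < p ^ n := by omega
    have h2 : (1 : ℝ) < ((p ^ n : ℕ) : ℝ) := by exact_mod_cast h
    push_cast at h2
    linarith
  -- the fractional parts
  have hfr : ∀ x, x ≤ n → Int.fract ((p : ℝ) ^ x * (a : ℝ) / ((p : ℝ) ^ n - 1)) =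
      (p : ℝ) ^ x * (a : ℝ) / ((p : ℝ) ^ n - 1) - ((a / p ^ (n - x) : ℕ) : ℝ) := by
    intro x hx
    rw [Int.fract, A2_floor hx ha]
    push_cast
    rfl
  have hW : W p n (a : ℤ) =
      ∑ x ∈ range n, ((p : ℝ) ^ x * (a : ℝ) / ((p : ℝ) ^ n - 1) - ((a / p ^ (n - x) : ℕ) : ℝ)) := by
    unfold W
    apply sum_congr rfl
    intro x hx
    rw [← hfr x (mem_range.mp hx).le]
    push_cast
    rfl
  -- the digit at place `n - 1 - x`
  have hdig : ∀ x ∈ range n, ((a / p ^ (n - 1 - x) % p : ℕ) : ℝ) =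
      ((a / p ^ (n - (x + 1)) : ℕ) : ℝ) - (p : ℝ) * ((a / p ^ (n - x) : ℕ) : ℝ) := by
    intro x hx
    have hxn : x < n := mem_range.mp hx
    have h1 : n - 1 - x = n - (x + 1) := by omega
    have h2 : n - x = n - (x + 1) + 1 := by omega
    rw [h1, h2, pow_succ, ← Nat.div_div_eq_div_mul]
    have h3 := Nat.div_add_mod (a / p ^ (n - (x + 1))) p
    have h4 : (p : ℝ) * ((a / p ^ (n - (x + 1)) / p : ℕ) : ℝ) +
        ((a / p ^ (n - (x + 1)) % p : ℕ) : ℝ) = ((a / p ^ (n - (x + 1)) : ℕ) : ℝ) := by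
      exact_mod_cast h3
    linarith
  have hsum : ((Nat.digits p a).sum : ℝ) =
      ∑ x ∈ range n, (((a / p ^ (n - (x + 1)) : ℕ) : ℝ) -
        (p : ℝ) * ((a / p ^ (n - x) : ℕ) : ℝ)) := by
    rw [A2_digits_sum hp n a (by omega), ← sum_range_reflect]
    push_cast
    rw [← sum_congr rfl hdig]
  -- telescoping
  have htel := sum_range_sub (fun x => ((a / p ^ (n - x) : ℕ) : ℝ)) n
  have htel2 := sum_range_sub (fun x => (p : ℝ) ^ x * (a : ℝ) / ((p : ℝ) ^ n - 1)) n
  have hsplit : ∀ x ∈ range n, (((a / p ^ (n - (x + 1)) : ℕ) : ℝ) -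
        (p : ℝ) * ((a / p ^ (n - x) : ℕ) : ℝ)) =
      ((p : ℝ) - 1) * ((p : ℝ) ^ x * (a : ℝ) / ((p : ℝ) ^ n - 1) - ((a / p ^ (n - x) : ℕ) : ℝ)) +
      ((((a / p ^ (n - (x + 1)) : ℕ) : ℝ) - ((a / p ^ (n - x) : ℕ) : ℝ)) -
      ((p : ℝ) ^ (x + 1) * (a : ℝ) / ((p : ℝ) ^ n - 1) -
        (p : ℝ) ^ x * (a : ℝ) / ((p : ℝ) ^ n - 1))) := by
    intro x _
    rw [pow_succ]
    ring
  rw [hsum, sum_congr rfl hsplit, sum_add_distrib, ← mul_sum, ← hW, sum_sub_distrib, htel, htel2]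
  have h0 : a / p ^ (n - 0) = 0 := by
    rw [Nat.sub_zero]
    exact Nat.div_eq_of_lt (by omega)
  have hn' : a / p ^ (n - n) = a := by
    simp
  rw [h0, hn']
  have hfin : (p : ℝ) ^ n * (a : ℝ) / ((p : ℝ) ^ n - 1) -
      (p : ℝ) ^ 0 * (a : ℝ) / ((p : ℝ) ^ n - 1) = (a : ℝ) := by
    rw [← sub_div, pow_zero, div_eq_iff hN.ne']
    ring
  rw [hfin]
  push_cast
  ring

end Pool.Agent.Helper21.FC
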