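import Pool.Agent.Helper21.FC.A1
import Pool.Agent.Helper21.FC.A2
import Pool.Agent.Helper18.Katz9

/-!
MP_0aa406_nt, project FC (helper21): from gains to digit sums, and lifting to multiples of the degree.
-/

set_option autoImplicit false

namespace Pool.Agent.Helper21.FC

open Finset

/-- `W (d a) - W a ≥ n - c` gives `W a + W (- d a) ≤ c` -/
theorem digits_of_gain {p n : ℕ} (hp : 2 ≤ p) (hn : 1 ≤ n) (d : ℕ)
    (hd : Nat.Coprime d (p ^ n - 1)) {c : ℝ} (h : Gain p n (d : ℤ) (n - c)) :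
    ∃ a b : ℕ, 0 < a ∧ a < p ^ n - 1 ∧ b < p ^ n - 1 ∧ (p ^ n - 1) ∣ d * a + b ∧
      (((Nat.digits p a).sum + (Nat.digits p b).sum : ℕ) : ℝ) ≤ c * ((p : ℝ) - 1) := by
  obtain ⟨a, ha, hW⟩ := h
  have hpn : 1 < p ^ n := Nat.one_lt_pow (by omega) (by omega)
  have hQz : (((p ^ n - 1 : ℕ)) : ℤ) = NN p n := by
    unfold NN
    rw [Nat.cast_sub hpn.le]; push_cast; rfl
  have hQ0 : (0 : ℤ) < NN p n := by
    rw [← hQz]; exact_mod_cast (by omega : 0 < p ^ n - 1)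
  set Q : ℤ := NN p n with hQ
  have a0 := Int.emod_nonneg a hQ0.ne'
  have a1 := Int.emod_lt_of_pos a hQ0
  have b0 := Int.emod_nonneg (-((d : ℤ) * a)) hQ0.ne'
  have b1 := Int.emod_lt_of_pos (-((d : ℤ) * a)) hQ0
  obtain ⟨x, hx⟩ := Int.eq_ofNat_of_zero_le a0
  obtain ⟨y, hy⟩ := Int.eq_ofNat_of_zero_le b0
  have hx1 : x < p ^ n - 1 := by
    rw [hx] at a1
    rw [← hQz] at a1
    exact_mod_cast a1
  have hy1 : y < p ^ n - 1 := by
    rw [hy] at b1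
    rw [← hQz] at b1
    exact_mod_cast b1
  have hxc : (x : ℤ) ≡ a [ZMOD Q] := by
    rw [← hx]; exact Int.mod_modEq _ _
  have hyc : (y : ℤ) ≡ -((d : ℤ) * a) [ZMOD Q] := by
    rw [← hy]; exact Int.mod_modEq _ _
  have hxpos : 0 < x := by
    rcases Nat.eq_zero_or_pos x with h0 | h0
    · exfalso
      rw [h0] at hx
      exact ha (Int.dvd_of_emod_eq_zero (by simpa using hx))
    · exact h0
  refine ⟨x, y, hxpos, hx1, hy1, ?_, ?_⟩
  · have h1 : Q ∣ (d * x + y : ℤ) := by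
      have h2 : (d * x + y : ℤ) ≡ d * a + -(d * a) [ZMOD Q] := (hxc.mul_left _).add hyc
      rw [add_neg_cancel] at h2
      exact (Int.modEq_zero_iff_dvd).mp h2
    rw [← hQz] at h1
    exact_mod_cast h1
  · have e1 := W_digits hp hn x hx1
    have e2 := W_digits hp hn y hy1
    rw [W_congr hp hn (hxc.symm.dvd)] at e1
    rw [W_congr hp hn (hyc.symm.dvd)] at e2
    have hdz : IsCoprime (d : ℤ) Q := by
      rw [← hQz]
      exact (Nat.isCoprime_iff_coprime).mpr hd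
    have hnd : ¬ NN p n ∣ (d : ℤ) * a := fun h => ha (hdz.symm.dvd_of_dvd_mul_left h)
    rw [W_neg hp hn hnd] at e2
    rw [Nat.cast_add, e1, e2]
    have hp1 : (0 : ℝ) < (p : ℝ) - 1 := by
      have : (2 : ℝ) ≤ p := by exact_mod_cast hp
      linarith
    nlinarith [mul_le_mul_of_nonneg_right hW hp1.le]

/-- real valued form of `Helper18.Katz.lift_degree` -/
theorem lift_real {p : ℕ} (hp : 2 ≤ p) (l t : ℕ) (hl : 0 < l) (ht : 0 < t) (d : ℕ) (B : ℝ)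
    (h : ∃ a b : ℕ, 0 < a ∧ a < p ^ l - 1 ∧ b < p ^ l - 1 ∧ (p ^ l - 1) ∣ d * a + b ∧
      (((Nat.digits p a).sum + (Nat.digits p b).sum : ℕ) : ℝ) ≤ B) :
    ∃ a b : ℕ, 0 < a ∧ a < p ^ (l * t) - 1 ∧ b < p ^ (l * t) - 1 ∧ (p ^ (l * t) - 1) ∣ d * a + b ∧
      (((Nat.digits p a).sum + (Nat.digits p b).sum : ℕ) : ℝ) ≤ t * B := by
  obtain ⟨a, b, h1, h2, h3, h4, h5⟩ := h
  obtain ⟨a', b', g1, g2, g3, g4, g5⟩ := Pool.Agent.Helper18.Katz.lift_degree hp l t hl ht d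
    (((Nat.digits p a).sum + (Nat.digits p b).sum : ℕ) : ℤ) ⟨a, b, h1, h2, h3, h4, le_refl _⟩
  refine ⟨a', b', g1, g2, g3, g4, ?_⟩
  have g6 : (((Nat.digits p a').sum + (Nat.digits p b').sum : ℕ) : ℝ)
      ≤ t * (((Nat.digits p a).sum + (Nat.digits p b).sum : ℕ) : ℝ) := by
    exact_mod_cast g5
  refine g6.trans ?_
  exact mul_le_mul_of_nonneg_left h5 (Nat.cast_nonneg t)

end Pool.Agent.Helper21.FC
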