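import Pool.Agent.Helper21.FC.Defs

/-!
MP_0aa406_nt, project FC (helper21): the weight function along the powers of `P = p ^ κ`.
-/

set_option autoImplicit false

namespace Pool.Agent.Helper21.FC

open Finset

/-- one period -/
private theorem A4_period {p n : ℕ} (hp : 2 ≤ p) (hn : 1 ≤ n) (a : ℤ) (e : ℕ) :
    Int.fract ((p : ℝ) ^ (e + n) * (a : ℝ) / ((p : ℝ) ^ n - 1)) =
      Int.fract ((p : ℝ) ^ e * (a : ℝ) / ((p : ℝ) ^ n - 1)) := by
  have hp1 : (1 : ℝ) < p := by exact_mod_cast hp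
  have hN : (p : ℝ) ^ n - 1 ≠ 0 := by
    have := one_lt_pow₀ hp1 (by omega : n ≠ 0)
    linarith
  have h : (p : ℝ) ^ (e + n) * (a : ℝ) / ((p : ℝ) ^ n - 1) =
      (p : ℝ) ^ e * (a : ℝ) / ((p : ℝ) ^ n - 1) + (((p : ℤ) ^ e * a : ℤ) : ℝ) := by
    push_cast
    field_simp
    ring
  rw [h, Int.fract_add_intCast]

/-- only the residue of the exponent counts -/
private theorem A4_mod {p n : ℕ} (hp : 2 ≤ p) (hn : 1 ≤ n) (a : ℤ) (e : ℕ) :
    Int.fract ((p : ℝ) ^ e * (a : ℝ) / ((p : ℝ) ^ n - 1)) =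
      Int.fract ((p : ℝ) ^ (e % n) * (a : ℝ) / ((p : ℝ) ^ n - 1)) := by
  have h : ∀ q r : ℕ, Int.fract ((p : ℝ) ^ (r + n * q) * (a : ℝ) / ((p : ℝ) ^ n - 1)) =
      Int.fract ((p : ℝ) ^ r * (a : ℝ) / ((p : ℝ) ^ n - 1)) := by
    intro q
    induction q with
    | zero => intro r; simp
    | succ q ih =>
      intro r
      have : r + n * (q + 1) = (r + n * q) + n := by ring
      rw [this, A4_period hp hn, ih]
  conv_lhs => rw [← Nat.mod_add_div e n]
  exact h _ _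

/-- `j ↦ κ j` permutes the residues modulo `n` if `k κ ≡ 1` -/
theorem W_perm {p n k κ : ℕ} (hp : 2 ≤ p) (hn : 1 ≤ n) (hκ : (n : ℤ) ∣ (k : ℤ) * κ - 1) (a : ℤ) :
    W p n a = ∑ j ∈ range n, Int.fract ((p : ℝ) ^ (κ * j) * (a : ℝ) / ((p : ℝ) ^ n - 1)) := by
  have hinj : Set.InjOn (fun j : ℕ => (κ * j) % n) (range n : Set ℕ) := by
    intro i hi j hj hij
    simp only [coe_range, Set.mem_Iio] at hi hj
    have h1 : κ * i ≡ κ * j [MOD n] := hij
    have h2 : (n : ℤ) ∣ (κ : ℤ) * j - (κ : ℤ) * i := by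
      have := (Nat.modEq_iff_dvd).1 h1
      push_cast at this
      exact this
    have h3 : (n : ℤ) ∣ (j : ℤ) - i := by
      have e : (j : ℤ) - i = (k : ℤ) * ((κ : ℤ) * j - (κ : ℤ) * i) -
          ((k : ℤ) * κ - 1) * ((j : ℤ) - i) := by ring
      rw [e]
      exact dvd_sub (Dvd.dvd.mul_left h2 _) (Dvd.dvd.mul_right hκ _)
    have h4 : i ≡ j [MOD n] := (Nat.modEq_iff_dvd).2 h3
    have h5 : i % n = j % n := h4
    rwa [Nat.mod_eq_of_lt hi, Nat.mod_eq_of_lt hj] at h5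
  have himg : (range n).image (fun j : ℕ => (κ * j) % n) = range n := by
    apply Finset.eq_of_subset_of_card_le
    · intro x hx
      obtain ⟨j, _, rfl⟩ := Finset.mem_image.1 hx
      exact mem_range.2 (Nat.mod_lt _ hn)
    · rw [Finset.card_image_of_injOn hinj]
  unfold W
  conv_lhs => rw [← himg]
  rw [Finset.sum_image (by exact_mod_cast hinj)]
  refine Finset.sum_congr rfl fun j _ => ?_
  rw [A4_mod hp hn a (κ * j)]

end Pool.Agent.Helper21.FC
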