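import Pool.Agent.Helper21.FC.Defs

/-!
MP_0aa406_nt, project FC (helper21): a trigonometric minorant of the fractional part.
-/

set_option autoImplicit false

namespace Pool.Agent.Helper21.FC

open Finset

private theorem B1_B2 (x : ℝ) :
    (Polynomial.map (algebraMap ℚ ℝ) (Polynomial.bernoulli (2 * 1))).eval x
      = x ^ 2 - x + 1 / 6 := by
  simp only [Polynomial.bernoulli, Finset.sum_range_succ, Finset.range_zero, Finset.sum_empty,
    mul_one, bernoulli_one, bernoulli_two, bernoulli_zero]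
  norm_num
  ring

private theorem B1_cos (x : ℝ) :
    HasSum (fun n : ℕ => 1 / (n : ℝ) ^ 2 * Real.cos (2 * Real.pi * n * x))
      (Real.pi ^ 2 * (Int.fract x ^ 2 - Int.fract x + 1 / 6)) := by
  have h := hasSum_one_div_nat_pow_mul_cos (k := 1) one_ne_zero
    (x := Int.fract x) ⟨Int.fract_nonneg x, (Int.fract_lt_one x).le⟩
  rw [B1_B2] at h
  have e1 : (-1 : ℝ) ^ (1 + 1) * (2 * Real.pi) ^ (2 * 1) / 2 / ((2 * 1).factorial : ℝ) *
      (Int.fract x ^ 2 - Int.fract x + 1 / 6) =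
      Real.pi ^ 2 * (Int.fract x ^ 2 - Int.fract x + 1 / 6) := by
    have : ((2 * 1).factorial : ℝ) = 2 := by norm_num [Nat.factorial]
    rw [this]; ring
  rw [e1] at h
  have e2 : (fun n : ℕ => 1 / (n : ℝ) ^ (2 * 1) * Real.cos (2 * Real.pi * n * Int.fract x)) =
      (fun n : ℕ => 1 / (n : ℝ) ^ 2 * Real.cos (2 * Real.pi * n * x)) := by
    funext n
    have hx : 2 * Real.pi * n * x =
        2 * Real.pi * n * Int.fract x + ((n * ⌊x⌋ : ℤ) : ℝ) * (2 * Real.pi) := by
      have := Int.floor_add_fract x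
      push_cast
      nth_rewrite 1 [← this]
      ring
    rw [hx, Real.cos_add_int_mul_two_pi]
  rw [e2] at h
  exact h

/-- truncation of the cosine series, uniformly in `x` -/
private theorem B1_trunc (ε : ℝ) (hε : 0 < ε) :
    ∃ H : ℕ, ∀ x : ℝ, |Real.pi ^ 2 * (Int.fract x ^ 2 - Int.fract x + 1 / 6) -
      ∑ n ∈ range (H + 1), 1 / (n : ℝ) ^ 2 * Real.cos (2 * Real.pi * n * x)| ≤ ε := by
  have hs : Summable (fun n : ℕ => 1 / (n : ℝ) ^ 2) :=
    Real.summable_one_div_nat_pow.2 (by norm_num)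
  obtain ⟨S, hS⟩ := hs
  have ht := hS.tendsto_sum_nat.comp (Filter.tendsto_add_atTop_nat 1)
  obtain ⟨H, hH⟩ := (ht.eventually (lt_mem_nhds (show S - ε < S by linarith))).exists
  refine ⟨H, fun x => ?_⟩
  have h1 := hS.sub (B1_cos x)
  have h2 := hS.add (B1_cos x)
  have hc : ∀ n : ℕ, |1 / (n : ℝ) ^ 2 * Real.cos (2 * Real.pi * n * x)| ≤ 1 / (n : ℝ) ^ 2 := by
    intro n
    rw [abs_mul, abs_of_nonneg (by positivity : (0 : ℝ) ≤ 1 / (n : ℝ) ^ 2)]
    exact mul_le_of_le_one_right (by positivity) (Real.abs_cos_le_one _)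
  simp only [Function.comp_apply] at hH
  have k1 := sum_le_hasSum (range (H + 1))
    (fun n _ => by have := (abs_le.1 (hc n)).2; linarith) h1
  have k2 := sum_le_hasSum (range (H + 1))
    (fun n _ => by have := (abs_le.1 (hc n)).1; linarith) h2
  rw [Finset.sum_sub_distrib] at k1
  rw [Finset.sum_add_distrib] at k2
  rw [abs_le]
  constructor <;> linarith

private theorem B1_window (x η : ℝ) (h0 : 0 < η) (h1 : η ≤ 1) :
    1 / 2 - η / 2 + ((Int.fract (x + η) ^ 2 - Int.fract (x + η) + 1 / 6) -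
      (Int.fract x ^ 2 - Int.fract x + 1 / 6)) / (2 * η) ≤ Int.fract x := by
  set t := Int.fract x with ht
  have ht0 : 0 ≤ t := Int.fract_nonneg x
  have ht1 : t < 1 := Int.fract_lt_one x
  have hx : x + η = (t + η) + (⌊x⌋ : ℤ) := by
    have := Int.floor_add_fract x
    rw [ht]; linarith
  have key : (Int.fract (x + η) ^ 2 - Int.fract (x + η) + 1 / 6) -
      (t ^ 2 - t + 1 / 6) ≤ (2 * t + η - 1) * η := by
    rw [hx, Int.fract_add_intCast]
    by_cases h : t + η < 1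
    · rw [Int.fract_eq_self.2 ⟨by linarith, h⟩]
      exact le_of_eq (by ring)
    · have h' : Int.fract (t + η) = t + η - 1 := by
        rw [Int.fract_eq_iff]
        refine ⟨by linarith, by linarith, 1, by push_cast; ring⟩
      rw [h']
      nlinarith
  have : ((Int.fract (x + η) ^ 2 - Int.fract (x + η) + 1 / 6) -
      (t ^ 2 - t + 1 / 6)) / (2 * η) ≤ (2 * t + η - 1) / 2 := by
    rw [div_le_iff₀ (by linarith)]
    linarith
  linarith

private theorem B1_re (η x : ℝ) (n : ℕ) :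
    Real.cos (2 * Real.pi * n * (x + η)) - Real.cos (2 * Real.pi * n * x) =
      ((Complex.exp (2 * Real.pi * Complex.I * (n * η : ℝ)) - 1) *
        Complex.exp (2 * Real.pi * Complex.I * (n * x : ℝ))).re := by
  rw [sub_mul, one_mul, ← Complex.exp_add, Complex.sub_re]
  have e : ∀ y : ℝ, (Complex.exp ((y : ℂ) * Complex.I)).re = Real.cos y :=
    Complex.exp_ofReal_mul_I_re
  have a1 : 2 * (Real.pi : ℂ) * Complex.I * ((n * η : ℝ) : ℂ) +
      2 * (Real.pi : ℂ) * Complex.I * ((n * x : ℝ) : ℂ) =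
      ((2 * Real.pi * n * (x + η) : ℝ) : ℂ) * Complex.I := by
    push_cast; ring
  have a2 : 2 * (Real.pi : ℂ) * Complex.I * ((n * x : ℝ) : ℂ) =
      ((2 * Real.pi * n * x : ℝ) : ℂ) * Complex.I := by
    push_cast; ring
  rw [a1, a2, e, e]

theorem minorant (δ : ℝ) (hδ : 0 < δ) :
    ∃ (H : ℕ) (c0 : ℝ) (c : ℕ → ℂ), 1 / 2 - δ ≤ c0 ∧ ∀ x : ℝ,
      c0 + (∑ h ∈ Icc 1 H, c h * Complex.exp (2 * Real.pi * Complex.I * (h * x : ℝ))).re ≤
        Int.fract x := by
  set η : ℝ := min δ 1 with hη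
  have hη0 : 0 < η := lt_min hδ one_pos
  have hη1 : η ≤ 1 := min_le_right _ _
  have hηδ : η ≤ δ := min_le_left _ _
  have hpi : 0 < Real.pi ^ 2 := by positivity
  obtain ⟨H, hH⟩ := B1_trunc (η * δ / 2 * Real.pi ^ 2) (by positivity)
  refine ⟨H, 1 / 2 - η / 2 - δ / 2, fun n =>
    ((1 / (n : ℝ) ^ 2 / (2 * η * Real.pi ^ 2) : ℝ) : ℂ) *
      (Complex.exp (2 * Real.pi * Complex.I * (n * η : ℝ)) - 1), by linarith, fun x => ?_⟩
  have hw := B1_window x η hη0 hη1
  have hA := (abs_le.1 (hH (x + η))).1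
  have hB := (abs_le.1 (hH x)).2
  -- the real part of the trigonometric polynomial
  have hsum : (∑ h ∈ Icc 1 H,
      (((1 / (h : ℝ) ^ 2 / (2 * η * Real.pi ^ 2) : ℝ) : ℂ) *
        (Complex.exp (2 * Real.pi * Complex.I * (h * η : ℝ)) - 1)) *
          Complex.exp (2 * Real.pi * Complex.I * (h * x : ℝ))).re =
      (∑ n ∈ range (H + 1), 1 / (n : ℝ) ^ 2 * Real.cos (2 * Real.pi * n * (x + η)) -
        ∑ n ∈ range (H + 1), 1 / (n : ℝ) ^ 2 * Real.cos (2 * Real.pi * n * x)) /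
          (2 * η * Real.pi ^ 2) := by
    rw [← Finset.sum_sub_distrib, Finset.sum_div, Complex.re_sum]
    have e1 : ∀ h : ℕ, ((((1 / (h : ℝ) ^ 2 / (2 * η * Real.pi ^ 2) : ℝ) : ℂ) *
        (Complex.exp (2 * Real.pi * Complex.I * (h * η : ℝ)) - 1)) *
          Complex.exp (2 * Real.pi * Complex.I * (h * x : ℝ))).re =
        (1 / (h : ℝ) ^ 2 * Real.cos (2 * Real.pi * h * (x + η)) -
          1 / (h : ℝ) ^ 2 * Real.cos (2 * Real.pi * h * x)) / (2 * η * Real.pi ^ 2) := by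
      intro h
      rw [mul_assoc, Complex.re_ofReal_mul, ← B1_re]
      ring
    rw [Finset.sum_congr rfl (fun h _ => e1 h)]
    apply Finset.sum_subset
    · intro n hn
      rw [Finset.mem_Icc] at hn
      exact Finset.mem_range.2 (by omega)
    · intro n hn hn'
      have h0 : n = 0 := by
        by_contra h
        exact hn' (Finset.mem_Icc.2 ⟨by omega, by have := Finset.mem_range.1 hn; omega⟩)
      subst h0
      simp
  rw [hsum]
  set P := ∑ n ∈ range (H + 1), 1 / (n : ℝ) ^ 2 * Real.cos (2 * Real.pi * n * (x + η))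
  set Q := ∑ n ∈ range (H + 1), 1 / (n : ℝ) ^ 2 * Real.cos (2 * Real.pi * n * x)
  set u := Int.fract (x + η) ^ 2 - Int.fract (x + η) + 1 / 6
  set v := Int.fract x ^ 2 - Int.fract x + 1 / 6
  have hPQ : (P - Q) / (2 * η * Real.pi ^ 2) ≤ (u - v) / (2 * η) + δ / 2 := by
    rw [div_le_iff₀ (by positivity)]
    have : ((u - v) / (2 * η) + δ / 2) * (2 * η * Real.pi ^ 2) =
        Real.pi ^ 2 * u - Real.pi ^ 2 * v + η * δ * Real.pi ^ 2 := by
      field_simp
    rw [this]
    linarith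
  linarith

end Pool.Agent.Helper21.FC
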