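import Pool.Agent.Helper21.FC.Defs

/-!
MP_0aa406_nt, project FC (helper21): a bound for a geometric sum.
-/

set_option autoImplicit false

namespace Pool.Agent.Helper21.FC

open Finset

private theorem B2_sin_lower {x : ℝ} (hx0 : 0 < x) (hx1 : x ≤ Real.pi / 4) :
    (4 / 5) * x ≤ Real.sin x := by
  have hpi := Real.pi_lt_d2
  have h1 : x ≤ 1 := by linarith
  have h := Real.sin_gt_sub_cube hx0
  have h2 : x ≤ 0.7875 := by linarith
  have h3 : x ^ 2 ≤ 0.7875 ^ 2 := pow_le_pow_left₀ hx0.le h2 2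
  nlinarith [mul_le_mul_of_nonneg_left h3 hx0.le]

private theorem B2_norm_sin (ξ : ℝ) :
    |Real.sin (Real.pi * ξ)| = Real.sin (Real.pi * nrm ξ) := by
  have h0 : Real.pi * ξ = Real.pi * (ξ - (round ξ : ℝ)) + (round ξ : ℤ) * Real.pi := by ring
  rw [h0]
  have h1 : |Real.sin (Real.pi * (ξ - (round ξ : ℝ)) + (round ξ : ℤ) * Real.pi)|
      = |Real.sin (Real.pi * (ξ - (round ξ : ℝ)))| := by
    rw [Real.sin_add_int_mul_pi, abs_mul, abs_zpow]
    simp
  rw [h1]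
  unfold nrm
  have hr : |ξ - (round ξ : ℝ)| ≤ 1 / 2 := abs_sub_round ξ
  set y := ξ - (round ξ : ℝ) with hy
  have hpi := Real.pi_pos
  rcases le_total 0 y with h | h
  · rw [abs_of_nonneg h] at hr ⊢
    rw [abs_of_nonneg]
    apply Real.sin_nonneg_of_nonneg_of_le_pi
    · positivity
    · nlinarith
  · rw [abs_of_nonpos h] at hr ⊢
    have : Real.sin (Real.pi * y) = - Real.sin (Real.pi * -y) := by
      rw [mul_neg, Real.sin_neg]; ring
    rw [this, abs_neg, abs_of_nonneg]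
    apply Real.sin_nonneg_of_nonneg_of_le_pi
    · nlinarith
    · nlinarith

theorem kernel {p : ℕ} (hp : 2 ≤ p) (ξ : ℝ) (hξ : 1 / (2 * (p : ℝ)) ≤ nrm ξ) :
    ‖∑ c ∈ range p, Complex.exp (2 * Real.pi * Complex.I * (c * ξ : ℝ))‖ ≤ 4 / 5 * p := by
  have hp' : (2 : ℝ) ≤ p := by exact_mod_cast hp
  have hp0 : (0 : ℝ) < p := by linarith
  have hpi := Real.pi_pos
  set z : ℂ := Complex.exp (Complex.I * ((2 * Real.pi * ξ : ℝ) : ℂ)) with hz
  have hterm : ∀ c ∈ range p, Complex.exp (2 * Real.pi * Complex.I * (c * ξ : ℝ)) = z ^ c := by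
    intro c _
    rw [hz, ← Complex.exp_nat_mul]
    congr 1
    push_cast
    ring
  rw [sum_congr rfl hterm]
  have hgeo : (∑ c ∈ range p, z ^ c) * (z - 1) = z ^ p - 1 := geom_sum_mul z p
  have hz1 : ‖z‖ = 1 := by
    rw [hz, mul_comm]
    exact Complex.norm_exp_ofReal_mul_I _
  have hnum : ‖z ^ p - 1‖ ≤ 2 := by
    calc ‖z ^ p - 1‖ ≤ ‖z ^ p‖ + ‖(1 : ℂ)‖ := norm_sub_le _ _
      _ = 2 := by rw [norm_pow, hz1]; norm_num
  have hden : ‖z - 1‖ = 2 * |Real.sin (Real.pi * ξ)| := by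
    rw [hz, Complex.norm_exp_I_mul_ofReal_sub_one]
    have : 2 * Real.pi * ξ / 2 = Real.pi * ξ := by ring
    rw [this, norm_mul, Real.norm_eq_abs, Real.norm_eq_abs]
    norm_num
  have hnr : nrm ξ ≤ 1 / 2 := abs_sub_round ξ
  have hsin : 5 / (4 * (p : ℝ)) ≤ |Real.sin (Real.pi * ξ)| := by
    rw [B2_norm_sin]
    have h1 : Real.pi * (1 / (2 * (p : ℝ))) ≤ Real.pi * nrm ξ :=
      mul_le_mul_of_nonneg_left hξ hpi.le
    have h2 : Real.sin (Real.pi * (1 / (2 * (p : ℝ)))) ≤ Real.sin (Real.pi * nrm ξ) := by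
      apply Real.sin_le_sin_of_le_of_le_pi_div_two
      · have : 0 < Real.pi * (1 / (2 * (p : ℝ))) := by positivity
        linarith
      · nlinarith
      · exact h1
    have h3 : (4 / 5) * (Real.pi * (1 / (2 * (p : ℝ)))) ≤
        Real.sin (Real.pi * (1 / (2 * (p : ℝ)))) := by
      apply B2_sin_lower
      · positivity
      · have : 1 / (2 * (p : ℝ)) ≤ 1 / 4 := by
          rw [div_le_div_iff₀ (by positivity) (by norm_num)]
          linarith
        nlinarith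
    have h4 : 5 / (4 * (p : ℝ)) ≤ (4 / 5) * (Real.pi * (1 / (2 * (p : ℝ)))) := by
      rw [div_le_iff₀ (by positivity)]
      have : (4 / 5) * (Real.pi * (1 / (2 * (p : ℝ)))) * (4 * (p : ℝ)) = 8 / 5 * Real.pi := by
        field_simp
        ring
      rw [this]
      linarith [Real.pi_gt_d2]
    linarith
  have hdpos : 0 < ‖z - 1‖ := by
    rw [hden]
    have : 0 < 5 / (4 * (p : ℝ)) := by positivity
    linarith
  have hprod : ‖∑ c ∈ range p, z ^ c‖ * ‖z - 1‖ ≤ 2 := by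
    rw [← norm_mul, hgeo]
    exact hnum
  have hd : 5 / (2 * (p : ℝ)) ≤ ‖z - 1‖ := by
    rw [hden]
    have : 5 / (2 * (p : ℝ)) = 2 * (5 / (4 * (p : ℝ))) := by
      field_simp
      ring
    rw [this]
    linarith
  have hN : 0 ≤ ‖∑ c ∈ range p, z ^ c‖ := norm_nonneg _
  have h5 : ‖∑ c ∈ range p, z ^ c‖ * (5 / (2 * (p : ℝ))) ≤ 2 :=
    (mul_le_mul_of_nonneg_left hd hN).trans hprod
  have h6 : ‖∑ c ∈ range p, z ^ c‖ * (5 / (2 * (p : ℝ))) * (2 * p / 5) =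
      ‖∑ c ∈ range p, z ^ c‖ := by
    field_simp
  calc ‖∑ c ∈ range p, z ^ c‖ = ‖∑ c ∈ range p, z ^ c‖ * (5 / (2 * (p : ℝ))) * (2 * p / 5) :=
        h6.symm
    _ ≤ 2 * (2 * p / 5) := mul_le_mul_of_nonneg_right h5 (by positivity)
    _ = 4 / 5 * p := by ring

end Pool.Agent.Helper21.FC
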