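import Pool.Agent.Helper21.FC.Defs

/-!
MP_0aa406_nt, project FC (helper21): random digits.
-/

set_option autoImplicit false

namespace Pool.Agent.Helper21.FC

open Finset

/-- law of one digit: `0` with probability `1 - θ`, uniform on `0, …, p - 1` with probability `θ` -/
noncomputable def om1 (p : ℕ) (θ : ℝ) (c : Fin p) : ℝ :=
  θ / p + if (c : ℕ) = 0 then 1 - θ else 0

/-- product law -/
noncomputable def om {p n : ℕ} (θ : ℝ) (c : Fin n → Fin p) : ℝ := ∏ j, om1 p θ (c j)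

/-- the integer with digits `c` -/
def dgt {p n : ℕ} (c : Fin n → Fin p) : ℤ := ∑ j : Fin n, ((c j : ℕ) : ℤ) * (p : ℤ) ^ (j : ℕ)

/-- number of `j` with `‖m p ^ j / (p ^ n - 1)‖ ≥ 1 / (2 p)` -/
noncomputable def cnt (p n : ℕ) (m : ℤ) : ℕ :=
  by classical exact
    ((range n).filter (fun j : ℕ => 1 / (2 * (p : ℝ)) ≤
      nrm ((m : ℝ) * (p : ℝ) ^ j / ((p : ℝ) ^ n - 1)))).card

end Pool.Agent.Helper21.FC
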