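import Pool.Agent.Helper21.FC.A1
import Pool.Agent.Helper21.FC.B3

/-!
MP_0aa406_nt, project FC (helper21): random digits, total mass and mean weight.
-/

set_option autoImplicit false

namespace Pool.Agent.Helper21.FC

open Finset

theorem B3a_om1_nonneg {p : ℕ} {θ : ℝ} (h0 : 0 ≤ θ) (h1 : θ ≤ 1) (c : Fin p) : 0 ≤ om1 p θ c := by
  unfold om1
  have h2 : 0 ≤ θ / p := by positivity
  split_ifs
  · linarith
  · linarith

theorem om_nonneg {p n : ℕ} {θ : ℝ} (h0 : 0 ≤ θ) (h1 : θ ≤ 1) (c : Fin n → Fin p) :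
    0 ≤ om θ c :=
  Finset.prod_nonneg fun _ _ => B3a_om1_nonneg h0 h1 _

theorem B3a_sum_om1 {p : ℕ} (hp : 2 ≤ p) (θ : ℝ) : ∑ x : Fin p, om1 p θ x = 1 := by
  unfold om1
  have hp0 : (p : ℝ) ≠ 0 := by
    have : p ≠ 0 := by omega
    exact_mod_cast this
  rw [Finset.sum_add_distrib, Finset.sum_const, Finset.card_univ, Fintype.card_fin, nsmul_eq_mul,
    mul_div_cancel₀ _ hp0]
  have h1 : ∑ x : Fin p, (if (x : ℕ) = 0 then 1 - θ else 0) = 1 - θ := by
    rw [Finset.sum_eq_single (⟨0, by omega⟩ : Fin p)]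
    · simp
    · intro b _ hb
      rw [if_neg]
      intro h
      exact hb (Fin.ext h)
    · intro h
      exact absurd (Finset.mem_univ _) h
  rw [h1]
  ring

theorem B3a_sum_om1_mul {p : ℕ} (hp : 2 ≤ p) (θ : ℝ) :
    ∑ x : Fin p, om1 p θ x * ((x : ℕ) : ℝ) = θ * ((p : ℝ) - 1) / 2 := by
  have hp0 : (p : ℝ) ≠ 0 := by
    have : p ≠ 0 := by omega
    exact_mod_cast this
  have h1 : ∀ x : Fin p, om1 p θ x * ((x : ℕ) : ℝ) = θ / p * ((x : ℕ) : ℝ) := by
    intro x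
    unfold om1
    by_cases h : (x : ℕ) = 0
    · rw [if_pos h, h]; simp
    · rw [if_neg h, add_zero]
  rw [Finset.sum_congr rfl fun x _ => h1 x, ← Finset.mul_sum]
  have h2 : ∑ x : Fin p, ((x : ℕ) : ℝ) = (p : ℝ) * ((p : ℝ) - 1) / 2 := by
    rw [Fin.sum_univ_eq_sum_range (fun i => ((i : ℕ) : ℝ)) p]
    have h3 : ((∑ i ∈ range p, i : ℕ) : ℝ) * 2 = (p : ℝ) * ((p : ℝ) - 1) := by
      have h4 := Finset.sum_range_id_mul_two p
      have h5 : ((p - 1 : ℕ) : ℝ) = (p : ℝ) - 1 := by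
        rw [Nat.cast_sub (by omega)]; simp
      rw [← h5]
      exact_mod_cast h4
    push_cast at h3
    linarith
  rw [h2]
  field_simp

theorem B3a_prod {p n : ℕ} (f : Fin n → Fin p → ℝ) :
    ∑ c : Fin n → Fin p, ∏ j, f j (c j) = ∏ j, ∑ x : Fin p, f j x := by
  rw [Finset.prod_univ_sum, Fintype.piFinset_univ]

theorem sum_om {p n : ℕ} (hp : 2 ≤ p) (θ : ℝ) : ∑ c : Fin n → Fin p, om θ c = 1 := by
  unfold om
  rw [B3a_prod (fun _ x => om1 p θ x)]
  rw [Finset.prod_congr rfl fun _ _ => B3a_sum_om1 hp θ]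
  exact Finset.prod_const_one

theorem B3a_marg {p n : ℕ} (hp : 2 ≤ p) (θ : ℝ) (j : Fin n) :
    ∑ c : Fin n → Fin p, om θ c * (((c j : Fin p) : ℕ) : ℝ) = θ * ((p : ℝ) - 1) / 2 := by
  have h1 : ∀ c : Fin n → Fin p, om θ c * (((c j : Fin p) : ℕ) : ℝ)
      = ∏ i, (om1 p θ (c i) * if i = j then (((c i : Fin p) : ℕ) : ℝ) else 1) := by
    intro c
    rw [Finset.prod_mul_distrib, Finset.prod_ite_eq' Finset.univ j, if_pos (Finset.mem_univ _)]
    rfl
  rw [Finset.sum_congr rfl fun c _ => h1 c,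
    B3a_prod (fun i x => om1 p θ x * if i = j then ((x : ℕ) : ℝ) else 1)]
  have h2 : ∀ i : Fin n, ∑ x : Fin p, (om1 p θ x * if i = j then ((x : ℕ) : ℝ) else 1)
      = if i = j then θ * ((p : ℝ) - 1) / 2 else 1 := by
    intro i
    by_cases h : i = j
    · simp only [if_pos h]
      exact B3a_sum_om1_mul hp θ
    · simp only [if_neg h, mul_one]
      exact B3a_sum_om1 hp θ
  rw [Finset.prod_congr rfl fun i _ => h2 i, Finset.prod_ite_eq' Finset.univ j,
    if_pos (Finset.mem_univ _)]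

theorem B3a_W_sum {p n : ℕ} {ι : Type} (hp : 2 ≤ p) (hn : 1 ≤ n) (s : Finset ι) (f : ι → ℤ) :
    W p n (∑ j ∈ s, f j) ≤ ∑ j ∈ s, W p n (f j) := by
  classical
  induction s using Finset.induction_on with
  | empty =>
    rw [Finset.sum_empty, Finset.sum_empty]
    exact le_of_eq (W_zero hp hn (dvd_zero _))
  | insert a s ha ih =>
    rw [Finset.sum_insert ha, Finset.sum_insert ha]
    refine (W_add_le p n _ _).trans ?_
    linarith

theorem sum_om_W {p n : ℕ} (hp : 2 ≤ p) (hn : 1 ≤ n) {θ : ℝ} (h0 : 0 ≤ θ) (h1 : θ ≤ 1) :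
    ∑ c : Fin n → Fin p, om θ c * W p n (dgt c) ≤ θ * n / 2 := by
  have hp1 : (0 : ℝ) < (p : ℝ) - 1 := by
    have : (2 : ℝ) ≤ p := by exact_mod_cast hp
    linarith
  have hW : ∀ c : Fin n → Fin p, W p n (dgt c)
      ≤ ∑ j : Fin n, (((c j : Fin p) : ℕ) : ℝ) / ((p : ℝ) - 1) := by
    intro c
    unfold dgt
    refine (B3a_W_sum hp hn Finset.univ _).trans ?_
    apply Finset.sum_le_sum
    intro j _
    rw [mul_comm, W_pow_mul hp hn]
    exact W_le_self hp hn _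
  have h2 : ∑ c : Fin n → Fin p, om θ c * W p n (dgt c)
      ≤ ∑ c : Fin n → Fin p, ∑ j : Fin n,
        (om θ c * (((c j : Fin p) : ℕ) : ℝ)) / ((p : ℝ) - 1) := by
    apply Finset.sum_le_sum
    intro c _
    refine (mul_le_mul_of_nonneg_left (hW c) (om_nonneg h0 h1 c)).trans (le_of_eq ?_)
    rw [Finset.mul_sum]
    apply Finset.sum_congr rfl
    intro j _
    ring
  refine h2.trans (le_of_eq ?_)
  rw [Finset.sum_comm]
  have h3 : ∀ j : Fin n, ∑ c : Fin n → Fin p,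
      (om θ c * (((c j : Fin p) : ℕ) : ℝ)) / ((p : ℝ) - 1) = θ / 2 := by
    intro j
    rw [← Finset.sum_div, B3a_marg hp θ j]
    field_simp
  rw [Finset.sum_congr rfl fun j _ => h3 j, Finset.sum_const, Finset.card_univ, Fintype.card_fin,
    nsmul_eq_mul]
  ring

end Pool.Agent.Helper21.FC
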