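import Pool.Agent.Helper21.FC.B2
import Pool.Agent.Helper21.FC.B3

/-!
MP_0aa406_nt, project FC (helper21): random digits, exponential moments.
-/

set_option autoImplicit false

namespace Pool.Agent.Helper21.FC

open Finset

theorem B3b_nrm_add (x : ℝ) (k : ℤ) : nrm (x + k) = nrm x := by
  unfold nrm
  rw [round_add_intCast]
  push_cast
  congr 1
  ring

theorem B3b_pos {p n : ℕ} (hp : 2 ≤ p) (hn : 1 ≤ n) : (0 : ℝ) < (p : ℝ) ^ n - 1 := by
  have h : (1 : ℝ) < p := by exact_mod_cast hp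
  have := one_lt_pow₀ h (by omega : n ≠ 0)
  linarith

theorem B3b_period {p n : ℕ} (hp : 2 ≤ p) (hn : 1 ≤ n) (m : ℤ) (y : ℕ) :
    nrm ((m : ℝ) * (p : ℝ) ^ (y + n) / ((p : ℝ) ^ n - 1))
      = nrm ((m : ℝ) * (p : ℝ) ^ y / ((p : ℝ) ^ n - 1)) := by
  have h := (B3b_pos hp hn).ne'
  have e : (m : ℝ) * (p : ℝ) ^ (y + n) / ((p : ℝ) ^ n - 1)
      = (m : ℝ) * (p : ℝ) ^ y / ((p : ℝ) ^ n - 1) + ((m * (p : ℤ) ^ y : ℤ) : ℝ) := by
    push_cast
    rw [pow_add]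
    field_simp
    ring
  rw [e, B3b_nrm_add]

theorem B3b_shift_one {p n : ℕ} (hp : 2 ≤ p) (hn : 1 ≤ n) (m : ℤ) :
    cnt p n (m * (p : ℤ)) = cnt p n m := by
  classical
  unfold cnt
  rw [card_filter, card_filter]
  set f : ℕ → ℕ := fun j => if 1 / (2 * (p : ℝ)) ≤
      nrm ((m : ℝ) * (p : ℝ) ^ j / ((p : ℝ) ^ n - 1)) then 1 else 0 with hf
  have h0 : f n = f 0 := by
    simp only [hf]
    have := B3b_period hp hn m 0
    rw [zero_add] at this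
    rw [this]
  have h1 : ∑ j ∈ range n, f (j + 1) = ∑ j ∈ range n, f j := by
    have h2 := sum_range_succ f n
    have h3 := sum_range_succ' f n
    omega
  rw [← h1]
  apply sum_congr rfl
  intro j _
  simp only [hf]
  have e : ((m * (p : ℤ) : ℤ) : ℝ) * (p : ℝ) ^ j / ((p : ℝ) ^ n - 1)
      = (m : ℝ) * (p : ℝ) ^ (j + 1) / ((p : ℝ) ^ n - 1) := by
    push_cast
    rw [pow_succ]
    ring
  rw [e]

theorem cnt_shift {p n : ℕ} (hp : 2 ≤ p) (hn : 1 ≤ n) (m : ℤ) (x : ℕ) :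
    cnt p n (m * (p : ℤ) ^ x) = cnt p n m := by
  induction x with
  | zero => rw [pow_zero, mul_one]
  | succ x ih => rw [pow_succ, ← mul_assoc, B3b_shift_one hp hn, ih]

/-- one factor -/
theorem B3b_factor {p : ℕ} (hp : 2 ≤ p) {θ : ℝ} (h0 : 0 ≤ θ) (h1 : θ ≤ 1) (ξ : ℝ) :
    ‖∑ c : Fin p, ((om1 p θ c : ℝ) : ℂ) *
      Complex.exp (2 * Real.pi * Complex.I * (((c : ℕ) : ℝ) * ξ : ℝ))‖ ≤
      if 1 / (2 * (p : ℝ)) ≤ nrm ξ then 1 - θ / 5 else 1 := by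
  have hp0 : (0 : ℝ) < p := by
    have : 0 < p := by omega
    exact_mod_cast this
  set E : ℕ → ℂ := fun c => Complex.exp (2 * Real.pi * Complex.I * ((c : ℝ) * ξ : ℝ)) with hE
  have e1 : ∑ c : Fin p, ((om1 p θ c : ℝ) : ℂ) *
      Complex.exp (2 * Real.pi * Complex.I * (((c : ℕ) : ℝ) * ξ : ℝ))
      = ((θ / p : ℝ) : ℂ) * ∑ c ∈ range p, E c + ((1 - θ : ℝ) : ℂ) := by
    rw [← Fin.sum_univ_eq_sum_range, mul_sum]
    have e2 : ((1 - θ : ℝ) : ℂ) = ∑ c : Fin p, if (c : ℕ) = 0 then ((1 - θ : ℝ) : ℂ) * E c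
        else 0 := by
      rw [Fin.sum_univ_eq_sum_range (fun c : ℕ => if c = 0 then ((1 - θ : ℝ) : ℂ) * E c else 0) p,
        sum_ite_eq' (range p) 0 (fun c => ((1 - θ : ℝ) : ℂ) * E c), if_pos (mem_range.mpr (by omega))]
      simp [hE]
    rw [e2, ← sum_add_distrib]
    apply sum_congr rfl
    intro c _
    have hE2 : Complex.exp (2 * Real.pi * Complex.I * ((((c : ℕ) : ℝ) * ξ : ℝ) : ℂ)) = E c := rfl
    rw [hE2]
    unfold om1
    by_cases hc : (c : ℕ) = 0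
    · rw [if_pos hc, if_pos hc]
      push_cast
      ring
    · rw [if_neg hc, if_neg hc]
      push_cast
      ring
  rw [e1]
  have hnE : ∀ c, ‖E c‖ = 1 := by
    intro c
    simp only [hE]
    have : (2 * Real.pi * Complex.I * (((c : ℝ) * ξ : ℝ) : ℂ))
        = ((2 * Real.pi * ((c : ℝ) * ξ) : ℝ) : ℂ) * Complex.I := by
      push_cast
      ring
    rw [this, Complex.norm_exp_ofReal_mul_I]
  have hS : ‖∑ c ∈ range p, E c‖ ≤ p := by
    refine (norm_sum_le _ _).trans ?_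
    simp only [hnE, sum_const, card_range, nsmul_eq_mul, mul_one, le_refl]
  have htri : ‖((θ / p : ℝ) : ℂ) * ∑ c ∈ range p, E c + ((1 - θ : ℝ) : ℂ)‖
      ≤ θ / p * ‖∑ c ∈ range p, E c‖ + (1 - θ) := by
    refine (norm_add_le _ _).trans ?_
    rw [norm_mul, Complex.norm_real, Complex.norm_real, Real.norm_eq_abs, Real.norm_eq_abs,
      abs_of_nonneg (by positivity : 0 ≤ θ / p), abs_of_nonneg (by linarith : 0 ≤ 1 - θ)]
  have hθp : 0 ≤ θ / p := by positivity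
  by_cases hξ : 1 / (2 * (p : ℝ)) ≤ nrm ξ
  · rw [if_pos hξ]
    have hk := kernel hp ξ hξ
    have hk2 : ‖∑ c ∈ range p, E c‖ ≤ 4 / 5 * p := hk
    have h2 := mul_le_mul_of_nonneg_left hk2 hθp
    have h3 : θ / p * (4 / 5 * p) = 4 / 5 * θ := by field_simp
    linarith
  · rw [if_neg hξ]
    have h2 := mul_le_mul_of_nonneg_left hS hθp
    have h3 : θ / p * (p : ℝ) = θ := by field_simp
    linarith

theorem sum_om_exp {p n : ℕ} (hp : 2 ≤ p) (hn : 1 ≤ n) {θ : ℝ} (h0 : 0 ≤ θ) (h1 : θ ≤ 1)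
    (m : ℤ) :
    ‖∑ c : Fin n → Fin p, ((om θ c : ℝ) : ℂ) *
      Complex.exp (2 * Real.pi * Complex.I * (((m * dgt c : ℤ) : ℝ) / ((p : ℝ) ^ n - 1) : ℝ))‖ ≤
      (1 - θ / 5) ^ cnt p n m := by
  classical
  set ξ : ℕ → ℝ := fun j => (m : ℝ) * (p : ℝ) ^ j / ((p : ℝ) ^ n - 1) with hξ
  have hN := (B3b_pos hp hn).ne'
  have e1 : ∀ c : Fin n → Fin p, ((om θ c : ℝ) : ℂ) *
      Complex.exp (2 * Real.pi * Complex.I * (((m * dgt c : ℤ) : ℝ) / ((p : ℝ) ^ n - 1) : ℝ))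
      = ∏ j : Fin n, (((om1 p θ (c j) : ℝ) : ℂ) *
        Complex.exp (2 * Real.pi * Complex.I * ((((c j : Fin p) : ℕ) : ℝ) * ξ j : ℝ))) := by
    intro c
    rw [prod_mul_distrib, ← Complex.exp_sum]
    unfold om
    rw [Complex.ofReal_prod]
    congr 2
    rw [← mul_sum, ← Complex.ofReal_sum]
    congr 2
    unfold dgt
    simp only [hξ]
    push_cast
    rw [mul_sum, sum_div]
    apply sum_congr rfl
    intro j _
    ring
  rw [sum_congr rfl (fun c _ => e1 c), ← Fintype.piFinset_univ,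
    ← prod_univ_sum (fun _ : Fin n => (univ : Finset (Fin p))) (fun j c =>
      ((om1 p θ c : ℝ) : ℂ) * Complex.exp (2 * Real.pi * Complex.I * (((c : ℕ) : ℝ) * ξ j : ℝ))),
    norm_prod]
  have e2 : ∏ j : Fin n, ‖∑ c : Fin p, ((om1 p θ c : ℝ) : ℂ) *
      Complex.exp (2 * Real.pi * Complex.I * (((c : ℕ) : ℝ) * ξ j : ℝ))‖
      ≤ ∏ j : Fin n, (if 1 / (2 * (p : ℝ)) ≤ nrm (ξ j) then 1 - θ / 5 else 1) :=
    prod_le_prod (fun j _ => norm_nonneg _) (fun j _ => B3b_factor hp h0 h1 (ξ j))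
  refine e2.trans (le_of_eq ?_)
  rw [Fin.prod_univ_eq_prod_range (fun j : ℕ => if 1 / (2 * (p : ℝ)) ≤ nrm (ξ j)
    then 1 - θ / 5 else 1) n, prod_ite, prod_const, prod_const_one, mul_one]
  unfold cnt
  simp only [hξ]

end Pool.Agent.Helper21.FC
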