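import Pool.Agent.Helper21.FC.A1
import Pool.Agent.Helper21.FC.B1
import Pool.Agent.Helper21.FC.B3a
import Pool.Agent.Helper21.FC.B3b

/-!
MP_0aa406_nt, project FC (helper21): if no multiple `h d`, `h ≤ H`, is close to `0` along the powers
of `p`, then random digits give a gain.
-/

set_option autoImplicit false

namespace Pool.Agent.Helper21.FC

open Finset

/-- lower bound of the weighted sum of one fractional part -/
private theorem B3c_one {p n : ℕ} (hp : 2 ≤ p) (hn : 1 ≤ n) {θ : ℝ} (h0 : 0 ≤ θ) (h1 : θ ≤ 1)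
    (H K : ℕ) (c0 : ℝ) (c : ℕ → ℂ)
    (hmin : ∀ x : ℝ, c0 + (∑ h ∈ Icc 1 H,
      c h * Complex.exp (2 * Real.pi * Complex.I * (h * x : ℝ))).re ≤ Int.fract x)
    (d : ℤ) (hc : ∀ h : ℕ, 1 ≤ h → h ≤ H → K + 1 ≤ cnt p n (h * d)) (x : ℕ) :
    c0 - (∑ h ∈ Icc 1 H, ‖c h‖) * (1 - θ / 5) ^ (K + 1) ≤
      ∑ a : Fin n → Fin p, om θ a *
        Int.fract ((p : ℝ) ^ x * ((d * dgt a : ℤ) : ℝ) / ((p : ℝ) ^ n - 1)) := by
  have hq0 : (0 : ℝ) ≤ 1 - θ / 5 := by linarith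
  have hq1 : (1 : ℝ) - θ / 5 ≤ 1 := by linarith
  -- the exponential sums
  have hexp : ∀ h ∈ Icc 1 H, ‖∑ a : Fin n → Fin p, ((om θ a : ℝ) : ℂ) *
      Complex.exp (2 * Real.pi * Complex.I *
        (h * ((p : ℝ) ^ x * ((d * dgt a : ℤ) : ℝ) / ((p : ℝ) ^ n - 1)) : ℝ))‖ ≤
      (1 - θ / 5) ^ (K + 1) := by
    intro h hh
    rw [Finset.mem_Icc] at hh
    have e1 := sum_om_exp hp hn h0 h1 ((h * d) * (p : ℤ) ^ x)
    rw [cnt_shift hp hn] at e1
    refine le_trans (le_of_eq ?_) (e1.trans (pow_le_pow_of_le_one hq0 hq1 (hc h hh.1 hh.2)))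
    congr 1
    refine Finset.sum_congr rfl fun a _ => ?_
    congr 2
    congr 1
    push_cast
    ring
  have hbound : ∑ a : Fin n → Fin p, om θ a * (c0 + (∑ h ∈ Icc 1 H,
      c h * Complex.exp (2 * Real.pi * Complex.I *
        (h * ((p : ℝ) ^ x * ((d * dgt a : ℤ) : ℝ) / ((p : ℝ) ^ n - 1)) : ℝ))).re) ≤
      ∑ a : Fin n → Fin p, om θ a *
        Int.fract ((p : ℝ) ^ x * ((d * dgt a : ℤ) : ℝ) / ((p : ℝ) ^ n - 1)) := by
    refine Finset.sum_le_sum fun a _ => ?_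
    exact mul_le_mul_of_nonneg_left (hmin _) (om_nonneg h0 h1 a)
  refine le_trans ?_ hbound
  have hsplit : ∑ a : Fin n → Fin p, om θ a * (c0 + (∑ h ∈ Icc 1 H,
      c h * Complex.exp (2 * Real.pi * Complex.I *
        (h * ((p : ℝ) ^ x * ((d * dgt a : ℤ) : ℝ) / ((p : ℝ) ^ n - 1)) : ℝ))).re) =
      c0 + (∑ h ∈ Icc 1 H, c h * ∑ a : Fin n → Fin p, ((om θ a : ℝ) : ℂ) *
        Complex.exp (2 * Real.pi * Complex.I *
          (h * ((p : ℝ) ^ x * ((d * dgt a : ℤ) : ℝ) / ((p : ℝ) ^ n - 1)) : ℝ))).re := by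
    have e1 : ∀ a : Fin n → Fin p, om θ a * (c0 + (∑ h ∈ Icc 1 H,
        c h * Complex.exp (2 * Real.pi * Complex.I *
          (h * ((p : ℝ) ^ x * ((d * dgt a : ℤ) : ℝ) / ((p : ℝ) ^ n - 1)) : ℝ))).re) =
        om θ a * c0 + (∑ h ∈ Icc 1 H, c h * (((om θ a : ℝ) : ℂ) *
          Complex.exp (2 * Real.pi * Complex.I *
            (h * ((p : ℝ) ^ x * ((d * dgt a : ℤ) : ℝ) / ((p : ℝ) ^ n - 1)) : ℝ)))).re := by
      intro a
      rw [mul_add, ← Complex.re_ofReal_mul, Finset.mul_sum]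
      congr 2
      refine Finset.sum_congr rfl fun h _ => ?_
      ring
    rw [Finset.sum_congr rfl (fun a _ => e1 a), Finset.sum_add_distrib, ← Finset.sum_mul,
      sum_om hp, one_mul, ← Complex.re_sum, Finset.sum_comm]
    congr 2
    refine Finset.sum_congr rfl fun h _ => ?_
    rw [Finset.mul_sum]
  rw [hsplit]
  have hn1 : ‖∑ h ∈ Icc 1 H, c h * ∑ a : Fin n → Fin p, ((om θ a : ℝ) : ℂ) *
      Complex.exp (2 * Real.pi * Complex.I *
        (h * ((p : ℝ) ^ x * ((d * dgt a : ℤ) : ℝ) / ((p : ℝ) ^ n - 1)) : ℝ))‖ ≤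
      (∑ h ∈ Icc 1 H, ‖c h‖) * (1 - θ / 5) ^ (K + 1) := by
    refine (norm_sum_le _ _).trans ?_
    rw [Finset.sum_mul]
    refine Finset.sum_le_sum fun h hh => ?_
    rw [norm_mul]
    exact mul_le_mul_of_nonneg_left (hexp h hh) (norm_nonneg _)
  have hn2 := (abs_le.1 ((Complex.abs_re_le_norm (∑ h ∈ Icc 1 H,
    c h * ∑ a : Fin n → Fin p, ((om θ a : ℝ) : ℂ) *
      Complex.exp (2 * Real.pi * Complex.I *
        (h * ((p : ℝ) ^ x * ((d * dgt a : ℤ) : ℝ) / ((p : ℝ) ^ n - 1)) : ℝ)))).trans hn1)).1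
  linarith

theorem small_multiple (ε : ℝ) (hε : 0 < ε) (hε2 : ε < 1 / 2) : ∃ H K : ℕ, ∀ p n : ℕ, 2 ≤ p →
    1 ≤ n → ∀ d : ℤ, ¬ Gain p n d ((1 / 2 - ε) * n) →
      ∃ h : ℕ, 1 ≤ h ∧ h ≤ H ∧ cnt p n (h * d) ≤ K := by
  obtain ⟨H, c0, c, hc0, hmin⟩ := minorant (ε / 4) (by linarith)
  obtain ⟨S, hS⟩ : ∃ S : ℝ, S = ∑ h ∈ Icc 1 H, ‖c h‖ := ⟨_, rfl⟩
  have hS0 : 0 ≤ S := by
    rw [hS]
    exact Finset.sum_nonneg fun _ _ => norm_nonneg _
  have hq0 : (0 : ℝ) ≤ 1 - (ε / 2) / 5 := by linarith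
  have hq1 : (1 : ℝ) - (ε / 2) / 5 < 1 := by linarith
  obtain ⟨K, hK⟩ := exists_pow_lt_of_lt_one (show 0 < ε / 4 / (S + 1) by positivity) hq1
  have hK2 : S * (1 - (ε / 2) / 5) ^ (K + 1) ≤ ε / 4 := by
    have h1 : (1 - (ε / 2) / 5) ^ (K + 1) ≤ ε / 4 / (S + 1) :=
      (pow_le_pow_of_le_one hq0 hq1.le (Nat.le_succ K)).trans hK.le
    have h2 : (1 - (ε / 2) / 5) ^ (K + 1) * (S + 1) ≤ ε / 4 := by
      rwa [le_div_iff₀ (by positivity)] at h1
    have h3 : 0 ≤ (1 - (ε / 2) / 5) ^ (K + 1) := pow_nonneg hq0 _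
    nlinarith
  refine ⟨H, K, fun p n hp hn d hg => ?_⟩
  by_contra hcon
  push Not at hcon
  apply hg
  have hn0 : (0 : ℝ) < n := by exact_mod_cast hn
  have hth0 : (0 : ℝ) ≤ ε / 2 := by linarith
  have hth1 : ε / 2 ≤ 1 := by linarith
  -- mean of `W (d a)`
  have hW1 : ((1 / 2 - ε / 2) * n : ℝ) ≤
      ∑ a : Fin n → Fin p, om (ε / 2) a * W p n (d * dgt a) := by
    have e1 : ∑ a : Fin n → Fin p, om (ε / 2) a * W p n (d * dgt a) =
        ∑ x ∈ range n, ∑ a : Fin n → Fin p, om (ε / 2) a *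
          Int.fract ((p : ℝ) ^ x * ((d * dgt a : ℤ) : ℝ) / ((p : ℝ) ^ n - 1)) := by
      rw [Finset.sum_comm]
      refine Finset.sum_congr rfl fun a _ => ?_
      unfold W
      rw [Finset.mul_sum]
    rw [e1]
    have e2 : ∀ x ∈ range n, (1 / 2 - ε / 2 : ℝ) ≤ ∑ a : Fin n → Fin p, om (ε / 2) a *
        Int.fract ((p : ℝ) ^ x * ((d * dgt a : ℤ) : ℝ) / ((p : ℝ) ^ n - 1)) := by
      intro x _
      have e3 := B3c_one hp hn hth0 hth1 H K c0 c hmin d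
        (fun h h1 h2 => Nat.succ_le_of_lt (hcon h h1 h2)) x
      rw [← hS] at e3
      linarith
    have e4 := Finset.sum_le_sum e2
    rw [Finset.sum_const, Finset.card_range, nsmul_eq_mul] at e4
    linarith
  have hW2 := sum_om_W (p := p) (n := n) hp hn hth0 hth1
  -- mean of the difference
  have hW3 : ∑ a : Fin n → Fin p, om (ε / 2) a * ((1 / 2 - 3 * ε / 4) * n) ≤
      ∑ a : Fin n → Fin p, om (ε / 2) a * (W p n (d * dgt a) - W p n (dgt a)) := by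
    rw [← Finset.sum_mul, sum_om hp, one_mul]
    have e1 : ∑ a : Fin n → Fin p, om (ε / 2) a * (W p n (d * dgt a) - W p n (dgt a)) =
        ∑ a : Fin n → Fin p, om (ε / 2) a * W p n (d * dgt a) -
          ∑ a : Fin n → Fin p, om (ε / 2) a * W p n (dgt a) := by
      rw [← Finset.sum_sub_distrib]
      exact Finset.sum_congr rfl fun a _ => by ring
    rw [e1]
    linarith
  have hex : ∃ a : Fin n → Fin p,
      (1 / 2 - 3 * ε / 4) * (n : ℝ) ≤ W p n (d * dgt a) - W p n (dgt a) := by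
    by_contra hno
    push Not at hno
    have hsum : ∑ a : Fin n → Fin p, om (ε / 2) a = 1 := sum_om hp _
    obtain ⟨a, -, ha⟩ : ∃ a ∈ (univ : Finset (Fin n → Fin p)), 0 < om (ε / 2) a := by
      by_contra hall
      push Not at hall
      have : ∑ a : Fin n → Fin p, om (ε / 2) a ≤ 0 := Finset.sum_nonpos hall
      linarith
    have hlt : ∑ a : Fin n → Fin p, om (ε / 2) a * (W p n (d * dgt a) - W p n (dgt a)) <
        ∑ a : Fin n → Fin p, om (ε / 2) a * ((1 / 2 - 3 * ε / 4) * n) := by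
      refine Finset.sum_lt_sum (fun b _ => ?_) ⟨a, Finset.mem_univ _, ?_⟩
      · exact mul_le_mul_of_nonneg_left (hno b).le (om_nonneg hth0 hth1 b)
      · exact mul_lt_mul_of_pos_left (hno a) ha
    linarith
  obtain ⟨a, ha⟩ := hex
  refine ⟨dgt a, fun hN => ?_, ?_⟩
  · rw [W_zero hp hn hN, W_zero hp hn (hN.mul_left d)] at ha
    have h1 : 0 < (1 / 2 - 3 * ε / 4) * (n : ℝ) := mul_pos (by linarith) hn0
    linarith
  · have h1 : (1 / 2 - ε) * (n : ℝ) ≤ (1 / 2 - 3 * ε / 4) * n :=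
      mul_le_mul_of_nonneg_right (by linarith) hn0.le
    linarith

end Pool.Agent.Helper21.FC
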