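import Pool.Agent.Helper21.FC.B3

/-!
MP_0aa406_nt, project FC (helper21): telescoping.
-/

set_option autoImplicit false

namespace Pool.Agent.Helper21.FC

open Finset

/-- the point `m p ^ j / (p ^ n - 1)` -/
private noncomputable def B4_x (p n : ℕ) (m : ℤ) (j : ℕ) : ℝ :=
  (m : ℝ) * (p : ℝ) ^ j / ((p : ℝ) ^ n - 1)

/-- the coefficient -/
private noncomputable def B4_u (p n : ℕ) (m : ℤ) (j : ℕ) : ℤ :=
  round (B4_x p n m (j + 1)) - (p : ℤ) * round (B4_x p n m j)

private theorem B4_succ (p n : ℕ) (m : ℤ) (j : ℕ) :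
    B4_x p n m (j + 1) = (p : ℝ) * B4_x p n m j := by
  unfold B4_x
  rw [pow_succ]
  ring

private theorem B4_abs {p n : ℕ} (hp : 2 ≤ p) (m : ℤ) (j : ℕ) : |B4_u p n m j| ≤ p := by
  have h1 := abs_le.1 (abs_sub_round (B4_x p n m (j + 1)))
  have h2 := abs_le.1 (abs_sub_round (B4_x p n m j))
  have hp' : (2 : ℝ) ≤ (p : ℝ) := by exact_mod_cast hp
  have h3 := B4_succ p n m j
  have key : |(B4_u p n m j : ℝ)| ≤ (p : ℝ) := by
    unfold B4_u
    push_cast
    rw [abs_le]
    constructor <;> nlinarith [h1.1, h1.2, h2.1, h2.2]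
  exact_mod_cast key

private theorem B4_zero {p n : ℕ} (hp : 2 ≤ p) (m : ℤ) (j : ℕ)
    (h : nrm (B4_x p n m j) < 1 / (2 * (p : ℝ))) : B4_u p n m j = 0 := by
  have hp0 : (0 : ℝ) < (p : ℝ) := by
    have : (2 : ℝ) ≤ (p : ℝ) := by exact_mod_cast hp
    linarith
  have h1 := abs_le.1 (abs_sub_round (B4_x p n m (j + 1)))
  have h3 := B4_succ p n m j
  unfold nrm at h
  rw [lt_div_iff₀ (by positivity)] at h
  have h4 : |(p : ℝ) * B4_x p n m j - (p : ℝ) * (round (B4_x p n m j) : ℝ)| < 1 / 2 := by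
    rw [← mul_sub, abs_mul, abs_of_pos hp0]
    linarith
  have h5 := abs_lt.1 h4
  have key : |(B4_u p n m j : ℝ)| < 1 := by
    unfold B4_u
    push_cast
    rw [abs_lt]
    constructor <;> linarith [h1.1, h1.2, h5.1, h5.2]
  have key' : |B4_u p n m j| < 1 := by exact_mod_cast key
  exact Int.abs_lt_one_iff.1 key'

private theorem B4_last {p n : ℕ} (hp : 2 ≤ p) (hn : 1 ≤ n) (m : ℤ) :
    round (B4_x p n m n) = m + round (B4_x p n m 0) := by
  have hN : (0 : ℝ) < (p : ℝ) ^ n - 1 := by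
    have h1 : (2 : ℝ) ≤ (p : ℝ) := by exact_mod_cast hp
    have h2 : (p : ℝ) ≤ (p : ℝ) ^ n := le_self_pow₀ (by linarith) (by omega)
    linarith
  have h : B4_x p n m n = B4_x p n m 0 + (m : ℤ) := by
    unfold B4_x
    rw [pow_zero]
    field_simp
    ring
  rw [h, round_add_intCast]
  ring

private theorem B4_sum {p n : ℕ} (hp : 2 ≤ p) (hn : 1 ≤ n) (m : ℤ) :
    ∑ j ∈ range n, B4_u p n m j * (p : ℤ) ^ (n - 1 - j) =
      m - NN p n * round (B4_x p n m 0) := by
  have h1 : ∀ j ∈ range n, B4_u p n m j * (p : ℤ) ^ (n - 1 - j) =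
      round (B4_x p n m (j + 1)) * (p : ℤ) ^ (n - (j + 1)) -
        round (B4_x p n m j) * (p : ℤ) ^ (n - j) := by
    intro j hj
    have hj' := mem_range.1 hj
    have e1 : n - (j + 1) = n - 1 - j := by omega
    have e2 : n - j = (n - 1 - j) + 1 := by omega
    rw [e1, e2, pow_succ]
    unfold B4_u
    ring
  rw [sum_congr rfl h1,
    Finset.sum_range_sub (fun j => round (B4_x p n m j) * (p : ℤ) ^ (n - j)) n]
  simp only [Nat.sub_self, pow_zero, mul_one, Nat.sub_zero]
  rw [B4_last hp hn]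
  unfold NN
  ring

/-- an integer `m` is congruent to a sparse sum of powers of `p` with coefficients at most `p`, the
number of terms is at most `cnt p n m` -/
theorem telescope {p n : ℕ} (hp : 2 ≤ p) (hn : 1 ≤ n) (m : ℤ) (K : ℕ) (hK : cnt p n m ≤ K) :
    ∃ (q : Fin K → ℕ) (u : Fin K → ℤ), (∀ i, q i < n) ∧ (∀ i, |u i| ≤ p) ∧
      NN p n ∣ m - ∑ i, u i * (p : ℤ) ^ q i := by
  classical
  set S : Finset ℕ := (range n).filter (fun j : ℕ => 1 / (2 * (p : ℝ)) ≤
      nrm ((m : ℝ) * (p : ℝ) ^ j / ((p : ℝ) ^ n - 1))) with hS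
  have hc : S.card ≤ K := by
    refine le_trans (le_of_eq ?_) hK
    unfold cnt
    rw [hS]
  have hne : Nonempty (S ↪ Fin K) := by
    apply Function.Embedding.nonempty_of_card_le
    simpa using hc
  obtain ⟨φ⟩ := hne
  refine ⟨Function.extend φ (fun s : S => n - 1 - (s : ℕ)) (fun _ => 0),
    Function.extend φ (fun s : S => B4_u p n m (s : ℕ)) (fun _ => 0), ?_, ?_, ?_⟩
  · intro i
    by_cases h : ∃ s, φ s = i
    · obtain ⟨s, rfl⟩ := h
      rw [φ.injective.extend_apply]
      omega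
    · rw [Function.extend_apply' _ _ _ h]
      omega
  · intro i
    by_cases h : ∃ s, φ s = i
    · obtain ⟨s, rfl⟩ := h
      rw [φ.injective.extend_apply]
      exact B4_abs hp m _
    · rw [Function.extend_apply' _ _ _ h]
      simp
  · have h1 : ∑ s : S, B4_u p n m (s : ℕ) * (p : ℤ) ^ (n - 1 - (s : ℕ)) =
        ∑ i : Fin K, Function.extend φ (fun s : S => B4_u p n m (s : ℕ)) (fun _ => 0) i *
          (p : ℤ) ^ Function.extend φ (fun s : S => n - 1 - (s : ℕ)) (fun _ => 0) i := by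
      apply Fintype.sum_of_injective φ φ.injective
      · intro i hi
        have h : ¬ ∃ s, φ s = i := hi
        rw [Function.extend_apply' _ _ _ h, zero_mul]
      · intro s
        rw [φ.injective.extend_apply, φ.injective.extend_apply]
    have h2 : ∑ s : S, B4_u p n m (s : ℕ) * (p : ℤ) ^ (n - 1 - (s : ℕ)) =
        ∑ j ∈ range n, B4_u p n m j * (p : ℤ) ^ (n - 1 - j) := by
      rw [Finset.sum_coe_sort S (fun j => B4_u p n m j * (p : ℤ) ^ (n - 1 - j))]
      apply sum_subset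
      · rw [hS]
        exact filter_subset _ _
      · intro j hj hj'
        rw [hS, mem_filter] at hj'
        have h3 : nrm (B4_x p n m j) < 1 / (2 * (p : ℝ)) := by
          by_contra h4
          exact hj' ⟨hj, not_lt.1 h4⟩
        rw [B4_zero hp m j h3, zero_mul]
    rw [← h1, h2, B4_sum hp hn]
    exact ⟨round (B4_x p n m 0), by ring⟩

end Pool.Agent.Helper21.FC
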