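import Pool.Agent.Helper21.FC.Defs

/-!
MP_0aa406_nt, project FC (helper21): an isolated term of a vanishing sum of powers of `p` is zero.
-/

set_option autoImplicit false

namespace Pool.Agent.Helper21.FC

open Finset

/-- `p ^ m ≡ p ^ (m % n)` modulo `p ^ n - 1` -/
private theorem C1_pow_mod (p n m : ℕ) :
    NN p n ∣ (p : ℤ) ^ m - (p : ℤ) ^ (m % n) := by
  have h1 : NN p n ∣ ((p : ℤ) ^ n) ^ (m / n) - 1 := by
    have := sub_dvd_pow_sub_pow ((p : ℤ) ^ n) 1 (m / n)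
    simpa [NN] using this
  have h2 : (p : ℤ) ^ m - (p : ℤ) ^ (m % n) = (p : ℤ) ^ (m % n) * (((p : ℤ) ^ n) ^ (m / n) - 1) := by
    rw [mul_sub, mul_one, ← pow_mul, ← pow_add, Nat.mod_add_div]
  rw [h2]
  exact Dvd.dvd.mul_left h1 _

/-- the shifted exponent of the isolated term -/
private theorem C1_exp_self {n D e : ℕ} (hD : 1 ≤ D) (hDn : D ≤ n) (he : e < n) :
    (e + (2 * n - D - e)) % n = n - D := by
  have h1 : e + (2 * n - D - e) = (n - D) + n := by omega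
  rw [h1, Nat.add_mod_right, Nat.mod_eq_of_lt (by omega)]

/-- the shifted exponents of the other terms -/
private theorem C1_exp_far {n D e e' : ℕ} (hD : 1 ≤ D) (hDn : D ≤ n) (he : e < n) (he' : e' < n)
    (h1 : (D : ℤ) ≤ |(e' : ℤ) - e|) (h2 : |(e' : ℤ) - e| ≤ (n : ℤ) - D) :
    (e' + (2 * n - D - e)) % n + 2 * D ≤ n := by
  rcases le_or_gt e e' with h | h
  · rw [abs_of_nonneg (by omega)] at h1 h2
    have h3 : e' + (2 * n - D - e) = (e' - e - D) + n + n := by omega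
    rw [h3, Nat.add_mod_right, Nat.add_mod_right, Nat.mod_eq_of_lt (by omega)]
    omega
  · rw [abs_of_neg (by omega)] at h1 h2
    have h3 : e' + (2 * n - D - e) = (n - D - (e - e')) + n := by omega
    rw [h3, Nat.add_mod_right, Nat.mod_eq_of_lt (by omega)]
    omega

theorem isolated {p n D : ℕ} (hp : 2 ≤ p) (hD : 1 ≤ D) (hDn : D ≤ n) {ι : Type*} [Fintype ι]
    [DecidableEq ι] (e : ι → ℕ) (he : ∀ i, e i < n) (b : ι → ℤ)
    (hb : ∑ i, |b i| < (p : ℤ) ^ (D - 1)) (j : ι)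
    (hfar : ∀ i, i ≠ j → (D : ℤ) ≤ |(e i : ℤ) - e j| ∧ |(e i : ℤ) - e j| ≤ (n : ℤ) - D)
    (h : NN p n ∣ ∑ i, b i * (p : ℤ) ^ e i) : b j = 0 := by
  have hp0 : (0 : ℤ) < (p : ℤ) := by exact_mod_cast (by omega : 0 < p)
  have hp1 : (1 : ℤ) < (p : ℤ) := by exact_mod_cast (by omega : 1 < p)
  obtain ⟨f, hf⟩ : ∃ f : ι → ℕ, ∀ i, f i = (e i + (2 * n - D - e j)) % n :=
    ⟨fun i => (e i + (2 * n - D - e j)) % n, fun i => rfl⟩
  have hfj : f j = n - D := by rw [hf, C1_exp_self hD hDn (he j)]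
  have hfi : ∀ i, i ≠ j → f i + 2 * D ≤ n := by
    intro i hi
    rw [hf]
    exact C1_exp_far hD hDn (he j) (he i) (hfar i hi).1 (hfar i hi).2
  -- divisibility for the shifted exponents
  have hdvd : NN p n ∣ ∑ i, b i * (p : ℤ) ^ f i := by
    have h1 : NN p n ∣ ∑ i, b i * (p : ℤ) ^ (e i + (2 * n - D - e j)) := by
      have h2 : ∑ i, b i * (p : ℤ) ^ (e i + (2 * n - D - e j))
          = (∑ i, b i * (p : ℤ) ^ e i) * (p : ℤ) ^ (2 * n - D - e j) := by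
        rw [Finset.sum_mul]
        exact Finset.sum_congr rfl (fun i _ => by rw [pow_add, mul_assoc])
      rw [h2]
      exact Dvd.dvd.mul_right h _
    have h3 : NN p n ∣ ∑ i, (b i * (p : ℤ) ^ (e i + (2 * n - D - e j)) - b i * (p : ℤ) ^ f i) := by
      refine Finset.dvd_sum (fun i _ => ?_)
      rw [← mul_sub, hf]
      exact Dvd.dvd.mul_left (C1_pow_mod p n _) _
    rw [Finset.sum_sub_distrib] at h3
    have h4 := dvd_sub h1 h3
    rwa [sub_sub_cancel] at h4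
  -- size
  have hle : ∀ i, f i ≤ n - D := by
    intro i
    rcases eq_or_ne i j with rfl | hi
    · exact hfj.le
    · have := hfi i hi
      omega
  have hsize : |∑ i, b i * (p : ℤ) ^ f i| < NN p n := by
    have h1 : |∑ i, b i * (p : ℤ) ^ f i| ≤ (∑ i, |b i|) * (p : ℤ) ^ (n - D) := by
      rw [Finset.sum_mul]
      refine (Finset.abs_sum_le_sum_abs _ _).trans (Finset.sum_le_sum (fun i _ => ?_))
      rw [abs_mul, abs_of_pos (pow_pos hp0 (f i))]
      exact mul_le_mul_of_nonneg_left (pow_le_pow_right₀ hp1.le (hle i)) (abs_nonneg _)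
    have h2 : (∑ i, |b i|) * (p : ℤ) ^ (n - D) < (p : ℤ) ^ (D - 1) * (p : ℤ) ^ (n - D) :=
      mul_lt_mul_of_pos_right hb (pow_pos hp0 _)
    have h3 : (p : ℤ) ^ (D - 1) * (p : ℤ) ^ (n - D) = (p : ℤ) ^ (n - 1) := by
      rw [← pow_add]
      congr 1
      omega
    have h4 : (p : ℤ) ^ (n - 1) < (p : ℤ) ^ n := pow_lt_pow_right₀ hp1 (by omega)
    have h5 : NN p n = (p : ℤ) ^ n - 1 := rfl
    have h6 := Int.add_one_le_iff.mpr h4
    rw [h5]
    linarith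
  have hzero : ∑ i, b i * (p : ℤ) ^ f i = 0 := Int.eq_zero_of_abs_lt_dvd hdvd hsize
  -- the isolated term dominates
  by_contra hbj
  have hsplit : b j * (p : ℤ) ^ f j + ∑ i ∈ univ.erase j, b i * (p : ℤ) ^ f i = 0 :=
    (Finset.add_sum_erase univ (fun i => b i * (p : ℤ) ^ f i) (mem_univ j)).trans hzero
  have hone : (1 : ℤ) ≤ |b j| := Int.one_le_abs hbj
  have hdom : |b j| * (p : ℤ) ^ (n - D) ≤ ∑ i ∈ univ.erase j, |b i| * (p : ℤ) ^ f i := by
    have h1 : b j * (p : ℤ) ^ f j = -∑ i ∈ univ.erase j, b i * (p : ℤ) ^ f i := by linarith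
    have h2 : |b j| * (p : ℤ) ^ (n - D) = |b j * (p : ℤ) ^ f j| := by
      rw [abs_mul, abs_of_pos (pow_pos hp0 (f j)), hfj]
    rw [h2, h1, abs_neg]
    refine (Finset.abs_sum_le_sum_abs _ _).trans (Finset.sum_le_sum (fun i _ => ?_))
    rw [abs_mul, abs_of_pos (pow_pos hp0 (f i))]
  have hmul : (∑ i ∈ univ.erase j, |b i| * (p : ℤ) ^ f i) * (p : ℤ) ^ (2 * D)
      ≤ (∑ i, |b i|) * (p : ℤ) ^ n := by
    have h1 : (∑ i ∈ univ.erase j, |b i| * (p : ℤ) ^ f i) * (p : ℤ) ^ (2 * D)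
        ≤ ∑ i ∈ univ.erase j, |b i| * (p : ℤ) ^ n := by
      rw [Finset.sum_mul]
      refine Finset.sum_le_sum (fun i hi => ?_)
      rw [mul_assoc, ← pow_add]
      exact mul_le_mul_of_nonneg_left
        (pow_le_pow_right₀ hp1.le (hfi i (Finset.ne_of_mem_erase hi))) (abs_nonneg _)
    have h2 : ∑ i ∈ univ.erase j, |b i| * (p : ℤ) ^ n ≤ ∑ i, |b i| * (p : ℤ) ^ n :=
      Finset.sum_le_sum_of_subset_of_nonneg (Finset.erase_subset _ _)
        (fun i _ _ => mul_nonneg (abs_nonneg _) (pow_pos hp0 _).le)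
    exact h1.trans (h2.trans_eq (Finset.sum_mul _ _ _).symm)
  have hA : (p : ℤ) ^ (n - D) * (p : ℤ) ^ (2 * D) < (p : ℤ) ^ (D - 1) * (p : ℤ) ^ n := by
    have h1 : (p : ℤ) ^ (n - D) * (p : ℤ) ^ (2 * D)
        ≤ (|b j| * (p : ℤ) ^ (n - D)) * (p : ℤ) ^ (2 * D) := by
      refine mul_le_mul_of_nonneg_right ?_ (pow_pos hp0 _).le
      calc (p : ℤ) ^ (n - D) = 1 * (p : ℤ) ^ (n - D) := (one_mul _).symm
        _ ≤ |b j| * (p : ℤ) ^ (n - D) := mul_le_mul_of_nonneg_right hone (pow_pos hp0 _).le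
    have h2 : (|b j| * (p : ℤ) ^ (n - D)) * (p : ℤ) ^ (2 * D)
        ≤ (∑ i ∈ univ.erase j, |b i| * (p : ℤ) ^ f i) * (p : ℤ) ^ (2 * D) :=
      mul_le_mul_of_nonneg_right hdom (pow_pos hp0 _).le
    have h3 : (∑ i, |b i|) * (p : ℤ) ^ n < (p : ℤ) ^ (D - 1) * (p : ℤ) ^ n :=
      mul_lt_mul_of_pos_right hb (pow_pos hp0 _)
    exact lt_of_le_of_lt (h1.trans (h2.trans hmul)) h3
  rw [← pow_add, ← pow_add] at hA
  have hB := (pow_lt_pow_iff_right₀ hp1).mp hA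
  omega

end Pool.Agent.Helper21.FC
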