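import Pool.Agent.Helper21.FC.Defs

/-!
MP_0aa406_nt, project FC (helper21): positions which are not rational multiples of `1` are far away.
-/

set_option autoImplicit false

namespace Pool.Agent.Helper21.FC

open Finset Filter

private theorem C2_pick (U : Ultrafilter ℕ) (D : ℕ) (P : ℕ → ℤ → Prop)
    (h : ¬ ∀ᶠ ν in (U : Filter ℕ), ∀ t : ℤ, |t| ≤ D → ¬ P ν t) :
    ∃ t : ℤ, |t| ≤ D ∧ ∀ᶠ ν in (U : Filter ℕ), P ν t := by
  rw [← Ultrafilter.eventually_not] at h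
  have h1 : (⋃ t ∈ (Set.Icc (-(D : ℤ)) D), {ν | P ν t}) ∈ U := by
    apply Filter.mem_of_superset (Ultrafilter.mem_coe.mp h)
    intro ν hν
    simp only [Set.mem_setOf_eq] at hν
    push Not at hν
    obtain ⟨t, ht, hP⟩ := hν
    simp only [Set.mem_iUnion]
    exact ⟨t, abs_le.mp ht, hP⟩
  rw [Ultrafilter.finite_biUnion_mem_iff (Set.finite_Icc _ _)] at h1
  obtain ⟨t, ht, hP⟩ := h1
  exact ⟨t, abs_le.mpr ht, hP⟩

/-- different classes -/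
theorem far_of_not_rat (U : Ultrafilter ℕ) (n κ : ℕ → ℕ) (k : ℕ) (hk : 0 < k)
    (hκ : ∀ᶠ ν in (U : Filter ℕ), (n ν : ℤ) ∣ (k : ℤ) * κ ν - 1) (s : ℕ → ℤ)
    (hs : ¬ IsRat U n s) (c : ℤ) (D : ℕ) :
    ∀ᶠ ν in (U : Filter ℕ), ∀ t : ℤ, |t| ≤ D → ¬ (n ν : ℤ) ∣ s ν + κ ν * c - t := by
  by_contra hcon
  obtain ⟨t, _, ht⟩ := C2_pick U D (fun ν t => (n ν : ℤ) ∣ s ν + κ ν * c - t) hcon
  apply hs
  refine ⟨k, hk, k * t - c, ?_⟩
  filter_upwards [hκ, ht] with ν h1 h2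
  have h3 : (k : ℤ) * s ν - (k * t - c) = k * (s ν + κ ν * c - t) - c * ((k : ℤ) * κ ν - 1) := by
    ring
  rw [h3]
  exact dvd_sub (h2.mul_left _) (h1.mul_left _)

/-- the same class -/
theorem far_same (U : Ultrafilter ℕ) (n κ : ℕ → ℕ)
    (hn : ∀ m : ℕ, ∀ᶠ ν in (U : Filter ℕ), m < n ν) (k : ℕ) (hk : 0 < k)
    (hκ : ∀ᶠ ν in (U : Filter ℕ), (n ν : ℤ) ∣ (k : ℤ) * κ ν - 1) (c : ℤ) (hc : ¬ (k : ℤ) ∣ c)
    (D : ℕ) :
    ∀ᶠ ν in (U : Filter ℕ), ∀ t : ℤ, |t| ≤ D → ¬ (n ν : ℤ) ∣ κ ν * c - t := by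
  by_contra hcon
  obtain ⟨t, _, ht⟩ := C2_pick U D (fun ν t => (n ν : ℤ) ∣ κ ν * c - t) hcon
  apply hc
  obtain ⟨ν, h1, h2, h3⟩ := (hκ.and (ht.and (hn (c - k * t).natAbs))).exists
  have h4 : (n ν : ℤ) ∣ c - k * t := by
    have h5 : c - k * t = (k : ℤ) * (κ ν * c - t) - c * ((k : ℤ) * κ ν - 1) := by ring
    rw [h5]
    exact dvd_sub (h2.mul_left _) (h1.mul_left _)
  have h6 : c - k * t = 0 := by
    apply Int.eq_zero_of_abs_lt_dvd h4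
    have h7 : |c - k * t| = ((c - k * t).natAbs : ℤ) := Int.abs_eq_natAbs _
    rw [h7]
    exact_mod_cast h3
  exact ⟨t, by linarith⟩

end Pool.Agent.Helper21.FC
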