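import Pool.Agent.Helper21.FC.Defs

/-!
MP_0aa406_nt, project FC (helper21): the ring `ℤ[X] / (X ^ k - p)`.
-/

set_option autoImplicit false

namespace Pool.Agent.Helper21.FC

open Finset Polynomial

/-- `X ^ k ≡ p`: evaluation at `P` with `P ^ k ≡ p` kills multiples of `X ^ k - p` modulo `N` -/
theorem eval_dvd {p n k κ : ℕ} (hκ : (n : ℤ) ∣ (k : ℤ) * κ - 1) (hk : 0 < k) (f : ℤ[X])
    (hf : ((X : ℤ[X]) ^ k - C (p : ℤ)) ∣ f) : NN p n ∣ f.eval ((p : ℤ) ^ κ) := by
  obtain ⟨g, rfl⟩ := hf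
  rw [eval_mul]
  apply Dvd.dvd.mul_right
  simp only [eval_sub, eval_pow, eval_X, eval_C, NN]
  rcases Nat.eq_zero_or_pos κ with h0 | h0
  · subst h0
    have h1 : (n : ℤ) ∣ 1 := by
      have : (n : ℤ) ∣ -1 := by simpa using hκ
      exact (dvd_neg.mp this)
    have h2 : n = 1 := by
      have := Int.eq_one_of_dvd_one (by positivity) h1
      exact_mod_cast this
    subst h2
    refine ⟨-1, ?_⟩
    simp
  · obtain ⟨t, ht⟩ := hκ
    have hpos : 1 ≤ k * κ := Nat.mul_pos hk h0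
    have ht0 : ∃ s : ℕ, k * κ = n * s + 1 := by
      rcases Nat.eq_zero_or_pos n with hn | hn
      · subst hn
        refine ⟨0, ?_⟩
        have : (k : ℤ) * κ = 1 := by
          simp only [Nat.cast_zero, zero_mul] at ht
          linarith
        exact_mod_cast this
      · have hge : 0 ≤ t := by
          by_contra hlt
          push Not at hlt
          have h1 : (n : ℤ) * t < 0 := mul_neg_of_pos_of_neg (by exact_mod_cast hn) hlt
          have h2 : (1 : ℤ) ≤ (k : ℤ) * κ := by exact_mod_cast hpos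
          linarith
        obtain ⟨s, rfl⟩ := Int.eq_ofNat_of_zero_le hge
        refine ⟨s, ?_⟩
        have : (k : ℤ) * κ = n * s + 1 := by linarith
        exact_mod_cast this
    obtain ⟨s, hs⟩ := ht0
    have h1 : ((p : ℤ) ^ κ) ^ k - (p : ℤ) = (((p : ℤ) ^ n) ^ s - 1 ^ s) * p := by
      rw [← pow_mul, mul_comm κ k, hs, pow_succ, pow_mul, one_pow]
      ring
    rw [h1]
    exact Dvd.dvd.mul_right (sub_dvd_pow_sub_pow _ _ s) _

/-- reduction of one monomial -/
theorem P1b_mono (p k a : ℕ) :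
    ((X : ℤ[X]) ^ k - C (p : ℤ)) ∣ (X : ℤ[X]) ^ a - C ((p : ℤ) ^ (a / k)) * X ^ (a % k) := by
  have h : (X : ℤ[X]) ^ a - C ((p : ℤ) ^ (a / k)) * X ^ (a % k) =
      (((X : ℤ[X]) ^ k) ^ (a / k) - (C (p : ℤ)) ^ (a / k)) * X ^ (a % k) := by
    rw [← pow_mul, sub_mul, ← pow_add, Nat.div_add_mod, C_pow]
  rw [h]
  exact Dvd.dvd.mul_right (sub_dvd_pow_sub_pow _ _ _) _

/-- products in coordinates -/
theorem toPoly_tw (p k : ℕ) [NeZero k] (μ x : ZMod k → ℤ) :
    ((X : ℤ[X]) ^ k - C (p : ℤ)) ∣ toPoly μ * toPoly x - toPoly (tw p μ x) := by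
  have h1 : toPoly μ * toPoly x = ∑ i : ZMod k, ∑ t : ZMod k,
      C (μ t * x i) * (X : ℤ[X]) ^ (t.val + i.val) := by
    unfold toPoly
    rw [Finset.sum_mul_sum, Finset.sum_comm]
    refine Finset.sum_congr rfl fun i _ => Finset.sum_congr rfl fun t _ => ?_
    rw [C_mul, pow_add]
    ring
  have h2 : toPoly (tw p μ x) = ∑ i : ZMod k, ∑ t : ZMod k,
      C (μ t * x i) * (C ((p : ℤ) ^ ((t.val + i.val) / k)) * X ^ ((t.val + i.val) % k)) := by
    unfold toPoly tw
    have h3 : ∀ u : ZMod k, C (∑ i : ZMod k, μ (u - i) * x i * (p : ℤ) ^ (((u - i).val + i.val) / k))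
        * (X : ℤ[X]) ^ u.val = ∑ i : ZMod k, C (μ (u - i) * x i) *
          (C ((p : ℤ) ^ (((u - i).val + i.val) / k)) * X ^ (((u - i).val + i.val) % k)) := by
      intro u
      rw [map_sum, Finset.sum_mul]
      refine Finset.sum_congr rfl fun i _ => ?_
      have h4 : ((u - i).val + i.val) % k = u.val := by
        rw [← ZMod.val_add, sub_add_cancel]
      rw [h4, C_mul, mul_assoc]
    rw [Finset.sum_congr rfl fun u _ => h3 u, Finset.sum_comm]
    refine Finset.sum_congr rfl fun i _ => ?_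
    exact Fintype.sum_equiv (Equiv.subRight i) _ _ (fun u => rfl)
  rw [h1, h2, ← Finset.sum_sub_distrib]
  refine Finset.dvd_sum fun i _ => ?_
  rw [← Finset.sum_sub_distrib]
  refine Finset.dvd_sum fun t _ => ?_
  rw [← mul_sub]
  exact Dvd.dvd.mul_left (P1b_mono p k _) _

/-- coefficients of `toPoly` -/
theorem P1b_coeff (k : ℕ) [NeZero k] (v : ZMod k → ℤ) (c : ZMod k) :
    (toPoly v).coeff c.val = v c := by
  unfold toPoly
  rw [finsetSum_coeff, Finset.sum_eq_single c]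
  · rw [coeff_C_mul_X_pow, if_pos rfl]
  · intro b _ hb
    rw [coeff_C_mul_X_pow, if_neg]
    intro h
    exact hb (ZMod.val_injective k h.symm)
  · intro h
    exact absurd (Finset.mem_univ c) h

/-- the degree of `toPoly` is smaller than `k` -/
theorem P1b_degree (k : ℕ) [NeZero k] (v : ZMod k → ℤ) : (toPoly v).degree < (k : WithBot ℕ) := by
  unfold toPoly
  refine Polynomial.mem_degreeLT.mp ?_
  refine Submodule.sum_mem _ fun b _ => Polynomial.mem_degreeLT.mpr ?_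
  refine lt_of_le_of_lt (degree_C_mul_X_pow_le _ _) ?_
  exact_mod_cast ZMod.val_lt b

/-- a reduced polynomial divisible by `X ^ k - p` vanishes -/
theorem toPoly_eq_zero (p k : ℕ) [NeZero k] (v : ZMod k → ℤ)
    (h : ((X : ℤ[X]) ^ k - C (p : ℤ)) ∣ toPoly v) : v = 0 := by
  have h0 : toPoly v = 0 := by
    refine Polynomial.eq_zero_of_dvd_of_degree_lt h ?_
    rw [degree_X_pow_sub_C (Nat.pos_of_ne_zero (NeZero.ne k))]
    exact P1b_degree k v
  funext c
  rw [← P1b_coeff k v c, h0]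
  simp

/-- real evaluation as `eval₂` -/
theorem P1b_rev (p k : ℕ) [NeZero k] (μ : ZMod k → ℤ) :
    rev p μ = (toPoly μ).eval₂ (Int.castRingHom ℝ) ((p : ℝ) ^ ((1 : ℝ) / k)) := by
  unfold rev toPoly
  rw [eval₂_finsetSum]
  refine Finset.sum_congr rfl fun c _ => ?_
  rw [eval₂_mul, eval₂_C, eval₂_X_pow]
  rfl

/-- real evaluation is multiplicative -/
theorem rev_mul (p k : ℕ) [NeZero k] (μ μ' : ZMod k → ℤ) (c : ℤ)
    (h : ((X : ℤ[X]) ^ k - C (p : ℤ)) ∣ toPoly μ * toPoly μ' - C c) :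
    rev p μ * rev p μ' = c := by
  obtain ⟨g, hg⟩ := h
  have h1 : toPoly μ * toPoly μ' = C c + ((X : ℤ[X]) ^ k - C (p : ℤ)) * g := by
    rw [← hg]; ring
  have hk : (k : ℝ) ≠ 0 := by exact_mod_cast NeZero.ne k
  have h2 : ((p : ℝ) ^ ((1 : ℝ) / k)) ^ k = p := by
    rw [← Real.rpow_natCast, ← Real.rpow_mul (Nat.cast_nonneg p), one_div, inv_mul_cancel₀ hk,
      Real.rpow_one]
  rw [P1b_rev, P1b_rev, ← eval₂_mul, h1, eval₂_add, eval₂_mul, eval₂_sub, eval₂_X_pow, eval₂_C,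
    eval₂_C, h2]
  simp

end Pool.Agent.Helper21.FC
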