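import Pool.Agent.Helper21.FC.Defs

/-!
MP_0aa406_nt, project FC (helper21): reduction modulo `X ^ k - p` with bounds.
-/

set_option autoImplicit false

namespace Pool.Agent.Helper21.FC

open Finset Polynomial

theorem P1c_mono (p k m : ℕ) :
    ((X : ℤ[X]) ^ k - C (p : ℤ)) ∣ X ^ m - C ((p : ℤ) ^ (m / k)) * X ^ (m % k) := by
  have h1 : (X : ℤ[X]) ^ m = (X ^ k) ^ (m / k) * X ^ (m % k) := by
    rw [← pow_mul, ← pow_add, Nat.div_add_mod]
  rw [h1, C_pow, ← sub_mul]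
  exact Dvd.dvd.mul_right (sub_dvd_pow_sub_pow _ _ _) _

theorem P1c_toPoly (k D : ℕ) [NeZero k] (g : ℕ → ℤ) :
    toPoly (fun t : ZMod k => ∑ m ∈ range D, if (m : ZMod k) = t then g m else 0) =
      ∑ m ∈ range D, C (g m) * X ^ (m % k) := by
  unfold toPoly
  simp only [map_sum, Finset.sum_mul]
  rw [Finset.sum_comm]
  refine Finset.sum_congr rfl fun m _ => ?_
  rw [Finset.sum_eq_single (m : ZMod k)]
  · rw [if_pos rfl, ZMod.val_natCast]
  · intro t _ ht
    rw [if_neg (Ne.symm ht), map_zero, zero_mul]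
  · intro h
    exact absurd (Finset.mem_univ _) h

/-- every polynomial is congruent to a reduced one, with a bound for the coefficients -/
theorem reduce (k : ℕ) [NeZero k] (D0 B : ℕ) : ∃ B' : ℕ, ∀ p : ℕ, 2 ≤ p → ∀ f : ℤ[X],
    f.natDegree ≤ D0 → (∀ m, |f.coeff m| ≤ (p : ℤ) ^ B) →
      ∃ v : ZMod k → ℤ, (∀ t, |v t| ≤ (p : ℤ) ^ B') ∧
        ((X : ℤ[X]) ^ k - C (p : ℤ)) ∣ f - toPoly v := by
  refine ⟨(D0 + 1) + (B + D0), fun p hp f hf hB => ?_⟩
  have hp1 : (1 : ℤ) ≤ p := by exact_mod_cast (by omega : 1 ≤ p)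
  refine ⟨fun t => ∑ m ∈ range (D0 + 1),
    if (m : ZMod k) = t then f.coeff m * (p : ℤ) ^ (m / k) else 0, fun t => ?_, ?_⟩
  · have h1 : ∀ m ∈ range (D0 + 1),
        |if (m : ZMod k) = t then f.coeff m * (p : ℤ) ^ (m / k) else 0| ≤
          (p : ℤ) ^ (B + D0) := by
      intro m hm
      rw [mem_range] at hm
      have hpos : (0 : ℤ) ≤ (p : ℤ) ^ (B + D0) := by positivity
      split_ifs
      · rw [abs_mul, pow_add, abs_of_nonneg (show (0 : ℤ) ≤ (p : ℤ) ^ (m / k) by positivity)]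
        refine mul_le_mul (hB m) (pow_le_pow_right₀ hp1 ?_) (by positivity) (by positivity)
        exact (Nat.div_le_self m k).trans (by omega)
      · rw [abs_zero]
        exact hpos
    have h2 : ((D0 + 1 : ℕ) : ℤ) ≤ (p : ℤ) ^ (D0 + 1) := by
      have h3 : D0 + 1 < 2 ^ (D0 + 1) := Nat.lt_two_pow_self
      have h4 : 2 ^ (D0 + 1) ≤ p ^ (D0 + 1) := Nat.pow_le_pow_left hp _
      exact_mod_cast h3.le.trans h4
    refine (Finset.abs_sum_le_sum_abs _ _).trans ((Finset.sum_le_sum h1).trans ?_)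
    rw [Finset.sum_const, card_range, nsmul_eq_mul, pow_add _ (D0 + 1)]
    exact mul_le_mul_of_nonneg_right h2 (by positivity)
  · rw [P1c_toPoly]
    have h0 := f.as_sum_range_C_mul_X_pow' (show f.natDegree < D0 + 1 by omega)
    have h3 : f - ∑ m ∈ range (D0 + 1), C (f.coeff m * (p : ℤ) ^ (m / k)) * X ^ (m % k) =
        ∑ m ∈ range (D0 + 1), (C (f.coeff m) * X ^ m -
          C (f.coeff m * (p : ℤ) ^ (m / k)) * X ^ (m % k)) := by
      rw [Finset.sum_sub_distrib, ← h0]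
    rw [h3]
    refine Finset.dvd_sum fun m _ => ?_
    have h1 := P1c_mono p k m
    have h2 : C (f.coeff m) * X ^ m - C (f.coeff m * (p : ℤ) ^ (m / k)) * X ^ (m % k) =
        C (f.coeff m) * (X ^ m - C ((p : ℤ) ^ (m / k)) * X ^ (m % k)) := by
      rw [C_mul]
      ring
    rw [h2]
    exact Dvd.dvd.mul_left h1 _

end Pool.Agent.Helper21.FC
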