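import Pool.Agent.Helper21.FC.Defs

/-!
MP_0aa406_nt, project FC (helper21): the real circulant.
-/

set_option autoImplicit false

namespace Pool.Agent.Helper21.FC

open Finset Polynomial

private theorem P1d_rho_pow (p k : ℕ) [NeZero k] :
    ((p : ℝ) ^ ((1 : ℝ) / k)) ^ k = p := by
  have hk : (k : ℝ) ≠ 0 := Nat.cast_ne_zero.mpr (NeZero.ne k)
  have hp0 : (0 : ℝ) ≤ (p : ℝ) := Nat.cast_nonneg p
  rw [← Real.rpow_natCast, ← Real.rpow_mul hp0, one_div_mul_cancel hk, Real.rpow_one]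

private theorem P1d_val (k : ℕ) [NeZero k] (u i : ZMod k) :
    (u - i).val + i.val = u.val + k * (((u - i).val + i.val) / k) := by
  have h := Nat.mod_add_div ((u - i).val + i.val) k
  have h2 : ((u - i) + i).val = ((u - i).val + i.val) % k := ZMod.val_add _ _
  rw [sub_add_cancel] at h2
  rw [← h2] at h
  exact h.symm

/-- coordinates of the real circulant -/
theorem act_cir (p k h : ℕ) [NeZero k] (hp : 0 < p) (μ w : ZMod k → ℤ) (u : ZMod k) :
    act (cir p h μ) (fun i => (w i : ℝ) * ((p : ℝ) ^ ((1 : ℝ) / k)) ^ i.val) u =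
      (tw p μ w u : ℝ) / h * ((p : ℝ) ^ ((1 : ℝ) / k)) ^ u.val := by
  unfold act cir tw
  push_cast
  rw [Finset.sum_div, Finset.sum_mul]
  refine Finset.sum_congr rfl fun i _ => ?_
  have h1 : ((p : ℝ) ^ ((1 : ℝ) / k)) ^ (u - i).val * ((p : ℝ) ^ ((1 : ℝ) / k)) ^ i.val =
      ((p : ℝ) ^ ((1 : ℝ) / k)) ^ u.val * (p : ℝ) ^ (((u - i).val + i.val) / k) := by
    rw [← pow_add]
    conv_lhs => rw [P1d_val k u i]
    rw [pow_add, pow_mul, P1d_rho_pow]
  calc (μ (u - i) : ℝ) / h * ((p : ℝ) ^ ((1 : ℝ) / k)) ^ (u - i).val *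
        ((w i : ℝ) * ((p : ℝ) ^ ((1 : ℝ) / k)) ^ i.val)
      = (μ (u - i) : ℝ) / h * (w i : ℝ) * (((p : ℝ) ^ ((1 : ℝ) / k)) ^ (u - i).val *
          ((p : ℝ) ^ ((1 : ℝ) / k)) ^ i.val) := by ring
    _ = (μ (u - i) : ℝ) / h * (w i : ℝ) * (((p : ℝ) ^ ((1 : ℝ) / k)) ^ u.val *
          (p : ℝ) ^ (((u - i).val + i.val) / k)) := by rw [h1]
    _ = _ := by ring

theorem sum_cir (p k h : ℕ) [NeZero k] (μ : ZMod k → ℤ) : ∑ t, cir p h μ t = rev p μ / h := by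
  unfold cir rev
  rw [Finset.sum_div]
  refine Finset.sum_congr rfl fun t _ => ?_
  ring

end Pool.Agent.Helper21.FC
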