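import Pool.Agent.Helper21.FC.P1a
import Pool.Agent.Helper21.FC.P1b
import Pool.Agent.Helper21.FC.P1c
import Pool.Agent.Helper21.FC.P1d

/-!
MP_0aa406_nt, project FC (helper21): collects P1a, P1b, P1c, P1d.
-/
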