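import Pool.Agent.Helper21.FC.C1
import Pool.Agent.Helper21.FC.C2
import Pool.Agent.Helper21.FC.P1

/-!
MP_0aa406_nt, project FC (helper21): the isolation lemma.
-/

set_option autoImplicit false

namespace Pool.Agent.Helper21.FC

open Finset Filter Polynomial

/-- `p ^ m ≡ p ^ (m % n)` modulo `p ^ n - 1` -/
private theorem C3_pow_mod (p n m : ℕ) :
    NN p n ∣ (p : ℤ) ^ m - (p : ℤ) ^ (m % n) := by
  have h1 : NN p n ∣ ((p : ℤ) ^ n) ^ (m / n) - 1 := by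
    have := sub_dvd_pow_sub_pow ((p : ℤ) ^ n) 1 (m / n)
    simpa [NN] using this
  have h2 : (p : ℤ) ^ m - (p : ℤ) ^ (m % n) = (p : ℤ) ^ (m % n) * (((p : ℤ) ^ n) ^ (m / n) - 1) := by
    rw [mul_sub, mul_one, ← pow_mul, ← pow_add, Nat.mod_add_div]
  rw [h2]
  exact Dvd.dvd.mul_left h1 _

/-- from residues to cyclic distances -/
private theorem C3_dist {n D a b : ℕ} (hn : 0 < n)
    (h : ∀ t : ℤ, |t| ≤ D → ¬ (n : ℤ) ∣ ((a : ℤ) - b) - t) :
    (D : ℤ) ≤ |((a % n : ℕ) : ℤ) - ((b % n : ℕ) : ℤ)| ∧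
      |((a % n : ℕ) : ℤ) - ((b % n : ℕ) : ℤ)| ≤ (n : ℤ) - D := by
  have ha : ((a % n : ℕ) : ℤ) < n := by exact_mod_cast Nat.mod_lt a hn
  have hb : ((b % n : ℕ) : ℤ) < n := by exact_mod_cast Nat.mod_lt b hn
  have ha0 : (0 : ℤ) ≤ ((a % n : ℕ) : ℤ) := Int.natCast_nonneg _
  have hb0 : (0 : ℤ) ≤ ((b % n : ℕ) : ℤ) := Int.natCast_nonneg _
  have h1 : (n : ℤ) ∣ (a : ℤ) - ((a % n : ℕ) : ℤ) := by
    refine ⟨((a / n : ℕ) : ℤ), ?_⟩
    have := Nat.mod_add_div a n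
    have h2 : (((a % n + n * (a / n) : ℕ)) : ℤ) = a := by rw [this]
    push_cast at h2 ⊢
    linarith
  have h1' : (n : ℤ) ∣ (b : ℤ) - ((b % n : ℕ) : ℤ) := by
    refine ⟨((b / n : ℕ) : ℤ), ?_⟩
    have := Nat.mod_add_div b n
    have h2 : (((b % n + n * (b / n) : ℕ)) : ℤ) = b := by rw [this]
    push_cast at h2 ⊢
    linarith
  generalize ((a % n : ℕ) : ℤ) = x at *
  generalize ((b % n : ℕ) : ℤ) = y at *
  have hkey : ∀ t : ℤ, |t| ≤ D → ¬ (n : ℤ) ∣ (x - y) - t := by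
    intro t ht hd
    refine h t ht ?_
    have h3 := dvd_add hd (dvd_sub h1 h1')
    have h4 : (x - y) - t + ((a : ℤ) - x - ((b : ℤ) - y)) = ((a : ℤ) - b) - t := by ring
    rwa [h4] at h3
  constructor
  · by_contra hlt
    push Not at hlt
    exact hkey (x - y) hlt.le (by simp)
  · by_contra hlt
    push Not at hlt
    rcases le_or_gt 0 (x - y) with h5 | h5
    · rw [abs_of_nonneg h5] at hlt
      refine hkey (x - y - n) ?_ (by simp)
      rw [abs_le]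
      constructor <;> linarith
    · rw [abs_of_neg h5] at hlt
      refine hkey (x - y + n) ?_ ⟨-1, by ring⟩
      rw [abs_le]
      constructor <;> linarith

/-- distances are symmetric -/
private theorem C3_symm {n D a b : ℕ} 
    (h : ∀ t : ℤ, |t| ≤ D → ¬ (n : ℤ) ∣ ((a : ℤ) - b) - t) :
    ∀ t : ℤ, |t| ≤ D → ¬ (n : ℤ) ∣ ((b : ℤ) - a) - t := by
  intro t ht hd
  refine h (-t) (by rwa [abs_neg]) ?_
  have h4 : ((a : ℤ) - b) - -t = -(((b : ℤ) - a) - t) := by ring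
  rw [h4]
  exact (dvd_neg).mpr hd

/-- size of the constant -/
private theorem C3_size {p : ℕ} (hp : 2 ≤ p) (M E : ℕ) :
    (M : ℤ) * (p : ℤ) ^ E < (p : ℤ) ^ (E + M) := by
  have h1 : M < p ^ M := Nat.lt_pow_self (by omega)
  have h2 : (M : ℤ) < (p : ℤ) ^ M := by exact_mod_cast h1
  have h3 : (0 : ℤ) < (p : ℤ) ^ E := pow_pos (by exact_mod_cast (by omega : 0 < p)) _
  rw [pow_add, mul_comm ((p : ℤ) ^ E)]
  exact mul_lt_mul_of_pos_right h2 h3

/-- evaluation of `toPoly` -/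
private theorem C3_eval_toPoly (k : ℕ) [NeZero k] (v : ZMod k → ℤ) (x : ℤ) :
    (toPoly v).eval x = ∑ c : ZMod k, v c * x ^ c.val := by
  unfold toPoly
  rw [eval_finsetSum]
  refine Finset.sum_congr rfl fun c _ => ?_
  simp

/-- the statement for one index -/
private theorem C3_core {p n κ k : ℕ} [NeZero k] (hp : 2 ≤ p) (hk : 0 < k)
    (hκ : (n : ℤ) ∣ (k : ℤ) * κ - 1)
    {J : Type} [Fintype J] [DecidableEq J] (s : J → ℕ) (β : J → ℤ[X]) (D0 B B' : ℕ)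
    (hdeg : ∀ j, (β j).natDegree ≤ D0) (hcoef : ∀ j m, |(β j).coeff m| ≤ (p : ℤ) ^ B)
    (hrel : NN p n ∣ ∑ j, (p : ℤ) ^ s j * (β j).eval ((p : ℤ) ^ κ)) (j0 : J)
    (v : ZMod k → ℤ) (hv : ∀ t, |v t| ≤ (p : ℤ) ^ B')
    (hdvd : ((X : ℤ[X]) ^ k - C (p : ℤ)) ∣ β j0 - toPoly v) (D : ℕ)
    (hD : D = B' + B + (k + Fintype.card J * (D0 + 1)) + 1) (hDn : D < n)
    (hsame : ∀ c c0 : ZMod k, c ≠ c0 → ∀ t : ℤ, |t| ≤ D →
      ¬ (n : ℤ) ∣ κ * ((c.val : ℤ) - c0.val) - t)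
    (hdiff : ∀ (j : J) (i : Fin (D0 + 1)) (c0 : ZMod k), j ≠ j0 → ∀ t : ℤ, |t| ≤ D →
      ¬ (n : ℤ) ∣ ((s j0 : ℤ) - s j) + κ * ((c0.val : ℤ) - (i : ℕ)) - t) : v = 0 := by
  have hn0 : 0 < n := by omega
  have hp0 : (0 : ℤ) < (p : ℤ) := by exact_mod_cast (by omega : 0 < p)
  have hp1 : (1 : ℤ) ≤ (p : ℤ) := by exact_mod_cast (by omega : 1 ≤ p)
  -- positions before reduction
  let pos : ZMod k ⊕ ({j : J // j ≠ j0} × Fin (D0 + 1)) → ℕ :=
    Sum.elim (fun c => s j0 + κ * c.val) (fun q => s q.1.1 + κ * (q.2 : ℕ))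
  let b : ZMod k ⊕ ({j : J // j ≠ j0} × Fin (D0 + 1)) → ℤ :=
    Sum.elim v (fun q => (β q.1.1).coeff (q.2 : ℕ))
  have hfar : ∀ c0 : ZMod k, ∀ i, i ≠ Sum.inl c0 →
      ∀ t : ℤ, |t| ≤ D → ¬ (n : ℤ) ∣ ((pos i : ℤ) - pos (Sum.inl c0)) - t := by
    intro c0 i hi
    rcases i with c | ⟨⟨j, hj⟩, i⟩
    · intro t ht
      have hc : c ≠ c0 := fun h => hi (by rw [h])
      have h1 := hsame c c0 hc t ht
      have h2 : ((pos (Sum.inl c) : ℤ) - pos (Sum.inl c0)) - t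
          = κ * ((c.val : ℤ) - c0.val) - t := by
        simp only [pos, Sum.elim_inl]
        push_cast
        ring
      rwa [h2]
    · have h1 : ∀ t : ℤ, |t| ≤ D → ¬ (n : ℤ) ∣
          ((pos (Sum.inl c0) : ℤ) - pos (Sum.inr (⟨j, hj⟩, i))) - t := by
        intro t ht
        have h1 := hdiff j i c0 hj t ht
        have h2 : ((pos (Sum.inl c0) : ℤ) - pos (Sum.inr (⟨j, hj⟩, i))) - t
            = ((s j0 : ℤ) - s j) + κ * ((c0.val : ℤ) - (i : ℕ)) - t := by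
          simp only [pos, Sum.elim_inl, Sum.elim_inr]
          push_cast
          ring
        rwa [h2]
      exact C3_symm h1
  -- the relation
  have hrel2 : NN p n ∣ ∑ i, b i * (p : ℤ) ^ pos i := by
    have h1 : ∑ i, b i * (p : ℤ) ^ pos i
        = (p : ℤ) ^ s j0 * (toPoly v).eval ((p : ℤ) ^ κ)
          + ∑ j : {j : J // j ≠ j0}, (p : ℤ) ^ s j.1 * (β j.1).eval ((p : ℤ) ^ κ) := by
      rw [Fintype.sum_sum_type, Fintype.sum_prod_type]
      congr 1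
      · rw [C3_eval_toPoly, Finset.mul_sum]
        refine Finset.sum_congr rfl fun c _ => ?_
        simp only [pos, b, Sum.elim_inl]
        rw [pow_add, pow_mul]
        ring
      · refine Finset.sum_congr rfl fun j _ => ?_
        have h2 : (β j.1).eval ((p : ℤ) ^ κ)
            = ∑ i : Fin (D0 + 1), (β j.1).coeff (i : ℕ) * ((p : ℤ) ^ κ) ^ (i : ℕ) := by
          rw [Polynomial.eval_eq_sum_range' (Nat.lt_succ_of_le (hdeg j.1)),
            ← Fin.sum_univ_eq_sum_range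
              (fun i => (β j.1).coeff i * ((p : ℤ) ^ κ) ^ i) (D0 + 1)]
        rw [h2, Finset.mul_sum]
        refine Finset.sum_congr rfl fun i _ => ?_
        simp only [pos, b, Sum.elim_inr]
        rw [pow_add, pow_mul]
        ring
    have h3 : ∑ j, (p : ℤ) ^ s j * (β j).eval ((p : ℤ) ^ κ)
        = (p : ℤ) ^ s j0 * (β j0).eval ((p : ℤ) ^ κ)
          + ∑ j : {j : J // j ≠ j0}, (p : ℤ) ^ s j.1 * (β j.1).eval ((p : ℤ) ^ κ) := by
      rw [← Finset.add_sum_erase univ _ (mem_univ j0)]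
      congr 1
      exact Finset.sum_subtype (univ.erase j0) (fun j => by simp)
        (fun j => (p : ℤ) ^ s j * (β j).eval ((p : ℤ) ^ κ))
    have h4 := eval_dvd hκ hk _ hdvd
    have h5 : ∑ i, b i * (p : ℤ) ^ pos i
        = ∑ j, (p : ℤ) ^ s j * (β j).eval ((p : ℤ) ^ κ)
          - (p : ℤ) ^ s j0 * (β j0 - toPoly v).eval ((p : ℤ) ^ κ) := by
      rw [h1, h3, eval_sub]
      ring
    rw [h5]
    exact dvd_sub hrel (Dvd.dvd.mul_left h4 _)
  have hrel3 : NN p n ∣ ∑ i, b i * (p : ℤ) ^ (pos i % n) := by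
    have h3 : NN p n ∣ ∑ i, (b i * (p : ℤ) ^ pos i - b i * (p : ℤ) ^ (pos i % n)) := by
      refine Finset.dvd_sum (fun i _ => ?_)
      rw [← mul_sub]
      exact Dvd.dvd.mul_left (C3_pow_mod p n _) _
    rw [Finset.sum_sub_distrib] at h3
    have h4 := dvd_sub hrel2 h3
    rwa [sub_sub_cancel] at h4
  -- the size
  have hb : ∑ i, |b i| < (p : ℤ) ^ (D - 1) := by
    have h1 : ∀ i, |b i| ≤ (p : ℤ) ^ (B' + B) := by
      intro i
      rcases i with c | ⟨j, i⟩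
      · refine (hv c).trans (pow_le_pow_right₀ hp1 (by omega))
      · refine (hcoef j.1 _).trans (pow_le_pow_right₀ hp1 (by omega))
    have h2 : ∑ i, |b i| ≤
        (Fintype.card (ZMod k ⊕ ({j : J // j ≠ j0} × Fin (D0 + 1))) : ℤ) * (p : ℤ) ^ (B' + B) := by
      refine (Finset.sum_le_card_nsmul _ _ _ (fun i _ => h1 i)).trans_eq ?_
      rw [nsmul_eq_mul, Finset.card_univ]
    have h3 : Fintype.card (ZMod k ⊕ ({j : J // j ≠ j0} × Fin (D0 + 1)))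
        ≤ k + Fintype.card J * (D0 + 1) := by
      rw [Fintype.card_sum, ZMod.card, Fintype.card_prod, Fintype.card_fin]
      have := Fintype.card_subtype_le (fun j : J => j ≠ j0)
      gcongr
    have h4 := C3_size hp (k + Fintype.card J * (D0 + 1)) (B' + B)
    have h5 : D - 1 = B' + B + (k + Fintype.card J * (D0 + 1)) := by omega
    rw [h5]
    refine lt_of_le_of_lt (h2.trans ?_) h4
    refine mul_le_mul_of_nonneg_right ?_ (pow_nonneg hp0.le _)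
    exact_mod_cast h3
  funext c0
  exact isolated hp (by omega) hDn.le (fun i => pos i % n) (fun i => Nat.mod_lt _ hn0) b hb
    (Sum.inl c0) (fun i hi => C3_dist hn0 (hfar c0 i hi)) hrel3

/-- If `∑_j p ^ (s_j) β_j (p ^ κ) ≡ 0` modulo `p ^ n - 1` and the class of `s_{j0}` modulo the rational
multiples of `1` differs from all the others, then `β_{j0}` vanishes in `ℤ[X] / (X ^ k - p)`. -/
theorem isolation (U : Ultrafilter ℕ) (p n κ : ℕ → ℕ) (hp : ∀ ν, 2 ≤ p ν)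
    (hn : ∀ m : ℕ, ∀ᶠ ν in (U : Filter ℕ), m < n ν) (k : ℕ) (hk : 0 < k)
    (hκ : ∀ᶠ ν in (U : Filter ℕ), (n ν : ℤ) ∣ (k : ℤ) * κ ν - 1)
    {J : Type} [Fintype J] [DecidableEq J] (s : J → ℕ → ℕ) (β : J → ℕ → ℤ[X]) (D0 B : ℕ)
    (hdeg : ∀ j, ∀ᶠ ν in (U : Filter ℕ), (β j ν).natDegree ≤ D0)
    (hcoef : ∀ j, ∀ᶠ ν in (U : Filter ℕ), ∀ m, |(β j ν).coeff m| ≤ (p ν : ℤ) ^ B)
    (hrel : ∀ᶠ ν in (U : Filter ℕ),
      NN (p ν) (n ν) ∣ ∑ j, (p ν : ℤ) ^ s j ν * (β j ν).eval ((p ν : ℤ) ^ κ ν))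
    (j0 : J) (hiso : ∀ j, j ≠ j0 → ¬ IsRat U n (fun ν => (s j0 ν : ℤ) - s j ν)) :
    ∀ᶠ ν in (U : Filter ℕ), ((X : ℤ[X]) ^ k - C (p ν : ℤ)) ∣ β j0 ν := by
  have : NeZero k := ⟨hk.ne'⟩
  obtain ⟨B', hB'⟩ := reduce k D0 B
  obtain ⟨D, hD⟩ : ∃ D, D = B' + B + (k + Fintype.card J * (D0 + 1)) + 1 := ⟨_, rfl⟩
  have hsame : ∀ᶠ ν in (U : Filter ℕ), ∀ c c0 : ZMod k, c ≠ c0 → ∀ t : ℤ, |t| ≤ D →
      ¬ (n ν : ℤ) ∣ κ ν * ((c.val : ℤ) - c0.val) - t := by
    rw [eventually_all]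
    intro c
    rw [eventually_all]
    intro c0
    by_cases h : c = c0
    · exact Eventually.of_forall (fun ν hne => absurd h hne)
    · have hc : ¬ (k : ℤ) ∣ (c.val : ℤ) - c0.val := by
        intro hd
        have h1 : (c.val : ℤ) - c0.val = 0 := by
          refine Int.eq_zero_of_abs_lt_dvd hd ?_
          have h2 : (c.val : ℤ) < k := by exact_mod_cast ZMod.val_lt c
          have h3 : (c0.val : ℤ) < k := by exact_mod_cast ZMod.val_lt c0
          have h4 : (0 : ℤ) ≤ (c.val : ℤ) := Int.natCast_nonneg _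
          have h5 : (0 : ℤ) ≤ (c0.val : ℤ) := Int.natCast_nonneg _
          rw [abs_lt]
          constructor <;> linarith
        refine h (ZMod.val_injective k ?_)
        have h6 : (c.val : ℤ) = c0.val := by linarith
        exact_mod_cast h6
      filter_upwards [far_same U n κ hn k hk hκ _ hc D] with ν hν _ using hν
  have hdiff : ∀ᶠ ν in (U : Filter ℕ), ∀ (j : J) (i : Fin (D0 + 1)) (c0 : ZMod k), j ≠ j0 →
      ∀ t : ℤ, |t| ≤ D →
      ¬ (n ν : ℤ) ∣ ((s j0 ν : ℤ) - s j ν) + κ ν * ((c0.val : ℤ) - (i : ℕ)) - t := by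
    rw [eventually_all]
    intro j
    rw [eventually_all]
    intro i
    rw [eventually_all]
    intro c0
    by_cases h : j = j0
    · exact Eventually.of_forall (fun ν hne => absurd h hne)
    · filter_upwards [far_of_not_rat U n κ k hk hκ _ (hiso j h) ((c0.val : ℤ) - (i : ℕ)) D]
        with ν hν _ using hν
  have hdeg' : ∀ᶠ ν in (U : Filter ℕ), ∀ j, (β j ν).natDegree ≤ D0 := eventually_all.mpr hdeg
  have hcoef' : ∀ᶠ ν in (U : Filter ℕ), ∀ j, ∀ m, |(β j ν).coeff m| ≤ (p ν : ℤ) ^ B :=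
    eventually_all.mpr hcoef
  filter_upwards [hdeg', hcoef', hrel, hn D, hκ, hsame, hdiff] with ν h1 h2 h3 h4 h5 h6 h7
  obtain ⟨v, hv, hdvd⟩ := hB' (p ν) (hp ν) (β j0 ν) (h1 j0) (h2 j0)
  have hv0 : v = 0 := C3_core (hp ν) hk h5 (fun j => s j ν) (fun j => β j ν) D0 B B' h1 h2 h3 j0
    v hv hdvd D hD h4 h6 h7
  have h8 : toPoly v = 0 := by
    rw [hv0]
    unfold toPoly
    simp
  rwa [h8, sub_zero] at hdvd

end Pool.Agent.Helper21.FC
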