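import Pool.Agent.Helper21.FC.Defs

/-!
MP_0aa406_nt, project FC (helper21): rational positions.
-/

set_option autoImplicit false

namespace Pool.Agent.Helper21.FC

open Finset Filter

theorem isRat_zero (U : Ultrafilter ℕ) (n : ℕ → ℕ) : IsRat U n (fun _ => 0) :=
  ⟨1, one_pos, 0, Eventually.of_forall fun _ => by simp⟩

theorem IsRat.add {U : Ultrafilter ℕ} {n : ℕ → ℕ} {s t : ℕ → ℤ} (hs : IsRat U n s)
    (ht : IsRat U n t) : IsRat U n (fun ν => s ν + t ν) := by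
  obtain ⟨k, hk, a, ha⟩ := hs
  obtain ⟨l, hl, b, hb⟩ := ht
  refine ⟨k * l, Nat.mul_pos hk hl, l * a + k * b, ?_⟩
  filter_upwards [ha, hb] with ν h1 h2
  have h3 : ((k * l : ℕ) : ℤ) * (s ν + t ν) - (l * a + k * b) =
      (l : ℤ) * ((k : ℤ) * s ν - a) + (k : ℤ) * ((l : ℤ) * t ν - b) := by
    push_cast
    ring
  rw [h3]
  exact dvd_add (Dvd.dvd.mul_left h1 _) (Dvd.dvd.mul_left h2 _)

theorem IsRat.neg {U : Ultrafilter ℕ} {n : ℕ → ℕ} {s : ℕ → ℤ} (hs : IsRat U n s) :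
    IsRat U n (fun ν => - s ν) := by
  obtain ⟨k, hk, a, ha⟩ := hs
  refine ⟨k, hk, -a, ?_⟩
  filter_upwards [ha] with ν h1
  have h3 : (k : ℤ) * (- s ν) - (-a) = -((k : ℤ) * s ν - a) := by ring
  rw [h3]
  exact (dvd_neg).2 h1

theorem IsRat.of_mul {U : Ultrafilter ℕ} {n : ℕ → ℕ} {s : ℕ → ℤ} (m : ℤ) (hm : m ≠ 0)
    (hs : IsRat U n (fun ν => m * s ν)) : IsRat U n s := by
  obtain ⟨k, hk, a, ha⟩ := hs
  refine ⟨k * m.natAbs, Nat.mul_pos hk (Int.natAbs_pos.2 hm), Int.sign m * a, ?_⟩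
  filter_upwards [ha] with ν h1
  have h3 : ((k * m.natAbs : ℕ) : ℤ) * s ν - Int.sign m * a =
      Int.sign m * ((k : ℤ) * (m * s ν) - a) := by
    have h4 : (m.natAbs : ℤ) = Int.sign m * m := by
      rw [Int.sign_mul_self_eq_natAbs]
    push_cast
    have h5 : |m| = Int.sign m * m := by rw [← h4, Int.natCast_natAbs]
    rw [h5]
    ring
  rw [h3]
  exact Dvd.dvd.mul_left h1 _

/-- finitely many rational positions have a common denominator -/
theorem common_denominator (U : Ultrafilter ℕ) (n : ℕ → ℕ) {J : Type} [Finite J]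
    (s : J → ℕ → ℤ) (hs : ∀ j, IsRat U n (s j)) :
    ∃ k : ℕ, 0 < k ∧ ∀ j, ∃ t : ℤ, ∀ᶠ ν in (U : Filter ℕ), (n ν : ℤ) ∣ (k : ℤ) * s j ν - t := by
  classical
  cases nonempty_fintype J
  choose k hk t ht using hs
  refine ⟨∏ j, k j, Finset.prod_pos fun j _ => hk j, fun j => ?_⟩
  obtain ⟨c, hc⟩ := Finset.dvd_prod_of_mem k (Finset.mem_univ j)
  refine ⟨c * t j, ?_⟩
  filter_upwards [ht j] with ν h1
  have h3 : ((∏ j, k j : ℕ) : ℤ) * s j ν - c * t j = (c : ℤ) * ((k j : ℤ) * s j ν - t j) := by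
    rw [hc]
    push_cast
    ring
  rw [h3]
  exact Dvd.dvd.mul_left h1 _

end Pool.Agent.Helper21.FC
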