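import Pool.Agent.Helper21.FC.C4a

/-!
MP_0aa406_nt, project FC (helper21): two unique sums of classes.
-/

set_option autoImplicit false

namespace Pool.Agent.Helper21.FC

open Finset Filter

/-- the subgroup of rational positions -/
def C4b_R (U : Ultrafilter ℕ) (n : ℕ → ℕ) : AddSubgroup (ℕ → ℤ) where
  carrier := {s | IsRat U n s}
  zero_mem' := isRat_zero U n
  add_mem' := fun hs ht => IsRat.add hs ht
  neg_mem' := fun hs => IsRat.neg hs

theorem C4b_mem {U : Ultrafilter ℕ} {n : ℕ → ℕ} {s : ℕ → ℤ} :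
    s ∈ C4b_R U n ↔ IsRat U n s := Iff.rfl

/-- the relations between the positions -/
def C4b_L (U : Ultrafilter ℕ) (n : ℕ → ℕ) {K : Type} [Fintype K] (v : K → ℕ → ℤ) :
    AddSubgroup (K → ℤ) :=
  (C4b_R U n).comap (Fintype.linearCombination ℤ v).toAddMonoidHom

theorem C4b_memL {U : Ultrafilter ℕ} {n : ℕ → ℕ} {K : Type} [Fintype K] {v : K → ℕ → ℤ}
    {x : K → ℤ} : x ∈ C4b_L U n v ↔ IsRat U n (Fintype.linearCombination ℤ v x) := Iff.rfl

instance C4b_tf (U : Ultrafilter ℕ) (n : ℕ → ℕ) {K : Type} [Fintype K] (v : K → ℕ → ℤ) :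
    IsAddTorsionFree ((K → ℤ) ⧸ C4b_L U n v) where
  nsmul_right_injective := by
    intro m hm x y hxy
    induction x using QuotientAddGroup.induction_on with
    | H x =>
      induction y using QuotientAddGroup.induction_on with
      | H y =>
        have h1 : ((m • x : K → ℤ) : (K → ℤ) ⧸ C4b_L U n v) = ((m • y : K → ℤ) :) := hxy
        rw [QuotientAddGroup.eq] at h1 ⊢
        have h2 : -(m • x) + m • y = m • (-x + y) := by
          rw [smul_add, smul_neg]
        rw [h2, C4b_memL, map_nsmul] at h1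
        rw [C4b_memL]
        refine IsRat.of_mul (m : ℤ) (by exact_mod_cast hm) ?_
        convert h1 using 1
        funext ν
        simp

instance C4b_fg (U : Ultrafilter ℕ) (n : ℕ → ℕ) {K : Type} [Fintype K] (v : K → ℕ → ℤ) :
    AddMonoid.FG ((K → ℤ) ⧸ C4b_L U n v) := by
  have h1 : AddGroup.FG (K → ℤ) := Module.Finite.iff_addGroup_fg.mp inferInstance
  have h2 : AddGroup.FG ((K → ℤ) ⧸ C4b_L U n v) := inferInstance
  exact AddGroup.fg_iff_addMonoid_fg.mp h2

/-- Two unique sums: given finitely many positions `q i`, `i ∈ I`, and `q' j`, `j ∈ J`, and nonempty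
sets `A`, `B` of indices in pairwise different classes with `1 < |A| |B|`, there is a pair
`(a, b) ∈ A × B` whose sum is not rational and whose class is attained only once. -/
theorem unique_pair (U : Ultrafilter ℕ) (n : ℕ → ℕ) {I J : Type} [Fintype I] [Fintype J]
    [DecidableEq I] [DecidableEq J] (q : I → ℕ → ℤ) (q' : J → ℕ → ℤ) (A : Finset I) (B : Finset J)
    (hA : ∀ a ∈ A, ∀ a' ∈ A, a ≠ a' → ¬ IsRat U n (fun ν => q a ν - q a' ν))
    (hB : ∀ b ∈ B, ∀ b' ∈ B, b ≠ b' → ¬ IsRat U n (fun ν => q' b ν - q' b' ν))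
    (hAB : 1 < A.card * B.card) :
    ∃ a ∈ A, ∃ b ∈ B, ¬ IsRat U n (fun ν => q a ν + q' b ν) ∧
      ∀ a' ∈ A, ∀ b' ∈ B, (a', b') ≠ (a, b) →
        ¬ IsRat U n (fun ν => (q a ν + q' b ν) - (q a' ν + q' b' ν)) := by
  classical
  obtain ⟨v, hv⟩ : ∃ v : I ⊕ J → ℕ → ℤ, v = Sum.elim q q' := ⟨_, rfl⟩
  obtain ⟨f, hf⟩ : ∃ f : I → ((I ⊕ J → ℤ) ⧸ C4b_L U n v),
    ∀ i, f i = ((Pi.single (Sum.inl i) 1 : I ⊕ J → ℤ) :) := ⟨_, fun _ => rfl⟩
  obtain ⟨g, hg⟩ : ∃ g : J → ((I ⊕ J → ℤ) ⧸ C4b_L U n v),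
    ∀ j, g j = ((Pi.single (Sum.inr j) 1 : I ⊕ J → ℤ) :) := ⟨_, fun _ => rfl⟩
  have hsl : ∀ k, Fintype.linearCombination ℤ v (Pi.single k 1) = v k := by
    intro k
    rw [Fintype.linearCombination_apply_single, one_smul]
  have hfi : Set.InjOn f A := by
    intro a ha a' ha' h
    by_contra hne
    rw [hf, hf, QuotientAddGroup.eq, C4b_memL, map_add, map_neg, hsl, hsl, hv] at h
    refine hA a' ha' a ha (fun h' => hne h'.symm) ?_
    convert h using 1
    funext ν
    simp only [Sum.elim_inl, Pi.add_apply, Pi.neg_apply]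
    ring
  have hgi : Set.InjOn g B := by
    intro b hb b' hb' h
    by_contra hne
    rw [hg, hg, QuotientAddGroup.eq, C4b_memL, map_add, map_neg, hsl, hsl, hv] at h
    refine hB b' hb' b hb (fun h' => hne h'.symm) ?_
    convert h using 1
    funext ν
    simp only [Sum.elim_inr, Pi.add_apply, Pi.neg_apply]
    ring
  have hcard : 1 < (A.image f).card * (B.image g).card := by
    rw [Finset.card_image_of_injOn hfi, Finset.card_image_of_injOn hgi]
    exact hAB
  obtain ⟨p1, hp1, p2, hp2, hne, hu1, hu2⟩ := TwoUniqueSums.uniqueAdd_of_one_lt_card hcard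
  have key : ∀ p ∈ A.image f ×ˢ B.image g, p.1 + p.2 ≠ 0 →
      UniqueAdd (A.image f) (B.image g) p.1 p.2 →
      ∃ a ∈ A, ∃ b ∈ B, ¬ IsRat U n (fun ν => q a ν + q' b ν) ∧
        ∀ a' ∈ A, ∀ b' ∈ B, (a', b') ≠ (a, b) →
          ¬ IsRat U n (fun ν => (q a ν + q' b ν) - (q a' ν + q' b' ν)) := by
    intro p hp h0 hu
    obtain ⟨hpA, hpB⟩ := Finset.mem_product.mp hp
    obtain ⟨a, ha, hfa⟩ := Finset.mem_image.mp hpA
    obtain ⟨b, hb, hgb⟩ := Finset.mem_image.mp hpB
    refine ⟨a, ha, b, hb, ?_, ?_⟩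
    · intro hr
      apply h0
      rw [← hfa, ← hgb, hf, hg, ← QuotientAddGroup.mk_add, QuotientAddGroup.eq_zero_iff,
        C4b_memL, map_add, hsl, hsl, hv]
      exact hr
    · intro a' ha' b' hb' hne' hr
      apply hne'
      have h1 : f a' + g b' = p.1 + p.2 := by
        rw [← hfa, ← hgb, hf, hg, hf, hg, ← QuotientAddGroup.mk_add, ← QuotientAddGroup.mk_add,
          QuotientAddGroup.eq, C4b_memL, map_add, map_neg, map_add, map_add, hsl, hsl, hsl, hsl, hv]
        convert hr using 1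
        funext ν
        simp only [Sum.elim_inl, Sum.elim_inr, Pi.add_apply, Pi.neg_apply]
        ring
      obtain ⟨h2, h3⟩ := hu (Finset.mem_image_of_mem f ha') (Finset.mem_image_of_mem g hb') h1
      rw [← hfa] at h2
      rw [← hgb] at h3
      exact Prod.ext (hfi ha' ha h2) (hgi hb' hb h3)
  by_cases h0 : p1.1 + p1.2 = 0
  · refine key p2 hp2 ?_ hu2
    intro h0'
    obtain ⟨h1, h2⟩ := hu1 (Finset.mem_product.mp hp2).1 (Finset.mem_product.mp hp2).2
      (h0'.trans h0.symm)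
    exact hne (Prod.ext h1.symm h2.symm)
  · exact key p1 hp1 h0 hu1

end Pool.Agent.Helper21.FC
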