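import Pool.Agent.Helper21.FC.C4a
import Pool.Agent.Helper21.FC.P1

/-!
MP_0aa406_nt, project FC (helper21): grouping a sparse sum by classes.
-/

set_option autoImplicit false

namespace Pool.Agent.Helper21.FC

open Finset Filter Polynomial

/-- powers with congruent exponents agree modulo `p ^ n - 1` -/
theorem C5a_pow_congr_aux (p n a b : ℕ) (h : (n : ℤ) ∣ (a : ℤ) - b) (hab : b ≤ a) :
    NN p n ∣ (p : ℤ) ^ a - (p : ℤ) ^ b := by
  obtain ⟨c, rfl⟩ := Nat.exists_eq_add_of_le hab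
  have h1 : n ∣ c := by
    have h2 : (n : ℤ) ∣ (c : ℤ) := by
      have h3 : ((b + c : ℕ) : ℤ) - b = c := by push_cast; ring
      rwa [h3] at h
    exact_mod_cast h2
  obtain ⟨d, rfl⟩ := h1
  have h4 : (p : ℤ) ^ (b + n * d) - (p : ℤ) ^ b = (p : ℤ) ^ b * (((p : ℤ) ^ n) ^ d - 1 ^ d) := by
    rw [pow_add, pow_mul, one_pow]; ring
  rw [h4]
  exact Dvd.dvd.mul_left (sub_dvd_pow_sub_pow _ _ d) _

theorem C5a_pow_congr (p n a b : ℕ) (h : (n : ℤ) ∣ (a : ℤ) - b) :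
    NN p n ∣ (p : ℤ) ^ a - (p : ℤ) ^ b := by
  rcases le_total b a with hab | hab
  · exact C5a_pow_congr_aux p n a b h hab
  · have h1 : (n : ℤ) ∣ (b : ℤ) - a := by
      have h2 : (b : ℤ) - a = -((a : ℤ) - b) := by ring
      rw [h2]; exact (dvd_neg).mpr h
    have h3 := C5a_pow_congr_aux p n b a h1 hab
    have h4 : (p : ℤ) ^ a - (p : ℤ) ^ b = -((p : ℤ) ^ b - (p : ℤ) ^ a) := by ring
    rw [h4]; exact (dvd_neg).mpr h3

/-- the congruence between the exponents -/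
theorem C5a_exp (n κ k T e q q' : ℕ) (t : ℤ) (hn : 0 < n)
    (hκ : (n : ℤ) ∣ (k : ℤ) * κ - 1)
    (ht : (n : ℤ) ∣ (k : ℤ) * ((q : ℤ) - q') - t) (he : (e : ℤ) = t + T) :
    (n : ℤ) ∣ (q : ℤ) - ((q' + κ * T * (n - 1) + κ * e : ℕ) : ℤ) := by
  have h1 : ((n - 1 : ℕ) : ℤ) = (n : ℤ) - 1 := by
    have := Nat.cast_sub (R := ℤ) (Nat.one_le_iff_ne_zero.mpr hn.ne')
    simpa using this
  push_cast
  rw [h1, he]
  have h2 : (q : ℤ) - ((q' : ℤ) + κ * T * ((n : ℤ) - 1) + κ * (t + T)) =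
      κ * ((k : ℤ) * ((q : ℤ) - q') - t) - ((q : ℤ) - q') * ((k : ℤ) * κ - 1) - n * (κ * T) := by
    ring
  rw [h2]
  exact dvd_sub (dvd_sub (Dvd.dvd.mul_left ht _) (Dvd.dvd.mul_left hκ _)) (Dvd.intro _ rfl)

/-- the new positions are rational translates of the old ones -/
theorem C5a_shift (n κ k T q : ℕ) (hn : 0 < n) (hκ : (n : ℤ) ∣ (k : ℤ) * κ - 1) :
    (n : ℤ) ∣ (k : ℤ) * (((q + κ * T * (n - 1) : ℕ) : ℤ) - q) - (-(T : ℤ)) := by
  have h1 : ((n - 1 : ℕ) : ℤ) = (n : ℤ) - 1 := by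
    have := Nat.cast_sub (R := ℤ) (Nat.one_le_iff_ne_zero.mpr hn.ne')
    simpa using this
  push_cast
  rw [h1]
  have h2 : (k : ℤ) * ((q : ℤ) + κ * T * ((n : ℤ) - 1) - q) - (-(T : ℤ)) =
      n * ((k : ℤ) * κ * T) - T * ((k : ℤ) * κ - 1) := by
    ring
  rw [h2]
  exact dvd_sub (Dvd.intro _ rfl) (Dvd.dvd.mul_left hκ _)

/-- the bound for the coefficients -/
theorem C5a_coeff {I : Type} [Fintype I] [DecidableEq I] (p : ℕ) (hp : 2 ≤ p) (S : Finset I)
    (u : I → ℤ) (hu : ∀ i, |u i| ≤ p) (e : I → ℕ) (m : ℕ) :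
    |(∑ i ∈ S, C (u i) * (X : ℤ[X]) ^ e i).coeff m| ≤ (p : ℤ) ^ (Fintype.card I + 1) := by
  have h1 : (∑ i ∈ S, C (u i) * (X : ℤ[X]) ^ e i).coeff m =
      ∑ i ∈ S, if m = e i then u i else 0 := by
    rw [finsetSum_coeff]
    refine Finset.sum_congr rfl fun i _ => ?_
    rw [coeff_C_mul_X_pow]
  rw [h1]
  have h2 : |∑ i ∈ S, if m = e i then u i else 0| ≤ ∑ i ∈ S, (p : ℤ) := by
    refine (Finset.abs_sum_le_sum_abs _ _).trans (Finset.sum_le_sum fun i _ => ?_)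
    split_ifs
    · exact hu i
    · simp
  refine h2.trans ?_
  rw [Finset.sum_const, nsmul_eq_mul, pow_succ]
  have h3 : (S.card : ℤ) ≤ (p : ℤ) ^ Fintype.card I := by
    have h4 : S.card ≤ Fintype.card I := Finset.card_le_univ S
    have h5 : Fintype.card I ≤ 2 ^ Fintype.card I := Nat.lt_two_pow_self.le
    have h6 : 2 ^ Fintype.card I ≤ p ^ Fintype.card I := Nat.pow_le_pow_left hp _
    have h7 : S.card ≤ p ^ Fintype.card I := h4.trans (h5.trans h6)
    exact_mod_cast h7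
  exact mul_le_mul_of_nonneg_right h3 (by positivity)

/-- grouping the terms of a sparse sum by classes -/
theorem grouping (U : Ultrafilter ℕ) (p n κ : ℕ → ℕ) (hp : ∀ ν, 2 ≤ p ν)
    (hn : ∀ m : ℕ, ∀ᶠ ν in (U : Filter ℕ), m < n ν) (k : ℕ) (hk : 0 < k)
    (hκ : ∀ᶠ ν in (U : Filter ℕ), (n ν : ℤ) ∣ (k : ℤ) * κ ν - 1)
    {I : Type} [Fintype I] [DecidableEq I] (q : I → ℕ → ℕ) (u : I → ℕ → ℤ)
    (hu : ∀ i ν, |u i ν| ≤ p ν)
    (hden : ∀ i i', IsRat U n (fun ν => (q i ν : ℤ) - q i' ν) →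
      ∃ t : ℤ, ∀ᶠ ν in (U : Filter ℕ), (n ν : ℤ) ∣ (k : ℤ) * ((q i ν : ℤ) - q i' ν) - t) :
    ∃ (A : Finset I) (r : I → ℕ → ℕ) (M : I → ℕ → ℤ[X]) (D0 B : ℕ),
      (∀ i, ∃ t : ℤ, ∀ᶠ ν in (U : Filter ℕ), (n ν : ℤ) ∣ (k : ℤ) * ((r i ν : ℤ) - q i ν) - t) ∧
      (∀ a ∈ A, ∀ a' ∈ A, a ≠ a' → ¬ IsRat U n (fun ν => (q a ν : ℤ) - q a' ν)) ∧
      (∀ a ∈ A, ∀ᶠ ν in (U : Filter ℕ), ¬ ((X : ℤ[X]) ^ k - C (p ν : ℤ)) ∣ M a ν) ∧
      (∀ a ∈ A, ∀ᶠ ν in (U : Filter ℕ), (M a ν).natDegree ≤ D0) ∧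
      (∀ a ∈ A, ∀ᶠ ν in (U : Filter ℕ), ∀ m, |(M a ν).coeff m| ≤ (p ν : ℤ) ^ B) ∧
      ∀ᶠ ν in (U : Filter ℕ), NN (p ν) (n ν) ∣ ∑ i, u i ν * (p ν : ℤ) ^ q i ν -
        ∑ a ∈ A, (p ν : ℤ) ^ r a ν * (M a ν).eval ((p ν : ℤ) ^ κ ν) := by
  classical
  -- the equivalence relation
  let s : Setoid I :=
    { r := fun i i' => IsRat U n (fun ν => (q i ν : ℤ) - q i' ν)
      iseqv :=
        { refl := fun i => by
            have h := isRat_zero U n
            have h2 : (fun ν => (q i ν : ℤ) - q i ν) = fun _ => (0 : ℤ) := by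
              funext ν; ring
            rw [h2]; exact h
          symm := fun {i j} h => by
            have h1 := h.neg
            have h2 : (fun ν => (q j ν : ℤ) - q i ν) = fun ν => -((q i ν : ℤ) - q j ν) := by
              funext ν; ring
            rw [h2]; exact h1
          trans := fun {i j l} h h' => by
            have h1 := h.add h'
            have h2 : (fun ν => (q i ν : ℤ) - q l ν) =
                fun ν => ((q i ν : ℤ) - q j ν) + ((q j ν : ℤ) - q l ν) := by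
              funext ν; ring
            rw [h2]; exact h1 } }
  let rep : I → I := fun i => (Quotient.mk s i).out
  have hrep : ∀ i, IsRat U n (fun ν => (q i ν : ℤ) - q (rep i) ν) := by
    intro i
    have h1 : s.r (rep i) i := Quotient.mk_out (s := s) i
    exact s.iseqv.symm h1
  have hrep2 : ∀ i j, IsRat U n (fun ν => (q i ν : ℤ) - q j ν) → rep i = rep j := by
    intro i j h
    have h1 : Quotient.mk s i = Quotient.mk s j := Quotient.sound h
    show (Quotient.mk s i).out = (Quotient.mk s j).out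
    rw [h1]
  have hrep3 : ∀ i, rep (rep i) = rep i := by
    intro i
    show (Quotient.mk s (Quotient.mk s i).out).out = (Quotient.mk s i).out
    rw [Quotient.out_eq]
  choose t ht using fun i => hden i (rep i) (hrep i)
  obtain ⟨T, hT⟩ : ∃ T : ℕ, ∀ i, |t i| ≤ T := by
    refine ⟨∑ i, (t i).natAbs, fun i => ?_⟩
    have h1 : (t i).natAbs ≤ ∑ i, (t i).natAbs :=
      Finset.single_le_sum (f := fun i => (t i).natAbs) (fun _ _ => Nat.zero_le _)
        (Finset.mem_univ i)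
    rw [Int.abs_eq_natAbs]
    exact_mod_cast h1
  let e : I → ℕ := fun i => (t i + T).toNat
  have he : ∀ i, (e i : ℤ) = t i + T := by
    intro i
    have h1 := neg_le_of_abs_le (hT i)
    exact Int.toNat_of_nonneg (by linarith)
  have he2 : ∀ i, e i ≤ 2 * T := by
    intro i
    have h1 := le_of_abs_le (hT i)
    have h2 := he i
    have h3 : (e i : ℤ) ≤ ((2 * T : ℕ) : ℤ) := by push_cast; linarith
    exact_mod_cast h3
  let M : I → ℕ → ℤ[X] := fun a ν =>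
    ∑ i ∈ univ.filter (fun i => rep i = a), C (u i ν) * (X : ℤ[X]) ^ e i
  let A : Finset I :=
    univ.filter (fun a => ¬ ∀ᶠ ν in (U : Filter ℕ), ((X : ℤ[X]) ^ k - C (p ν : ℤ)) ∣ M a ν)
  have hA : ∀ a ∈ A, rep a = a := by
    intro a ha
    by_contra hne
    have h1 := (Finset.mem_filter.mp ha).2
    apply h1
    refine Filter.Eventually.of_forall fun ν => ?_
    have h2 : univ.filter (fun i => rep i = a) = ∅ := by
      refine Finset.filter_eq_empty_iff.mpr fun i _ hi => ?_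
      apply hne
      rw [← hi]; exact hrep3 i
    have h3 : M a ν = 0 := by
      show ∑ i ∈ univ.filter (fun i => rep i = a), C (u i ν) * (X : ℤ[X]) ^ e i = 0
      rw [h2, Finset.sum_empty]
    rw [h3]; exact dvd_zero _
  refine ⟨A, fun a ν => q a ν + κ ν * T * (n ν - 1), M, 2 * T, Fintype.card I + 1,
    ?_, ?_, ?_, ?_, ?_, ?_⟩
  · intro i
    refine ⟨-(T : ℤ), ?_⟩
    filter_upwards [hn 0, hκ] with ν h1 h2
    exact C5a_shift (n ν) (κ ν) k T (q i ν) h1 h2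
  · intro a ha a' ha' hne hrat
    apply hne
    rw [← hA a ha, ← hA a' ha']
    exact hrep2 a a' hrat
  · intro a ha
    exact Ultrafilter.eventually_not.mpr (Finset.mem_filter.mp ha).2
  · intro a _
    refine Filter.Eventually.of_forall fun ν => ?_
    refine natDegree_sum_le_of_forall_le _ _ fun i _ => ?_
    exact (natDegree_C_mul_X_pow_le _ _).trans (he2 i)
  · intro a _
    refine Filter.Eventually.of_forall fun ν m => ?_
    exact C5a_coeff (p ν) (hp ν) _ (fun i => u i ν) (fun i => hu i ν) e m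
  · have hnA : ∀ a, a ∉ A → ∀ᶠ ν in (U : Filter ℕ), ((X : ℤ[X]) ^ k - C (p ν : ℤ)) ∣ M a ν := by
      intro a ha
      by_contra h
      exact ha (Finset.mem_filter.mpr ⟨Finset.mem_univ a, h⟩)
    have hnA2 : ∀ᶠ ν in (U : Filter ℕ), ∀ a, a ∉ A → ((X : ℤ[X]) ^ k - C (p ν : ℤ)) ∣ M a ν := by
      rw [Filter.eventually_all]
      intro a
      by_cases ha : a ∈ A
      · exact Filter.Eventually.of_forall fun ν h => absurd ha h
      · exact (hnA a ha).mono fun ν h _ => h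
    have hall : ∀ᶠ ν in (U : Filter ℕ), ∀ i,
        (n ν : ℤ) ∣ (k : ℤ) * ((q i ν : ℤ) - q (rep i) ν) - t i := by
      rw [Filter.eventually_all]
      exact ht
    filter_upwards [hn 0, hκ, hnA2, hall] with ν h1 h2 h3 h4
    have key : ∀ a, NN (p ν) (n ν) ∣ ∑ i ∈ univ.filter (fun i => rep i = a),
        u i ν * (p ν : ℤ) ^ q i ν -
        (p ν : ℤ) ^ (q a ν + κ ν * T * (n ν - 1)) * (M a ν).eval ((p ν : ℤ) ^ κ ν) := by
      intro a
      have h5 : (M a ν).eval ((p ν : ℤ) ^ κ ν) = ∑ i ∈ univ.filter (fun i => rep i = a),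
          u i ν * (p ν : ℤ) ^ (κ ν * e i) := by
        show (∑ i ∈ univ.filter (fun i => rep i = a), C (u i ν) * (X : ℤ[X]) ^ e i).eval
          ((p ν : ℤ) ^ κ ν) = _
        rw [eval_finsetSum]
        refine Finset.sum_congr rfl fun i _ => ?_
        rw [eval_mul, eval_C, eval_pow, eval_X, pow_mul]
      rw [h5, Finset.mul_sum, ← Finset.sum_sub_distrib]
      refine Finset.dvd_sum fun i hi => ?_
      have hia : rep i = a := (Finset.mem_filter.mp hi).2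
      have h6 := C5a_exp (n ν) (κ ν) k T (e i) (q i ν) (q a ν) (t i) h1 h2
        (by rw [← hia]; exact h4 i) (he i)
      have h7 := C5a_pow_congr (p ν) (n ν) _ _ h6
      have h8 : u i ν * (p ν : ℤ) ^ q i ν - (p ν : ℤ) ^ (q a ν + κ ν * T * (n ν - 1)) *
          (u i ν * (p ν : ℤ) ^ (κ ν * e i)) = u i ν * ((p ν : ℤ) ^ q i ν -
            (p ν : ℤ) ^ (q a ν + κ ν * T * (n ν - 1) + κ ν * e i)) := by
        rw [pow_add _ (q a ν + κ ν * T * (n ν - 1))]; ring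
      rw [h8]
      exact Dvd.dvd.mul_left h7 _
    have h9 : NN (p ν) (n ν) ∣ ∑ a : I, (∑ i ∈ univ.filter (fun i => rep i = a),
        u i ν * (p ν : ℤ) ^ q i ν -
        (p ν : ℤ) ^ (q a ν + κ ν * T * (n ν - 1)) * (M a ν).eval ((p ν : ℤ) ^ κ ν)) :=
      Finset.dvd_sum fun a _ => key a
    have h10 : NN (p ν) (n ν) ∣ ∑ a ∈ univ \ A,
        (p ν : ℤ) ^ (q a ν + κ ν * T * (n ν - 1)) * (M a ν).eval ((p ν : ℤ) ^ κ ν) := by
      refine Finset.dvd_sum fun a ha => ?_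
      have h11 := h3 a (Finset.mem_sdiff.mp ha).2
      exact Dvd.dvd.mul_left (eval_dvd h2 hk _ h11) _
    have h12 : ∑ i, u i ν * (p ν : ℤ) ^ q i ν -
        ∑ a ∈ A, (p ν : ℤ) ^ (q a ν + κ ν * T * (n ν - 1)) * (M a ν).eval ((p ν : ℤ) ^ κ ν) =
        ∑ a : I, (∑ i ∈ univ.filter (fun i => rep i = a), u i ν * (p ν : ℤ) ^ q i ν -
          (p ν : ℤ) ^ (q a ν + κ ν * T * (n ν - 1)) * (M a ν).eval ((p ν : ℤ) ^ κ ν)) +
        ∑ a ∈ univ \ A,
          (p ν : ℤ) ^ (q a ν + κ ν * T * (n ν - 1)) * (M a ν).eval ((p ν : ℤ) ^ κ ν) := by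
      rw [Finset.sum_sub_distrib, Finset.sum_fiberwise,
        ← Finset.sum_sdiff (Finset.subset_univ A) (f := fun a =>
          (p ν : ℤ) ^ (q a ν + κ ν * T * (n ν - 1)) * (M a ν).eval ((p ν : ℤ) ^ κ ν))]
      ring
    rw [h12]
    exact dvd_add h9 h10

end Pool.Agent.Helper21.FC
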