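import Pool.Agent.Helper21.FC.C3
import Pool.Agent.Helper21.FC.C4b
import Pool.Agent.Helper21.FC.C5a

/-!
MP_0aa406_nt, project FC (helper21): the structure theorem.
-/

set_option autoImplicit false

namespace Pool.Agent.Helper21.FC

open Finset Filter Polynomial

/-- powers of `p` with exponents congruent modulo `n` -/
theorem C5b_pow_congr {p n x y : ℕ} (h : (n : ℤ) ∣ (x : ℤ) - y) :
    NN p n ∣ (p : ℤ) ^ x - (p : ℤ) ^ y := by
  have key : ∀ x y : ℕ, y ≤ x → (n : ℤ) ∣ (x : ℤ) - y → NN p n ∣ (p : ℤ) ^ x - (p : ℤ) ^ y := by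
    intro x y hxy h
    have h1 : (n : ℤ) ∣ ((x - y : ℕ) : ℤ) := by rwa [Nat.cast_sub hxy]
    obtain ⟨s, hs⟩ := Int.natCast_dvd_natCast.1 h1
    have h2 : x = y + n * s := by omega
    have h3 : (p : ℤ) ^ x - (p : ℤ) ^ y = (((p : ℤ) ^ n) ^ s - 1 ^ s) * (p : ℤ) ^ y := by
      rw [h2, pow_add, pow_mul, one_pow]
      ring
    rw [h3]
    exact Dvd.dvd.mul_right (sub_dvd_pow_sub_pow _ _ s) _
  rcases le_total y x with hxy | hxy
  · exact key x y hxy h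
  · have h1 := key y x hxy (by rw [← neg_sub]; exact (dvd_neg).2 h)
    rw [← neg_sub]
    exact (dvd_neg).2 h1

/-- coefficients of a product -/
theorem C5b_coeff_mul {f g : ℤ[X]} {D B B' p : ℕ} (hp : 2 ≤ p) (hD : f.natDegree ≤ D)
    (hf : ∀ m, |f.coeff m| ≤ (p : ℤ) ^ B) (hg : ∀ m, |g.coeff m| ≤ (p : ℤ) ^ B') (m : ℕ) :
    |(f * g).coeff m| ≤ (p : ℤ) ^ (B + B' + D + 1) := by
  have h1 : f * g = ∑ i ∈ range (D + 1), C (f.coeff i) * (X ^ i * g) := by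
    conv_lhs => rw [f.as_sum_range' (D + 1) (by omega)]
    rw [Finset.sum_mul]
    refine Finset.sum_congr rfl fun i _ => ?_
    rw [← C_mul_X_pow_eq_monomial]
    ring
  rw [h1, finsetSum_coeff]
  refine (Finset.abs_sum_le_sum_abs _ _).trans ?_
  have h2 : ∀ i ∈ range (D + 1),
      |(C (f.coeff i) * (X ^ i * g)).coeff m| ≤ (p : ℤ) ^ B * (p : ℤ) ^ B' := by
    intro i _
    rw [coeff_C_mul, abs_mul, coeff_X_pow_mul']
    have hB' : (0 : ℤ) ≤ (p : ℤ) ^ B' := by positivity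
    refine mul_le_mul (hf i) ?_ (abs_nonneg _) (by positivity)
    split_ifs
    · exact hg _
    · simp
  refine (Finset.sum_le_sum h2).trans ?_
  rw [Finset.sum_const, card_range, nsmul_eq_mul]
  have h3 : ((D + 1 : ℕ) : ℤ) ≤ (p : ℤ) ^ (D + 1) := by
    have : D + 1 ≤ p ^ (D + 1) := (Nat.lt_two_pow_self).le.trans (Nat.pow_le_pow_left hp _)
    exact_mod_cast this
  have h4 : (0 : ℤ) ≤ (p : ℤ) ^ B * (p : ℤ) ^ B' := by positivity
  calc ((D + 1 : ℕ) : ℤ) * ((p : ℤ) ^ B * (p : ℤ) ^ B')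
      ≤ (p : ℤ) ^ (D + 1) * ((p : ℤ) ^ B * (p : ℤ) ^ B') := mul_le_mul_of_nonneg_right h3 h4
    _ = (p : ℤ) ^ (B + B' + D + 1) := by
      rw [← pow_add, ← pow_add]
      congr 1
      omega

/-- a natural number is at most a power of `p` -/
theorem C5b_le_pow {p h : ℕ} (hp : 2 ≤ p) : (h : ℤ) ≤ (p : ℤ) ^ h := by
  have : h ≤ p ^ h := (Nat.lt_two_pow_self).le.trans (Nat.pow_le_pow_left hp _)
  exact_mod_cast this

theorem C5b_pow_le {p a b : ℕ} (hp : 2 ≤ p) (h : a ≤ b) : (p : ℤ) ^ a ≤ (p : ℤ) ^ b :=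
  pow_le_pow_right₀ (by exact_mod_cast (by omega : 1 ≤ p)) h

/-- an isolated product of two groups vanishes -/
theorem C5b_iso (U : Ultrafilter ℕ) (p n κ : ℕ → ℕ) (hp : ∀ ν, 2 ≤ p ν)
    (hn : ∀ m : ℕ, ∀ᶠ ν in (U : Filter ℕ), m < n ν) (k : ℕ) (hk : 0 < k)
    (hκ : ∀ᶠ ν in (U : Filter ℕ), (n ν : ℤ) ∣ (k : ℤ) * κ ν - 1)
    {I J : Type} [DecidableEq I] [DecidableEq J] (r : I → ℕ → ℕ) (r' : J → ℕ → ℕ)
    (M : I → ℕ → ℤ[X]) (M' : J → ℕ → ℤ[X]) (A : Finset I) (A' : Finset J) (D0 D0' B B' h : ℕ)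
    (hd : ∀ a ∈ A, ∀ᶠ ν in (U : Filter ℕ), (M a ν).natDegree ≤ D0)
    (hd' : ∀ b ∈ A', ∀ᶠ ν in (U : Filter ℕ), (M' b ν).natDegree ≤ D0')
    (hc : ∀ a ∈ A, ∀ᶠ ν in (U : Filter ℕ), ∀ m, |(M a ν).coeff m| ≤ (p ν : ℤ) ^ B)
    (hc' : ∀ b ∈ A', ∀ᶠ ν in (U : Filter ℕ), ∀ m, |(M' b ν).coeff m| ≤ (p ν : ℤ) ^ B')
    (hrel : ∀ᶠ ν in (U : Filter ℕ), NN (p ν) (n ν) ∣
      (∑ a ∈ A, (p ν : ℤ) ^ r a ν * (M a ν).eval ((p ν : ℤ) ^ κ ν)) *
        (∑ b ∈ A', (p ν : ℤ) ^ r' b ν * (M' b ν).eval ((p ν : ℤ) ^ κ ν)) - h)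
    (a : I) (ha : a ∈ A) (b : J) (hb : b ∈ A')
    (hnr : ¬ IsRat U n (fun ν => (r a ν : ℤ) + r' b ν))
    (hun : ∀ a' ∈ A, ∀ b' ∈ A', (a', b') ≠ (a, b) →
      ¬ IsRat U n (fun ν => ((r a ν : ℤ) + r' b ν) - ((r a' ν : ℤ) + r' b' ν))) :
    ∀ᶠ ν in (U : Filter ℕ), ((X : ℤ[X]) ^ k - C (p ν : ℤ)) ∣ M a ν * M' b ν := by
  have key := isolation U p n κ hp hn k hk hκ (J := Option (A × A'))
    (fun t ν => t.elim 0 (fun x => r x.1 ν + r' x.2 ν))
    (fun t ν => t.elim (C (-(h : ℤ))) (fun x => M x.1 ν * M' x.2 ν))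
    (D0 + D0') (B + B' + D0 + 1 + h) ?_ ?_ ?_ (some (⟨a, ha⟩, ⟨b, hb⟩)) ?_
  · simpa using key
  · intro t
    rcases t with _ | ⟨⟨a', ha'⟩, ⟨b', hb'⟩⟩
    · refine Eventually.of_forall fun ν => ?_
      simp
    · filter_upwards [hd a' ha', hd' b' hb'] with ν h1 h2
      simp only [Option.elim_some]
      exact natDegree_mul_le.trans (by omega)
  · intro t
    rcases t with _ | ⟨⟨a', ha'⟩, ⟨b', hb'⟩⟩
    · refine Eventually.of_forall fun ν m => ?_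
      simp only [Option.elim_none, coeff_C]
      have h1 : (h : ℤ) ≤ (p ν : ℤ) ^ (B + B' + D0 + 1 + h) :=
        (C5b_le_pow (hp ν)).trans (C5b_pow_le (hp ν) (by omega))
      split_ifs
      · rw [abs_neg, abs_of_nonneg (by positivity)]
        exact h1
      · rw [abs_zero]
        positivity
    · filter_upwards [hd a' ha', hc a' ha', hc' b' hb'] with ν h1 h2 h3 m
      simp only [Option.elim_some]
      exact (C5b_coeff_mul (hp ν) h1 h2 h3 m).trans (C5b_pow_le (hp ν) (by omega))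
  · filter_upwards [hrel] with ν hν
    have h1 : ∑ t : Option (A × A'), (p ν : ℤ) ^ (t.elim 0 (fun x => r x.1 ν + r' x.2 ν)) *
        (t.elim (C (-(h : ℤ))) (fun x => M x.1 ν * M' x.2 ν)).eval ((p ν : ℤ) ^ κ ν) =
        (∑ a ∈ A, (p ν : ℤ) ^ r a ν * (M a ν).eval ((p ν : ℤ) ^ κ ν)) *
        (∑ b ∈ A', (p ν : ℤ) ^ r' b ν * (M' b ν).eval ((p ν : ℤ) ^ κ ν)) - h := by
      rw [Fintype.sum_option, Fintype.sum_prod_type, ← Finset.sum_coe_sort A,
        ← Finset.sum_coe_sort A', Finset.sum_mul_sum]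
      simp only [Option.elim_none, Option.elim_some, pow_zero, eval_C, eval_mul, one_mul, pow_add]
      rw [neg_add_eq_sub]
      congr 1
      refine Finset.sum_congr rfl fun x _ => Finset.sum_congr rfl fun y _ => ?_
      ring
    rw [h1]
    exact hν
  · intro t ht
    rcases t with _ | ⟨⟨a', ha'⟩, ⟨b', hb'⟩⟩
    · simpa using hnr
    · have h1 : (a', b') ≠ (a, b) := by
        rintro h2
        apply ht
        rw [Prod.mk.injEq] at h2
        obtain ⟨rfl, rfl⟩ := h2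
        rfl
      have h2 := hun a' ha' b' hb' h1
      simpa using h2

/-- the structure theorem -/
theorem structure_thm (U : Ultrafilter ℕ) (p n : ℕ → ℕ) (hp : ∀ ν, (p ν).Prime)
    (hn : ∀ m : ℕ, ∀ᶠ ν in (U : Filter ℕ), m < (n ν).minFac) {I J : Type} [Fintype I] [Fintype J]
    [DecidableEq I] [DecidableEq J] (q : I → ℕ → ℕ) (u : I → ℕ → ℤ) (q' : J → ℕ → ℕ)
    (u' : J → ℕ → ℤ) (hu : ∀ i ν, |u i ν| ≤ p ν) (hu' : ∀ j ν, |u' j ν| ≤ p ν) (h : ℕ)
    (hh : 0 < h)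
    (hrel : ∀ᶠ ν in (U : Filter ℕ), NN (p ν) (n ν) ∣
      (∑ i, u i ν * (p ν : ℤ) ^ q i ν) * (∑ j, u' j ν * (p ν : ℤ) ^ q' j ν) - h) :
    ∃ (k D0 B t1 t2 : ℕ) (κ r r' : ℕ → ℕ) (M M' : ℕ → ℤ[X]), 0 < k ∧
      ∀ᶠ ν in (U : Filter ℕ), (n ν : ℤ) ∣ (k : ℤ) * κ ν - 1 ∧
        (M ν).natDegree ≤ D0 ∧ (M' ν).natDegree ≤ D0 ∧
        (∀ m, |(M ν).coeff m| ≤ (p ν : ℤ) ^ B) ∧ (∀ m, |(M' ν).coeff m| ≤ (p ν : ℤ) ^ B) ∧
        NN (p ν) (n ν) ∣ ∑ i, u i ν * (p ν : ℤ) ^ q i ν -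
          (p ν : ℤ) ^ r ν * (M ν).eval ((p ν : ℤ) ^ κ ν) ∧
        NN (p ν) (n ν) ∣ ∑ j, u' j ν * (p ν : ℤ) ^ q' j ν -
          (p ν : ℤ) ^ r' ν * (M' ν).eval ((p ν : ℤ) ^ κ ν) ∧
        ((X : ℤ[X]) ^ k - C (p ν : ℤ)) ∣ X ^ t1 * M ν * M' ν - C (h : ℤ) * X ^ t2 := by
  classical
  have hp2 : ∀ ν, 2 ≤ p ν := fun ν => (hp ν).two_le
  have hnn : ∀ m : ℕ, ∀ᶠ ν in (U : Filter ℕ), m < n ν := by
    intro m
    filter_upwards [hn (max m 2)] with ν hν
    have h0 : n ν ≠ 0 := by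
      intro h0
      rw [h0, Nat.minFac_zero] at hν
      omega
    have h1 := Nat.minFac_le (Nat.pos_of_ne_zero h0)
    omega
  -- a common denominator
  obtain ⟨s, hs⟩ : ∃ s : (I × I) ⊕ (J × J) ⊕ (I × J) → ℕ → ℤ, s = Sum.elim
      (fun x ν => (q x.1 ν : ℤ) - q x.2 ν) (Sum.elim (fun x ν => (q' x.1 ν : ℤ) - q' x.2 ν)
        (fun x ν => (q x.1 ν : ℤ) + q' x.2 ν)) := ⟨_, rfl⟩
  obtain ⟨k, hk, hden⟩ := common_denominator U n
    (fun t => if IsRat U n (s t) then s t else fun _ => 0) (by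
      intro t
      by_cases ht : IsRat U n (s t)
      · simp only [if_pos ht]
        exact ht
      · simp only [if_neg ht]
        exact isRat_zero U n)
  have hden' : ∀ t, IsRat U n (s t) →
      ∃ x : ℤ, ∀ᶠ ν in (U : Filter ℕ), (n ν : ℤ) ∣ (k : ℤ) * s t ν - x := by
    intro t ht
    have h1 := hden t
    simp only [if_pos ht] at h1
    exact h1
  -- the inverse of `k`
  have hinv : ∀ ν, ∃ c : ℕ, k < (n ν).minFac → (n ν : ℤ) ∣ (k : ℤ) * c - 1 := by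
    intro ν
    by_cases hkn : k < (n ν).minFac
    · rcases Nat.eq_zero_or_pos (n ν) with h0 | h0
      · rw [h0, Nat.minFac_zero] at hkn
        have h1 : k = 1 := by omega
        refine ⟨1, fun _ => ?_⟩
        rw [h1]
        simp
      · have hcop : Nat.Coprime k (n ν) := by
          rw [Nat.coprime_comm]
          refine Nat.Coprime.symm ?_
          refine Nat.coprime_of_dvd fun l hl hlk hln => ?_
          have h1 := Nat.minFac_le_of_dvd hl.two_le hln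
          have h2 := Nat.le_of_dvd hk hlk
          omega
        obtain ⟨c, hc⟩ : ∃ c : ℤ, (n ν : ℤ) ∣ (k : ℤ) * c - 1 := by
          have h1 : IsCoprime (k : ℤ) (n ν : ℤ) := Nat.isCoprime_iff_coprime.2 hcop
          obtain ⟨x, y, hxy⟩ := h1
          refine ⟨x, -y, ?_⟩
          linarith
        have hn0 : (n ν : ℤ) ≠ 0 := by exact_mod_cast h0.ne'
        refine ⟨(c % (n ν : ℤ)).toNat, fun _ => ?_⟩
        rw [Int.toNat_of_nonneg (Int.emod_nonneg _ hn0)]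
        have h2 : (k : ℤ) * (c % (n ν : ℤ)) - 1 = ((k : ℤ) * c - 1) - (n ν : ℤ) * (k * (c / (n ν : ℤ))) := by
          rw [Int.emod_def]
          ring
        rw [h2]
        exact dvd_sub hc (Dvd.intro _ rfl)
    · exact ⟨0, fun h1 => absurd h1 hkn⟩
  choose κ hκ' using hinv
  have hκ : ∀ᶠ ν in (U : Filter ℕ), (n ν : ℤ) ∣ (k : ℤ) * κ ν - 1 := by
    filter_upwards [hn k] with ν hν
    exact hκ' ν hν
  -- the two groupings
  obtain ⟨A, r, M, D0, B, hr, hA, hM, hd, hc, hsum⟩ := grouping U p n κ hp2 hnn k hk hκ q u hu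
    (fun i i' hii => by
      have h1 := hden' (Sum.inl (i, i')) (by rw [hs]; exact hii)
      rw [hs] at h1
      exact h1)
  obtain ⟨A', r', M', D0', B', hr', hA', hM', hd', hc', hsum'⟩ := grouping U p n κ hp2 hnn k hk hκ
    q' u' hu' (fun j j' hjj => by
      have h1 := hden' (Sum.inr (Sum.inl (j, j'))) (by rw [hs]; exact hjj)
      rw [hs] at h1
      exact h1)
  have hprod : ∀ᶠ ν in (U : Filter ℕ), NN (p ν) (n ν) ∣
      (∑ a ∈ A, (p ν : ℤ) ^ r a ν * (M a ν).eval ((p ν : ℤ) ^ κ ν)) *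
        (∑ b ∈ A', (p ν : ℤ) ^ r' b ν * (M' b ν).eval ((p ν : ℤ) ^ κ ν)) - h := by
    filter_upwards [hrel, hsum, hsum'] with ν h1 h2 h3
    obtain ⟨S, hS⟩ : ∃ S : ℤ, S = ∑ i, u i ν * (p ν : ℤ) ^ q i ν := ⟨_, rfl⟩
    obtain ⟨S', hS'⟩ : ∃ S' : ℤ, S' = ∑ j, u' j ν * (p ν : ℤ) ^ q' j ν := ⟨_, rfl⟩
    obtain ⟨R, hR⟩ : ∃ R : ℤ,
        R = ∑ a ∈ A, (p ν : ℤ) ^ r a ν * (M a ν).eval ((p ν : ℤ) ^ κ ν) := ⟨_, rfl⟩
    obtain ⟨R', hR'⟩ : ∃ R' : ℤ,
        R' = ∑ b ∈ A', (p ν : ℤ) ^ r' b ν * (M' b ν).eval ((p ν : ℤ) ^ κ ν) := ⟨_, rfl⟩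
    rw [← hR, ← hR']
    rw [← hS, ← hR] at h2
    rw [← hS', ← hR'] at h3
    rw [← hS, ← hS'] at h1
    have h4 : R * R' - (h : ℤ) = (S * S' - h) - (S - R) * S' - (S' - R') * R := by ring
    rw [h4]
    exact dvd_sub (dvd_sub h1 (h2.mul_right _)) (h3.mul_right _)
  -- the classes of `r` and `q`
  have hrq : ∀ i, IsRat U n (fun ν => (r i ν : ℤ) - q i ν) := fun i => by
    obtain ⟨t, ht⟩ := hr i
    exact ⟨k, hk, t, ht⟩
  have hrq' : ∀ j, IsRat U n (fun ν => (r' j ν : ℤ) - q' j ν) := fun j => by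
    obtain ⟨t, ht⟩ := hr' j
    exact ⟨k, hk, t, ht⟩
  -- isolated pairs do not exist
  have hno : ∀ a ∈ A, ∀ b ∈ A', (∀ a' ∈ A, ∀ b' ∈ A', (a', b') ≠ (a, b) →
      ¬ IsRat U n (fun ν => ((q a ν : ℤ) + q' b ν) - ((q a' ν : ℤ) + q' b' ν))) →
      IsRat U n (fun ν => (q a ν : ℤ) + q' b ν) := by
    intro a ha b hb hun
    by_contra hnr
    have h1 := C5b_iso U p n κ hp2 hnn k hk hκ r r' M M' A A' D0 D0' B B' h hd hd' hc hc' hprod a ha
      b hb (fun h2 => hnr (by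
        have h3 := (h2.add (hrq a).neg).add (hrq' b).neg
        have h4 : (fun ν => (((r a ν : ℤ) + r' b ν) + -((r a ν : ℤ) - q a ν)) +
            -((r' b ν : ℤ) - q' b ν)) = (fun ν => (q a ν : ℤ) + q' b ν) := by
          funext ν
          ring
        rw [← h4]
        exact h3)) (fun a' ha' b' hb' hne h2 => hun a' ha' b' hb' hne (by
        have h3 := (((h2.add (hrq a).neg).add (hrq' b).neg).add (hrq a')).add (hrq' b')
        have h4 : (fun ν => (((((((r a ν : ℤ) + r' b ν) - ((r a' ν : ℤ) + r' b' ν)) +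
            -((r a ν : ℤ) - q a ν)) + -((r' b ν : ℤ) - q' b ν)) + ((r a' ν : ℤ) - q a' ν))) +
            ((r' b' ν : ℤ) - q' b' ν)) =
            (fun ν => ((q a ν : ℤ) + q' b ν) - ((q a' ν : ℤ) + q' b' ν)) := by
          funext ν
          ring
        rw [← h4]
        exact h3))
    have h2 : ∀ᶠ ν in (U : Filter ℕ), False := by
      filter_upwards [h1, hM a ha, hM' b hb] with ν h2 h3 h4
      rcases (prime_Xk k hk (p ν) (hp ν)).dvd_or_dvd h2 with h5 | h5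
      · exact h3 h5
      · exact h4 h5
    have h3 := h2.exists
    obtain ⟨_, h4⟩ := h3
    exact h4
  -- both sets are nonempty
  have hbig : ∀ᶠ ν in (U : Filter ℕ), ¬ NN (p ν) (n ν) ∣ (h : ℤ) := by
    filter_upwards [hnn (h + 1)] with ν hν hdv
    have h1 : (h : ℤ) < NN (p ν) (n ν) := by
      unfold NN
      have h2 : n ν < p ν ^ n ν := (Nat.lt_two_pow_self).trans_le (Nat.pow_le_pow_left (hp2 ν) _)
      have h3 : (h : ℤ) + 1 < (p ν : ℤ) ^ n ν := by exact_mod_cast (by omega : h + 1 < p ν ^ n ν)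
      linarith
    have h2 := Int.le_of_dvd (by exact_mod_cast hh) hdv
    linarith
  have hAne : A.Nonempty := by
    rw [Finset.nonempty_iff_ne_empty]
    rintro rfl
    obtain ⟨ν, h1, h2⟩ := (hprod.and hbig).exists
    simp only [Finset.sum_empty, zero_mul, zero_sub] at h1
    exact h2 ((dvd_neg).1 h1)
  have hAne' : A'.Nonempty := by
    rw [Finset.nonempty_iff_ne_empty]
    rintro rfl
    obtain ⟨ν, h1, h2⟩ := (hprod.and hbig).exists
    simp only [Finset.sum_empty, mul_zero, zero_sub] at h1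
    exact h2 ((dvd_neg).1 h1)
  -- both sets have one element
  have hcard : A.card * A'.card ≤ 1 := by
    by_contra hlt
    push Not at hlt
    obtain ⟨a, ha, b, hb, hnr, hun⟩ := unique_pair U n (fun i ν => (q i ν : ℤ))
      (fun j ν => (q' j ν : ℤ)) A A' hA hA' hlt
    exact hnr (hno a ha b hb hun)
  have hcA : A.card = 1 := by
    have h1 := hAne.card_pos
    have h2 := hAne'.card_pos
    nlinarith
  have hcA' : A'.card = 1 := by
    have h1 := hAne.card_pos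
    have h2 := hAne'.card_pos
    nlinarith
  obtain ⟨a, rfl⟩ := Finset.card_eq_one.1 hcA
  obtain ⟨b, rfl⟩ := Finset.card_eq_one.1 hcA'
  have ha : a ∈ ({a} : Finset I) := Finset.mem_singleton_self a
  have hb : b ∈ ({b} : Finset J) := Finset.mem_singleton_self b
  have hrat := hno a ha b hb (by
    intro a' ha' b' hb' hne
    rw [Finset.mem_singleton] at ha' hb'
    exact absurd (by rw [ha', hb']) hne)
  obtain ⟨t0, ht0⟩ := hden' (Sum.inr (Sum.inr (a, b))) (by rw [hs]; exact hrat)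
  rw [hs] at ht0
  simp only [Sum.elim_inr] at ht0
  obtain ⟨ta, hta⟩ := hr a
  obtain ⟨tb, htb⟩ := hr' b
  obtain ⟨T, hT⟩ : ∃ T : ℤ, T = t0 + ta + tb := ⟨_, rfl⟩
  have hT2 : ((T.toNat : ℕ) : ℤ) - (((-T).toNat : ℕ) : ℤ) = T := by omega
  have hcong : ∀ᶠ ν in (U : Filter ℕ), (n ν : ℤ) ∣
      ((r a ν + r' b ν + κ ν * (-T).toNat : ℕ) : ℤ) - ((κ ν * T.toNat : ℕ) : ℤ) := by
    filter_upwards [ht0, hta, htb, hκ] with ν h1 h2 h3 h4
    have h5 : ((r a ν + r' b ν + κ ν * (-T).toNat : ℕ) : ℤ) - ((κ ν * T.toNat : ℕ) : ℤ) =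
        κ ν * (((k : ℤ) * ((q a ν : ℤ) + q' b ν) - t0) + ((k : ℤ) * ((r a ν : ℤ) - q a ν) - ta) +
          ((k : ℤ) * ((r' b ν : ℤ) - q' b ν) - tb)) -
          ((k : ℤ) * κ ν - 1) * ((r a ν : ℤ) + r' b ν) := by
      push_cast
      have h6 : (κ ν : ℤ) * (((-T).toNat : ℕ) : ℤ) - (κ ν : ℤ) * ((T.toNat : ℕ) : ℤ) =
          - ((κ ν : ℤ) * (t0 + ta + tb)) := by
        linear_combination (-(κ ν : ℤ)) * hT2 - (κ ν : ℤ) * hT
      linear_combination h6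
    rw [h5]
    exact dvd_sub (Dvd.dvd.mul_left (dvd_add (dvd_add h1 h2) h3) _) (h4.mul_right _)
  have hfin := isolation U p n κ hp2 hnn k hk hκ (J := Unit) (fun _ _ => 0)
    (fun _ ν => X ^ T.toNat * M a ν * M' b ν - C (h : ℤ) * X ^ (-T).toNat)
    (D0 + D0' + T.toNat + (-T).toNat) (B + B' + D0 + 1 + h + 1) (by
      intro _
      filter_upwards [hd a ha, hd' b hb] with ν h1 h2
      refine (natDegree_sub_le _ _).trans ?_
      refine max_le ?_ ?_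
      · rw [mul_assoc]
        refine natDegree_mul_le.trans ?_
        have h3 : (M a ν * M' b ν).natDegree ≤ D0 + D0' := natDegree_mul_le.trans (by omega)
        have h4 : ((X : ℤ[X]) ^ T.toNat).natDegree = T.toNat := natDegree_X_pow _
        omega
      · exact (natDegree_C_mul_X_pow_le _ _).trans (by omega)) (by
      intro _
      filter_upwards [hd a ha, hc a ha, hc' b hb] with ν h1 h2 h3 m
      have h4 : |(X ^ T.toNat * (M a ν * M' b ν)).coeff m| ≤ (p ν : ℤ) ^ (B + B' + D0 + 1 + h) := by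
        rw [coeff_X_pow_mul']
        split_ifs
        · exact (C5b_coeff_mul (hp2 ν) h1 h2 h3 _).trans (C5b_pow_le (hp2 ν) (by omega))
        · rw [abs_zero]
          positivity
      have h5 : |(C (h : ℤ) * X ^ (-T).toNat : ℤ[X]).coeff m| ≤
          (p ν : ℤ) ^ (B + B' + D0 + 1 + h) := by
        rw [coeff_C_mul_X_pow]
        split_ifs
        · rw [abs_of_nonneg (by positivity)]
          exact (C5b_le_pow (hp2 ν)).trans (C5b_pow_le (hp2 ν) (by omega))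
        · rw [abs_zero]
          positivity
      rw [coeff_sub, mul_assoc]
      refine (abs_sub _ _).trans ?_
      have h6 : (2 : ℤ) ≤ p ν := by exact_mod_cast hp2 ν
      have h7 : (0 : ℤ) ≤ (p ν : ℤ) ^ (B + B' + D0 + 1 + h) := by positivity
      rw [pow_succ _ (B + B' + D0 + 1 + h)]
      nlinarith) (by
      filter_upwards [hprod, hcong] with ν h1 h2
      simp only [Finset.sum_singleton] at h1
      have h3 := C5b_pow_congr (p := p ν) h2
      simp only [Finset.univ_unique, Finset.sum_singleton, pow_zero, one_mul, eval_sub, eval_mul,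
        eval_pow, eval_X, eval_C]
      obtain ⟨m1, hm1⟩ : ∃ m1 : ℤ, m1 = (M a ν).eval ((p ν : ℤ) ^ κ ν) := ⟨_, rfl⟩
      obtain ⟨m2, hm2⟩ : ∃ m2 : ℤ, m2 = (M' b ν).eval ((p ν : ℤ) ^ κ ν) := ⟨_, rfl⟩
      rw [← hm1, ← hm2] at h1 ⊢
      have h4 : ((p ν : ℤ) ^ κ ν) ^ T.toNat * m1 * m2 - (h : ℤ) * ((p ν : ℤ) ^ κ ν) ^ (-T).toNat =
          ((p ν : ℤ) ^ r a ν * m1 * ((p ν : ℤ) ^ r' b ν * m2) - h) *
            ((p ν : ℤ) ^ κ ν) ^ (-T).toNat -
          ((p ν : ℤ) ^ (r a ν + r' b ν + κ ν * (-T).toNat) - (p ν : ℤ) ^ (κ ν * T.toNat)) *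
            (m1 * m2) := by
        rw [pow_add, pow_add, pow_mul, pow_mul]
        ring
      rw [h4]
      exact dvd_sub (h1.mul_right _) (h3.mul_right _)) () (by
      intro j hj
      exact absurd (Subsingleton.elim _ _) hj)
  refine ⟨k, max D0 D0', max B B', T.toNat, (-T).toNat, κ, r a, r' b, M a, M' b, hk, ?_⟩
  filter_upwards [hκ, hd a ha, hd' b hb, hc a ha, hc' b hb, hsum, hsum', hfin] with ν h1 h2 h3 h4 h5
    h6 h7 h8
  simp only [Finset.sum_singleton] at h6 h7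
  exact ⟨h1, h2.trans (le_max_left _ _), h3.trans (le_max_right _ _),
    fun m => (h4 m).trans (C5b_pow_le (hp2 ν) (le_max_left _ _)),
    fun m => (h5 m).trans (C5b_pow_le (hp2 ν) (le_max_right _ _)), h6, h7, h8⟩

end Pool.Agent.Helper21.FC
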