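import Pool.Agent.Helper21.FC.Defs

/-!
MP_0aa406_nt, project FC (helper21): Bang's lemma for a circulant.
-/

set_option autoImplicit false

namespace Pool.Agent.Helper21.FC

open Finset

/-- the sign of a Boolean -/
private def D1_sg (b : Bool) : ℝ := if b then 1 else -1

private theorem D1_sg_abs (b : Bool) : |D1_sg b| = 1 := by
  cases b <;> simp [D1_sg]

private theorem D1_sg_sq (b : Bool) : D1_sg b ^ 2 = 1 := by
  cases b <;> simp [D1_sg]

private theorem D1_sg_not (b : Bool) : D1_sg (!b) = -D1_sg b := by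
  cases b <;> simp [D1_sg]

private noncomputable def D1_v {k : ℕ} (a : ZMod k → ℝ) (U : Finset (ZMod k))
    (s : ZMod k → Bool) (i : ZMod k) : ℝ :=
  ∑ u ∈ U, D1_sg (s u) * a (u - i)

private theorem D1_sum_sub {k : ℕ} [NeZero k] (f : ZMod k → ℝ) (u : ZMod k) :
    ∑ i, f (u - i) = ∑ t, f t :=
  Fintype.sum_equiv (Equiv.subLeft u) _ _ fun _ => rfl

private theorem D1_flip {k : ℕ} (a : ZMod k → ℝ) (U : Finset (ZMod k))
    (s : ZMod k → Bool) (u : ZMod k) (hu : u ∈ U) (i : ZMod k) :
    D1_v a U (Function.update s u (!s u)) i = D1_v a U s i - 2 * D1_sg (s u) * a (u - i) := by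
  unfold D1_v
  rw [← Finset.add_sum_erase U _ hu, ← Finset.add_sum_erase U (fun u => D1_sg (s u) * a (u - i)) hu]
  have h : ∑ x ∈ U.erase u, D1_sg (Function.update s u (!s u) x) * a (x - i) =
      ∑ x ∈ U.erase u, D1_sg (s x) * a (x - i) := by
    refine Finset.sum_congr rfl fun x hx => ?_
    rw [Function.update_of_ne (Finset.ne_of_mem_erase hx)]
  rw [h, Function.update_self, D1_sg_not]
  ring

theorem bang {k : ℕ} [NeZero k] (a : ZMod k → ℝ) (U : Finset (ZMod k)) (L δ : ℝ)
    (hS0 : 0 < ∑ t, a t) (hS1 : ∑ t, a t ≤ 1) (hδ0 : 0 < δ) (hδ1 : δ ≤ 1) (hL : 0 < L)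
    (h1 : ∀ i, ∑ u ∈ U, |a (u - i)| ≤ L) (h2 : L * (∑ t, a t + 2 * δ) ≤ ∑ t, a t ^ 2) :
    ∃ y : ZMod k → ℝ, (∀ i, δ ≤ y i ∧ y i ≤ 3) ∧ (∀ u ∈ U, δ ≤ |act a y u|) ∧
      U.card ≤ 2 * (U.filter (fun u => act a y u < 0)).card := by
  classical
  obtain ⟨s, hs⟩ := Finite.exists_max fun s : ZMod k → Bool => ∑ i, D1_v a U s i ^ 2
  set v : ZMod k → ℝ := D1_v a U s with hv
  have hact : ∀ u ∈ U, ∑ t, a t ^ 2 ≤ D1_sg (s u) * act a v u := by
    intro u hu
    have h := hs (Function.update s u (!s u))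
    simp only [D1_flip a U s u hu] at h
    have h3 : ∑ i, (D1_v a U s i - 2 * D1_sg (s u) * a (u - i)) ^ 2 =
        ∑ i, D1_v a U s i ^ 2 - 4 * (D1_sg (s u) * act a v u) + 4 * ∑ t, a t ^ 2 := by
      rw [← D1_sum_sub (fun t => a t ^ 2) u, act, Finset.mul_sum, Finset.mul_sum, Finset.mul_sum,
        ← Finset.sum_sub_distrib, ← Finset.sum_add_distrib]
      refine Finset.sum_congr rfl fun i _ => ?_
      have := D1_sg_sq (s u)
      rw [hv]
      linear_combination (4 * a (u - i) ^ 2) * this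
    rw [h3] at h
    linarith
  have hvL : ∀ i, |v i| ≤ L := by
    intro i
    refine le_trans ?_ (h1 i)
    rw [hv, D1_v]
    refine (Finset.abs_sum_le_sum_abs _ _).trans (le_of_eq (Finset.sum_congr rfl fun u _ => ?_))
    rw [abs_mul, D1_sg_abs, one_mul]
  have hb : ∀ u ∈ U, ∑ t, a t + 2 * δ ≤ |act a v u / L| := by
    intro u hu
    rw [abs_div, abs_of_pos hL, le_div_iff₀ hL]
    calc (∑ t, a t + 2 * δ) * L = L * (∑ t, a t + 2 * δ) := mul_comm _ _
      _ ≤ ∑ t, a t ^ 2 := h2
      _ ≤ D1_sg (s u) * act a v u := hact u hu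
      _ ≤ |D1_sg (s u) * act a v u| := le_abs_self _
      _ = |act a v u| := by rw [abs_mul, D1_sg_abs, one_mul]
  have hy : ∀ (e : ℝ) (u : ZMod k), act a (fun i => (1 + δ) + e * (v i / L)) u =
      (1 + δ) * ∑ t, a t + e * (act a v u / L) := by
    intro e u
    rw [act, act, ← D1_sum_sub a u, Finset.mul_sum, Finset.sum_div, Finset.mul_sum,
      ← Finset.sum_add_distrib]
    refine Finset.sum_congr rfl fun i _ => ?_
    ring
  have hrange : ∀ e : ℝ, |e| = 1 → ∀ i, δ ≤ (1 + δ) + e * (v i / L) ∧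
      (1 + δ) + e * (v i / L) ≤ 3 := by
    intro e he i
    have h3 : |e * (v i / L)| ≤ 1 := by
      rw [abs_mul, he, one_mul, abs_div, abs_of_pos hL, div_le_one hL]
      exact hvL i
    have h4 := abs_le.mp h3
    constructor <;> linarith [h4.1, h4.2]
  have habs : ∀ e : ℝ, |e| = 1 → ∀ u ∈ U, δ ≤ |(1 + δ) * ∑ t, a t + e * (act a v u / L)| := by
    intro e he u hu
    have h3 : ∑ t, a t + 2 * δ ≤ |e * (act a v u / L)| := by
      rw [abs_mul, he, one_mul]
      exact hb u hu
    have h5 : 0 ≤ δ * ∑ t, a t := by positivity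
    have h6 : δ * ∑ t, a t ≤ δ := by
      nlinarith
    rcases le_total 0 (e * (act a v u / L)) with h | h
    · rw [abs_of_nonneg h] at h3
      refine le_trans ?_ (le_abs_self _)
      nlinarith
    · rw [abs_of_nonpos h] at h3
      refine le_trans ?_ (neg_le_abs _)
      nlinarith
  have hneg : ∀ e : ℝ, |e| = 1 → ∀ u ∈ U,
      ((1 + δ) * ∑ t, a t + e * (act a v u / L) < 0 ↔ e * (act a v u / L) < 0) := by
    intro e he u hu
    have h3 : ∑ t, a t + 2 * δ ≤ |e * (act a v u / L)| := by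
      rw [abs_mul, he, one_mul]
      exact hb u hu
    have h5 : 0 ≤ δ * ∑ t, a t := by positivity
    have h6 : δ * ∑ t, a t ≤ δ := by
      nlinarith
    constructor
    · intro h
      by_contra hcon
      nlinarith
    · intro h
      rw [abs_of_neg h] at h3
      nlinarith
  -- the two choices
  have hcount : U.card = (U.filter fun u => (1 : ℝ) * (act a v u / L) < 0).card +
      (U.filter fun u => (-1 : ℝ) * (act a v u / L) < 0).card := by
    rw [← Finset.card_filter_add_card_filter_not (s := U)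
      (fun u => (1 : ℝ) * (act a v u / L) < 0)]
    congr 2
    ext u
    simp only [Finset.mem_filter, and_congr_right_iff]
    intro hu
    have h3 := hb u hu
    have h4 : act a v u / L ≠ 0 := by
      intro h
      rw [h, abs_zero] at h3
      linarith
    rw [one_mul, neg_one_mul, neg_lt_zero, not_lt]
    exact ⟨fun h => lt_of_le_of_ne h (Ne.symm h4), fun h => h.le⟩
  have key : ∀ e : ℝ, |e| = 1 →
      U.card ≤ 2 * (U.filter fun u => e * (act a v u / L) < 0).card →
      ∃ y : ZMod k → ℝ, (∀ i, δ ≤ y i ∧ y i ≤ 3) ∧ (∀ u ∈ U, δ ≤ |act a y u|) ∧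
      U.card ≤ 2 * (U.filter (fun u => act a y u < 0)).card := by
    intro e he hc
    refine ⟨fun i => (1 + δ) + e * (v i / L), hrange e he, ?_, ?_⟩
    · intro u hu
      rw [hy]
      exact habs e he u hu
    · refine hc.trans (le_of_eq ?_)
      congr 2
      ext u
      simp only [Finset.mem_filter, and_congr_right_iff]
      intro hu
      rw [hy]
      exact (hneg e he u hu).symm
  rcases le_total (U.filter fun u => (-1 : ℝ) * (act a v u / L) < 0).card
    (U.filter fun u => (1 : ℝ) * (act a v u / L) < 0).card with h | h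
  · exact key 1 (by simp) (by omega)
  · exact key (-1) (by simp) (by omega)

end Pool.Agent.Helper21.FC
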