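import Pool.Agent.Helper21.FC.P1

/-!
MP_0aa406_nt, project FC (helper21): from real to integral directions.
-/

set_option autoImplicit false

namespace Pool.Agent.Helper21.FC

open Finset

/-- bounds for the powers of `p ^ (1 / k)` -/
theorem D2_rho (k p : ℕ) [NeZero k] (hp : 2 ≤ p) (i : ZMod k) :
    1 ≤ ((p : ℝ) ^ ((1 : ℝ) / k)) ^ i.val ∧ ((p : ℝ) ^ ((1 : ℝ) / k)) ^ i.val ≤ p := by
  have hp1 : (1 : ℝ) ≤ p := by exact_mod_cast (by omega : 1 ≤ p)
  have hk : (0 : ℝ) < k := by exact_mod_cast (NeZero.pos k)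
  have h1 : (1 : ℝ) ≤ (p : ℝ) ^ ((1 : ℝ) / k) := Real.one_le_rpow hp1 (by positivity)
  refine ⟨one_le_pow₀ h1, ?_⟩
  calc ((p : ℝ) ^ ((1 : ℝ) / k)) ^ i.val ≤ ((p : ℝ) ^ ((1 : ℝ) / k)) ^ k :=
        pow_le_pow_right₀ h1 (ZMod.val_lt i).le
    _ = p := by
        rw [← Real.rpow_natCast, ← Real.rpow_mul (by positivity), one_div,
          inv_mul_cancel₀ hk.ne', Real.rpow_one]

theorem D2_cir (k h B p : ℕ) [NeZero k] (hh : 0 < h) (hp : 2 ≤ p) (μ : ZMod k → ℤ)
    (hμ : ∀ t, |μ t| ≤ (p : ℤ) ^ B) (t : ZMod k) : |cir p h μ t| ≤ (p : ℝ) ^ (B + 1) := by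
  obtain ⟨h1, h2⟩ := D2_rho k p hp t
  have hp0 : (0 : ℝ) < p := by exact_mod_cast (by omega : 0 < p)
  have hh1 : (1 : ℝ) ≤ h := by exact_mod_cast hh
  have h3 : |(μ t : ℝ)| ≤ (p : ℝ) ^ B := by exact_mod_cast hμ t
  unfold cir
  rw [abs_mul, abs_div, abs_of_nonneg (le_trans zero_le_one h1), Nat.abs_cast, pow_succ]
  apply mul_le_mul _ h2 (le_trans zero_le_one h1) (by positivity)
  exact (div_le_self (abs_nonneg _) hh1).trans h3

theorem integral_direction (k : ℕ) [NeZero k] (h B B3 : ℕ) (hh : 0 < h) : ∃ B1 : ℕ, ∀ p : ℕ,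
    2 ≤ p → ∀ μ : ZMod k → ℤ, (∀ t, |μ t| ≤ (p : ℤ) ^ B) →
    ∀ (y : ZMod k → ℝ) (U : Finset (ZMod k)), (∀ i, ((p : ℝ) ^ B3)⁻¹ ≤ y i ∧ y i ≤ 3) →
      (∀ u ∈ U, ((p : ℝ) ^ B3)⁻¹ ≤ |act (cir p h μ) y u|) →
      ∃ w : ZMod k → ℤ, (∀ i, 0 < w i ∧ w i ≤ (p : ℤ) ^ B1) ∧
        ∀ u ∈ U, (act (cir p h μ) y u < 0 → tw p μ w u < 0) ∧
          (0 < act (cir p h μ) y u → 0 < tw p μ w u) := by
  refine ⟨B3 + (B + 3 + k) + 2, fun p hp μ hμ y U hy hU => ?_⟩
  set ρ : ℝ := (p : ℝ) ^ ((1 : ℝ) / k) with hρ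
  have hp0 : (0 : ℝ) < p := by exact_mod_cast (by omega : 0 < p)
  have hp2 : (2 : ℝ) ≤ p := by exact_mod_cast hp
  have hh0 : (0 : ℝ) < h := by exact_mod_cast hh
  set R : ℝ := (p : ℝ) ^ (B3 + (B + 3 + k)) with hR
  have hR0 : 0 < R := by positivity
  have hR1 : 1 ≤ R := one_le_pow₀ (by linarith)
  have hy0 : ∀ i, 0 < y i := fun i => lt_of_lt_of_le (by positivity) (hy i).1
  have hρi : ∀ i : ZMod k, 1 ≤ ρ ^ i.val ∧ ρ ^ i.val ≤ p := fun i => D2_rho k p hp i
  have hρ0 : ∀ i : ZMod k, 0 < ρ ^ i.val := fun i => lt_of_lt_of_le one_pos (hρi i).1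
  set w : ZMod k → ℤ := fun i => ⌈R * y i / ρ ^ i.val⌉ with hw
  -- the error
  have he : ∀ i, 0 ≤ (w i : ℝ) * ρ ^ i.val - R * y i ∧ (w i : ℝ) * ρ ^ i.val - R * y i ≤ p := by
    intro i
    have h1 : R * y i / ρ ^ i.val ≤ (w i : ℝ) := Int.le_ceil _
    have h2 : (w i : ℝ) < R * y i / ρ ^ i.val + 1 := Int.ceil_lt_add_one _
    have h3 := hρ0 i
    have h4 := (hρi i).2
    rw [div_le_iff₀ h3] at h1
    have h5 : (w i : ℝ) * ρ ^ i.val ≤ (R * y i / ρ ^ i.val + 1) * ρ ^ i.val :=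
      mul_le_mul_of_nonneg_right h2.le h3.le
    rw [add_mul, div_mul_cancel₀ _ h3.ne', one_mul] at h5
    constructor
    · linarith
    · linarith
  refine ⟨w, fun i => ⟨?_, ?_⟩, fun u hu => ?_⟩
  · apply Int.ceil_pos.mpr
    have := hy0 i
    have := hρ0 i
    positivity
  · have h1 : (w i : ℝ) ≤ (w i : ℝ) * ρ ^ i.val := by
      have h0 : (0 : ℝ) ≤ (w i : ℝ) := by
        have : 0 ≤ w i := by
          apply Int.ceil_nonneg
          have := hy0 i
          have := hρ0 i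
          positivity
        exact_mod_cast this
      exact le_mul_of_one_le_right h0 (hρi i).1
    have h2 := (he i).2
    have h3 := (hy i).2
    have h4 : R * y i ≤ R * 3 := mul_le_mul_of_nonneg_left h3 hR0.le
    have h5 : (p : ℝ) ≤ R := by
      rw [hR]
      calc (p : ℝ) = (p : ℝ) ^ 1 := (pow_one _).symm
        _ ≤ (p : ℝ) ^ (B3 + (B + 3 + k)) := pow_le_pow_right₀ (by linarith) (by omega)
    have h6 : (w i : ℝ) ≤ (p : ℝ) ^ (B3 + (B + 3 + k) + 2) := by
      rw [pow_add, ← hR]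
      have h7 : (4 : ℝ) ≤ (p : ℝ) ^ 2 := by nlinarith
      have h8 : R * 4 ≤ R * (p : ℝ) ^ 2 := mul_le_mul_of_nonneg_left h7 hR0.le
      linarith
    exact_mod_cast h6
  · -- the comparison
    have hact := act_cir p k h (by omega) μ w u
    rw [← hρ] at hact
    have hdiff : act (cir p h μ) (fun i => (w i : ℝ) * ρ ^ i.val) u
        = R * act (cir p h μ) y u
          + ∑ i, cir p h μ (u - i) * ((w i : ℝ) * ρ ^ i.val - R * y i) := by
      unfold act
      rw [Finset.mul_sum, ← Finset.sum_add_distrib]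
      apply Finset.sum_congr rfl
      intro i _
      ring
    have herr : |∑ i, cir p h μ (u - i) * ((w i : ℝ) * ρ ^ i.val - R * y i)|
        < (p : ℝ) ^ (B + 3 + k) := by
      calc |∑ i, cir p h μ (u - i) * ((w i : ℝ) * ρ ^ i.val - R * y i)|
          ≤ ∑ i, |cir p h μ (u - i) * ((w i : ℝ) * ρ ^ i.val - R * y i)| :=
            Finset.abs_sum_le_sum_abs _ _
        _ ≤ ∑ _i : ZMod k, (p : ℝ) ^ (B + 1) * p := by
            apply Finset.sum_le_sum
            intro i _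
            rw [abs_mul, abs_of_nonneg (he i).1]
            exact mul_le_mul (D2_cir k h B p hh hp μ hμ (u - i)) (he i).2 (he i).1 (by positivity)
        _ = (k : ℝ) * (p : ℝ) ^ (B + 2) := by
            rw [Finset.sum_const, Finset.card_univ, ZMod.card, nsmul_eq_mul, ← pow_succ]
        _ < (p : ℝ) ^ (k + 1) * (p : ℝ) ^ (B + 2) := by
            apply mul_lt_mul_of_pos_right _ (by positivity)
            have h1 : (k : ℝ) < 2 ^ k := by exact_mod_cast Nat.lt_two_pow_self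
            calc (k : ℝ) < 2 ^ k := h1
              _ ≤ (p : ℝ) ^ k := pow_le_pow_left₀ (by norm_num) hp2 k
              _ ≤ (p : ℝ) ^ (k + 1) := pow_le_pow_right₀ (by linarith) (by omega)
        _ = (p : ℝ) ^ (B + 3 + k) := by
            rw [← pow_add]
            congr 1
            omega
    have hbig : (p : ℝ) ^ (B + 3 + k) ≤ R * |act (cir p h μ) y u| := by
      have h1 := mul_le_mul_of_nonneg_left (hU u hu) hR0.le
      have h2 : R * ((p : ℝ) ^ B3)⁻¹ = (p : ℝ) ^ (B + 3 + k) := by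
        rw [hR, pow_add]
        field_simp
      rw [h2] at h1
      exact h1
    have hE := abs_lt.mp herr
    have hfac : 0 < ρ ^ u.val / h := div_pos (hρ0 u) hh0
    have hform : (tw p μ w u : ℝ) / h * ρ ^ u.val = (tw p μ w u : ℝ) * (ρ ^ u.val / h) := by ring
    rw [hdiff, hform] at hact
    constructor
    · intro hneg
      rw [abs_of_neg hneg] at hbig
      have h1 : (tw p μ w u : ℝ) * (ρ ^ u.val / h) < 0 := by
        rw [← hact]
        linarith [hE.2]
      have h2 : (tw p μ w u : ℝ) < 0 := by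
        by_contra hcon
        push Not at hcon
        exact absurd (mul_nonneg hcon hfac.le) (not_le.mpr h1)
      exact_mod_cast h2
    · intro hpos
      rw [abs_of_pos hpos] at hbig
      have h1 : 0 < (tw p μ w u : ℝ) * (ρ ^ u.val / h) := by
        rw [← hact]
        linarith [hE.1]
      have h2 : 0 < (tw p μ w u : ℝ) := by
        by_contra hcon
        push Not at hcon
        exact absurd (mul_nonpos_of_nonpos_of_nonneg hcon hfac.le) (not_le.mpr h1)
      exact_mod_cast h2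

end Pool.Agent.Helper21.FC
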