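import Pool.Agent.Helper21.FC.D1
import Pool.Agent.Helper21.FC.D2

/-!
MP_0aa406_nt, project FC (helper21): case A, `μ / h` integral and `0 < μ(ρ) < h`.
-/

set_option autoImplicit false

namespace Pool.Agent.Helper21.FC

open Finset

/-- `ρ = p ^ (1 / k)` is at least `1 + 1 / (2 k)` -/
theorem rho_ge (p k : ℕ) (hp : 2 ≤ p) (hk : 0 < k) :
    1 + 1 / (2 * (k : ℝ)) ≤ (p : ℝ) ^ ((1 : ℝ) / k) := by
  have hk0 : (0 : ℝ) < k := by exact_mod_cast hk
  have hp2 : (2 : ℝ) ≤ p := by exact_mod_cast hp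
  have hb : (0 : ℝ) ≤ 1 + 1 / (2 * (k : ℝ)) := by positivity
  have h1 : (1 + 1 / (2 * (k : ℝ))) ^ k ≤ 2 := by
    have h2 : 1 + 1 / (2 * (k : ℝ)) ≤ Real.exp (1 / (2 * (k : ℝ))) := by
      have := Real.add_one_le_exp (1 / (2 * (k : ℝ)))
      linarith
    have h3 : (1 + 1 / (2 * (k : ℝ))) ^ k ≤ (Real.exp (1 / (2 * (k : ℝ)))) ^ k :=
      pow_le_pow_left₀ hb h2 k
    have h4 : (Real.exp (1 / (2 * (k : ℝ)))) ^ k = Real.exp (1 / 2) := by
      rw [← Real.exp_nat_mul]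
      congr 1
      field_simp
    have h5 : Real.exp (1 / 2) ≤ 2 := by
      have h6 : Real.exp (1 / 2) * Real.exp (1 / 2) = Real.exp 1 := by
        rw [← Real.exp_add]
        norm_num
      have h7 := Real.exp_one_lt_d9
      nlinarith [Real.exp_pos (1 / 2)]
    linarith
  have h8 : 1 + 1 / (2 * (k : ℝ)) = ((1 + 1 / (2 * (k : ℝ))) ^ k) ^ ((1 : ℝ) / k) := by
    rw [← Real.rpow_natCast, ← Real.rpow_mul hb, mul_one_div, div_self hk0.ne', Real.rpow_one]
  rw [h8]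
  exact Real.rpow_le_rpow (by positivity) (h1.trans hp2) (by positivity)

private theorem D3_sign_sum {k : ℕ} [NeZero k] (f : ZMod k → ℤ) (hf : ∀ u, f u ≠ 0)
    (h : (univ : Finset (ZMod k)).card ≤ 2 * (univ.filter (fun u => f u < 0)).card) :
    ∑ u, Int.sign (f u) ≤ 0 := by
  have h1 : ∑ u, Int.sign (f u) = ∑ u : ZMod k, (1 - 2 * (if f u < 0 then (1 : ℤ) else 0)) := by
    refine Finset.sum_congr rfl fun u _ => ?_
    rcases lt_or_gt_of_ne (hf u) with h2 | h2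
    · rw [Int.sign_eq_neg_one_of_neg h2, if_pos h2]
      norm_num
    · rw [Int.sign_eq_one_of_pos h2, if_neg (not_lt.mpr h2.le)]
      norm_num
  rw [h1, Finset.sum_sub_distrib, ← Finset.mul_sum, Finset.sum_boole, Finset.sum_const, nsmul_eq_mul,
    mul_one]
  have h3 : ((univ : Finset (ZMod k)).card : ℤ) ≤
      2 * ((univ.filter (fun u => f u < 0)).card : ℤ) := by exact_mod_cast h
  linarith

theorem case_integral (k : ℕ) [NeZero k] (h B : ℕ) (hh : 0 < h) : ∃ B1 : ℕ, ∀ p : ℕ,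
    2 ≤ p → ∀ μ : ZMod k → ℤ, (∀ t, |μ t| ≤ (p : ℤ) ^ B) → (∀ t, (h : ℤ) ∣ μ t) →
    0 < rev p μ → rev p μ < h →
    ∃ w : ZMod k → ℤ, (∀ i, |w i| ≤ (p : ℤ) ^ B1) ∧ HasValue p h μ 0 w := by
  classical
  obtain ⟨B1, hB1⟩ := integral_direction k h B (B + 2 * k + 3) hh
  refine ⟨B1, fun p hp μ hμ hdvd hr0 hr1 => ?_⟩
  have hk : 0 < k := Nat.pos_of_ne_zero (NeZero.ne k)
  have hk0 : (0 : ℝ) < k := by exact_mod_cast hk
  have hh0 : (0 : ℝ) < h := by exact_mod_cast hh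
  have hp0 : (0 : ℝ) < p := by exact_mod_cast (by omega : 0 < p)
  have hp2 : (2 : ℝ) ≤ p := by exact_mod_cast hp
  set ρ : ℝ := (p : ℝ) ^ ((1 : ℝ) / k) with hρ
  have hρg : 1 + 1 / (2 * (k : ℝ)) ≤ ρ := rho_ge p k hp hk
  have hkk : 0 < 1 / (2 * (k : ℝ)) := by positivity
  have hρ1 : 1 ≤ ρ := by linarith
  set a : ZMod k → ℝ := cir p h μ with ha
  have hS : ∑ t, a t = rev p μ / h := sum_cir p k h μ
  have hS0 : 0 < ∑ t, a t := by rw [hS]; positivity
  have hS1 : ∑ t, a t < 1 := by rw [hS, div_lt_one hh0]; exact hr1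
  -- coordinates
  have hc : ∀ t, ∃ c : ℤ, a t = c * ρ ^ t.val := by
    intro t
    obtain ⟨c, hc⟩ := hdvd t
    refine ⟨c, ?_⟩
    rw [ha]
    unfold cir
    rw [hc]
    push_cast
    rw [mul_div_cancel_left₀ _ hh0.ne']
  choose c hc using hc
  have habs1 : ∀ t, c t ≠ 0 → ρ ^ t.val ≤ |a t| := by
    intro t ht
    rw [hc t, abs_mul, abs_of_pos (pow_pos (by linarith : 0 < ρ) t.val)]
    have h1 : (1 : ℝ) ≤ |(c t : ℝ)| := by
      have := Int.one_le_abs ht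
      exact_mod_cast this
    have h2 : 0 ≤ ρ ^ t.val := (pow_pos (by linarith : 0 < ρ) t.val).le
    nlinarith
  have hsq : ∀ t, |a t| ≤ a t ^ 2 := by
    intro t
    by_cases ht : c t = 0
    · rw [hc t, ht]
      simp
    · have h1 := habs1 t ht
      have h2 : (1 : ℝ) ≤ ρ ^ t.val := one_le_pow₀ hρ1
      rw [← sq_abs]
      nlinarith [abs_nonneg (a t)]
  have hex : ∃ t1 : ZMod k, t1 ≠ 0 ∧ c t1 ≠ 0 := by
    by_contra hcon
    push Not at hcon
    have h1 : ∑ t, a t = a 0 := by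
      refine Finset.sum_eq_single 0 (fun t _ ht => ?_) (fun h0 => absurd (mem_univ _) h0)
      rw [hc t, hcon t ht]
      simp
    rw [h1, hc 0, ZMod.val_zero, pow_zero, mul_one] at hS0 hS1
    have h2 : 0 < c 0 := by exact_mod_cast hS0
    have h3 : c 0 < 1 := by exact_mod_cast hS1
    omega
  obtain ⟨t1, ht1, hct1⟩ := hex
  have ht1v : 1 ≤ t1.val := by
    rcases Nat.eq_zero_or_pos t1.val with h0 | h0
    · exact absurd ((ZMod.val_eq_zero t1).mp h0) ht1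
    · exact h0
  have hat1 : ρ ≤ |a t1| := by
    refine le_trans ?_ (habs1 t1 hct1)
    calc ρ = ρ ^ 1 := (pow_one _).symm
      _ ≤ ρ ^ t1.val := pow_le_pow_right₀ hρ1 ht1v
  set L : ℝ := ∑ t, |a t| with hL
  have hsum : L + 1 / (2 * (k : ℝ)) ≤ ∑ t, a t ^ 2 := by
    rw [hL, ← Finset.add_sum_erase _ _ (mem_univ t1),
      ← Finset.add_sum_erase _ (fun t => a t ^ 2) (mem_univ t1)]
    have h1 : ∑ t ∈ univ.erase t1, |a t| ≤ ∑ t ∈ univ.erase t1, a t ^ 2 :=
      Finset.sum_le_sum fun t _ => hsq t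
    have h2 : |a t1| + 1 / (2 * (k : ℝ)) ≤ a t1 ^ 2 := by
      rw [← sq_abs (a t1)]
      nlinarith
    linarith
  have hL1 : 1 ≤ L := by
    have h1 : |a t1| ≤ L :=
      Finset.single_le_sum (f := fun t => |a t|) (fun t _ => abs_nonneg _) (mem_univ t1)
    linarith
  have hL0 : 0 < L := by linarith
  set δ : ℝ := 1 / (4 * k * L) with hδ
  have hk1 : (1 : ℝ) ≤ k := by exact_mod_cast hk
  have hδ0 : 0 < δ := by positivity
  have hδ1 : δ ≤ 1 := by
    rw [hδ, div_le_one (by positivity)]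
    nlinarith
  have hδL : L * (2 * δ) = 1 / (2 * (k : ℝ)) := by
    rw [hδ]
    field_simp
    norm_num
  obtain ⟨y, hy, hact, hcard⟩ := bang a univ L δ hS0 hS1.le hδ0 hδ1 hL0
    (fun i => by
      rw [hL]
      exact le_of_eq (Fintype.sum_equiv (Equiv.subRight i) _ _ fun u => rfl))
    (by
      rw [mul_add, hδL]
      nlinarith)
  -- the lower bound for delta
  have hLB : 4 * (k : ℝ) * L ≤ (p : ℝ) ^ (B + 2 * k + 3) := by
    have h1 : (k : ℝ) ≤ (p : ℝ) ^ k := by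
      have h2 : (k : ℝ) < 2 ^ k := by exact_mod_cast Nat.lt_two_pow_self
      exact h2.le.trans (pow_le_pow_left₀ (by norm_num) hp2 k)
    have h3 : L ≤ (k : ℝ) * (p : ℝ) ^ (B + 1) := by
      rw [hL]
      calc ∑ t, |a t| ≤ ∑ _t : ZMod k, (p : ℝ) ^ (B + 1) :=
            Finset.sum_le_sum fun t _ => D2_cir k h B p hh hp μ hμ t
        _ = (k : ℝ) * (p : ℝ) ^ (B + 1) := by
            rw [Finset.sum_const, Finset.card_univ, ZMod.card, nsmul_eq_mul]
    have h4 : (4 : ℝ) ≤ (p : ℝ) ^ 2 := by nlinarith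
    have h5 : (p : ℝ) ^ (B + 2 * k + 3) = (p : ℝ) ^ 2 * (p : ℝ) ^ k * ((p : ℝ) ^ k * (p : ℝ) ^ (B + 1)) := by
      rw [← pow_add, ← pow_add, ← pow_add]
      congr 1
      omega
    rw [h5]
    have h6 : L ≤ (p : ℝ) ^ k * (p : ℝ) ^ (B + 1) :=
      h3.trans (mul_le_mul_of_nonneg_right h1 (by positivity))
    exact mul_le_mul (mul_le_mul h4 h1 hk0.le (by positivity)) h6 hL0.le (by positivity)
  have hδB : ((p : ℝ) ^ (B + 2 * k + 3))⁻¹ ≤ δ := by
    rw [hδ, one_div]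
    exact inv_anti₀ (by positivity) hLB
  obtain ⟨w, hw, hsign⟩ := hB1 p hp μ hμ y univ (fun i => ⟨hδB.trans (hy i).1, (hy i).2⟩)
    (fun u hu => hδB.trans (hact u hu))
  have hne : ∀ u, tw p μ w u ≠ 0 := by
    intro u
    have h1 := hact u (mem_univ u)
    have h2 : act (cir p h μ) y u ≠ 0 := by
      intro h0
      rw [← ha] at h0
      rw [h0, abs_zero] at h1
      linarith
    rcases lt_or_gt_of_ne h2 with h3 | h3
    · exact ((hsign u (mem_univ u)).1 h3).ne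
    · exact ((hsign u (mem_univ u)).2 h3).ne'
  have hzr : zr p h μ (0 : ZMod k → ℤ) = univ := by
    ext u
    simp [zr, tw]
  refine ⟨w, fun i => ?_, fun i => (hw i).1.ne', fun u _ => hne u, ?_⟩
  · rw [abs_of_pos (hw i).1]
    exact (hw i).2
  · have h1 : ∑ i, Int.sign (w i) = k := by
      rw [Finset.sum_congr rfl fun i _ => Int.sign_eq_one_of_pos (hw i).1, Finset.sum_const,
        Finset.card_univ, ZMod.card, nsmul_eq_mul, mul_one]
    have h2 : ∑ u, Int.sign (tw p μ w u) ≤ 0 := by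
      refine D3_sign_sum _ hne (hcard.trans ?_)
      refine Nat.mul_le_mul_left 2 (Finset.card_le_card fun u hu => ?_)
      rw [Finset.mem_filter] at hu ⊢
      exact ⟨mem_univ u, (hsign u (mem_univ u)).1 hu.2⟩
    rw [hzr, h1]
    linarith

end Pool.Agent.Helper21.FC
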