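import Pool.Agent.Helper21.FC.Defs

/-!
MP_0aa406_nt, project FC (helper21): minimal torsion points.
-/

set_option autoImplicit false

namespace Pool.Agent.Helper21.FC

open Finset

theorem exists_min (p k h : ℕ) [NeZero k] (μ : ZMod k → ℤ) :
    ∃ x : ZMod k → ℤ, ∀ x' : ZMod k → ℤ, (zr p h μ x).card ≤ (zr p h μ x').card := by
  have hne : (Set.range (fun x : ZMod k → ℤ => (zr p h μ x).card)).Nonempty :=
    ⟨_, ⟨0, rfl⟩⟩
  obtain ⟨x, hx⟩ := Nat.sInf_mem hne
  refine ⟨x, fun x' => ?_⟩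
  have h1 : (zr p h μ x).card = sInf (Set.range (fun x : ZMod k → ℤ => (zr p h μ x).card)) := hx
  rw [h1]
  exact Nat.sInf_le ⟨x', rfl⟩

/-- number of solutions of a linear congruence -/
theorem D5_count (h : ℕ) (hh : 0 < h) (A m : ℤ) :
    ((range h).filter (fun c : ℕ => (h : ℤ) ∣ A + c * m)).card ≤ Int.gcd h m := by
  set g : ℕ := Int.gcd h m with hg
  have hgpos : 0 < g := Int.gcd_pos_of_ne_zero_left m (by exact_mod_cast hh.ne')
  have hgh : g ∣ h := by
    have : (g : ℤ) ∣ (h : ℤ) := Int.gcd_dvd_left (h : ℤ) m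
    exact_mod_cast this
  obtain ⟨q, hq⟩ := hgh
  have hqpos : 0 < q := by
    rcases Nat.eq_zero_or_pos q with h0 | h0
    · subst h0; simp at hq; omega
    · exact h0
  have hgm : (g : ℤ) ∣ m := Int.gcd_dvd_right (h : ℤ) m
  obtain ⟨m', hm'⟩ := hgm
  have hcop : IsCoprime (q : ℤ) m' := by
    have h1 : Int.gcd (h : ℤ) m = g * Int.gcd (q : ℤ) m' := by
      rw [hm', hq]
      push_cast
      rw [Int.gcd_mul_left]
      simp
    have h2 : Int.gcd (q : ℤ) m' = 1 := by
      have h3 : g * 1 = g * Int.gcd (q : ℤ) m' := by rw [mul_one]; rw [← h1]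
      exact (Nat.eq_of_mul_eq_mul_left hgpos h3).symm
    exact Int.isCoprime_iff_gcd_eq_one.mpr h2
  have hcard : ((range h).filter (fun c : ℕ => (h : ℤ) ∣ A + c * m)).card ≤ (range g).card := by
    apply Finset.card_le_card_of_injOn (fun c => c / q)
    · intro c hc
      simp only [coe_filter, Set.mem_ofPred_eq, mem_range] at hc
      simp only [coe_range, Set.mem_Iio]
      rw [Nat.div_lt_iff_lt_mul hqpos]
      rw [← hq]
      exact hc.1
    · intro c hc c' hc' hcc
      simp only [coe_filter, Set.mem_ofPred_eq, mem_range] at hc hc'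
      have hcc' : c / q = c' / q := hcc
      have h1 : (h : ℤ) ∣ ((c : ℤ) - c') * m := by
        have h2 := dvd_sub hc.2 hc'.2
        have h3 : A + (c : ℤ) * m - (A + (c' : ℤ) * m) = ((c : ℤ) - c') * m := by ring
        rwa [h3] at h2
      have h4 : (q : ℤ) ∣ ((c : ℤ) - c') * m' := by
        rw [hm', hq] at h1
        push_cast at h1
        have h5 : (g : ℤ) * q ∣ (g : ℤ) * (((c : ℤ) - c') * m') := by
          have h6 : ((c : ℤ) - c') * ((g : ℤ) * m') = (g : ℤ) * (((c : ℤ) - c') * m') := by ring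
          rwa [h6] at h1
        exact (mul_dvd_mul_iff_left (by exact_mod_cast hgpos.ne')).mp h5
      have h7 : (q : ℤ) ∣ (c : ℤ) - c' := hcop.dvd_of_dvd_mul_right h4
      have h8 : c % q = c' % q := by
        have h9 : (c' : ℤ) ≡ (c : ℤ) [ZMOD q] := (Int.modEq_iff_dvd).mpr h7
        have h10 : c' ≡ c [MOD q] := by exact_mod_cast h9
        exact h10.symm
      calc c = q * (c / q) + c % q := (Nat.div_add_mod c q).symm
        _ = q * (c' / q) + c' % q := by rw [hcc', h8]
        _ = c' := Nat.div_add_mod c' q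
  simpa using hcard

/-- change of the rows if one coordinate is changed -/
theorem D5_tw_update (p k : ℕ) [NeZero k] (μ x : ZMod k → ℤ) (i u : ZMod k) (c : ℤ) :
    tw p μ (Function.update x i (x i + c)) u =
      tw p μ x u + c * (μ (u - i) * (p : ℤ) ^ (((u - i).val + i.val) / k)) := by
  unfold tw
  have h1 : ∀ j : ZMod k, μ (u - j) * (Function.update x i (x i + c)) j *
        (p : ℤ) ^ (((u - j).val + j.val) / k) =
      μ (u - j) * x j * (p : ℤ) ^ (((u - j).val + j.val) / k) +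
        (if j = i then c * (μ (u - i) * (p : ℤ) ^ (((u - i).val + i.val) / k)) else 0) := by
    intro j
    by_cases hj : j = i
    · subst hj
      simp
      ring
    · simp [hj]
  rw [Finset.sum_congr rfl (fun j _ => h1 j), Finset.sum_add_distrib]
  simp

/-- the counting inequality for a minimal torsion point -/
theorem min_ineq (p k h : ℕ) [NeZero k] (hh : 0 < h) (hcop : Nat.Coprime p h) (μ x : ZMod k → ℤ)
    (hmin : ∀ x' : ZMod k → ℤ, (zr p h μ x).card ≤ (zr p h μ x').card) (i : ZMod k) :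
    h * ((zr p h μ x).filter (fun u => ¬ (h : ℤ) ∣ μ (u - i))).card ≤
      ∑ t ∈ univ.filter (fun t => ¬ (h : ℤ) ∣ μ t), Int.gcd h (μ t) := by
  classical
  -- the double count
  have hsum : h * (zr p h μ x).card ≤
      ∑ c ∈ range h, (zr p h μ (Function.update x i (x i + (c : ℤ)))).card := by
    calc h * (zr p h μ x).card = ∑ _c ∈ range h, (zr p h μ x).card := by simp
      _ ≤ _ := Finset.sum_le_sum (fun c _ => hmin _)
  have hswap : ∑ c ∈ range h, (zr p h μ (Function.update x i (x i + (c : ℤ)))).card =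
      ∑ u : ZMod k, ((range h).filter (fun c : ℕ => (h : ℤ) ∣ tw p μ x u +
        c * (μ (u - i) * (p : ℤ) ^ (((u - i).val + i.val) / k)))).card := by
    have h1 : ∀ c ∈ range h, (zr p h μ (Function.update x i (x i + (c : ℤ)))).card =
        ∑ u : ZMod k, if (h : ℤ) ∣ tw p μ x u +
        c * (μ (u - i) * (p : ℤ) ^ (((u - i).val + i.val) / k)) then 1 else 0 := by
      intro c _
      unfold zr
      rw [Finset.card_filter]
      refine Finset.sum_congr rfl (fun u _ => ?_)
      rw [D5_tw_update]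
    rw [Finset.sum_congr rfl h1, Finset.sum_comm]
    refine Finset.sum_congr rfl (fun u _ => ?_)
    rw [Finset.card_filter]
  have hterm : ∀ u : ZMod k, ((range h).filter (fun c : ℕ => (h : ℤ) ∣ tw p μ x u +
        c * (μ (u - i) * (p : ℤ) ^ (((u - i).val + i.val) / k)))).card ≤
      (if (h : ℤ) ∣ μ (u - i) then (if (h : ℤ) ∣ tw p μ x u then h else 0)
        else Int.gcd h (μ (u - i))) := by
    intro u
    by_cases hu : (h : ℤ) ∣ μ (u - i)
    · rw [if_pos hu]
      by_cases hz : (h : ℤ) ∣ tw p μ x u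
      · rw [if_pos hz]
        calc _ ≤ (range h).card := Finset.card_filter_le _ _
          _ = h := by simp
      · rw [if_neg hz]
        have : ((range h).filter (fun c : ℕ => (h : ℤ) ∣ tw p μ x u +
            c * (μ (u - i) * (p : ℤ) ^ (((u - i).val + i.val) / k)))) = ∅ := by
          apply Finset.filter_eq_empty_iff.mpr
          intro c _ hc
          apply hz
          have h2 : (h : ℤ) ∣ (c : ℤ) * (μ (u - i) * (p : ℤ) ^ (((u - i).val + i.val) / k)) :=
            Dvd.dvd.mul_left (Dvd.dvd.mul_right hu _) _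
          exact (dvd_add_left h2).mp hc
        rw [this]
        simp
    · rw [if_neg hu]
      refine (D5_count h hh _ _).trans (le_of_eq ?_)
      have h3 : IsCoprime ((p : ℤ) ^ (((u - i).val + i.val) / k)) (h : ℤ) :=
        IsCoprime.pow_left (Nat.isCoprime_iff_coprime.mpr hcop)
      have h4 : Int.gcd (h : ℤ) (μ (u - i) * (p : ℤ) ^ (((u - i).val + i.val) / k)) =
          Int.gcd (h : ℤ) (μ (u - i)) := by
        rw [mul_comm]
        exact Int.gcd_mul_right_right_of_gcd_eq_one (Int.isCoprime_iff_gcd_eq_one.mp h3.symm)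
      exact h4
  have hub := hsum.trans (hswap.le.trans (Finset.sum_le_sum (fun u _ => hterm u)))
  -- split the right side
  have hsplit : ∑ u : ZMod k, (if (h : ℤ) ∣ μ (u - i) then (if (h : ℤ) ∣ tw p μ x u then h else 0)
        else Int.gcd h (μ (u - i))) =
      h * ((zr p h μ x).filter (fun u => (h : ℤ) ∣ μ (u - i))).card +
      ∑ t ∈ univ.filter (fun t => ¬ (h : ℤ) ∣ μ t), Int.gcd h (μ t) := by
    have h1 : ∑ t ∈ univ.filter (fun t => ¬ (h : ℤ) ∣ μ t), Int.gcd h (μ t) =
        ∑ u : ZMod k, if ¬ (h : ℤ) ∣ μ (u - i) then Int.gcd h (μ (u - i)) else 0 := by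
      rw [Finset.sum_filter]
      exact (Equiv.sum_comp (Equiv.subRight i)
        (fun t => if ¬ (h : ℤ) ∣ μ t then Int.gcd (h : ℤ) (μ t) else 0)).symm
    have h2 : h * ((zr p h μ x).filter (fun u => (h : ℤ) ∣ μ (u - i))).card =
        ∑ u : ZMod k, if (h : ℤ) ∣ μ (u - i) then (if (h : ℤ) ∣ tw p μ x u then h else 0)
          else 0 := by
      unfold zr
      rw [Finset.filter_filter, Finset.card_filter, Finset.mul_sum]
      refine Finset.sum_congr rfl (fun u _ => ?_)
      by_cases ha : (h : ℤ) ∣ μ (u - i) <;> by_cases hb : (h : ℤ) ∣ tw p μ x u <;> simp [ha, hb]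
    rw [h1, h2, ← Finset.sum_add_distrib]
    refine Finset.sum_congr rfl (fun u _ => ?_)
    by_cases ha : (h : ℤ) ∣ μ (u - i) <;> simp [ha]
  rw [hsplit] at hub
  have hcardsplit : (zr p h μ x).card = ((zr p h μ x).filter (fun u => (h : ℤ) ∣ μ (u - i))).card +
      ((zr p h μ x).filter (fun u => ¬ (h : ℤ) ∣ μ (u - i))).card :=
    (Finset.card_filter_add_card_filter_not _).symm
  rw [hcardsplit, mul_add] at hub
  omega

theorem D5_gcd_half (h : ℕ) (hh : 0 < h) (m : ℤ) (hm : ¬ (h : ℤ) ∣ m) :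
    2 * Int.gcd h m ≤ h ∧ ((¬ (h : ℤ) ∣ 2 * m) → 2 * Int.gcd h m < h) := by
  set g : ℕ := Int.gcd h m with hg
  have hgpos : 0 < g := Int.gcd_pos_of_ne_zero_left m (by exact_mod_cast hh.ne')
  have hgh : g ∣ h := by
    have : (g : ℤ) ∣ (h : ℤ) := Int.gcd_dvd_left (h : ℤ) m
    exact_mod_cast this
  have hgm : (g : ℤ) ∣ m := Int.gcd_dvd_right (h : ℤ) m
  obtain ⟨q, hq⟩ := hgh
  have hq0 : q ≠ 0 := by
    rintro rfl; simp at hq; omega
  have hq1 : q ≠ 1 := by
    rintro rfl
    apply hm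
    rw [hq]; simpa using hgm
  have hq2 : 2 ≤ q := by omega
  constructor
  · calc 2 * g = g * 2 := by ring
      _ ≤ g * q := Nat.mul_le_mul_left g hq2
      _ = h := hq.symm
  · intro h2
    have hq3 : q ≠ 2 := by
      rintro rfl
      apply h2
      rw [hq]
      push_cast
      rw [mul_comm (g : ℤ) 2]
      exact mul_dvd_mul_left 2 hgm
    have hq4 : 3 ≤ q := by omega
    calc 2 * g < g * 3 := by omega
      _ ≤ g * q := Nat.mul_le_mul_left g hq4
      _ = h := hq.symm

/-- at most half of the non-integral coefficients meet the zero rows -/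
theorem min_half (p k h : ℕ) [NeZero k] (hh : 0 < h) (hcop : Nat.Coprime p h) (μ x : ZMod k → ℤ)
    (hmin : ∀ x' : ZMod k → ℤ, (zr p h μ x).card ≤ (zr p h μ x').card) (i : ZMod k) :
    2 * ((zr p h μ x).filter (fun u => ¬ (h : ℤ) ∣ μ (u - i))).card ≤
      (univ.filter (fun t => ¬ (h : ℤ) ∣ μ t)).card := by
  have h1 := min_ineq p k h hh hcop μ x hmin i
  have h2 : 2 * ∑ t ∈ univ.filter (fun t => ¬ (h : ℤ) ∣ μ t), Int.gcd h (μ t) ≤
      h * (univ.filter (fun t => ¬ (h : ℤ) ∣ μ t)).card := by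
    rw [Finset.mul_sum]
    calc _ ≤ ∑ _t ∈ univ.filter (fun t => ¬ (h : ℤ) ∣ μ t), h := by
          apply Finset.sum_le_sum
          intro t ht
          exact (D5_gcd_half h hh (μ t) (Finset.mem_filter.mp ht).2).1
      _ = _ := by rw [Finset.sum_const, smul_eq_mul, mul_comm]
  have h3 : h * (2 * ((zr p h μ x).filter (fun u => ¬ (h : ℤ) ∣ μ (u - i))).card) ≤
      h * (univ.filter (fun t => ¬ (h : ℤ) ∣ μ t)).card := by
    calc _ = 2 * (h * ((zr p h μ x).filter (fun u => ¬ (h : ℤ) ∣ μ (u - i))).card) := by ring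
      _ ≤ _ := (Nat.mul_le_mul_left 2 h1).trans h2
  exact Nat.le_of_mul_le_mul_left h3 hh

/-- less than half if `2 μ / h` is not integral -/
theorem min_lt_half (p k h : ℕ) [NeZero k] (hh : 0 < h) (hcop : Nat.Coprime p h)
    (μ x : ZMod k → ℤ)
    (hmin : ∀ x' : ZMod k → ℤ, (zr p h μ x).card ≤ (zr p h μ x').card)
    (h3 : ∃ t, ¬ (h : ℤ) ∣ 2 * μ t) (i : ZMod k) :
    2 * ((zr p h μ x).filter (fun u => ¬ (h : ℤ) ∣ μ (u - i))).card <
      (univ.filter (fun t => ¬ (h : ℤ) ∣ μ t)).card := by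
  have h1 := min_ineq p k h hh hcop μ x hmin i
  obtain ⟨t0, ht0⟩ := h3
  have ht0' : ¬ (h : ℤ) ∣ μ t0 := fun hc => ht0 (Dvd.dvd.mul_left hc 2)
  have h2 : 2 * ∑ t ∈ univ.filter (fun t => ¬ (h : ℤ) ∣ μ t), Int.gcd h (μ t) <
      h * (univ.filter (fun t => ¬ (h : ℤ) ∣ μ t)).card := by
    rw [Finset.mul_sum]
    calc _ < ∑ _t ∈ univ.filter (fun t => ¬ (h : ℤ) ∣ μ t), h := by
          apply Finset.sum_lt_sum
          · intro t ht
            exact (D5_gcd_half h hh (μ t) (Finset.mem_filter.mp ht).2).1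
          · exact ⟨t0, Finset.mem_filter.mpr ⟨Finset.mem_univ _, ht0'⟩,
              (D5_gcd_half h hh (μ t0) ht0').2 ht0⟩
      _ = _ := by rw [Finset.sum_const, smul_eq_mul, mul_comm]
  have h4 : h * (2 * ((zr p h μ x).filter (fun u => ¬ (h : ℤ) ∣ μ (u - i))).card) <
      h * (univ.filter (fun t => ¬ (h : ℤ) ∣ μ t)).card := by
    calc _ = 2 * (h * ((zr p h μ x).filter (fun u => ¬ (h : ℤ) ∣ μ (u - i))).card) := by ring
      _ ≤ _ := Nat.mul_le_mul_left 2 h1
      _ < _ := h2
  exact Nat.lt_of_mul_lt_mul_left h4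

end Pool.Agent.Helper21.FC
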