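import Pool.Agent.Helper21.FC.D3
import Pool.Agent.Helper21.FC.D5

/-!
MP_0aa406_nt, project FC (helper21): case B, `2 μ / h` integral, `μ / h` not, and `0 < μ(ρ) < h`.
-/

set_option autoImplicit false

namespace Pool.Agent.Helper21.FC

open Finset

private theorem D4_one_le_rho (p k : ℕ) (hp : 2 ≤ p) : (1 : ℝ) ≤ (p : ℝ) ^ ((1 : ℝ) / k) := by
  apply Real.one_le_rpow
  · exact_mod_cast (by omega : 1 ≤ p)
  · positivity

private theorem D4_rho_pow_le (p k : ℕ) [NeZero k] (hp : 2 ≤ p) (t : ZMod k) :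
    ((p : ℝ) ^ ((1 : ℝ) / k)) ^ t.val ≤ p := by
  have hk : 0 < k := Nat.pos_of_ne_zero (NeZero.ne k)
  have hk' : (0 : ℝ) < k := by exact_mod_cast hk
  calc ((p : ℝ) ^ ((1 : ℝ) / k)) ^ t.val
      ≤ ((p : ℝ) ^ ((1 : ℝ) / k)) ^ k :=
        pow_le_pow_right₀ (D4_one_le_rho p k hp) (ZMod.val_lt t).le
    _ = p := by
      rw [← Real.rpow_natCast, ← Real.rpow_mul (by positivity), one_div,
        inv_mul_cancel₀ hk'.ne', Real.rpow_one]

private theorem D4_key (k : ℕ) [NeZero k] (a : ZMod k → ℝ) (P : ZMod k → Prop) [DecidablePred P]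
    (U : Finset (ZMod k)) (r : ℝ) (hr : 1 ≤ r) (t1 i : ZMod k)
    (h1 : ∀ t, P t → 1 / 2 ≤ |a t|) (h2 : ∀ t, ¬ P t → a t = 0 ∨ 1 ≤ |a t|)
    (h3 : P t1 → r / 2 ≤ |a t1|) (h4 : ¬ P t1 → r ≤ |a t1|)
    (hhalf : 2 * (U.filter (fun u => P (u - i))).card ≤ (univ.filter P).card) :
    ∑ u ∈ U, |a (u - i)| + (r - 1) ^ 2 / 4 ≤ ∑ t, a t ^ 2 := by
  classical
  have e1 : ∑ u ∈ U, |a (u - i)| = ∑ t, if t + i ∈ U then |a t| else 0 := by
    calc ∑ u ∈ U, |a (u - i)| = ∑ u, if u ∈ U then |a (u - i)| else 0 := by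
          rw [Finset.sum_ite_mem, univ_inter]
      _ = ∑ t, if t + i ∈ U then |a t| else 0 := by
          apply Fintype.sum_equiv (Equiv.subRight i)
          intro u
          simp [sub_add_cancel]
  have e2 : ((U.filter (fun u => P (u - i))).card : ℝ)
      = ∑ t, if t + i ∈ U ∧ P t then (1 : ℝ) else 0 := by
    calc ((U.filter (fun u => P (u - i))).card : ℝ)
        = ∑ u, if u ∈ U ∧ P (u - i) then (1 : ℝ) else 0 := by
          rw [Finset.card_filter]
          push_cast
          rw [← Finset.sum_filter, ← Finset.sum_filter]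
          apply Finset.sum_congr _ (fun _ _ => rfl)
          ext u
          simp
      _ = ∑ t, if t + i ∈ U ∧ P t then (1 : ℝ) else 0 := by
          apply Fintype.sum_equiv (Equiv.subRight i)
          intro u
          simp [sub_add_cancel]
  have e3 : ((univ.filter P).card : ℝ) = ∑ t, if P t then (1 : ℝ) else 0 := by
    rw [Finset.card_filter]
    push_cast
    rfl
  have hterm : ∀ t, (if t + i ∈ U then |a t| else 0) + (if t = t1 then (r - 1) ^ 2 / 4 else 0)
      + (1 / 4) * (if P t then (1 : ℝ) else 0)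
      - (1 / 2) * (if t + i ∈ U ∧ P t then (1 : ℝ) else 0) ≤ a t ^ 2 := by
    intro t
    have habs : a t ^ 2 = |a t| ^ 2 := (sq_abs _).symm
    have h0 : 0 ≤ |a t| := abs_nonneg _
    rw [habs]
    by_cases hU : t + i ∈ U <;> by_cases hP : P t <;> by_cases ht : t = t1
    · subst ht
      have := h3 hP
      simp only [hU, hP, if_true, and_self]
      nlinarith [this]
    · have := h1 t hP
      simp only [hU, hP, ht, if_true, if_false, and_self]
      nlinarith [sq_nonneg (|a t| - 1 / 2)]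
    · subst ht
      have := h4 hP
      simp only [hU, hP, if_true, if_false, and_false]
      nlinarith [this]
    · simp only [hU, hP, ht, if_true, if_false, and_false]
      rcases h2 t hP with h | h
      · rw [h]; simp
      · nlinarith
    · subst ht
      have := h3 hP
      simp only [hU, hP, if_true, if_false, false_and]
      nlinarith [this]
    · have := h1 t hP
      simp only [hU, hP, ht, if_true, if_false, false_and]
      nlinarith
    · subst ht
      have := h4 hP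
      simp only [hU, hP, if_true, if_false, and_false]
      nlinarith [this]
    · simp only [hU, hP, ht, if_false, and_false]
      nlinarith
  have hs := Finset.sum_le_sum (fun t (_ : t ∈ (univ : Finset (ZMod k))) => hterm t)
  rw [Finset.sum_sub_distrib, Finset.sum_add_distrib, Finset.sum_add_distrib, ← Finset.mul_sum,
    ← Finset.mul_sum, ← e1, ← e2, ← e3, Finset.sum_ite_eq' univ t1] at hs
  simp only [mem_univ, if_true] at hs
  have hh : 2 * ((U.filter (fun u => P (u - i))).card : ℝ) ≤ (univ.filter P).card := by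
    exact_mod_cast hhalf
  linarith

private theorem D4_half_abs (h : ℕ) (hh : 0 < h) (m : ℤ) (h2 : (h : ℤ) ∣ 2 * m)
    (hn : ¬ (h : ℤ) ∣ m) : (1 : ℝ) / 2 ≤ |(m : ℝ) / h| := by
  have hm : m ≠ 0 := by
    rintro rfl
    exact hn (dvd_zero _)
  have hle : (h : ℤ) ≤ |2 * m| := Int.le_of_dvd (by positivity) ((dvd_abs _ _).2 h2)
  have hh' : (0 : ℝ) < h := by exact_mod_cast hh
  have : (h : ℝ) ≤ 2 * |(m : ℝ)| := by
    have : ((h : ℤ) : ℝ) ≤ ((|2 * m| : ℤ) : ℝ) := by exact_mod_cast hle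
    simpa [abs_mul] using this
  rw [abs_div, abs_of_pos hh', le_div_iff₀ hh']
  linarith

private theorem D4_int_abs (h : ℕ) (hh : 0 < h) (m : ℤ) (h2 : (h : ℤ) ∣ m)
    (hn : m ≠ 0) : (1 : ℝ) ≤ |(m : ℝ) / h| := by
  have hle : (h : ℤ) ≤ |m| := Int.le_of_dvd (by positivity) ((dvd_abs _ _).2 h2)
  have hh' : (0 : ℝ) < h := by exact_mod_cast hh
  have : (h : ℝ) ≤ |(m : ℝ)| := by
    have : ((h : ℤ) : ℝ) ≤ ((|m| : ℤ) : ℝ) := by exact_mod_cast hle
    simpa using this
  rw [abs_div, abs_of_pos hh', le_div_iff₀ hh']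
  linarith

private theorem D4_sum_cir (p k h : ℕ) [NeZero k] (μ : ZMod k → ℤ) :
    ∑ t, cir p h μ t = rev p μ / h := by
  unfold cir rev
  rw [Finset.sum_div]
  apply Finset.sum_congr rfl
  intro t _
  ring

private theorem D4_cir_sq_le (p k h B : ℕ) [NeZero k] (hh : 0 < h) (hp : 2 ≤ p)
    (μ : ZMod k → ℤ) (hμ : ∀ t, |μ t| ≤ (p : ℤ) ^ B) :
    ∑ t, cir p h μ t ^ 2 ≤ k * (p : ℝ) ^ (2 * B + 2) := by
  have hp0 : (0 : ℝ) < p := by exact_mod_cast (by omega : 0 < p)
  have hh1 : (1 : ℝ) ≤ h := by exact_mod_cast hh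
  have hb : ∀ t, cir p h μ t ^ 2 ≤ (p : ℝ) ^ (2 * B + 2) := by
    intro t
    have h1 : |(μ t : ℝ) / h| ≤ (p : ℝ) ^ B := by
      rw [abs_div, abs_of_pos (by linarith : (0 : ℝ) < h), div_le_iff₀ (by linarith)]
      have : |(μ t : ℝ)| ≤ (p : ℝ) ^ B := by exact_mod_cast hμ t
      have hpos : (0 : ℝ) ≤ (p : ℝ) ^ B := by positivity
      nlinarith
    have h2 := D4_rho_pow_le p k hp t
    have h3 : 0 ≤ ((p : ℝ) ^ ((1 : ℝ) / k)) ^ t.val := by positivity
    have h4 : |cir p h μ t| ≤ (p : ℝ) ^ (B + 1) := by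
      unfold cir
      rw [abs_mul, abs_of_nonneg h3, pow_succ]
      exact mul_le_mul h1 h2 h3 (by positivity)
    calc cir p h μ t ^ 2 = |cir p h μ t| ^ 2 := (sq_abs _).symm
      _ ≤ ((p : ℝ) ^ (B + 1)) ^ 2 := by
        apply pow_le_pow_left₀ (abs_nonneg _) h4
      _ = (p : ℝ) ^ (2 * B + 2) := by
        rw [← pow_mul]; congr 1; ring
  calc ∑ t, cir p h μ t ^ 2 ≤ ∑ _t : ZMod k, (p : ℝ) ^ (2 * B + 2) :=
        Finset.sum_le_sum (fun t _ => hb t)
    _ = k * (p : ℝ) ^ (2 * B + 2) := by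
      rw [Finset.sum_const, Finset.card_univ, ZMod.card, nsmul_eq_mul]

/-- the trivial case: `μ` is a constant and `μ / h` is a half -/
private theorem D4_trivial (p k h : ℕ) [NeZero k] (μ : ZMod k → ℤ)
    (h0 : ∀ t, t ≠ 0 → μ t = 0) (hn : ¬ (h : ℤ) ∣ μ 0) :
    HasValue p h μ (fun _ => 1) (fun _ => 1) := by
  have htw : ∀ u, tw p μ (fun _ => 1) u = μ 0 := by
    intro u
    unfold tw
    rw [Finset.sum_eq_single u]
    · simp [Nat.div_eq_of_lt (ZMod.val_lt u)]
    · intro i _ hi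
      rw [h0 (u - i) (sub_ne_zero.2 (Ne.symm hi))]
      simp
    · intro hu
      exact absurd (mem_univ u) hu
  have hz : zr p h μ (fun _ => 1) = ∅ := by
    unfold zr
    rw [Finset.filter_eq_empty_iff]
    intro u _
    rw [htw]
    exact hn
  refine ⟨fun _ => one_ne_zero, ?_, ?_⟩
  · intro u hu
    rw [hz] at hu
    simp at hu
  · rw [hz]
    simp [ZMod.card]

theorem case_half (k : ℕ) [NeZero k] (h B : ℕ) (hh : 0 < h) : ∃ B1 : ℕ, ∀ p : ℕ,
    2 ≤ p → Nat.Coprime p h → ∀ μ : ZMod k → ℤ, (∀ t, |μ t| ≤ (p : ℤ) ^ B) →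
    (∀ t, (h : ℤ) ∣ 2 * μ t) → (∃ t, ¬ (h : ℤ) ∣ μ t) →
    0 < rev p μ → rev p μ < h →
    ∃ x w : ZMod k → ℤ, (∀ i, |w i| ≤ (p : ℤ) ^ B1) ∧ HasValue p h μ x w := by
  obtain ⟨B1, hB1⟩ := integral_direction k h B (32 * k ^ 3 + (2 * B + 2)) hh
  refine ⟨B1, ?_⟩
  intro p hp hcop μ hμ h2 hn hS0 hS1
  have hk : 0 < k := Nat.pos_of_ne_zero (NeZero.ne k)
  have hk1 : (1 : ℝ) ≤ k := by exact_mod_cast hk
  have hh0 : (0 : ℝ) < h := by exact_mod_cast hh
  have hp1 : (1 : ℝ) ≤ p := by exact_mod_cast (by omega : 1 ≤ p)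
  have hp2 : (2 : ℝ) ≤ p := by exact_mod_cast hp
  by_cases hT : ∀ t, t ≠ 0 → μ t = 0
  · refine ⟨fun _ => 1, fun _ => 1, ?_, ?_⟩
    · intro i
      have : (1 : ℤ) ≤ (p : ℤ) ^ B1 := one_le_pow₀ (by exact_mod_cast (by omega : 1 ≤ p))
      simpa using this
    · apply D4_trivial p k h μ hT
      obtain ⟨t, ht⟩ := hn
      by_cases h0 : t = 0
      · rwa [h0] at ht
      · rw [hT t h0] at ht
        exact absurd (dvd_zero _) ht
  · push Not at hT
    obtain ⟨t1, ht1, hμ1⟩ := hT
    obtain ⟨x, hx⟩ := exists_min p k h μ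
    set r : ℝ := (p : ℝ) ^ ((1 : ℝ) / k) with hr
    have hr1 : 1 ≤ r := D4_one_le_rho p k hp
    have hr2 : 1 + 1 / (2 * (k : ℝ)) ≤ r := rho_ge p k hp hk
    have hrt : ∀ t : ZMod k, 1 ≤ r ^ t.val := fun t => one_le_pow₀ hr1
    have hrt1 : r ≤ r ^ t1.val := by
      have : 1 ≤ t1.val := by
        rcases Nat.eq_zero_or_pos t1.val with h | h
        · exact absurd ((ZMod.val_eq_zero t1).1 h) ht1
        · exact h
      calc r = r ^ 1 := (pow_one r).symm
        _ ≤ r ^ t1.val := pow_le_pow_right₀ hr1 this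
    set a : ZMod k → ℝ := cir p h μ with ha
    have habs : ∀ t, |a t| = |(μ t : ℝ) / h| * r ^ t.val := by
      intro t
      rw [ha]
      unfold cir
      rw [abs_mul, abs_of_nonneg (by positivity : (0 : ℝ) ≤ ((p : ℝ) ^ ((1 : ℝ) / k)) ^ t.val)]
    have hA : ∀ i, ∑ u ∈ zr p h μ x, |a (u - i)| + (r - 1) ^ 2 / 4 ≤ ∑ t, a t ^ 2 := by
      intro i
      apply D4_key k a (fun t => ¬ (h : ℤ) ∣ μ t) (zr p h μ x) r hr1 t1 i
      · intro t ht
        rw [habs]
        have := D4_half_abs h hh (μ t) (h2 t) ht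
        nlinarith [hrt t]
      · intro t ht
        rw [not_not] at ht
        by_cases h0 : μ t = 0
        · left
          rw [ha]
          unfold cir
          rw [h0]
          simp
        · right
          rw [habs]
          have := D4_int_abs h hh (μ t) ht h0
          nlinarith [hrt t]
      · intro ht
        rw [habs]
        have := D4_half_abs h hh (μ t1) (h2 t1) ht
        nlinarith
      · intro ht
        rw [not_not] at ht
        rw [habs]
        have := D4_int_abs h hh (μ t1) ht hμ1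
        nlinarith
      · exact min_half p k h hh hcop μ x hx i
    set E : ℝ := ∑ t, a t ^ 2 with hE
    set δ' : ℝ := (r - 1) ^ 2 / 4 with hδ'
    have hrpos : 0 < r - 1 := by
      have : 0 < 1 / (2 * (k : ℝ)) := by positivity
      linarith
    have hδ'pos : 0 < δ' := by positivity
    have hElow : r ^ 2 / 4 ≤ E := by
      have h1 : a t1 ^ 2 ≤ E := by
        rw [hE]
        exact Finset.single_le_sum (f := fun t => a t ^ 2) (fun t _ => sq_nonneg _) (mem_univ t1)
      have h3 : r / 2 ≤ |a t1| := by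
        rw [habs]
        by_cases ht : (h : ℤ) ∣ μ t1
        · have := D4_int_abs h hh (μ t1) ht hμ1
          nlinarith
        · have := D4_half_abs h hh (μ t1) (h2 t1) ht
          nlinarith
      have h4 : (r / 2) ^ 2 ≤ |a t1| ^ 2 := pow_le_pow_left₀ (by linarith) h3 2
      rw [sq_abs] at h4
      nlinarith
    have hEpos : 0 < E := by nlinarith
    have hLpos : 0 < E - δ' := by
      rw [hδ']
      nlinarith
    have hEup : E ≤ k * (p : ℝ) ^ (2 * B + 2) := D4_cir_sq_le p k h B hh hp μ hμ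
    have hδE : δ' / (2 * E) ≤ 1 := by
      rw [div_le_one (by positivity)]
      linarith
    have hSeq : ∑ t, a t = rev p μ / h := D4_sum_cir p k h μ
    have hb := bang a (zr p h μ x) (E - δ') (δ' / (2 * E))
      (by rw [hSeq]; positivity)
      (by rw [hSeq, div_le_one hh0]; exact hS1.le)
      (by positivity) hδE hLpos
      (fun i => by linarith [hA i])
      (by
        have hS : ∑ t, a t ≤ 1 := by rw [hSeq, div_le_one hh0]; exact hS1.le
        have h5 : 2 * (δ' / (2 * E)) = δ' / E := by field_simp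
        rw [h5]
        have h6 : (E - δ') * (∑ t, a t + δ' / E) ≤ (E - δ') * (1 + δ' / E) := by
          apply mul_le_mul_of_nonneg_left _ hLpos.le
          linarith
        have h7 : (E - δ') * (1 + δ' / E) = E - δ' ^ 2 / E := by
          field_simp
          ring
        have h8 : 0 ≤ δ' ^ 2 / E := by positivity
        linarith)
    obtain ⟨y, hy1, hy2, hy3⟩ := hb
    -- lower bound for δ
    have hδlow : ((p : ℝ) ^ (32 * k ^ 3 + (2 * B + 2)))⁻¹ ≤ δ' / (2 * E) := by
      have h9 : 1 / (16 * (k : ℝ) ^ 2) ≤ δ' := by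
        rw [hδ']
        have h10 : 1 / (2 * (k : ℝ)) ≤ r - 1 := by linarith
        have h11 : (1 / (2 * (k : ℝ))) ^ 2 ≤ (r - 1) ^ 2 :=
          pow_le_pow_left₀ (by positivity) h10 2
        have h12 : (1 / (2 * (k : ℝ))) ^ 2 = 1 / (4 * (k : ℝ) ^ 2) := by
          field_simp
          ring
        rw [h12] at h11
        have h13 : 1 / (16 * (k : ℝ) ^ 2) = (1 / (4 * (k : ℝ) ^ 2)) / 4 := by
          field_simp
          ring
        rw [h13]
        linarith
      have h14 : (32 * (k : ℝ) ^ 3) ≤ (p : ℝ) ^ (32 * k ^ 3) := by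
        have h15 : 32 * k ^ 3 < 2 ^ (32 * k ^ 3) := Nat.lt_two_pow_self
        have h16 : (32 * (k : ℝ) ^ 3) ≤ (2 : ℝ) ^ (32 * k ^ 3) := by exact_mod_cast h15.le
        exact h16.trans (pow_le_pow_left₀ (by norm_num) hp2 _)
      rw [inv_eq_one_div, div_le_div_iff₀ (by positivity) (by positivity), one_mul]
      have h17 : 2 * E ≤ 2 * (k * (p : ℝ) ^ (2 * B + 2)) := by linarith
      have h18 : 2 * (k * (p : ℝ) ^ (2 * B + 2))
          = (1 / (16 * (k : ℝ) ^ 2)) * ((32 * (k : ℝ) ^ 3) * (p : ℝ) ^ (2 * B + 2)) := by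
        field_simp
        ring
      have h19 : (1 / (16 * (k : ℝ) ^ 2)) * ((32 * (k : ℝ) ^ 3) * (p : ℝ) ^ (2 * B + 2))
          ≤ δ' * (p : ℝ) ^ (32 * k ^ 3 + (2 * B + 2)) := by
        rw [pow_add (p : ℝ) (32 * k ^ 3) (2 * B + 2)]
        apply mul_le_mul h9 _ (by positivity) hδ'pos.le
        apply mul_le_mul_of_nonneg_right h14 (by positivity)
      linarith
    obtain ⟨w, hw1, hw2⟩ := hB1 p hp μ hμ y (zr p h μ x)
      (fun i => ⟨hδlow.trans (hy1 i).1, (hy1 i).2⟩) (fun u hu => hδlow.trans (hy2 u hu))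
    refine ⟨x, w, ?_, ?_⟩
    · intro i
      rw [abs_of_pos (hw1 i).1]
      exact (hw1 i).2
    · have hne : ∀ u ∈ zr p h μ x, act a y u < 0 ∨ 0 < act a y u := by
        intro u hu
        have h20 : 0 < |act a y u| := lt_of_lt_of_le (by positivity) (hy2 u hu)
        exact lt_or_gt_of_ne (abs_pos.1 h20)
      refine ⟨fun i => (hw1 i).1.ne', ?_, ?_⟩
      · intro u hu
        rcases hne u hu with h | h
        · exact ((hw2 u hu).1 h).ne
        · exact ((hw2 u hu).2 h).ne'
      · have hs1 : ∑ i, Int.sign (w i) = k := by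
          have : ∀ i, Int.sign (w i) = 1 := fun i => Int.sign_eq_one_of_pos (hw1 i).1
          simp [this, ZMod.card]
        have hs2 : ∑ u ∈ zr p h μ x, Int.sign (tw p μ w u)
            = ∑ u ∈ zr p h μ x, ((1 : ℤ) - 2 * (if act a y u < 0 then 1 else 0)) := by
          apply Finset.sum_congr rfl
          intro u hu
          rcases hne u hu with h | h
          · rw [if_pos h, Int.sign_eq_neg_one_of_neg ((hw2 u hu).1 h)]
            norm_num
          · rw [if_neg (by linarith), Int.sign_eq_one_of_pos ((hw2 u hu).2 h)]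
            norm_num
        have hs3 : ∑ u ∈ zr p h μ x, (if act a y u < 0 then (1 : ℤ) else 0)
            = (((zr p h μ x).filter (fun u => act a y u < 0)).card : ℤ) := by
          rw [Finset.card_filter]
          push_cast
          rfl
        have hs4 : ((zr p h μ x).card : ℤ)
            ≤ 2 * (((zr p h μ x).filter (fun u => act a y u < 0)).card : ℤ) := by
          exact_mod_cast hy3
        rw [hs1, hs2, Finset.sum_sub_distrib, ← Finset.mul_sum, hs3, Finset.sum_const,
          nsmul_eq_mul, mul_one]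
        linarith

end Pool.Agent.Helper21.FC
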