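import Pool.Agent.Helper21.FC.D5
import Pool.Agent.Helper77.KZ.Swap

/-!
MP_0aa406_nt, project FC (helper21): no stuck sets at a minimal torsion point.
-/

set_option autoImplicit false

namespace Pool.Agent.Helper21.FC

open Finset

/-- without nonempty stuck subsets the greedy play has total gain `≥ 0` -/
theorem val_of_no_stuck {k : ℕ} [NeZero k] (g : ZMod k → ℤ) (U : Finset (ZMod k))
    (h : ∀ Y ⊆ U, Y.Nonempty → ¬ Helper77.KZ.Stuck g Y) : Helper77.KZ.Val g U 0 := by
  classical
  induction hU : U.card using Nat.strong_induction_on generalizing U with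
  | _ m ih =>
    rcases U.eq_empty_or_nonempty with rfl | hne
    · exact ⟨0, le_rfl, Helper77.KZ.Play.nil⟩
    · have h1 := h U (Finset.Subset.refl _) hne
      unfold Helper77.KZ.Stuck at h1
      push Not at h1
      obtain ⟨s, hs, hE⟩ := h1
      have hsub : Helper77.KZ.rest g U s ⊆ U := filter_subset _ _
      have hlt : (Helper77.KZ.rest g U s).card < U.card := by
        apply card_lt_card
        rw [Finset.ssubset_iff_of_subset hsub]
        obtain ⟨l, hl, hg⟩ := hs
        exact ⟨l, hl, by simp [Helper77.KZ.rest, hg]⟩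
      obtain ⟨F, hF, hP⟩ := ih _ (hU ▸ hlt) (Helper77.KZ.rest g U s)
        (fun Y hY => h Y (hY.trans hsub)) rfl
      refine ⟨_, ?_, Helper77.KZ.Play.step U s F hP⟩
      have h2 : 1 ≤ |Helper77.KZ.EE g U s - 1| := Int.one_le_abs (sub_ne_zero.mpr hE)
      linarith

open scoped Pointwise in
/-- a minimal torsion point has no nonempty stuck set of zero rows if `2 μ / h` is not integral and
the excess is at most two -/
theorem no_stuck (p k h : ℕ) [NeZero k] (hh : 0 < h) (hcop : Nat.Coprime p h) (μ x : ZMod k → ℤ)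
    (hmin : ∀ x' : ZMod k → ℤ, (zr p h μ x).card ≤ (zr p h μ x').card)
    (h3 : ∃ t, ¬ (h : ℤ) ∣ 2 * μ t) (he : ∑ t, Int.sign (μ t) ≤ 2) :
    ∀ Y ⊆ zr p h μ x, Y.Nonempty → ¬ Helper77.KZ.Stuck (fun t => Int.sign (μ (-t))) Y := by
  classical
  intro Y hY hYne hst
  set g : ZMod k → ℤ := fun t => Int.sign (μ (-t)) with hg
  set T : Finset (ZMod k) := univ.filter (fun t => ¬ (h : ℤ) ∣ μ t) with hT
  have hcard := Helper77.KZ.stuck_card hst
  have hsum : ∑ i, g i = ∑ t, Int.sign (μ t) := by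
    rw [hg]
    exact Equiv.sum_comp (Equiv.neg (ZMod k)) (fun t => Int.sign (μ t))
  rw [hsum] at hcard
  set V : Finset (ZMod k) := Y + Helper77.KZ.TT g with hV
  -- nonempty
  obtain ⟨t0, ht0⟩ := h3
  have ht0' : ¬ (h : ℤ) ∣ μ t0 := fun hd => ht0 (hd.mul_left 2)
  have hmem : ∀ y ∈ Y, ∀ s, ¬ (h : ℤ) ∣ μ (y - s) → s ∈ V := by
    intro y hy s hs
    rw [hV, Finset.mem_add]
    refine ⟨y, hy, s - y, ?_, by ring⟩
    have h1 : μ (y - s) ≠ 0 := by
      intro h0
      rw [h0] at hs
      exact hs (dvd_zero _)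
    have h2 : -(s - y) = y - s := by ring
    simp only [Helper77.KZ.TT, mem_filter, mem_univ, true_and, hg, h2]
    exact fun h0 => h1 (Int.sign_eq_zero_iff_zero.mp h0)
  have hVne : V.Nonempty := by
    obtain ⟨y, hy⟩ := hYne
    refine ⟨y - t0, hmem y hy _ ?_⟩
    have : y - (y - t0) = t0 := by ring
    rwa [this]
  -- double counting
  have hcount : ∑ s ∈ V, (Y.filter (fun y => ¬ (h : ℤ) ∣ μ (y - s))).card = Y.card * T.card := by
    have h1 : ∀ s, (Y.filter (fun y => ¬ (h : ℤ) ∣ μ (y - s))).card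
        = ∑ y ∈ Y, if ¬ (h : ℤ) ∣ μ (y - s) then 1 else 0 := fun s => by
      rw [card_filter]
    rw [sum_congr rfl (fun s _ => h1 s), sum_comm]
    have h2 : ∀ y ∈ Y, (∑ s ∈ V, if ¬ (h : ℤ) ∣ μ (y - s) then 1 else 0) = T.card := by
      intro y hy
      rw [← card_filter]
      apply Finset.card_bij' (fun s _ => y - s) (fun t _ => y - t)
      · intro s hs
        rw [mem_filter] at hs
        rw [hT, mem_filter]
        exact ⟨mem_univ _, hs.2⟩
      · intro t ht
        rw [hT, mem_filter] at ht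
        have h4 : y - (y - t) = t := by ring
        rw [mem_filter, h4]
        exact ⟨hmem y hy _ (by rw [h4]; exact ht.2), ht.2⟩
      · intro s _
        ring
      · intro t _
        ring
    rw [sum_congr rfl h2, sum_const, smul_eq_mul]
  have hlt : ∀ s ∈ V, 2 * (Y.filter (fun y => ¬ (h : ℤ) ∣ μ (y - s))).card < T.card := by
    intro s _
    have h1 : 2 * ((zr p h μ x).filter (fun u => ¬ (h : ℤ) ∣ μ (u - s))).card < T.card :=
      min_lt_half p k h hh hcop μ x hmin ⟨t0, ht0⟩ s
    have h2 : (Y.filter (fun y => ¬ (h : ℤ) ∣ μ (y - s))).card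
        ≤ ((zr p h μ x).filter (fun u => ¬ (h : ℤ) ∣ μ (u - s))).card :=
      card_le_card (filter_subset_filter _ hY)
    omega
  have h5 : ∑ s ∈ V, 2 * (Y.filter (fun y => ¬ (h : ℤ) ∣ μ (y - s))).card
      < ∑ s ∈ V, T.card := Finset.sum_lt_sum_of_nonempty hVne hlt
  rw [← mul_sum, hcount, sum_const, smul_eq_mul] at h5
  -- contradiction
  have h6 : (V.card : ℤ) ≤ Y.card * 2 := by
    rw [hcard]
    exact mul_le_mul_of_nonneg_left he (Int.natCast_nonneg _)
  have h7 : V.card ≤ Y.card * 2 := by exact_mod_cast h6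
  have h8 : V.card * T.card ≤ Y.card * 2 * T.card := Nat.mul_le_mul_right _ h7
  have h9 : 2 * (Y.card * T.card) = Y.card * 2 * T.card := by ring
  omega

end Pool.Agent.Helper21.FC
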