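import Pool.Agent.Helper21.FC.Defs

/-!
MP_0aa406_nt, project FC (helper21): plays of the sign pattern game give directions.
-/

set_option autoImplicit false

namespace Pool.Agent.Helper21.FC

open Finset

private theorem D8_sum_diff {k : ℕ} [NeZero k] (f f' : ZMod k → ℤ) (s : ZMod k)
    (h : ∀ i, i ≠ s → f i = f' i) : ∑ i, f i = ∑ i, f' i + (f s - f' s) := by
  have h1 : ∑ i, (f i - f' i) = f s - f' s := by
    apply Finset.sum_eq_single s
    · intro i _ hi
      rw [h i hi, sub_self]
    · intro hs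
      exact absurd (mem_univ s) hs
  rw [Finset.sum_sub_distrib] at h1
  linarith

private theorem D8_step {k : ℕ} [NeZero k] (g : ZMod k → ℤ) (c : ZMod k → ZMod k → ℤ)
    (hc : ∀ u i, Int.sign (c u i) = g (i - u)) (B : ℤ) (hB : ∀ u i, |c u i| ≤ B)
    (U : Finset (ZMod k)) (s : ZMod k) (F : ℤ)
    (ih : ∃ w : ZMod k → ℤ, (∀ i, w i ≠ 0) ∧
      (∀ i, |w i| ≤ (k * B + 1) ^ (Helper77.KZ.rest g U s).card) ∧
      (∀ u ∈ Helper77.KZ.rest g U s, ∑ i, c u i * w i ≠ 0) ∧
      (k : ℤ) + F ≤ ∑ i, Int.sign (w i) -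
        ∑ u ∈ Helper77.KZ.rest g U s, Int.sign (∑ i, c u i * w i)) :
    ∃ w : ZMod k → ℤ, (∀ i, w i ≠ 0) ∧ (∀ i, |w i| ≤ (k * B + 1) ^ U.card) ∧
      (∀ u ∈ U, ∑ i, c u i * w i ≠ 0) ∧
      (k : ℤ) + (F + |Helper77.KZ.EE g U s - 1| - 1) ≤
        ∑ i, Int.sign (w i) - ∑ u ∈ U, Int.sign (∑ i, c u i * w i) := by
  obtain ⟨w', h1, h2, h3, h4⟩ := ih
  have hB0 : 0 ≤ B := (abs_nonneg _).trans (hB s s)
  have hk : (0 : ℤ) ≤ k := by positivity
  have hkB : (0 : ℤ) ≤ k * B := mul_nonneg hk hB0
  have hbase : (1 : ℤ) ≤ k * B + 1 := by linarith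
  by_cases hU : Helper77.KZ.rest g U s = U
  · rw [hU] at h2 h3 h4
    have hE : Helper77.KZ.EE g U s = 0 := by
      unfold Helper77.KZ.EE
      apply Finset.sum_eq_zero
      intro l hl
      rw [← hU] at hl
      exact (Finset.mem_filter.1 hl).2
    refine ⟨w', h1, h2, h3, ?_⟩
    rw [hE]
    simpa using h4
  · have hsub : Helper77.KZ.rest g U s ⊆ U := Finset.filter_subset _ _
    have hcard : (Helper77.KZ.rest g U s).card + 1 ≤ U.card :=
      Finset.card_lt_card (Finset.ssubset_iff_subset_ne.2 ⟨hsub, hU⟩)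
    obtain ⟨M, hM⟩ : ∃ M : ℤ, M = (k * B + 1) ^ (Helper77.KZ.rest g U s).card := ⟨_, rfl⟩
    rw [← hM] at h2
    have hM1 : 1 ≤ M := by
      rw [hM]
      exact one_le_pow₀ hbase
    have hMU : (k * B + 1) * M ≤ (k * B + 1) ^ U.card := by
      rw [hM, ← pow_succ']
      exact pow_le_pow_right₀ hbase hcard
    obtain ⟨L, hL⟩ : ∃ L : ℤ, L = k * B * M + 1 := ⟨_, rfl⟩
    have hLU : L ≤ (k * B + 1) ^ U.card := by
      refine le_trans ?_ hMU
      rw [hL]
      linarith
    have hL0 : 0 < L := by
      rw [hL]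
      have := mul_nonneg hkB (zero_le_one.trans hM1)
      linarith
    obtain ⟨e, he, hE⟩ : ∃ e : ℤ, (e = 1 ∨ e = -1) ∧
        e * (1 - Helper77.KZ.EE g U s) = |Helper77.KZ.EE g U s - 1| := by
      rcases le_total 0 (1 - Helper77.KZ.EE g U s) with h | h
      · refine ⟨1, Or.inl rfl, ?_⟩
        rw [abs_sub_comm, abs_of_nonneg h, one_mul]
      · refine ⟨-1, Or.inr rfl, ?_⟩
        rw [abs_sub_comm, abs_of_nonpos h, neg_one_mul]
    have he1 : |e| = 1 := by
      rcases he with rfl | rfl <;> simp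
    have hes : Int.sign e = e := by
      rcases he with rfl | rfl <;> rfl
    set w : ZMod k → ℤ := fun i => if i = s then e * L else w' i with hw
    have hws : w s = e * L := by simp [hw]
    have hwi : ∀ i, i ≠ s → w i = w' i := fun i hi => by simp [hw, hi]
    have hsw : Int.sign (w s) = e := by
      rw [hws, Int.sign_mul, hes, Int.sign_eq_one_of_pos hL0, mul_one]
    have hrow : ∀ u, ∑ i, c u i * w i = ∑ i ∈ univ.erase s, c u i * w' i + c u s * (e * L) := by
      intro u
      rw [← Finset.sum_erase_add _ _ (mem_univ s), hws]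
      congr 1
      apply Finset.sum_congr rfl
      intro i hi
      rw [hwi i (Finset.ne_of_mem_erase hi)]
    have hrest : ∀ u, |∑ i ∈ univ.erase s, c u i * w' i| < L := by
      intro u
      have h5 : |∑ i ∈ univ.erase s, c u i * w' i| ≤ ∑ i ∈ univ.erase s, |c u i * w' i| :=
        Finset.abs_sum_le_sum_abs _ _
      have h6 : ∑ i ∈ univ.erase s, |c u i * w' i| ≤ ∑ i : ZMod k, |c u i * w' i| :=
        Finset.sum_le_sum_of_subset_of_nonneg (Finset.erase_subset _ _)
          fun i _ _ => abs_nonneg _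
      have h7 : ∑ i : ZMod k, |c u i * w' i| ≤ ∑ _i : ZMod k, B * M := by
        apply Finset.sum_le_sum
        intro i _
        rw [abs_mul]
        exact mul_le_mul (hB u i) (h2 i) (abs_nonneg _) hB0
      rw [Finset.sum_const, Finset.card_univ, ZMod.card, nsmul_eq_mul] at h7
      rw [hL]
      have : (k : ℤ) * (B * M) = k * B * M := by ring
      linarith
    have hcz : ∀ u, g (s - u) = 0 ↔ c u s = 0 := by
      intro u
      rw [← hc u s, Int.sign_eq_zero_iff_zero]
    -- rows of the rest
    have hr1 : ∀ u ∈ Helper77.KZ.rest g U s, ∑ i, c u i * w i = ∑ i, c u i * w' i := by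
      intro u hu
      have hu0 : c u s = 0 := (hcz u).1 (Finset.mem_filter.1 hu).2
      rw [hrow u, hu0, zero_mul, add_zero, ← Finset.sum_erase_add _ _ (mem_univ s), hu0, zero_mul,
        add_zero]
    -- the other rows
    have hr2 : ∀ u ∈ U, u ∉ Helper77.KZ.rest g U s →
        Int.sign (∑ i, c u i * w i) = e * g (s - u) := by
      intro u hu hur
      have hu0 : c u s ≠ 0 := by
        intro h0
        exact hur (Finset.mem_filter.2 ⟨hu, (hcz u).2 h0⟩)
      have h5 := abs_lt.1 (hrest u)
      rw [hrow u, ← hc u s]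
      rcases lt_or_gt_of_ne hu0 with h | h
      · rw [Int.sign_eq_neg_one_of_neg h]
        rcases he with rfl | rfl
        · rw [Int.sign_eq_neg_one_of_neg (by nlinarith)]
          rfl
        · rw [Int.sign_eq_one_of_pos (by nlinarith)]
          rfl
      · rw [Int.sign_eq_one_of_pos h]
        rcases he with rfl | rfl
        · rw [Int.sign_eq_one_of_pos (by nlinarith)]
          rfl
        · rw [Int.sign_eq_neg_one_of_neg (by nlinarith)]
          rfl
    refine ⟨w, ?_, ?_, ?_, ?_⟩
    · intro i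
      by_cases hi : i = s
      · rw [hi, hws]
        rcases he with rfl | rfl
        · rw [one_mul]
          exact hL0.ne'
        · rw [neg_one_mul]
          exact neg_ne_zero.2 hL0.ne'
      · rw [hwi i hi]
        exact h1 i
    · intro i
      by_cases hi : i = s
      · rw [hi, hws, abs_mul, he1, one_mul, abs_of_pos hL0]
        exact hLU
      · rw [hwi i hi]
        refine (h2 i).trans (le_trans ?_ hMU)
        nlinarith
    · intro u hu
      by_cases hur : u ∈ Helper77.KZ.rest g U s
      · rw [hr1 u hur]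
        exact h3 u hur
      · intro h0
        have h5 := hr2 u hu hur
        rw [h0, Int.sign_zero] at h5
        have h6 : g (s - u) = 0 := by
          rcases he with rfl | rfl
          · linarith
          · linarith
        exact hur (Finset.mem_filter.2 ⟨hu, h6⟩)
    · have hsum1 : ∑ i, Int.sign (w i) = ∑ i, Int.sign (w' i) + (e - Int.sign (w' s)) := by
        rw [← hsw]
        exact D8_sum_diff (fun i => Int.sign (w i)) (fun i => Int.sign (w' i)) s
          fun i hi => by rw [hwi i hi]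
      have hsum2 : ∑ u ∈ U, Int.sign (∑ i, c u i * w i) =
          ∑ u ∈ Helper77.KZ.rest g U s, Int.sign (∑ i, c u i * w' i) +
            e * Helper77.KZ.EE g U s := by
        rw [← Finset.sum_sdiff hsub, add_comm]
        congr 1
        · apply Finset.sum_congr rfl
          intro u hu
          rw [hr1 u hu]
        · unfold Helper77.KZ.EE
          rw [← Finset.sum_sdiff hsub, mul_add]
          have h5 : ∑ l ∈ Helper77.KZ.rest g U s, g (s - l) = 0 :=
            Finset.sum_eq_zero fun l hl => (Finset.mem_filter.1 hl).2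
          rw [h5, mul_zero, add_zero, Finset.mul_sum]
          apply Finset.sum_congr rfl
          intro u hu
          rw [Finset.mem_sdiff] at hu
          exact hr2 u hu.1 hu.2
      rw [hsum1, hsum2]
      have h6 : Int.sign (w' s) ≤ 1 := by
        rcases Int.sign_trichotomy (w' s) with h | h | h <;> rw [h] <;> norm_num
      linarith

/-- `c u i` has the sign `g (i - u)`; a play of total gain `F` on `U` gives a direction `w` of value at
least `k + F`. -/
theorem play_value {k : ℕ} [NeZero k] (g : ZMod k → ℤ) (c : ZMod k → ZMod k → ℤ)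
    (hc : ∀ u i, Int.sign (c u i) = g (i - u)) (B : ℤ) (hB : ∀ u i, |c u i| ≤ B)
    (U : Finset (ZMod k)) (F : ℤ) (hF : Helper77.KZ.Play g U F) :
    ∃ w : ZMod k → ℤ, (∀ i, w i ≠ 0) ∧ (∀ i, |w i| ≤ (k * B + 1) ^ U.card) ∧
      (∀ u ∈ U, ∑ i, c u i * w i ≠ 0) ∧
      (k : ℤ) + F ≤ ∑ i, Int.sign (w i) - ∑ u ∈ U, Int.sign (∑ i, c u i * w i) := by
  induction hF with
  | nil =>
    refine ⟨fun _ => 1, fun _ => one_ne_zero, fun _ => by simp, fun u hu => by simp at hu, ?_⟩
    simp [ZMod.card]
  | step U s F _ ih => exact D8_step g c hc B hB U s F ih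

end Pool.Agent.Helper21.FC
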