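import Pool.Agent.Helper21.FC.D6a
import Pool.Agent.Helper21.FC.D8
import Pool.Agent.Helper77.KZ.Game

/-!
MP_0aa406_nt, project FC (helper21): case C, `2 μ / h` not integral.
-/

set_option autoImplicit false

namespace Pool.Agent.Helper21.FC

open Finset

/-- a play on the zero rows gives a direction of value at least `k` -/
private theorem D6b_play (k : ℕ) [NeZero k] (h B : ℕ) (p : ℕ) (hp : 2 ≤ p)
    (μ : ZMod k → ℤ) (hB : ∀ t, |μ t| ≤ (p : ℤ) ^ B) (x : ZMod k → ℤ)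
    (hV : Helper77.KZ.Val (fun t => Int.sign (μ (-t))) (zr p h μ x) 0) :
    ∃ w : ZMod k → ℤ, (∀ i, |w i| ≤ (p : ℤ) ^ ((k + B + 1) * k)) ∧ HasValue p h μ x w := by
  obtain ⟨F, hF, hP⟩ := hV
  have hp1 : (1 : ℤ) ≤ p := by
    have : (2 : ℤ) ≤ p := by exact_mod_cast hp
    linarith
  have hp0 : (0 : ℤ) ≤ p := by linarith
  have hkpos : 0 < k := Nat.pos_of_ne_zero (NeZero.ne k)
  obtain ⟨w, h1, h2, h3, h4⟩ := play_value (fun t => Int.sign (μ (-t)))
    (fun u i => μ (u - i) * (p : ℤ) ^ (((u - i).val + i.val) / k))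
    (fun u i => by
      have h5 : (0 : ℤ) < (p : ℤ) ^ (((u - i).val + i.val) / k) := by positivity
      have h6 : -(i - u) = u - i := by ring
      show Int.sign (μ (u - i) * (p : ℤ) ^ (((u - i).val + i.val) / k)) = Int.sign (μ (-(i - u)))
      rw [Int.sign_mul, Int.sign_eq_one_of_pos h5, mul_one, h6])
    ((p : ℤ) ^ (B + 1))
    (fun u i => by
      show |μ (u - i) * (p : ℤ) ^ (((u - i).val + i.val) / k)| ≤ (p : ℤ) ^ (B + 1)
      have h5 : ((u - i).val + i.val) / k ≤ 1 := by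
        have h6 := (u - i).val_lt
        have h7 := i.val_lt
        have h8 : (u - i).val + i.val < 2 * k := by omega
        have h9 := (Nat.div_lt_iff_lt_mul hkpos).2 h8
        omega
      rw [abs_mul, pow_succ, abs_of_nonneg (pow_nonneg hp0 _)]
      refine mul_le_mul (hB _) ?_ (pow_nonneg hp0 _) (pow_nonneg hp0 _)
      calc (p : ℤ) ^ (((u - i).val + i.val) / k) ≤ (p : ℤ) ^ 1 := pow_le_pow_right₀ hp1 h5
        _ = p := pow_one _)
    (zr p h μ x) F hP
  have htw : ∀ u, tw p μ w u =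
      ∑ i, μ (u - i) * (p : ℤ) ^ (((u - i).val + i.val) / k) * w i := by
    intro u
    unfold tw
    apply Finset.sum_congr rfl
    intro i _
    ring
  refine ⟨w, ?_, h1, ?_, ?_⟩
  · intro i
    refine (h2 i).trans ?_
    have hb : (k : ℤ) * (p : ℤ) ^ (B + 1) + 1 ≤ (p : ℤ) ^ (k + B + 1) := by
      have h5 : (1 : ℤ) ≤ (p : ℤ) ^ (B + 1) := one_le_pow₀ hp1
      have h6 : (k : ℤ) + 1 ≤ (p : ℤ) ^ k := by
        have h7 : k + 1 ≤ 2 ^ k := Nat.lt_two_pow_self
        have h8 : 2 ^ k ≤ p ^ k := Nat.pow_le_pow_left hp k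
        exact_mod_cast h7.trans h8
      have h9 : (p : ℤ) ^ (k + B + 1) = (p : ℤ) ^ k * (p : ℤ) ^ (B + 1) := by
        rw [← pow_add, add_assoc]
      rw [h9]
      nlinarith
    have hbase : (1 : ℤ) ≤ (k : ℤ) * (p : ℤ) ^ (B + 1) + 1 := by
      have : (0 : ℤ) ≤ (k : ℤ) * (p : ℤ) ^ (B + 1) := by positivity
      linarith
    have hcard : (zr p h μ x).card ≤ k := by
      have h5 := Finset.card_le_univ (zr p h μ x)
      rwa [ZMod.card] at h5
    calc ((k : ℤ) * (p : ℤ) ^ (B + 1) + 1) ^ (zr p h μ x).card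
        ≤ ((k : ℤ) * (p : ℤ) ^ (B + 1) + 1) ^ k := pow_le_pow_right₀ hbase hcard
      _ ≤ ((p : ℤ) ^ (k + B + 1)) ^ k := pow_le_pow_left₀ (by linarith) hb k
      _ = (p : ℤ) ^ ((k + B + 1) * k) := by rw [← pow_mul]
  · intro u hu
    rw [htw u]
    exact h3 u hu
  · have h5 : ∑ u ∈ zr p h μ x, Int.sign (tw p μ w u) = ∑ u ∈ zr p h μ x,
        Int.sign (∑ i, μ (u - i) * (p : ℤ) ^ (((u - i).val + i.val) / k) * w i) :=
      Finset.sum_congr rfl fun u _ => by rw [htw u]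
    rw [h5]
    linarith

theorem case_third (k : ℕ) [NeZero k] (h B : ℕ) (hh : 0 < h) : ∃ B1 : ℕ, ∀ p : ℕ,
    2 ≤ p → Nat.Coprime p h → ∀ μ : ZMod k → ℤ, (∀ t, |μ t| ≤ (p : ℤ) ^ B) →
    (∃ t, ¬ (h : ℤ) ∣ 2 * μ t) →
    ∃ x w : ZMod k → ℤ, (∀ i, |w i| ≤ (p : ℤ) ^ B1) ∧ HasValue p h μ x w := by
  refine ⟨(k + B + 1) * k, ?_⟩
  intro p hp hcop μ hB h3
  by_cases he : ∑ t, Int.sign (μ t) ≤ 2
  · -- a torsion point with as few zero rows as possible
    obtain ⟨x, hx⟩ : ∃ x : ZMod k → ℤ, ∀ x' : ZMod k → ℤ,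
        (zr p h μ x).card ≤ (zr p h μ x').card := by
      let f : (ZMod k → ℤ) → ℕ := fun x => (zr p h μ x).card
      exact ⟨Function.argmin f, fun x' => Function.argmin_le f x'⟩
    have hV := val_of_no_stuck (fun t => Int.sign (μ (-t))) (zr p h μ x)
      (no_stuck p k h hh hcop μ x hx h3 he)
    obtain ⟨w, hw⟩ := D6b_play k h B p hp μ hB x hV
    exact ⟨x, w, hw⟩
  · -- the point zero
    have hz : zr p h μ (fun _ => 0) = univ := by
      unfold zr
      rw [Finset.filter_true_of_mem]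
      intro u _
      unfold tw
      simp
    have hsum : ∑ i, Int.sign (μ (-i)) = ∑ t, Int.sign (μ t) :=
      Equiv.sum_comp (Equiv.neg (ZMod k)) (fun t => Int.sign (μ t))
    have hV : Helper77.KZ.Val (fun t => Int.sign (μ (-t))) univ 0 := by
      apply Helper77.KZ.val_three
      rw [hsum]
      omega
    rw [← hz] at hV
    obtain ⟨w, hw⟩ := D6b_play k h B p hp μ hB (fun _ => 0) hV
    exact ⟨_, w, hw⟩

end Pool.Agent.Helper21.FC
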