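import Pool.Agent.Helper21.FC.D2
import Pool.Agent.Helper21.FC.D4
import Pool.Agent.Helper21.FC.D6b

/-!
MP_0aa406_nt, project FC (helper21): the local theorem.
-/

set_option autoImplicit false

namespace Pool.Agent.Helper21.FC

open Finset

theorem D9_act_one (p : ℕ) {k : ℕ} [NeZero k] (h : ℕ) (μ : ZMod k → ℤ) (u : ZMod k) :
    act (cir p h μ) (fun _ => (1 : ℝ)) u = rev p μ / h := by
  unfold act cir rev
  rw [Finset.sum_div]
  have e := Equiv.sum_comp (Equiv.subLeft u)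
    (fun t : ZMod k => (μ t : ℝ) / h * ((p : ℝ) ^ ((1 : ℝ) / k)) ^ t.val * 1)
  simp only [Equiv.subLeft_apply] at e
  rw [e]
  apply Finset.sum_congr rfl
  intro t _
  ring

theorem D9_mono {k : ℕ} {p B0 B1 : ℕ} (hp : 2 ≤ p) (hB : B0 ≤ B1) {w : ZMod k → ℤ}
    (h : ∀ i, |w i| ≤ (p : ℤ) ^ B0) : ∀ i, |w i| ≤ (p : ℤ) ^ B1 := by
  intro i
  refine (h i).trans ?_
  exact pow_le_pow_right₀ (by exact_mod_cast (by omega : 1 ≤ p)) hB

/-- the negative case -/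
theorem case_neg (k : ℕ) [NeZero k] (h B : ℕ) (hh : 0 < h) : ∃ B1 : ℕ, ∀ p : ℕ,
    2 ≤ p → ∀ μ : ZMod k → ℤ, (∀ t, |μ t| ≤ (p : ℤ) ^ B) → rev p μ ≤ -h →
    ∃ w : ZMod k → ℤ, (∀ i, |w i| ≤ (p : ℤ) ^ B1) ∧ HasValue p h μ 0 w := by
  obtain ⟨B1, hB1⟩ := integral_direction k h B 0 hh
  refine ⟨B1, fun p hp μ hμ hS => ?_⟩
  have hh' : (0 : ℝ) < h := by exact_mod_cast hh
  have hact : ∀ u, act (cir p h μ) (fun _ => (1 : ℝ)) u ≤ -1 := by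
    intro u
    rw [D9_act_one, div_le_iff₀ hh']
    linarith
  obtain ⟨w, hw, hu⟩ := hB1 p hp μ hμ (fun _ => (1 : ℝ)) univ
    (fun i => ⟨by simp, by norm_num⟩)
    (fun u _ => by
      have h1 := hact u
      rw [pow_zero, inv_one, abs_of_neg (by linarith)]
      linarith)
  have hneg : ∀ u, tw p μ w u < 0 := fun u => (hu u (mem_univ u)).1 (by
    have h1 := hact u
    linarith)
  refine ⟨w, fun i => ?_, fun i => (hw i).1.ne', fun u _ => (hneg u).ne, ?_⟩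
  · rw [abs_of_pos (hw i).1]
    exact (hw i).2
  · have h1 : ∑ i, Int.sign (w i) = k := by
      rw [Finset.sum_congr rfl (fun i _ => Int.sign_eq_one_of_pos (hw i).1)]
      simp [ZMod.card]
    have h2 : ∑ u ∈ zr p h μ 0, Int.sign (tw p μ w u) = -((zr p h μ 0).card : ℤ) := by
      rw [Finset.sum_congr rfl (fun u _ => Int.sign_eq_neg_one_of_neg (hneg u))]
      simp
    rw [h1, h2]
    have := Int.natCast_nonneg (zr p h μ 0).card
    linarith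

theorem local_thm (k : ℕ) [NeZero k] (h B : ℕ) (hh : 0 < h) : ∃ B1 : ℕ, ∀ p : ℕ,
    2 ≤ p → Nat.Coprime p h → ∀ μ : ZMod k → ℤ, (∀ t, |μ t| ≤ (p : ℤ) ^ B) →
    (0 < rev p μ ∧ rev p μ < h ∨ rev p μ ≤ -h) →
    ∃ x w : ZMod k → ℤ, (∀ i, |w i| ≤ (p : ℤ) ^ B1) ∧ HasValue p h μ x w := by
  obtain ⟨Ba, ha⟩ := case_integral k h B hh
  obtain ⟨Bb, hb⟩ := case_half k h B hh
  obtain ⟨Bc, hc⟩ := case_third k h B hh
  obtain ⟨Bn, hn⟩ := case_neg k h B hh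
  refine ⟨Ba + Bb + Bc + Bn, fun p hp hcop μ hμ hS => ?_⟩
  rcases hS with ⟨h0, h1⟩ | h1
  · by_cases h2 : ∀ t, (h : ℤ) ∣ μ t
    · obtain ⟨w, hw, hv⟩ := ha p hp μ hμ h2 h0 h1
      exact ⟨0, w, D9_mono hp (by omega) hw, hv⟩
    · by_cases h3 : ∀ t, (h : ℤ) ∣ 2 * μ t
      · obtain ⟨x, w, hw, hv⟩ := hb p hp hcop μ hμ h3 (not_forall.1 h2) h0 h1
        exact ⟨x, w, D9_mono hp (by omega) hw, hv⟩
      · obtain ⟨x, w, hw, hv⟩ := hc p hp hcop μ hμ (not_forall.1 h3)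
        exact ⟨x, w, D9_mono hp (by omega) hw, hv⟩
  · obtain ⟨w, hw, hv⟩ := hn p hp μ hμ h1
    exact ⟨0, w, D9_mono hp (by omega) hw, hv⟩

end Pool.Agent.Helper21.FC
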