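import Mathlib
import Pool.Agent.Helper77.KZ.Defs

/-!
MP_0aa406_nt, project FC (helper21): definitions.

`W p n a` is the base-`p` digit sum of `a` modulo `p ^ n - 1` divided by `p - 1`; `Gain p n d c` says
that some `a` has `W (d a) - W a ≥ c`.
-/

set_option autoImplicit false

namespace Pool.Agent.Helper21.FC

open Finset Polynomial

/-- the modulus `p ^ n - 1` -/
def NN (p n : ℕ) : ℤ := (p : ℤ) ^ n - 1

/-- the weight function (digit sum over `p - 1`) -/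
noncomputable def W (p n : ℕ) (a : ℤ) : ℝ :=
  ∑ x ∈ range n, Int.fract ((p : ℝ) ^ x * (a : ℝ) / ((p : ℝ) ^ n - 1))

/-- some `a` which is not `0` modulo `p ^ n - 1` has `W (d a) - W a ≥ c` -/
def Gain (p n : ℕ) (d : ℤ) (c : ℝ) : Prop :=
  ∃ a : ℤ, ¬ NN p n ∣ a ∧ c ≤ W p n (d * a) - W p n a

/-- distance to the nearest integer -/
noncomputable def nrm (x : ℝ) : ℝ := |x - (round x : ℝ)|

/-- the polynomial `∑ v_c X ^ c`, `0 ≤ c < k` -/
noncomputable def toPoly {k : ℕ} (v : ZMod k → ℤ) [NeZero k] : ℤ[X] :=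
  ∑ c : ZMod k, C (v c) * X ^ c.val

/-- product of `μ` and `x` in `ℤ[X] / (X ^ k - p)`, in coordinates -/
def tw (p : ℕ) {k : ℕ} [NeZero k] (μ x : ZMod k → ℤ) (u : ZMod k) : ℤ :=
  ∑ i : ZMod k, μ (u - i) * x i * (p : ℤ) ^ (((u - i).val + i.val) / k)

/-- the value of the polynomial at `ρ = p ^ (1 / k)` -/
noncomputable def rev (p : ℕ) {k : ℕ} [NeZero k] (μ : ZMod k → ℤ) : ℝ :=
  ∑ t : ZMod k, (μ t : ℝ) * ((p : ℝ) ^ ((1 : ℝ) / k)) ^ t.val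

/-- rows where `μ x / h` is integral -/
def zr (p : ℕ) {k : ℕ} [NeZero k] (h : ℕ) (μ x : ZMod k → ℤ) : Finset (ZMod k) :=
  univ.filter (fun u => (h : ℤ) ∣ tw p μ x u)

/-- a torsion point `x` and a direction `w` of value at least `k` -/
def HasValue (p : ℕ) {k : ℕ} [NeZero k] (h : ℕ) (μ x w : ZMod k → ℤ) : Prop :=
  (∀ i, w i ≠ 0) ∧ (∀ u ∈ zr p h μ x, tw p μ w u ≠ 0) ∧
    (k : ℤ) ≤ ∑ i, Int.sign (w i) - ∑ u ∈ zr p h μ x, Int.sign (tw p μ w u)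

/-- the real circulant of `μ / h` -/
noncomputable def cir (p : ℕ) {k : ℕ} [NeZero k] (h : ℕ) (μ : ZMod k → ℤ) (t : ZMod k) : ℝ :=
  (μ t : ℝ) / h * ((p : ℝ) ^ ((1 : ℝ) / k)) ^ t.val

/-- action of a real circulant -/
noncomputable def act {k : ℕ} [NeZero k] (a y : ZMod k → ℝ) (u : ZMod k) : ℝ :=
  ∑ i, a (u - i) * y i

/-- `s` is a rational multiple of `1` in the ultraproduct of the groups `ℤ / n ν` -/
def IsRat (U : Ultrafilter ℕ) (n : ℕ → ℕ) (s : ℕ → ℤ) : Prop :=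
  ∃ k : ℕ, 0 < k ∧ ∃ t : ℤ, ∀ᶠ ν in (U : Filter ℕ), (n ν : ℤ) ∣ (k : ℤ) * s ν - t

end Pool.Agent.Helper21.FC
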