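import Pool.Agent.Helper21.FC.E1a

/-!
MP_0aa406_nt, project FC (helper21): `SS ((X ^ n - 1) f) = lam f`.
-/

set_option autoImplicit false

namespace Pool.Agent.Helper21.FC

open Finset Polynomial

/-- uniqueness of the residue `io` -/
theorem E1c_io_unique (n k m i : ℕ) (hk : 0 < k) (hnk : Nat.Coprime k n) (hi : i < k)
    (h : k ∣ n * i + m) : io n k m = i := by
  have h1 := io_lt n k m hk
  have h2 := io_spec n k m hk hnk
  have h3 : n * io n k m + m ≡ n * i + m [MOD k] :=
    ((Nat.modEq_zero_iff_dvd.2 h2).trans (Nat.modEq_zero_iff_dvd.2 h).symm)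
  have h4 : n * io n k m ≡ n * i [MOD k] := Nat.ModEq.add_right_cancel' m h3
  have h5 : io n k m ≡ i [MOD k] := Nat.ModEq.cancel_left_of_coprime hnk h4
  exact Nat.ModEq.eq_of_lt_of_lt h5 h1 hi

theorem E1c_ex_dvd (n k m : ℕ) (hk : 0 < k) (hnk : Nat.Coprime k n) (h : k ∣ m) :
    ex n k m = m / k := by
  have h1 : io n k m = 0 := E1c_io_unique n k m 0 hk hnk hk (by simpa using h)
  rw [ex, h1]; simp

theorem E1c_ex_add_dvd (n k m : ℕ) (hk : 0 < k) (hnk : Nat.Coprime k n) (h : k ∣ m) :
    ex n k (m + n) = n + m / k := by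
  have e : n * (k - 1) + (m + n) = m + n * k := by
    obtain ⟨j, rfl⟩ : ∃ j, k = j + 1 := ⟨k - 1, by omega⟩
    simp only [Nat.add_sub_cancel]; ring
  have h1 : io n k (m + n) = k - 1 := E1c_io_unique n k (m + n) (k - 1) hk hnk (by omega) (by
    rw [e]; exact dvd_add h (Dvd.intro_left n rfl))
  rw [ex, h1, e, Nat.add_mul_div_right _ _ hk, add_comm]

theorem E1c_ex_add (n k m : ℕ) (hk : 0 < k) (hnk : Nat.Coprime k n) (h : ¬ k ∣ m) :
    ex n k (m + n) = ex n k m := by
  have h0 : io n k m ≠ 0 := by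
    intro h0
    have := io_spec n k m hk hnk
    rw [h0] at this
    exact h (by simpa using this)
  have hlt := io_lt n k m hk
  have hsp := io_spec n k m hk hnk
  have e : n * (io n k m - 1) + (m + n) = n * io n k m + m := by
    obtain ⟨j, hj⟩ : ∃ j, io n k m = j + 1 := ⟨io n k m - 1, by omega⟩
    rw [hj]; simp only [Nat.add_sub_cancel]; ring
  have h1 : io n k (m + n) = io n k m - 1 :=
    E1c_io_unique n k (m + n) (io n k m - 1) hk hnk (by omega) (by rw [e]; exact hsp)
  rw [ex, h1, e, ex]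

theorem SS_n (p n k : ℕ) (hp : 2 ≤ p) (hn : 1 ≤ n) (hk : 0 < k) (hnk : Nat.Coprime k n)
    (f : ℤ[X]) : SS p n k ((X ^ n - 1) * f) = lam p k f := by
  have hpn : (p : ℝ) ^ n - 1 ≠ 0 := by
    have h1 : (1 : ℝ) < p := by exact_mod_cast (by omega : 1 < p)
    have := one_lt_pow₀ h1 (by omega : n ≠ 0)
    linarith
  induction f using Polynomial.induction_on' with
  | add f g hf hg => rw [mul_add, SS_add, lam_add, hf, hg]; push_cast; ring
  | monomial m c =>
    have e : (X ^ n - 1) * (monomial m c : ℤ[X]) = C c * X ^ (m + n) - C c * X ^ m := by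
      rw [← C_mul_X_pow_eq_monomial]; ring
    have hl : lam p k (monomial m c) = if k ∣ m then c * (p : ℤ) ^ (m / k) else 0 := by
      rw [lam]
      exact Polynomial.sum_monomial_index c _ (by simp)
    rw [e, SS_sub, SS_monomial, SS_monomial, hl]
    by_cases h : k ∣ m
    · rw [if_pos h, E1c_ex_dvd n k m hk hnk h, E1c_ex_add_dvd n k m hk hnk h]
      field_simp
      push_cast
      ring
    · rw [if_neg h, E1c_ex_add n k m hk hnk h]
      simp

end Pool.Agent.Helper21.FC
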