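import Pool.Agent.Helper21.FC.Defs

/-!
MP_0aa406_nt, project FC (helper21): the linear functionals `SS` and `lam`.
-/

set_option autoImplicit false

namespace Pool.Agent.Helper21.FC

open Finset Polynomial

/-- the residue `i` in `[0, k)` with `n i + m ≡ 0` modulo `k` -/
def io (n k m : ℕ) : ℕ := (-(m : ZMod k) * (n : ZMod k)⁻¹).val

/-- exponent of `X ^ m`: `(n i + m) / k` -/
def ex (n k m : ℕ) : ℕ := (n * io n k m + m) / k

/-- the functional `X ^ m ↦ p ^ (ex m) / (p ^ n - 1)` -/
noncomputable def SS (p n k : ℕ) (f : ℤ[X]) : ℝ :=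
  f.sum (fun m c => (c : ℝ) * (p : ℝ) ^ ex n k m) / ((p : ℝ) ^ n - 1)

/-- coordinate at `X ^ 0` of the reduction modulo `X ^ k - p` -/
noncomputable def lam (p k : ℕ) (f : ℤ[X]) : ℤ :=
  f.sum (fun m c => if k ∣ m then c * (p : ℤ) ^ (m / k) else 0)

theorem io_lt (n k m : ℕ) (hk : 0 < k) : io n k m < k := by
  have : NeZero k := ⟨hk.ne'⟩
  unfold io
  exact ZMod.val_lt _

theorem io_spec (n k m : ℕ) (hk : 0 < k) (hnk : Nat.Coprime k n) : k ∣ n * io n k m + m := by
  have : NeZero k := ⟨hk.ne'⟩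
  rw [← ZMod.natCast_eq_zero_iff]
  unfold io
  push_cast
  rw [ZMod.natCast_zmod_val]
  have h := ZMod.coe_mul_inv_eq_one n hnk.symm
  linear_combination (-(m : ZMod k)) * h

theorem SS_add (p n k : ℕ) (f g : ℤ[X]) : SS p n k (f + g) = SS p n k f + SS p n k g := by
  unfold SS
  rw [Polynomial.sum_add_index f g _ (by intro i; simp) (by intro a b c; push_cast; ring), add_div]

theorem SS_sub (p n k : ℕ) (f g : ℤ[X]) : SS p n k (f - g) = SS p n k f - SS p n k g := by
  have h := SS_add p n k (f - g) g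
  rw [sub_add_cancel] at h
  linarith

theorem SS_C_mul (p n k : ℕ) (c : ℤ) (f : ℤ[X]) : SS p n k (C c * f) = c * SS p n k f := by
  unfold SS
  rw [← Polynomial.smul_eq_C_mul, Polynomial.sum_smul_index _ _ _ (by intro i; simp), mul_div_assoc']
  congr 1
  rw [Polynomial.sum_def, Polynomial.sum_def, Finset.mul_sum]
  apply Finset.sum_congr rfl
  intro m _
  push_cast
  ring

theorem SS_monomial (p n k m : ℕ) (c : ℤ) :
    SS p n k (C c * X ^ m) = c * (p : ℝ) ^ ex n k m / ((p : ℝ) ^ n - 1) := by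
  unfold SS
  rw [Polynomial.C_mul_X_pow_eq_monomial, Polynomial.sum_monomial_index c _ (by simp)]

theorem lam_add (p k : ℕ) (f g : ℤ[X]) : lam p k (f + g) = lam p k f + lam p k g := by
  unfold lam
  refine Polynomial.sum_add_index f g _ (by intro i; simp) ?_
  intro a b c
  split_ifs
  · ring
  · simp

theorem lam_sub (p k : ℕ) (f g : ℤ[X]) : lam p k (f - g) = lam p k f - lam p k g := by
  have h := lam_add p k (f - g) g
  rw [sub_add_cancel] at h
  linarith

theorem lam_C_mul (p k : ℕ) (c : ℤ) (f : ℤ[X]) : lam p k (C c * f) = c * lam p k f := by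
  unfold lam
  rw [← Polynomial.smul_eq_C_mul, Polynomial.sum_smul_index _ _ _ (by intro i; simp)]
  rw [Polynomial.sum_def, Polynomial.sum_def, Finset.mul_sum]
  apply Finset.sum_congr rfl
  intro m _
  split_ifs
  · ring
  · simp

end Pool.Agent.Helper21.FC
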