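import Pool.Agent.Helper21.FC.A4
import Pool.Agent.Helper21.FC.E1a

/-!
MP_0aa406_nt, project FC (helper21): the weight through `SS`.
-/

set_option autoImplicit false

namespace Pool.Agent.Helper21.FC

open Finset Polynomial

/-- powers of `p` modulo `p ^ n - 1` -/
theorem E1d_mod (p n a : ℕ) : (p : ℤ) ^ a ≡ (p : ℤ) ^ (a % n) [ZMOD NN p n] := by
  have h : (p : ℤ) ^ n ≡ 1 [ZMOD NN p n] := by
    rw [Int.modEq_iff_dvd]
    exact ⟨-1, by rw [NN]; ring⟩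
  calc (p : ℤ) ^ a = (p : ℤ) ^ (a % n) * ((p : ℤ) ^ n) ^ (a / n) := by
        rw [← pow_mul, ← pow_add, Nat.mod_add_div]
    _ ≡ (p : ℤ) ^ (a % n) * 1 ^ (a / n) [ZMOD NN p n] := (h.pow _).mul_left _
    _ = (p : ℤ) ^ (a % n) := by rw [one_pow, mul_one]

theorem E1d_dvd {p n a b : ℕ} (h : a ≡ b [MOD n]) : NN p n ∣ (p : ℤ) ^ a - (p : ℤ) ^ b := by
  have h1 : (p : ℤ) ^ b ≡ (p : ℤ) ^ a [ZMOD NN p n] := by
    have h2 : b % n = a % n := h.symm
    have h3 := E1d_mod p n b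
    rw [h2] at h3
    exact h3.trans (E1d_mod p n a).symm
  exact Int.modEq_iff_dvd.1 h1

/-- the exponent `ex m` is `κ m` modulo `n` -/
theorem E1d_ex (n k κ m : ℕ) (hk : 0 < k) (hnk : Nat.Coprime k n)
    (hκ : (n : ℤ) ∣ (k : ℤ) * κ - 1) : ex n k m ≡ κ * m [MOD n] := by
  have h1 : k * ex n k m = n * io n k m + m := Nat.mul_div_cancel' (io_spec n k m hk hnk)
  have h2 : ((k : ℤ) * ex n k m) = n * io n k m + m := by exact_mod_cast h1
  rw [Nat.modEq_iff_dvd]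
  push_cast
  have h3 : (κ : ℤ) * m - ex n k m = ((k : ℤ) * κ - 1) * ex n k m - n * (κ * io n k m) := by
    have h4 : (m : ℤ) = (k : ℤ) * ex n k m - n * io n k m := by rw [h2]; ring
    rw [h4]
    ring
  rw [h3]
  exact dvd_sub (Dvd.dvd.mul_right hκ _) (Dvd.intro _ rfl)

/-- `P ^ j f(P) / N` and `SS (X ^ j f)` differ by an integer -/
theorem E1d_int (p n k κ : ℕ) (hp : 2 ≤ p) (hn : 1 ≤ n) (hk : 0 < k) (hnk : Nat.Coprime k n)
    (hκ : (n : ℤ) ∣ (k : ℤ) * κ - 1) (j : ℕ) (f : ℤ[X]) :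
    ∃ z : ℤ, (p : ℝ) ^ (κ * j) * ((f.eval ((p : ℤ) ^ κ) : ℤ) : ℝ) / ((p : ℝ) ^ n - 1) =
      SS p n k (X ^ j * f) + z := by
  have hN : (p : ℝ) ^ n - 1 ≠ 0 := by
    have h1 : (1 : ℝ) < p := by exact_mod_cast (by omega : 1 < p)
    have := one_lt_pow₀ h1 (by omega : n ≠ 0)
    linarith
  induction f using Polynomial.induction_on' with
  | add f g hf hg =>
    obtain ⟨y, hy⟩ := hf
    obtain ⟨z, hz⟩ := hg
    refine ⟨y + z, ?_⟩
    rw [mul_add (X ^ j), SS_add, eval_add]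
    push_cast
    rw [mul_add, add_div, hy, hz]
    ring
  | monomial m c =>
    have e : X ^ j * (monomial m c : ℤ[X]) = C c * X ^ (j + m) := by
      rw [← C_mul_X_pow_eq_monomial]
      ring
    have h1 : κ * (j + m) ≡ ex n k (j + m) [MOD n] := (E1d_ex n k κ (j + m) hk hnk hκ).symm
    obtain ⟨z, hz⟩ := E1d_dvd (p := p) h1
    refine ⟨c * z, ?_⟩
    have h2 : ((p : ℝ) ^ (κ * (j + m)) - (p : ℝ) ^ ex n k (j + m)) = ((p : ℝ) ^ n - 1) * z := by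
      have h3 : (((p : ℤ) ^ (κ * (j + m)) - (p : ℤ) ^ ex n k (j + m) : ℤ) : ℝ) =
          ((NN p n * z : ℤ) : ℝ) := by rw [hz]
      rw [NN] at h3
      push_cast at h3
      exact h3
    rw [e, SS_monomial, eval_monomial]
    push_cast
    have h4 : (p : ℝ) ^ (κ * j) * ((c : ℝ) * ((p : ℝ) ^ κ) ^ m) =
        c * (p : ℝ) ^ ex n k (j + m) + c * (((p : ℝ) ^ n - 1) * z) := by
      rw [← h2, mul_add κ, pow_add, pow_mul (p : ℝ) κ m]
      ring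
    rw [h4]
    field_simp

/-- the weight of `f(P)` through `SS` -/
theorem W_SS (p n k κ : ℕ) (hp : 2 ≤ p) (hn : 1 ≤ n) (hk : 0 < k) (hnk : Nat.Coprime k n)
    (hκ : (n : ℤ) ∣ (k : ℤ) * κ - 1) (f : ℤ[X]) :
    W p n (f.eval ((p : ℤ) ^ κ)) = ∑ j ∈ range n, Int.fract (SS p n k (X ^ j * f)) := by
  rw [W_perm hp hn hκ]
  refine Finset.sum_congr rfl fun j _ => ?_
  obtain ⟨z, hz⟩ := E1d_int p n k κ hp hn hk hnk hκ j f
  rw [hz, Int.fract_add_intCast]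

end Pool.Agent.Helper21.FC
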