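import Pool.Agent.Helper21.FC.E1b
import Pool.Agent.Helper21.FC.E1c
import Pool.Agent.Helper21.FC.E1d

/-!
MP_0aa406_nt, project FC (helper21): collects E1a, E1b, E1c, E1d.
-/
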