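import Pool.Agent.Helper21.FC.E1a

/-!
MP_0aa406_nt, project FC (helper21): `SS` and `lam` modulo `X ^ k - p`.
-/

set_option autoImplicit false

namespace Pool.Agent.Helper21.FC

open Finset Polynomial

theorem E1b_ex_add (n k m : ℕ) (hk : 0 < k) : ex n k (m + k) = ex n k m + 1 := by
  have h : io n k (m + k) = io n k m := by
    unfold io
    have : ((m + k : ℕ) : ZMod k) = (m : ZMod k) := by
      rw [Nat.cast_add, ZMod.natCast_self, add_zero]
    rw [this]
  unfold ex
  rw [h, ← add_assoc, Nat.add_div_right _ hk]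

theorem E1b_mul_monomial (p k m : ℕ) (c : ℤ) :
    ((X : ℤ[X]) ^ k - C (p : ℤ)) * monomial m c = C c * X ^ (m + k) - C ((p : ℤ) * c) * X ^ m := by
  rw [← C_mul_X_pow_eq_monomial, C_mul]
  ring

theorem SS_dvd (p n k : ℕ) (hk : 0 < k) (hnk : Nat.Coprime k n) (f : ℤ[X])
    (hf : ((X : ℤ[X]) ^ k - C (p : ℤ)) ∣ f) : SS p n k f = 0 := by
  obtain ⟨g, rfl⟩ := hf
  have _ := hnk
  induction g using Polynomial.induction_on' with
  | add f g hf hg => rw [mul_add, SS_add, hf, hg, add_zero]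
  | monomial m c =>
    rw [E1b_mul_monomial, SS_sub, SS_monomial, SS_monomial, E1b_ex_add n k m hk]
    push_cast
    ring

theorem E1b_lam_monomial (p k m : ℕ) (c : ℤ) :
    lam p k (C c * X ^ m) = if k ∣ m then c * (p : ℤ) ^ (m / k) else 0 := by
  unfold lam
  rw [Polynomial.C_mul_X_pow_eq_monomial, Polynomial.sum_monomial_index c _ (by simp)]

theorem lam_dvd (p k : ℕ) (hk : 0 < k) (f : ℤ[X])
    (hf : ((X : ℤ[X]) ^ k - C (p : ℤ)) ∣ f) : lam p k f = 0 := by
  obtain ⟨g, rfl⟩ := hf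
  induction g using Polynomial.induction_on' with
  | add f g hf hg => rw [mul_add, lam_add, hf, hg, add_zero]
  | monomial m c =>
    rw [E1b_mul_monomial, lam_sub, E1b_lam_monomial, E1b_lam_monomial]
    by_cases h : k ∣ m
    · rw [if_pos ((Nat.dvd_add_self_right).2 h), if_pos h, Nat.add_div_right _ hk]
      ring
    · rw [if_neg (fun h' => h ((Nat.dvd_add_self_right).1 h')), if_neg h, sub_zero]

/-- the row hit by `X ^ M` -/
theorem lam_row (p k : ℕ) [NeZero k] (M : ℕ) (v : ZMod k → ℤ) :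
    ∃ e : ℕ, lam p k (X ^ M * toPoly v) = (p : ℤ) ^ e * v (-(M : ZMod k)) := by
  refine ⟨(M + (-(M : ZMod k)).val) / k, ?_⟩
  have h1 : (X : ℤ[X]) ^ M * toPoly v = ∑ c : ZMod k, C (v c) * X ^ (M + c.val) := by
    unfold toPoly
    rw [Finset.mul_sum]
    refine Finset.sum_congr rfl fun c _ => ?_
    rw [pow_add]
    ring
  have h2 : lam p k (∑ c : ZMod k, C (v c) * X ^ (M + c.val)) =
      ∑ c : ZMod k, lam p k (C (v c) * X ^ (M + c.val)) :=
    map_sum (AddMonoidHom.mk' (lam p k) (lam_add p k)) _ _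
  rw [h1, h2, Finset.sum_eq_single (-(M : ZMod k))]
  · rw [E1b_lam_monomial, if_pos]
    · ring
    · rw [← ZMod.natCast_eq_zero_iff]
      push_cast
      rw [ZMod.natCast_zmod_val, add_neg_cancel]
  · intro c _ hc
    rw [E1b_lam_monomial, if_neg]
    intro h
    apply hc
    rw [← ZMod.natCast_eq_zero_iff] at h
    push_cast at h
    rw [ZMod.natCast_zmod_val] at h
    linear_combination h
  · intro h
    exact absurd (Finset.mem_univ _) h

end Pool.Agent.Helper21.FC
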