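import Pool.Agent.Helper21.FC.E1

/-!
MP_0aa406_nt, project FC (helper21): size and sign of `SS (X ^ j g)`.
-/

set_option autoImplicit false

namespace Pool.Agent.Helper21.FC

open Finset Polynomial

theorem E2_sum (p n k : ℕ) {ι : Type*} (s : Finset ι) (f : ι → ℤ[X]) :
    SS p n k (∑ i ∈ s, f i) = ∑ i ∈ s, SS p n k (f i) := by
  classical
  induction s using Finset.induction_on with
  | empty => simp [SS]
  | insert a s ha ih => rw [Finset.sum_insert ha, Finset.sum_insert ha, SS_add, ih]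

theorem E2_eval (p n k : ℕ) [NeZero k] (g : ZMod k → ℤ) (M : ℕ) :
    SS p n k (X ^ M * toPoly g) =
      (∑ c : ZMod k, (g c : ℝ) * (p : ℝ) ^ ex n k (M + c.val)) / ((p : ℝ) ^ n - 1) := by
  unfold toPoly
  rw [Finset.mul_sum, E2_sum, Finset.sum_div]
  refine Finset.sum_congr rfl fun c _ => ?_
  have h : X ^ M * (C (g c) * X ^ c.val) = C (g c) * (X : ℤ[X]) ^ (M + c.val) := by ring
  rw [h, SS_monomial]

theorem E2_ex_le (n k m c : ℕ) (hk : 0 < k) (hmn : m ≤ n) (hc : c < k) :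
    ex n k (n - m + c) + m / k ≤ n := by
  have h1 := io_lt n k (n - m + c) hk
  have h2 : n * io n k (n - m + c) + n ≤ n * k := by
    calc n * io n k (n - m + c) + n = n * (io n k (n - m + c) + 1) := by ring
      _ ≤ n * k := Nat.mul_le_mul_left _ h1
  have h3 : ex n k (n - m + c) * k ≤ n * io n k (n - m + c) + (n - m + c) :=
    Nat.div_mul_le_self _ _
  have h4 : m / k * k ≤ m := Nat.div_mul_le_self _ _
  have h5 : (ex n k (n - m + c) + m / k) * k < (n + 1) * k := by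
    rw [add_mul, add_mul, one_mul]
    omega
  exact Nat.lt_succ_iff.1 (Nat.lt_of_mul_lt_mul_right h5)

theorem E2_ex_lt (n k m c : ℕ) (hk : 0 < k) (hnk : Nat.Coprime k n) (hmn : m ≤ n) (hc : c < k)
    (hcm : ¬ c ≡ m [MOD k]) : ex n k (n - m + c) + m / k + n / k ≤ n := by
  have h1 := io_lt n k (n - m + c) hk
  have h0 : io n k (n - m + c) + 2 ≤ k := by
    by_contra hcon
    have h2 : io n k (n - m + c) + 1 = k := by omega
    have h3 := io_spec n k (n - m + c) hk hnk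
    have h4 : n * io n k (n - m + c) + (n - m + c) + m = k * n + c := by
      have h5 : n * io n k (n - m + c) + n = k * n := by
        calc n * io n k (n - m + c) + n = (io n k (n - m + c) + 1) * n := by ring
          _ = k * n := by rw [h2]
      omega
    apply hcm
    have h6 : (n * io n k (n - m + c) + (n - m + c)) + m ≡ 0 + m [MOD k] :=
      Nat.ModEq.add_right m (Nat.modEq_zero_iff_dvd.2 h3)
    rw [h4, zero_add] at h6
    have h7 : k * n + c ≡ 0 + c [MOD k] :=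
      Nat.ModEq.add_right c (Nat.modEq_zero_iff_dvd.2 (Dvd.intro _ rfl))
    rw [zero_add] at h7
    exact h7.symm.trans h6
  have h2 : n * io n k (n - m + c) + n + n ≤ n * k := by
    calc n * io n k (n - m + c) + n + n = n * (io n k (n - m + c) + 2) := by ring
      _ ≤ n * k := Nat.mul_le_mul_left _ h0
  have h3 : ex n k (n - m + c) * k ≤ n * io n k (n - m + c) + (n - m + c) :=
    Nat.div_mul_le_self _ _
  have h4 : m / k * k ≤ m := Nat.div_mul_le_self _ _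
  have h4' : n / k * k ≤ n := Nat.div_mul_le_self _ _
  have h5 : (ex n k (n - m + c) + m / k + n / k) * k < (n + 1) * k := by
    rw [add_mul, add_mul, add_mul, one_mul]
    omega
  exact Nat.lt_succ_iff.1 (Nat.lt_of_mul_lt_mul_right h5)

theorem E2_ex_eq (n k m : ℕ) (hk : 0 < k) (hnk : Nat.Coprime k n) (hmn : m ≤ n) :
    ex n k (n - m + m % k) + m / k = n := by
  have h1 : n * (k - 1) + n = n * k := by
    obtain ⟨j, rfl⟩ : ∃ j, k = j + 1 := ⟨k - 1, by omega⟩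
    simp only [Nat.add_sub_cancel]
    ring
  have h2 : m % k + k * (m / k) = m := Nat.mod_add_div m k
  have h3 : n * (k - 1) + (n - m + m % k) + k * (m / k) = n * k := by omega
  have h4 : k ∣ n * (k - 1) + (n - m + m % k) := by
    have h5 : k ∣ n * (k - 1) + (n - m + m % k) + k * (m / k) := by
      rw [h3]
      exact Dvd.intro_left n rfl
    exact (Nat.dvd_add_left (Dvd.intro _ rfl)).1 h5
  have h6 : io n k (n - m + m % k) = k - 1 :=
    E1c_io_unique n k (n - m + m % k) (k - 1) hk hnk (by omega) h4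
  have h7 : k * ex n k (n - m + m % k) = n * (k - 1) + (n - m + m % k) := by
    rw [ex, h6]
    exact Nat.mul_div_cancel' h4
  have h8 : (ex n k (n - m + m % k) + m / k) * k = n * k := by
    rw [add_mul, mul_comm _ k, h7, mul_comm (m / k) k]
    exact h3
  exact Nat.eq_of_mul_eq_mul_right hk h8

theorem E2_two {p n : ℕ} (hp : 2 ≤ p) (hn : 1 ≤ n) :
    0 < (p : ℝ) ^ n - 1 ∧ (p : ℝ) ^ n ≤ 2 * ((p : ℝ) ^ n - 1) := by
  have h1 : (2 : ℝ) ≤ p := by exact_mod_cast hp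
  have h2 : (2 : ℝ) ≤ (p : ℝ) ^ n := by
    calc (2 : ℝ) ≤ p := h1
      _ = (p : ℝ) ^ 1 := (pow_one _).symm
      _ ≤ (p : ℝ) ^ n := pow_le_pow_right₀ (by linarith) hn
  constructor <;> linarith

theorem SS_size (p n k : ℕ) [NeZero k] (hp : 2 ≤ p) (hnk : Nat.Coprime k n) (G : ℝ)
    (g : ZMod k → ℤ) (hG : ∀ c, |(g c : ℝ)| ≤ G) (m : ℕ) (hm : 1 ≤ m) (hmn : m ≤ n) :
    |SS p n k (X ^ (n - m) * toPoly g)| ≤ 2 * k * G / (p : ℝ) ^ (m / k) := by
  have hk : 0 < k := Nat.pos_of_ne_zero (NeZero.ne k)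
  have hp0 : (0 : ℝ) < p := by exact_mod_cast (by omega : 0 < p)
  have hp1 : (1 : ℝ) ≤ p := by exact_mod_cast (by omega : 1 ≤ p)
  have hG0 : 0 ≤ G := (abs_nonneg _).trans (hG 0)
  obtain ⟨hN, hN2⟩ := E2_two (p := p) (n := n) hp (by omega)
  have hpm : (0 : ℝ) < (p : ℝ) ^ (m / k) := pow_pos hp0 _
  rw [E2_eval, abs_div, abs_of_pos hN, div_le_div_iff₀ hN hpm]
  have h1 : |∑ c : ZMod k, (g c : ℝ) * (p : ℝ) ^ ex n k (n - m + c.val)| * (p : ℝ) ^ (m / k) ≤
      k * (G * (p : ℝ) ^ n) := by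
    calc |∑ c : ZMod k, (g c : ℝ) * (p : ℝ) ^ ex n k (n - m + c.val)| * (p : ℝ) ^ (m / k)
        ≤ (∑ c : ZMod k, |(g c : ℝ) * (p : ℝ) ^ ex n k (n - m + c.val)|) * (p : ℝ) ^ (m / k) :=
          mul_le_mul_of_nonneg_right (Finset.abs_sum_le_sum_abs _ _) hpm.le
      _ = ∑ c : ZMod k, |(g c : ℝ)| * (p : ℝ) ^ (ex n k (n - m + c.val) + m / k) := by
          rw [Finset.sum_mul]
          refine Finset.sum_congr rfl fun c _ => ?_
          rw [abs_mul, abs_of_pos (pow_pos hp0 (ex n k (n - m + c.val))), pow_add, mul_assoc]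
      _ ≤ ∑ c : ZMod k, G * (p : ℝ) ^ n := by
          refine Finset.sum_le_sum fun c _ => ?_
          exact mul_le_mul (hG c) (pow_le_pow_right₀ hp1
            (E2_ex_le n k m c.val hk hmn (ZMod.val_lt c))) (pow_pos hp0 _).le hG0
      _ = k * (G * (p : ℝ) ^ n) := by
          rw [Finset.sum_const, Finset.card_univ, ZMod.card, nsmul_eq_mul]
  refine h1.trans ?_
  have hkG : (0 : ℝ) ≤ k * G := mul_nonneg (Nat.cast_nonneg k) hG0
  nlinarith [mul_le_mul_of_nonneg_left hN2 hkG]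

/-- the sum of the terms other than the main one is small -/
theorem E2_rest (p n k : ℕ) [NeZero k] (hp : 2 ≤ p) (hnk : Nat.Coprime k n) (G : ℝ)
    (g : ZMod k → ℤ) (hG : ∀ c, |(g c : ℝ)| ≤ G) (hbig : (k : ℝ) * G * p < (p : ℝ) ^ (n / k))
    (m : ℕ) (hmn : m ≤ n) :
    |(∑ c : ZMod k, (g c : ℝ) * (p : ℝ) ^ ex n k (n - m + c.val)) * (p : ℝ) ^ (m / k) -
      (g (m : ZMod k) : ℝ) * (p : ℝ) ^ n| < (p : ℝ) ^ n := by
  classical
  have hk : 0 < k := Nat.pos_of_ne_zero (NeZero.ne k)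
  have hp0 : (0 : ℝ) < p := by exact_mod_cast (by omega : 0 < p)
  have hp1 : (1 : ℝ) ≤ p := by exact_mod_cast (by omega : 1 ≤ p)
  have hG0 : 0 ≤ G := (abs_nonneg _).trans (hG 0)
  have hpn : (0 : ℝ) < (p : ℝ) ^ n := pow_pos hp0 _
  have hpb : (0 : ℝ) < (p : ℝ) ^ (n / k) := pow_pos hp0 _
  have h1 : (∑ c : ZMod k, (g c : ℝ) * (p : ℝ) ^ ex n k (n - m + c.val)) * (p : ℝ) ^ (m / k) =
      ∑ c : ZMod k, (g c : ℝ) * (p : ℝ) ^ (ex n k (n - m + c.val) + m / k) := by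
    rw [Finset.sum_mul]
    refine Finset.sum_congr rfl fun c _ => ?_
    rw [pow_add, mul_assoc]
  have h2 : (g (m : ZMod k) : ℝ) * (p : ℝ) ^ (ex n k (n - m + (m : ZMod k).val) + m / k) =
      (g (m : ZMod k) : ℝ) * (p : ℝ) ^ n := by
    rw [ZMod.val_natCast, E2_ex_eq n k m hk hnk hmn]
  rw [h1, ← Finset.add_sum_erase _ _ (Finset.mem_univ (m : ZMod k)), h2, add_sub_cancel_left]
  have h3 : ∀ c ∈ Finset.univ.erase (m : ZMod k),
      |(g c : ℝ) * (p : ℝ) ^ (ex n k (n - m + c.val) + m / k)| ≤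
        G * ((p : ℝ) ^ n / (p : ℝ) ^ (n / k)) := by
    intro c hc
    have hne : c ≠ (m : ZMod k) := Finset.ne_of_mem_erase hc
    have hcm : ¬ c.val ≡ m [MOD k] := by
      intro h
      apply hne
      have h4 := (ZMod.natCast_eq_natCast_iff _ _ _).2 h
      rwa [ZMod.natCast_zmod_val] at h4
    rw [abs_mul, abs_of_pos (pow_pos hp0 (ex n k (n - m + c.val) + m / k))]
    refine mul_le_mul (hG c) ?_ (pow_pos hp0 _).le hG0
    rw [le_div_iff₀ hpb, ← pow_add]
    exact pow_le_pow_right₀ hp1 (E2_ex_lt n k m c.val hk hnk hmn (ZMod.val_lt c) hcm)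
  calc |∑ c ∈ Finset.univ.erase (m : ZMod k),
        (g c : ℝ) * (p : ℝ) ^ (ex n k (n - m + c.val) + m / k)|
      ≤ ∑ c ∈ Finset.univ.erase (m : ZMod k),
        |(g c : ℝ) * (p : ℝ) ^ (ex n k (n - m + c.val) + m / k)| :=
        Finset.abs_sum_le_sum_abs _ _
    _ ≤ ∑ c ∈ Finset.univ.erase (m : ZMod k), G * ((p : ℝ) ^ n / (p : ℝ) ^ (n / k)) :=
        Finset.sum_le_sum h3
    _ ≤ ∑ _c : ZMod k, G * ((p : ℝ) ^ n / (p : ℝ) ^ (n / k)) :=
        Finset.sum_le_sum_of_subset_of_nonneg (Finset.erase_subset _ _)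
          (fun _ _ _ => mul_nonneg hG0 (div_nonneg hpn.le hpb.le))
    _ = k * (G * ((p : ℝ) ^ n / (p : ℝ) ^ (n / k))) := by
        rw [Finset.sum_const, Finset.card_univ, ZMod.card, nsmul_eq_mul]
    _ = (k * G) * (p : ℝ) ^ n / (p : ℝ) ^ (n / k) := by ring
    _ < (p : ℝ) ^ n := by
        rw [div_lt_iff₀ hpb]
        have hkG : (0 : ℝ) ≤ k * G := mul_nonneg (Nat.cast_nonneg k) hG0
        have h5 : (k : ℝ) * G < (p : ℝ) ^ (n / k) := by
          refine lt_of_le_of_lt ?_ hbig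
          exact le_mul_of_one_le_right hkG hp1
        nlinarith

theorem SS_sign (p n k : ℕ) [NeZero k] (hp : 2 ≤ p) (hnk : Nat.Coprime k n) (G : ℝ)
    (g : ZMod k → ℤ) (hG : ∀ c, |(g c : ℝ)| ≤ G) (hbig : (k : ℝ) * G * p < (p : ℝ) ^ (n / k))
    (m : ℕ) (hm : 1 ≤ m) (hmn : m ≤ n) :
    (0 < g (m : ZMod k) → 0 < SS p n k (X ^ (n - m) * toPoly g)) ∧
      (g (m : ZMod k) < 0 → SS p n k (X ^ (n - m) * toPoly g) < 0) := by
  have hp0 : (0 : ℝ) < p := by exact_mod_cast (by omega : 0 < p)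
  obtain ⟨hN, -⟩ := E2_two (p := p) (n := n) hp (by omega)
  have hpm : (0 : ℝ) < (p : ℝ) ^ (m / k) := pow_pos hp0 _
  have hpn : (0 : ℝ) < (p : ℝ) ^ n := pow_pos hp0 _
  have h := abs_lt.1 (E2_rest p n k hp hnk G g hG hbig m hmn)
  rw [E2_eval]
  constructor
  · intro hg
    have hg1 : (1 : ℝ) ≤ (g (m : ZMod k) : ℝ) := by exact_mod_cast hg
    have h1 : 0 < (∑ c : ZMod k, (g c : ℝ) * (p : ℝ) ^ ex n k (n - m + c.val)) *
        (p : ℝ) ^ (m / k) := by
      nlinarith [h.1, mul_le_mul_of_nonneg_right hg1 hpn.le]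
    refine div_pos ?_ hN
    by_contra hcon
    push Not at hcon
    exact absurd (mul_nonpos_of_nonpos_of_nonneg hcon hpm.le) (not_le.2 h1)
  · intro hg
    have hg1 : (g (m : ZMod k) : ℝ) ≤ -1 := by
      have : g (m : ZMod k) ≤ -1 := by omega
      exact_mod_cast this
    have h1 : (∑ c : ZMod k, (g c : ℝ) * (p : ℝ) ^ ex n k (n - m + c.val)) *
        (p : ℝ) ^ (m / k) < 0 := by
      nlinarith [h.2, mul_le_mul_of_nonneg_right hg1 hpn.le]
    refine div_neg_of_neg_of_pos ?_ hN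
    by_contra hcon
    push Not at hcon
    exact absurd (mul_nonneg hcon hpm.le) (not_le.2 h1)

end Pool.Agent.Helper21.FC
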