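import Pool.Agent.Helper21.FC.E1a
import Pool.Agent.Helper21.FC.P1

/-!
MP_0aa406_nt, project FC (helper21): adjusting the direction modulo `h`.
-/

set_option autoImplicit false

namespace Pool.Agent.Helper21.FC

open Finset Polynomial

/-- contribution of the index `m` to `W (d a)` -/
noncomputable def ph (p n : ℕ) {k : ℕ} [NeZero k] (h : ℕ) (μ w : ZMod k → ℤ) (x0 : ℤ[X])
    (m : ℕ) : ℝ :=
  if (h : ℤ) ∣ lam p k (X ^ (n - m) * (toPoly μ * x0)) then
    (if tw p μ w (m : ZMod k) < 0 then 1 else 0)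
  else Int.fract ((lam p k (X ^ (n - m) * (toPoly μ * x0)) : ℝ) / h)

/-- `toPoly` of a vector supported at one class -/
theorem E3a_single (k : ℕ) [NeZero k] (i : ZMod k) (c : ℤ) :
    toPoly (fun j => if j = i then c else 0) = C c * (X : ℤ[X]) ^ i.val := by
  unfold toPoly
  rw [Finset.sum_eq_single i]
  · beta_reduce
    rw [if_pos rfl]
  · intro b _ hb
    beta_reduce
    rw [if_neg hb, C_0, zero_mul]
  · intro h
    exact absurd (Finset.mem_univ i) h

/-- `toPoly` is additive -/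
theorem E3a_add (k : ℕ) [NeZero k] (f g : ZMod k → ℤ) :
    toPoly (fun j => f j + g j) = toPoly f + toPoly g := by
  unfold toPoly
  rw [← Finset.sum_add_distrib]
  refine Finset.sum_congr rfl fun c _ => ?_
  beta_reduce
  rw [C_add, add_mul]

/-- every polynomial is congruent to a reduced one -/
theorem E3a_reduce (p k : ℕ) [NeZero k] (q : ℤ[X]) :
    ∃ f : ZMod k → ℤ, ((X : ℤ[X]) ^ k - C (p : ℤ)) ∣ q - toPoly f := by
  induction q using Polynomial.induction_on' with
  | add q1 q2 h1 h2 =>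
    obtain ⟨f, hf⟩ := h1
    obtain ⟨g, hg⟩ := h2
    refine ⟨fun j => f j + g j, ?_⟩
    rw [E3a_add]
    have h3 : q1 + q2 - (toPoly f + toPoly g) = (q1 - toPoly f) + (q2 - toPoly g) := by ring
    rw [h3]
    exact dvd_add hf hg
  | monomial a c =>
    refine ⟨fun j => if j = (a : ZMod k) then c * (p : ℤ) ^ (a / k) else 0, ?_⟩
    rw [E3a_single, ZMod.val_natCast, ← C_mul_X_pow_eq_monomial, C_mul, mul_assoc, ← mul_sub]
    exact Dvd.dvd.mul_left (P1b_mono p k a) _

/-- adjusting the direction modulo `h` -/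
theorem exists_b (p n h k : ℕ) [NeZero k] (hh : 0 < h) (R : ℤ) (hR : (h : ℤ) ∣ R)
    (w : ZMod k → ℤ) (x0 : ℤ[X]) :
    ∃ (c : ZMod k → ℤ) (b : ℤ[X]), (∀ i, 0 ≤ c i ∧ c i < h) ∧
      ((X : ℤ[X]) ^ k - C (p : ℤ)) ∣
        toPoly (fun i => R * w i + c i) + (X ^ n - 1) * x0 - C (h : ℤ) * b := by
  obtain ⟨f, hf⟩ := E3a_reduce p k ((X ^ n - 1) * x0)
  have hh' : (0 : ℤ) < h := by exact_mod_cast hh
  have hdvd : ∀ i, (h : ℤ) ∣ R * w i + (-(f i)) % h + f i := by
    intro i
    have h1 : (h : ℤ) ∣ R * w i := Dvd.dvd.mul_right hR _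
    have h2 : (h : ℤ) ∣ (-(f i)) % h + f i := by
      refine ⟨-((-(f i)) / h), ?_⟩
      have h3 := Int.emod_add_mul_ediv (-(f i)) h
      linarith
    have h4 : R * w i + (-(f i)) % h + f i = R * w i + ((-(f i)) % h + f i) := by ring
    rw [h4]
    exact dvd_add h1 h2
  choose g hg using hdvd
  refine ⟨fun i => (-(f i)) % h, toPoly g, fun i => ⟨Int.emod_nonneg _ hh'.ne',
    Int.emod_lt_of_pos _ hh'⟩, ?_⟩
  have h5 : C (h : ℤ) * toPoly g = toPoly (fun i => R * w i + (-(f i)) % h) + toPoly f := by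
    rw [← E3a_add]
    unfold toPoly
    rw [Finset.mul_sum]
    refine Finset.sum_congr rfl fun i _ => ?_
    beta_reduce
    rw [hg i, C_mul, mul_assoc]
  rw [h5]
  have h6 : toPoly (fun i => R * w i + (-(f i)) % h) + (X ^ n - 1) * x0 -
      (toPoly (fun i => R * w i + (-(f i)) % h) + toPoly f) = (X ^ n - 1) * x0 - toPoly f := by
    ring
  rw [h6]
  exact hf

end Pool.Agent.Helper21.FC
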