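import Pool.Agent.Helper21.FC.A1
import Pool.Agent.Helper21.FC.E1
import Pool.Agent.Helper21.FC.E2
import Pool.Agent.Helper21.FC.E3a

/-!
MP_0aa406_nt, project FC (helper21): realisation of a torsion point and a direction.
-/

set_option autoImplicit false

namespace Pool.Agent.Helper21.FC

open Finset Polynomial

/-- error term -/
noncomputable def E3b_err (T j : ℕ) : ℝ := if j < T + 1 then 1 else (1 / 2 : ℝ) ^ (j - T)

theorem E3b_err_nonneg (T j : ℕ) : 0 ≤ E3b_err T j := by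
  unfold E3b_err
  split_ifs <;> positivity

theorem E3b_err_sum (T M : ℕ) :
    ∑ j ∈ range M, E3b_err T j + (1 / 2 : ℝ) ^ (M - 1 - T) ≤ (min M (T + 1) : ℕ) + 1 := by
  induction M with
  | zero => simp
  | succ M ih =>
    rw [Finset.sum_range_succ]
    unfold E3b_err at ih ⊢
    by_cases h : M < T + 1
    · rw [if_pos h]
      have h1 : M - 1 - T = 0 := by omega
      have h2 : M + 1 - 1 - T = 0 := by omega
      have h3 : min M (T + 1) = M := by omega
      have h4 : min (M + 1) (T + 1) = M + 1 := by omega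
      rw [h1, h3] at ih
      rw [h2, h4]
      push_cast
      linarith
    · rw [if_neg h]
      have h1 : M - T = (M - 1 - T) + 1 := by omega
      have h2 : M + 1 - 1 - T = (M - 1 - T) + 1 := by omega
      have h3 : min M (T + 1) = T + 1 := by omega
      have h4 : min (M + 1) (T + 1) = T + 1 := by omega
      rw [h3] at ih
      rw [h1, h2, h4, pow_succ]
      linarith

theorem E3b_range_mul (k M : ℕ) (hk : 0 < k) (g : ℕ → ℝ) :
    ∑ m ∈ range (k * M), g (m / k) = k * ∑ j ∈ range M, g j := by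
  induction M with
  | zero => simp
  | succ M ih =>
    rw [Nat.mul_succ, Finset.sum_range_add, ih, Finset.sum_range_succ, mul_add]
    congr 1
    rw [Finset.sum_congr rfl (g := fun _ => g M)]
    · simp
    · intro i hi
      have hi' := mem_range.1 hi
      rw [Nat.mul_add_div hk, Nat.div_eq_of_lt hi', add_zero]

theorem E3b_total (k T n : ℕ) (hk : 0 < k) :
    ∑ m ∈ Icc 1 n, E3b_err T (m / k) ≤ k * (T + 2) := by
  have h1 : ∑ m ∈ Icc 1 n, E3b_err T (m / k) ≤ ∑ m ∈ range (k * (n + 1)), E3b_err T (m / k) := by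
    refine Finset.sum_le_sum_of_subset_of_nonneg ?_ (fun m _ _ => E3b_err_nonneg _ _)
    intro m hm
    have h := (mem_Icc.1 hm).2
    have h2 : n + 1 ≤ k * (n + 1) := Nat.le_mul_of_pos_left _ hk
    exact mem_range.2 (by omega)
  rw [E3b_range_mul k (n + 1) hk] at h1
  refine h1.trans ?_
  refine mul_le_mul_of_nonneg_left ?_ (Nat.cast_nonneg k)
  have h2 := E3b_err_sum T (n + 1)
  have h3 : (0 : ℝ) ≤ (1 / 2 : ℝ) ^ (n + 1 - 1 - T) := by positivity
  have h4 : ((min (n + 1) (T + 1) : ℕ) : ℝ) ≤ T + 1 := by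
    have : min (n + 1) (T + 1) ≤ T + 1 := by omega
    exact_mod_cast this
  linarith

theorem E3b_reindex (n : ℕ) (F : ℕ → ℝ) :
    ∑ j ∈ range n, F j = ∑ m ∈ Icc 1 n, F (n - m) := by
  refine Finset.sum_nbij' (fun j => n - j) (fun m => n - m) ?_ ?_ ?_ ?_ ?_
  · intro j hj
    have := mem_range.1 hj
    exact mem_Icc.2 ⟨by omega, by omega⟩
  · intro m hm
    have := mem_Icc.1 hm
    exact mem_range.2 (by omega)
  · intro j hj
    have := mem_range.1 hj
    show n - (n - j) = j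
    omega
  · intro m hm
    have := mem_Icc.1 hm
    show n - (n - m) = m
    omega
  · intro j hj
    have := mem_range.1 hj
    show F j = F (n - (n - j))
    congr 1
    omega

/-- the bound for `SS` in terms of the error function -/
theorem E3b_bound (p T j : ℕ) (hp : 2 ≤ p) (hj : ¬ j < T + 1) :
    (p : ℝ) ^ T / (p : ℝ) ^ j ≤ E3b_err T j := by
  unfold E3b_err
  rw [if_neg hj]
  have hp0 : (0 : ℝ) < p := by
    have : (2 : ℝ) ≤ p := by exact_mod_cast hp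
    linarith
  have h1 : (p : ℝ) ^ j = (p : ℝ) ^ T * (p : ℝ) ^ (j - T) := by
    rw [← pow_add]
    congr 1
    omega
  rw [h1, div_mul_eq_div_div, div_self (pow_ne_zero _ hp0.ne'), one_div_pow]
  apply one_div_le_one_div_of_le (by positivity)
  exact pow_le_pow_left₀ (by norm_num) (by exact_mod_cast hp) _

theorem E3b_err_lt (T j : ℕ) (hj : ¬ j < T + 1) : E3b_err T j < 1 := by
  unfold E3b_err
  rw [if_neg hj]
  exact pow_lt_one₀ (by norm_num) (by norm_num) (by omega)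

/-- fractional part from above -/
theorem E3b_up (s e : ℝ) (w : ℤ) (hs : |s| ≤ e) (he : e < 1) (hw : w ≠ 0)
    (hpos : 0 < w → 0 < s) :
    Int.fract s ≤ (if w < 0 then 1 else 0) + e := by
  have h0 := abs_le.1 hs
  rcases lt_trichotomy w 0 with h | h | h
  · rw [if_pos h]
    have := Int.fract_lt_one s
    have h1 : 0 ≤ e := (abs_nonneg s).trans hs
    linarith
  · exact absurd h hw
  · rw [if_neg (not_lt.2 h.le)]
    have h1 := hpos h
    have h2 : Int.fract s = s := Int.fract_eq_self.2 ⟨h1.le, by linarith⟩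
    rw [h2]
    linarith

/-- fractional part from below, integral row -/
theorem E3b_low (h : ℕ) (hh : 0 < h) (s e : ℝ) (l w : ℤ) (hs : |s| ≤ e) (he : e < 1) (hl : (h : ℤ) ∣ l)
    (hneg : w < 0 → s < 0) :
    (if w < 0 then 1 else 0) - e ≤ Int.fract ((s + l) / h) := by
  have h0 := abs_le.1 hs
  have hh' : (1 : ℝ) ≤ h := by exact_mod_cast hh
  have hpos : (0 : ℝ) < h := by linarith
  obtain ⟨c, rfl⟩ := hl
  have h1 : (s + ((h * c : ℤ) : ℝ)) / h = s / h + (c : ℤ) := by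
    push_cast
    field_simp
  rw [h1, Int.fract_add_intCast]
  by_cases hw : w < 0
  · rw [if_pos hw]
    have h2 := hneg hw
    have h3 : s / h < 0 := div_neg_of_neg_of_pos h2 hpos
    have h4 : -1 < s / h := by
      rw [lt_div_iff₀ hpos]
      linarith
    have h5 : Int.fract (s / h) = s / h + 1 := by
      rw [Int.fract_eq_iff]
      refine ⟨by linarith, by linarith, -1, ?_⟩
      push_cast
      ring
    rw [h5]
    have h6 : -e ≤ s / h := by
      rw [le_div_iff₀ hpos]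
      have h7 : 0 ≤ e := (abs_nonneg s).trans hs
      nlinarith
    linarith
  · rw [if_neg hw]
    have := Int.fract_nonneg (s / h)
    have h1 : 0 ≤ e := (abs_nonneg s).trans hs
    linarith

/-- fractional part from below, non integral row -/
theorem E3b_low2 (h : ℕ) (hh : 0 < h) (s e : ℝ) (l : ℤ) (hs : |s| ≤ e) (he : e < 1)
    (hl : ¬ (h : ℤ) ∣ l) :
    Int.fract ((l : ℝ) / h) - e ≤ Int.fract ((s + l) / h) := by
  have h0 := abs_le.1 hs
  have hh' : (1 : ℝ) ≤ h := by exact_mod_cast hh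
  have hpos : (0 : ℝ) < h := by linarith
  have hhz : (0 : ℤ) < h := by exact_mod_cast hh
  have hr0 : 0 < l % h := by
    rcases (Int.emod_nonneg l hhz.ne').lt_or_eq with h1 | h1
    · exact h1
    · exact absurd (Int.dvd_of_emod_eq_zero h1.symm) hl
  have hr1 : l % h < h := Int.emod_lt_of_pos l hhz
  have hl2 : (l : ℝ) = (l % h : ℤ) + (h : ℝ) * (l / h : ℤ) := by
    have := Int.emod_add_mul_ediv l h
    exact_mod_cast this.symm
  have hr0' : (1 : ℝ) ≤ (l % h : ℤ) := by exact_mod_cast hr0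
  have hr1' : ((l % h : ℤ) : ℝ) + 1 ≤ h := by
    have h3 : l % h + 1 ≤ h := by omega
    exact_mod_cast h3
  have e1 : Int.fract ((l : ℝ) / h) = ((l % h : ℤ) : ℝ) / h := by
    rw [Int.fract_eq_iff]
    refine ⟨by positivity, ?_, l / h, ?_⟩
    · rw [div_lt_one hpos]
      linarith
    · rw [hl2]
      field_simp
      ring
  have e2 : Int.fract ((s + l) / h) = (s + ((l % h : ℤ) : ℝ)) / h := by
    rw [Int.fract_eq_iff]
    refine ⟨div_nonneg (by linarith) hpos.le, ?_, l / h, ?_⟩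
    · rw [div_lt_one hpos]
      linarith
    · rw [hl2]
      field_simp
      ring
  rw [e1, e2, add_div]
  have h6 : -e ≤ s / h := by
    rw [le_div_iff₀ hpos]
    have h7 : 0 ≤ e := (abs_nonneg s).trans hs
    nlinarith
  linarith

/-- a natural number is smaller than its power -/
theorem E3b_lt_pow (a p : ℕ) (hp : 2 ≤ p) : (a : ℤ) + 1 ≤ (p : ℤ) ^ a := by
  have h := Nat.lt_pow_self (n := a) (show 1 < p by omega)
  exact_mod_cast h

/-- bound of a product -/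
theorem E3b_tw_bound (p B : ℕ) {k : ℕ} [NeZero k] (hp : 2 ≤ p) (μ x : ZMod k → ℤ)
    (hμ : ∀ t, |μ t| ≤ (p : ℤ) ^ B) (Y : ℤ) (hx : ∀ i, |x i| ≤ Y) (u : ZMod k) :
    |tw p μ x u| ≤ k * ((p : ℤ) ^ B * Y * p) := by
  have hp1 : (1 : ℤ) ≤ p := by exact_mod_cast (by omega : 1 ≤ p)
  have hk : 0 < k := Nat.pos_of_ne_zero (NeZero.ne k)
  unfold tw
  refine (Finset.abs_sum_le_sum_abs _ _).trans ?_
  have h1 : ∀ i ∈ (univ : Finset (ZMod k)),
      |μ (u - i) * x i * (p : ℤ) ^ (((u - i).val + i.val) / k)| ≤ (p : ℤ) ^ B * Y * p := by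
    intro i _
    have h2 : (p : ℤ) ^ (((u - i).val + i.val) / k) ≤ p := by
      have h3 : ((u - i).val + i.val) / k ≤ 1 := by
        have h4 := ZMod.val_lt (u - i)
        have h5 := ZMod.val_lt i
        have h6 : ((u - i).val + i.val) / k < 2 := by
          rw [Nat.div_lt_iff_lt_mul hk]
          omega
        omega
      calc (p : ℤ) ^ (((u - i).val + i.val) / k) ≤ (p : ℤ) ^ 1 := pow_le_pow_right₀ hp1 h3
        _ = p := pow_one _
    rw [abs_mul, abs_mul, abs_of_nonneg (by positivity : (0 : ℤ) ≤ (p : ℤ) ^ (((u - i).val + i.val) / k))]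
    have h7 : 0 ≤ Y := (abs_nonneg _).trans (hx i)
    have h8 : |μ (u - i)| * |x i| ≤ (p : ℤ) ^ B * Y :=
      mul_le_mul (hμ _) (hx i) (abs_nonneg _) (by positivity)
    exact mul_le_mul h8 h2 (by positivity) (by positivity)
  refine (Finset.sum_le_sum h1).trans ?_
  rw [Finset.sum_const, Finset.card_univ, ZMod.card, nsmul_eq_mul]

/-- linearity of the product -/
theorem E3b_tw_lin (p : ℕ) {k : ℕ} [NeZero k] (μ w c : ZMod k → ℤ) (R : ℤ) (u : ZMod k) :
    tw p μ (fun i => R * w i + c i) u = R * tw p μ w u + tw p μ c u := by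
  unfold tw
  rw [Finset.mul_sum, ← Finset.sum_add_distrib]
  refine Finset.sum_congr rfl fun i _ => ?_
  ring

/-- sign of a perturbed multiple -/
theorem E3b_sign (R v c K : ℤ) (hR : K < R) (hc : |c| ≤ K) :
    (0 < v → 0 < R * v + c) ∧ (v < 0 → R * v + c < 0) := by
  have h0 := abs_le.1 hc
  have hK : 0 ≤ K := (abs_nonneg _).trans hc
  constructor
  · intro h
    nlinarith
  · intro h
    nlinarith

/-- `SS` of a product -/
theorem E3b_SS (p n k : ℕ) [NeZero k] (hp : 2 ≤ p) (hn : 1 ≤ n) (hnk : Nat.Coprime k n) (h : ℕ)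
    (μ w' : ZMod k → ℤ) (x0 b : ℤ[X])
    (hq : ((X : ℤ[X]) ^ k - C (p : ℤ)) ∣ toPoly w' + (X ^ n - 1) * x0 - C (h : ℤ) * b) (j : ℕ) :
    (h : ℝ) * SS p n k (X ^ j * (toPoly μ * b)) =
      SS p n k (X ^ j * toPoly (tw p μ w')) + lam p k (X ^ j * (toPoly μ * x0)) := by
  have hk : 0 < k := Nat.pos_of_ne_zero (NeZero.ne k)
  have h1 : (h : ℝ) * SS p n k (X ^ j * (toPoly μ * b)) =
      SS p n k (C (h : ℤ) * (X ^ j * (toPoly μ * b))) := by
    rw [SS_C_mul]
    push_cast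
    ring
  rw [h1, ← SS_n p n k hp hn hk hnk, ← SS_add]
  have h2 : SS p n k (C (h : ℤ) * (X ^ j * (toPoly μ * b)) -
      (X ^ j * toPoly (tw p μ w') + (X ^ n - 1) * (X ^ j * (toPoly μ * x0)))) = 0 := by
    apply SS_dvd p n k hk hnk
    have h3 : C (h : ℤ) * (X ^ j * (toPoly μ * b)) -
        (X ^ j * toPoly (tw p μ w') + (X ^ n - 1) * (X ^ j * (toPoly μ * x0))) =
        X ^ j * (toPoly μ * toPoly w' - toPoly (tw p μ w')) -
        (X ^ j * toPoly μ) * (toPoly w' + (X ^ n - 1) * x0 - C (h : ℤ) * b) := by ring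
    rw [h3]
    exact dvd_sub (Dvd.dvd.mul_left (toPoly_tw p k μ w') _) (Dvd.dvd.mul_left hq _)
  rw [SS_sub] at h2
  linarith

/-- the two residues -/
theorem E3b_eval (p n k κ : ℕ) (hk : 0 < k) (hκ : (n : ℤ) ∣ (k : ℤ) * κ - 1) (h : ℕ) (f x0 b : ℤ[X])
    (hq : ((X : ℤ[X]) ^ k - C (p : ℤ)) ∣ f + (X ^ n - 1) * x0 - C (h : ℤ) * b) :
    NN p n ∣ (h : ℤ) * b.eval ((p : ℤ) ^ κ) - f.eval ((p : ℤ) ^ κ) := by
  have h1 := eval_dvd hκ hk _ hq
  have h2 : NN p n ∣ ((p : ℤ) ^ κ) ^ n - 1 := by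
    have h3 : ((p : ℤ) ^ κ) ^ n - 1 = ((p : ℤ) ^ n) ^ κ - 1 ^ κ := by
      rw [← pow_mul, mul_comm, pow_mul, one_pow]
    rw [h3]
    exact sub_dvd_pow_sub_pow _ _ _
  have h4 : (h : ℤ) * b.eval ((p : ℤ) ^ κ) - f.eval ((p : ℤ) ^ κ) =
      (((p : ℤ) ^ κ) ^ n - 1) * x0.eval ((p : ℤ) ^ κ) -
      (f + (X ^ n - 1) * x0 - C (h : ℤ) * b).eval ((p : ℤ) ^ κ) := by
    simp only [eval_add, eval_sub, eval_mul, eval_pow, eval_X, eval_one, eval_C]
    ring
  rw [h4]
  exact dvd_sub (Dvd.dvd.mul_right h2 _) h1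

theorem realise_half (k : ℕ) [NeZero k] (h B B1 : ℕ) (hh : 0 < h) : ∃ (C2 : ℝ) (N1 : ℕ),
    ∀ p : ℕ, 2 ≤ p → ∀ n κ : ℕ, N1 ≤ n → 1 ≤ n → Nat.Coprime k n →
    (n : ℤ) ∣ (k : ℤ) * κ - 1 → ∀ μ w : ZMod k → ℤ, (∀ t, |μ t| ≤ (p : ℤ) ^ B) →
    (∀ i, |w i| ≤ (p : ℤ) ^ B1) → (∀ i, w i ≠ 0) → ∀ x0 : ℤ[X],
    (∀ m ∈ Icc 1 n, (h : ℤ) ∣ lam p k (X ^ (n - m) * (toPoly μ * x0)) →
      tw p μ w (m : ZMod k) ≠ 0) →
    ∀ (d : ℤ) (r : ℕ), NN p n ∣ h * d - (p : ℤ) ^ r * (toPoly μ).eval ((p : ℤ) ^ κ) →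
      ∃ a : ℤ, W p n a ≤ ((Icc 1 n).filter (fun m : ℕ => w (m : ZMod k) < 0)).card + C2 ∧
        ∑ m ∈ Icc 1 n, ph p n h μ w x0 m - C2 ≤ W p n (d * a) := by
  have hk : 0 < k := Nat.pos_of_ne_zero (NeZero.ne k)
  obtain ⟨E, hE⟩ : ∃ E, E = B + k + 2 := ⟨_, rfl⟩
  obtain ⟨EG, hEG⟩ : ∃ EG, EG = h + 1 + E + B1 := ⟨_, rfl⟩
  obtain ⟨E2, hE2⟩ : ∃ E2, E2 = k + B + 1 + EG := ⟨_, rfl⟩
  obtain ⟨T, hT⟩ : ∃ T, T = 1 + k + E2 := ⟨_, rfl⟩
  refine ⟨k * (T + 2), k * (T + 3), ?_⟩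
  intro p hp n κ hN hn hnk hκ μ w hμ hw hw0 x0 htw d r hd
  have hp0 : (0 : ℤ) < p := by exact_mod_cast (by omega : 0 < p)
  have hp1 : (1 : ℤ) ≤ p := by omega
  have hp2 : (2 : ℤ) ≤ p := by exact_mod_cast hp
  have hhz : (1 : ℤ) ≤ h := by exact_mod_cast hh
  obtain ⟨R, hRdef⟩ : ∃ R : ℤ, R = h * (p : ℤ) ^ E := ⟨_, rfl⟩
  obtain ⟨c, b, hc, hq⟩ := exists_b p n h k hh R (hRdef ▸ dvd_mul_right _ _) w x0
  obtain ⟨w', hw'⟩ : ∃ w' : ZMod k → ℤ, w' = fun i => R * w i + c i := ⟨_, rfl⟩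
  rw [← hw'] at hq
  have hkp := E3b_lt_pow k p hp
  have hhp := E3b_lt_pow h p hp
  -- size of `R`
  have hRbig : (k : ℤ) * ((p : ℤ) ^ B * h * p) + h < R := by
    rw [hRdef, hE]
    have e1 : (p : ℤ) ^ (B + k + 2) = (p : ℤ) ^ k * ((p : ℤ) ^ B * p) * p := by
      rw [pow_add, pow_add]
      ring
    rw [e1]
    have h2 : (1 : ℤ) ≤ (p : ℤ) ^ B * p := by
      have := one_le_pow₀ hp1 (n := B)
      nlinarith
    obtain ⟨Q, hQ⟩ : ∃ Q : ℤ, Q = (p : ℤ) ^ B * p := ⟨_, rfl⟩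
    have e2 : (k : ℤ) * ((p : ℤ) ^ B * h * p) = h * (k * Q) := by rw [hQ]; ring
    rw [e2, ← hQ]
    rw [← hQ] at h2
    have h3 : ((k : ℤ) + 1) * Q ≤ (p : ℤ) ^ k * Q := mul_le_mul_of_nonneg_right hkp (by linarith)
    have h4 : (p : ℤ) ^ k * Q * 2 ≤ (p : ℤ) ^ k * Q * p :=
      mul_le_mul_of_nonneg_left hp2 (by positivity)
    have h5 : (k : ℤ) * Q + 1 < (p : ℤ) ^ k * Q * p := by
      have h6 : (0 : ℤ) ≤ (k : ℤ) * Q := by positivity
      nlinarith
    have h7 : (h : ℤ) * (k * Q + 1) < h * ((p : ℤ) ^ k * Q * p) :=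
      mul_lt_mul_of_pos_left h5 (by linarith)
    linarith
  have hcabs : ∀ i, |c i| ≤ h := fun i => by
    rw [abs_of_nonneg (hc i).1]
    exact (hc i).2.le
  have hRh : (h : ℤ) < R := by
    have : (0 : ℤ) ≤ (k : ℤ) * ((p : ℤ) ^ B * h * p) := by positivity
    linarith
  -- signs
  have hsw : ∀ i, (0 < w i → 0 < w' i) ∧ (w i < 0 → w' i < 0) := fun i => by
    rw [hw']
    exact E3b_sign R (w i) (c i) h hRh (hcabs i)
  have hst : ∀ u, (0 < tw p μ w u → 0 < tw p μ w' u) ∧ (tw p μ w u < 0 → tw p μ w' u < 0) :=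
    fun u => by
      rw [hw', E3b_tw_lin]
      exact E3b_sign R _ _ _ (by linarith) (E3b_tw_bound p B hp μ c hμ h hcabs u)
  -- sizes
  have hw'b : ∀ i, |w' i| ≤ (p : ℤ) ^ EG := fun i => by
    rw [hw']
    have h1 : |R * w i + c i| ≤ R * (p : ℤ) ^ B1 + h := by
      refine (abs_add_le _ _).trans ?_
      rw [abs_mul, abs_of_pos (by linarith : (0 : ℤ) < R)]
      exact add_le_add (mul_le_mul_of_nonneg_left (hw i) (by linarith)) (hcabs i)
    refine h1.trans ?_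
    have e1 : (p : ℤ) ^ EG = (p : ℤ) ^ h * (p * ((p : ℤ) ^ E * (p : ℤ) ^ B1)) := by
      rw [hEG, pow_add, pow_add, pow_add]
      ring
    rw [e1, hRdef]
    have h2 : (1 : ℤ) ≤ (p : ℤ) ^ E * (p : ℤ) ^ B1 := by
      rw [← pow_add]
      exact one_le_pow₀ hp1
    obtain ⟨Q, hQ⟩ : ∃ Q : ℤ, Q = (p : ℤ) ^ E * (p : ℤ) ^ B1 := ⟨_, rfl⟩
    have e2 : (h : ℤ) * (p : ℤ) ^ E * (p : ℤ) ^ B1 = h * Q := by rw [hQ]; ring
    rw [e2, ← hQ]
    rw [← hQ] at h2
    have h3 : (h : ℤ) * (2 * Q) ≤ (p : ℤ) ^ h * (p * Q) := by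
      refine mul_le_mul (by linarith) (mul_le_mul_of_nonneg_right hp2 (by linarith)) (by linarith)
        (by positivity)
    nlinarith
  have htwb : ∀ u, |tw p μ w' u| ≤ (p : ℤ) ^ E2 := fun u => by
    refine (E3b_tw_bound p B hp μ w' hμ _ hw'b u).trans ?_
    have e1 : (p : ℤ) ^ E2 = (p : ℤ) ^ k * ((p : ℤ) ^ B * (p : ℤ) ^ EG * p) := by
      rw [hE2, pow_add, pow_add, pow_add]
      ring
    rw [e1]
    exact mul_le_mul_of_nonneg_right (by linarith) (by positivity)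
  -- real versions
  have hpr : (2 : ℝ) ≤ p := by exact_mod_cast hp
  have hpr0 : (0 : ℝ) < p := by linarith
  have hpr1 : (1 : ℝ) ≤ p := by linarith
  have hkr : (k : ℝ) + 1 ≤ (p : ℝ) ^ k := by exact_mod_cast hkp
  have hEGE2 : EG ≤ E2 := by omega
  have hGw : ∀ i, |(w' i : ℝ)| ≤ (p : ℝ) ^ E2 := fun i => by
    have h1 : |(w' i : ℝ)| ≤ (p : ℝ) ^ EG := by exact_mod_cast hw'b i
    exact h1.trans (pow_le_pow_right₀ hpr1 hEGE2)
  have hGt : ∀ i, |(tw p μ w' i : ℝ)| ≤ (p : ℝ) ^ E2 := fun i => by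
    exact_mod_cast htwb i
  have hbig : (k : ℝ) * (p : ℝ) ^ E2 * p < (p : ℝ) ^ (n / k) := by
    have h1 : T + 3 ≤ n / k := by
      rw [Nat.le_div_iff_mul_le hk]
      rw [mul_comm]
      exact hN
    have h2 : (p : ℝ) ^ (T + 3) ≤ (p : ℝ) ^ (n / k) := pow_le_pow_right₀ hpr1 h1
    have h3 : (p : ℝ) ^ (T + 3) = (p : ℝ) ^ k * (p : ℝ) ^ E2 * p * (p : ℝ) ^ 3 := by
      rw [hT]
      ring
    have h4 : (k : ℝ) * (p : ℝ) ^ E2 * p < (p : ℝ) ^ k * (p : ℝ) ^ E2 * p := by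
      have h5 : (0 : ℝ) < (p : ℝ) ^ E2 * p := by positivity
      nlinarith
    have h6 : (p : ℝ) ^ k * (p : ℝ) ^ E2 * p * 1 ≤ (p : ℝ) ^ k * (p : ℝ) ^ E2 * p * (p : ℝ) ^ 3 :=
      mul_le_mul_of_nonneg_left (one_le_pow₀ hpr1) (by positivity)
    linarith
  have hsize : ∀ g : ZMod k → ℤ, (∀ i, |(g i : ℝ)| ≤ (p : ℝ) ^ E2) → ∀ m, 1 ≤ m → m ≤ n →
      ¬ m / k < T + 1 → |SS p n k (X ^ (n - m) * toPoly g)| ≤ E3b_err T (m / k) := by
    intro g hg m hm hmn hmT
    refine (SS_size p n k hp hnk _ g hg m hm hmn).trans ?_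
    refine le_trans ?_ (E3b_bound p T (m / k) hp hmT)
    refine div_le_div_of_nonneg_right ?_ (by positivity)
    have h3 : (p : ℝ) ^ T = p * (p : ℝ) ^ k * (p : ℝ) ^ E2 := by
      rw [hT]
      ring
    rw [h3]
    refine mul_le_mul_of_nonneg_right ?_ (by positivity)
    exact mul_le_mul hpr (by linarith) (by positivity) (by positivity)
  -- the number
  refine ⟨(h : ℤ) * b.eval ((p : ℤ) ^ κ), ?_, ?_⟩
  · rw [W_congr hp hn (E3b_eval p n k κ hk hκ h _ x0 b hq), W_SS p n k κ hp hn hk hnk hκ,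
      E3b_reindex]
    have h1 : ∀ m ∈ Icc 1 n, Int.fract (SS p n k (X ^ (n - m) * toPoly w')) ≤
        (if w (m : ZMod k) < 0 then 1 else 0) + E3b_err T (m / k) := by
      intro m hm
      obtain ⟨hm1, hmn⟩ := mem_Icc.1 hm
      by_cases hmT : m / k < T + 1
      · have h2 : E3b_err T (m / k) = 1 := by unfold E3b_err; rw [if_pos hmT]
        rw [h2]
        have h3 := Int.fract_lt_one (SS p n k (X ^ (n - m) * toPoly w'))
        split_ifs <;> linarith
      · have h2 := SS_sign p n k hp hnk _ w' hGw hbig m hm1 hmn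
        exact E3b_up _ _ (w (m : ZMod k)) (hsize w' hGw m hm1 hmn hmT) (E3b_err_lt T _ hmT)
          (hw0 _) (fun h5 => h2.1 ((hsw _).1 h5))
    refine (Finset.sum_le_sum h1).trans ?_
    rw [Finset.sum_add_distrib, Finset.sum_boole]
    have h2 := E3b_total k T n hk
    linarith
  · have h0 : W p n (d * ((h : ℤ) * b.eval ((p : ℤ) ^ κ))) =
        W p n ((toPoly μ * b).eval ((p : ℤ) ^ κ)) := by
      rw [← W_pow_mul hp hn r ((toPoly μ * b).eval ((p : ℤ) ^ κ))]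
      apply W_congr hp hn
      rw [eval_mul]
      have e1 : d * ((h : ℤ) * b.eval ((p : ℤ) ^ κ)) -
          (p : ℤ) ^ r * ((toPoly μ).eval ((p : ℤ) ^ κ) * b.eval ((p : ℤ) ^ κ)) =
          (h * d - (p : ℤ) ^ r * (toPoly μ).eval ((p : ℤ) ^ κ)) * b.eval ((p : ℤ) ^ κ) := by ring
      rw [e1]
      exact Dvd.dvd.mul_right hd _
    rw [h0, W_SS p n k κ hp hn hk hnk hκ, E3b_reindex]
    have hhr : (0 : ℝ) < h := by exact_mod_cast hh
    have h1 : ∀ m ∈ Icc 1 n, ph p n h μ w x0 m - E3b_err T (m / k) ≤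
        Int.fract (SS p n k (X ^ (n - m) * (toPoly μ * b))) := by
      intro m hm
      obtain ⟨hm1, hmn⟩ := mem_Icc.1 hm
      by_cases hmT : m / k < T + 1
      · have h2 : E3b_err T (m / k) = 1 := by unfold E3b_err; rw [if_pos hmT]
        rw [h2]
        have h3 := Int.fract_nonneg (SS p n k (X ^ (n - m) * (toPoly μ * b)))
        have h4 : ph p n h μ w x0 m ≤ 1 := by
          unfold ph
          split_ifs
          · exact le_rfl
          · exact zero_le_one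
          · exact (Int.fract_lt_one _).le
        linarith
      · have h2 := SS_sign p n k hp hnk _ (tw p μ w') hGt hbig m hm1 hmn
        have h3 := E3b_SS p n k hp hn hnk h μ w' x0 b hq (n - m)
        have h4 : SS p n k (X ^ (n - m) * (toPoly μ * b)) =
            (SS p n k (X ^ (n - m) * toPoly (tw p μ w')) +
              lam p k (X ^ (n - m) * (toPoly μ * x0))) / h := by
          rw [← h3]
          field_simp
        rw [h4]
        unfold ph
        by_cases h5 : (h : ℤ) ∣ lam p k (X ^ (n - m) * (toPoly μ * x0))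
        · rw [if_pos h5]
          exact E3b_low h hh _ _ _ (tw p μ w (m : ZMod k)) (hsize _ hGt m hm1 hmn hmT)
            (E3b_err_lt T _ hmT) h5 (fun h6 => h2.2 ((hst _).2 h6))
        · rw [if_neg h5]
          exact E3b_low2 h hh _ _ _ (hsize _ hGt m hm1 hmn hmT) (E3b_err_lt T _ hmT) h5
    have h2 := Finset.sum_le_sum h1
    rw [Finset.sum_sub_distrib] at h2
    have h3 := E3b_total k T n hk
    linarith

end Pool.Agent.Helper21.FC
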