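import Pool.Agent.Helper21.FC.Defs

/-!
MP_0aa406_nt, project FC (helper21): sums of periodic functions.
-/

set_option autoImplicit false

namespace Pool.Agent.Helper21.FC

open Finset Polynomial

private theorem E4a_full (k : ℕ) [NeZero k] (ψ : ZMod k → ℝ) (c : ZMod k) :
    ∑ i ∈ range k, ψ (c + (i : ZMod k)) = ∑ u, ψ u := by
  refine Finset.sum_bij' (fun i _ => c + (i : ZMod k)) (fun u _ => (u - c).val) ?_ ?_ ?_ ?_ ?_
  · intro i _
    exact mem_univ _
  · intro u _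
    exact mem_range.mpr (ZMod.val_lt _)
  · intro i hi
    have h : c + (i : ZMod k) - c = (i : ZMod k) := by ring
    simp only [h]
    exact ZMod.val_cast_of_lt (mem_range.mp hi)
  · intro u _
    simp
  · intro i _
    rfl

private theorem E4a_range (k : ℕ) [NeZero k] (ψ : ZMod k → ℝ) (hψ : ∀ u, |ψ u| ≤ 2) (n : ℕ) :
    |∑ i ∈ range n, ψ ((i + 1 : ℕ) : ZMod k) - (n : ℝ) / k * ∑ u, ψ u| ≤ 4 * k := by
  have hk : 0 < k := Nat.pos_of_ne_zero (NeZero.ne k)
  have hkR : (0 : ℝ) < k := by exact_mod_cast hk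
  induction n using Nat.strong_induction_on with
  | _ n ih =>
    by_cases hn : n < k
    · have hnR : (n : ℝ) ≤ k := by exact_mod_cast hn.le
      have h1 : |∑ i ∈ range n, ψ ((i + 1 : ℕ) : ZMod k)| ≤ 2 * k := by
        calc |∑ i ∈ range n, ψ ((i + 1 : ℕ) : ZMod k)|
            ≤ ∑ i ∈ range n, |ψ ((i + 1 : ℕ) : ZMod k)| := abs_sum_le_sum_abs _ _
          _ ≤ ∑ _i ∈ range n, (2 : ℝ) := sum_le_sum fun i _ => hψ _
          _ = 2 * n := by rw [sum_const, card_range, nsmul_eq_mul]; ring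
          _ ≤ 2 * k := by linarith
      have h2 : |∑ u, ψ u| ≤ 2 * k := by
        calc |∑ u, ψ u| ≤ ∑ u, |ψ u| := abs_sum_le_sum_abs _ _
          _ ≤ ∑ _u : ZMod k, (2 : ℝ) := sum_le_sum fun u _ => hψ u
          _ = 2 * k := by rw [sum_const, card_univ, ZMod.card, nsmul_eq_mul]; ring
      have h3 : |(n : ℝ) / k * ∑ u, ψ u| ≤ 2 * k := by
        rw [abs_mul, abs_of_nonneg (by positivity)]
        have h4 : (n : ℝ) / k ≤ 1 := by
          rw [div_le_one hkR]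
          exact hnR
        calc (n : ℝ) / k * |∑ u, ψ u| ≤ 1 * (2 * k) :=
              mul_le_mul h4 h2 (abs_nonneg _) zero_le_one
          _ = 2 * k := one_mul _
      calc _ ≤ |∑ i ∈ range n, ψ ((i + 1 : ℕ) : ZMod k)| + |(n : ℝ) / k * ∑ u, ψ u| := abs_sub _ _
        _ ≤ 4 * k := by linarith
    · have hn' : k ≤ n := not_lt.mp hn
      obtain ⟨m, rfl⟩ := Nat.exists_eq_add_of_le' hn'
      have h5 := ih m (by omega)
      rw [sum_range_add]
      have h6 : ∑ x ∈ range k, ψ ((m + x + 1 : ℕ) : ZMod k) = ∑ u, ψ u := by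
        rw [← E4a_full k ψ ((m + 1 : ℕ) : ZMod k)]
        refine sum_congr rfl fun i _ => ?_
        congr 1
        push_cast
        ring
      rw [h6]
      have h7 : ∑ i ∈ range m, ψ ((i + 1 : ℕ) : ZMod k) + ∑ u, ψ u -
          ((m + k : ℕ) : ℝ) / k * ∑ u, ψ u =
          ∑ i ∈ range m, ψ ((i + 1 : ℕ) : ZMod k) - (m : ℝ) / k * ∑ u, ψ u := by
        push_cast
        field_simp
        ring
      rw [h7]
      exact h5

/-- sums of periodic functions -/
theorem sum_periodic (k : ℕ) [NeZero k] (n : ℕ) (ψ : ZMod k → ℝ) (hψ : ∀ u, |ψ u| ≤ 2) :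
    |∑ m ∈ Icc 1 n, ψ (m : ZMod k) - (n : ℝ) / k * ∑ u, ψ u| ≤ 4 * k := by
  have h : ∑ m ∈ Icc 1 n, ψ (m : ZMod k) = ∑ i ∈ range n, ψ ((i + 1 : ℕ) : ZMod k) := by
    rw [Finset.range_eq_Ico, Finset.sum_Ico_add' (fun j : ℕ => ψ (j : ZMod k)) 0 n 1]
    rfl
  rw [h]
  exact E4a_range k ψ hψ n

end Pool.Agent.Helper21.FC
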