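import Pool.Agent.Helper21.FC.E3b
import Pool.Agent.Helper21.FC.E4a

/-!
MP_0aa406_nt, project FC (helper21): realisation, final form.
-/

set_option autoImplicit false

namespace Pool.Agent.Helper21.FC

open Finset Polynomial

/-- the weight of a multiple of the modulus vanishes -/
private theorem E4b_W_zero (p n : ℕ) (hp : 2 ≤ p) (hn : 1 ≤ n) (a : ℤ) (ha : NN p n ∣ a) :
    W p n a = 0 := by
  obtain ⟨t, rfl⟩ := ha
  have h1 : (1 : ℝ) < p := by exact_mod_cast (by omega : 1 < p)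
  have h2 : (p : ℝ) ^ n - 1 ≠ 0 := by
    have := one_lt_pow₀ h1 (by omega : n ≠ 0)
    linarith
  unfold W
  refine Finset.sum_eq_zero fun x _ => ?_
  have h3 : (p : ℝ) ^ x * ((NN p n * t : ℤ) : ℝ) / ((p : ℝ) ^ n - 1) =
      (((p : ℤ) ^ x * t : ℤ) : ℝ) := by
    rw [div_eq_iff h2]
    push_cast [NN]
    ring
  rw [h3, Int.fract_intCast]

/-- the `lam` values -/
private theorem E4b_lam (p k : ℕ) [NeZero k] (μ x : ZMod k → ℤ) (n m : ℕ) (hm : m ≤ n) :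
    ∃ e : ℕ, lam p k (X ^ (n - m) * (toPoly μ * (X ^ ((k - 1) * n) * toPoly x))) =
      (p : ℤ) ^ e * tw p μ x (m : ZMod k) := by
  have hk : 0 < k := Nat.pos_of_ne_zero (NeZero.ne k)
  obtain ⟨e, he⟩ := lam_row p k (n - m + (k - 1) * n) (tw p μ x)
  refine ⟨e, ?_⟩
  have h1 : (-((n - m + (k - 1) * n : ℕ) : ZMod k)) = (m : ZMod k) := by
    have h2 : n - m + (k - 1) * n + m = k * n := by
      obtain ⟨j, rfl⟩ : ∃ j, k = j + 1 := ⟨k - 1, by omega⟩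
      simp only [Nat.add_sub_cancel]
      have h3 : (j + 1) * n = j * n + n := by ring
      omega
    have h4 : ((n - m + (k - 1) * n : ℕ) : ZMod k) + (m : ZMod k) = 0 := by
      rw [← Nat.cast_add, h2, Nat.cast_mul, ZMod.natCast_self, zero_mul]
    exact neg_eq_of_add_eq_zero_right h4
  rw [h1] at he
  rw [← he]
  have h5 := lam_dvd p k hk (X ^ (n - m + (k - 1) * n) * (toPoly μ * toPoly x - toPoly (tw p μ x)))
    (Dvd.dvd.mul_left (toPoly_tw p k μ x) _)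
  rw [mul_sub, lam_sub] at h5
  have h6 : (X : ℤ[X]) ^ (n - m) * (toPoly μ * (X ^ ((k - 1) * n) * toPoly x)) =
      X ^ (n - m + (k - 1) * n) * (toPoly μ * toPoly x) := by
    rw [pow_add]; ring
  rw [h6]
  linarith

private theorem E4b_lam_neg (p k : ℕ) (f : ℤ[X]) : lam p k (-f) = - lam p k f := by
  have h := lam_C_mul p k (-1) f
  have h1 : (C (-1) : ℤ[X]) * f = -f := by
    rw [C_neg, C_1]; ring
  rw [h1] at h
  rw [h]
  ring

private theorem E4b_dvd (p h e : ℕ) (hc : Nat.Coprime p h) (y : ℤ) :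
    (h : ℤ) ∣ (p : ℤ) ^ e * y ↔ (h : ℤ) ∣ y := by
  constructor
  · intro h1
    have h2 : IsCoprime (h : ℤ) ((p : ℤ) ^ e) := by
      have h3 : IsCoprime (p : ℤ) (h : ℤ) := Nat.isCoprime_iff_coprime.mpr hc
      exact (h3.pow_left).symm
    exact h2.dvd_of_dvd_mul_left h1
  · intro h1
    exact Dvd.dvd.mul_left h1 _

/-- the averaged gain at one class -/
private noncomputable def E4b_psi (p h : ℕ) {k : ℕ} [NeZero k] (μ x w : ZMod k → ℤ)
    (u : ZMod k) : ℝ :=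
  (if (h : ℤ) ∣ tw p μ x u then 2 * (if tw p μ w u < 0 then 1 else 0) else 1) -
    2 * (if w u < 0 then 1 else 0)

private theorem E4b_psi_abs (p h : ℕ) {k : ℕ} [NeZero k] (μ x w : ZMod k → ℤ)
    (u : ZMod k) : |E4b_psi p h μ x w u| ≤ 2 := by
  unfold E4b_psi
  split_ifs <;> norm_num

private theorem E4b_sign (z : ℤ) (hz : z ≠ 0) :
    (2 : ℝ) * (if z < 0 then 1 else 0) = 1 - (Int.sign z : ℝ) := by
  rcases lt_or_gt_of_ne hz with h | h
  · rw [if_pos h, Int.sign_eq_neg_one_of_neg h]; norm_num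
  · rw [if_neg (by omega), Int.sign_eq_one_of_pos h]; norm_num

private theorem E4b_psi_sum (p h : ℕ) {k : ℕ} [NeZero k] (μ x w : ZMod k → ℤ)
    (hv : HasValue p h μ x w) : (k : ℝ) ≤ ∑ u, E4b_psi p h μ x w u := by
  obtain ⟨h1, h2, h3⟩ := hv
  have h4 : ∀ u, E4b_psi p h μ x w u = (Int.sign (w u) : ℝ) -
      (if u ∈ zr p h μ x then (Int.sign (tw p μ w u) : ℝ) else 0) := by
    intro u
    unfold E4b_psi
    rw [E4b_sign _ (h1 u)]
    by_cases hu : (h : ℤ) ∣ tw p μ x u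
    · have hu' : u ∈ zr p h μ x := by
        unfold zr
        exact mem_filter.mpr ⟨mem_univ _, hu⟩
      rw [if_pos hu, if_pos hu', E4b_sign _ (h2 u hu')]
      ring
    · have hu' : u ∉ zr p h μ x := by
        unfold zr
        intro hc
        exact hu (mem_filter.mp hc).2
      rw [if_neg hu, if_neg hu']
      ring
  rw [Finset.sum_congr rfl fun u _ => h4 u, Finset.sum_sub_distrib, Finset.sum_ite_mem,
    Finset.univ_inter]
  have h5 : ((k : ℤ) : ℝ) ≤ ((∑ i, Int.sign (w i) - ∑ u ∈ zr p h μ x, Int.sign (tw p μ w u) : ℤ) :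
      ℝ) := by
    exact_mod_cast h3
  push_cast at h5
  exact h5

/-- the two contributions at one index -/
private theorem E4b_ph (p n h k : ℕ) [NeZero k] (hh : 0 < h) (hc : Nat.Coprime p h)
    (μ x w : ZMod k → ℤ) (m : ℕ) (hm : m ≤ n) :
    ph p n h μ w (X ^ ((k - 1) * n) * toPoly x) m +
      ph p n h μ w (-(X ^ ((k - 1) * n) * toPoly x)) m -
      2 * (if w (m : ZMod k) < 0 then 1 else 0) = E4b_psi p h μ x w (m : ZMod k) := by
  obtain ⟨e, he⟩ := E4b_lam p k μ x n m hm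
  have h1 : X ^ (n - m) * (toPoly μ * (-(X ^ ((k - 1) * n) * toPoly x))) =
      -(X ^ (n - m) * (toPoly μ * (X ^ ((k - 1) * n) * toPoly x))) := by ring
  unfold ph E4b_psi
  rw [h1, E4b_lam_neg, he]
  congr 1
  by_cases hd : (h : ℤ) ∣ tw p μ x (m : ZMod k)
  · have hd1 : (h : ℤ) ∣ (p : ℤ) ^ e * tw p μ x (m : ZMod k) := (E4b_dvd p h e hc _).mpr hd
    rw [if_pos hd, if_pos hd1, if_pos ((dvd_neg).mpr hd1)]
    ring
  · have hd1 : ¬ (h : ℤ) ∣ (p : ℤ) ^ e * tw p μ x (m : ZMod k) := fun hcon =>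
      hd ((E4b_dvd p h e hc _).mp hcon)
    rw [if_neg hd, if_neg hd1, if_neg (fun hcon => hd1 ((dvd_neg).mp hcon))]
    set l : ℤ := (p : ℤ) ^ e * tw p μ x (m : ZMod k) with hl
    have hh' : (h : ℝ) ≠ 0 := by exact_mod_cast hh.ne'
    have h2 : Int.fract ((l : ℝ) / h) ≠ 0 := by
      intro hcon
      apply hd1
      rw [Int.fract_eq_iff] at hcon
      obtain ⟨-, -, z, hz⟩ := hcon
      rw [sub_zero, div_eq_iff hh'] at hz
      refine ⟨z, ?_⟩
      have : (l : ℝ) = ((h * z : ℤ) : ℝ) := by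
        rw [hz]; push_cast; ring
      exact_mod_cast this
    have h3 : ((-l : ℤ) : ℝ) / h = -((l : ℝ) / h) := by push_cast; ring
    rw [h3, Int.fract_neg h2]
    ring

theorem realise (k : ℕ) [NeZero k] (h B B1 : ℕ) (hh : 0 < h) : ∃ (C2 : ℝ) (N1 : ℕ),
    ∀ p : ℕ, 2 ≤ p → Nat.Coprime p h → ∀ n κ : ℕ, N1 ≤ n → 1 ≤ n → Nat.Coprime k n →
    (n : ℤ) ∣ (k : ℤ) * κ - 1 → ∀ μ x w : ZMod k → ℤ, (∀ t, |μ t| ≤ (p : ℤ) ^ B) →
    (∀ i, |w i| ≤ (p : ℤ) ^ B1) → HasValue p h μ x w →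
    ∀ (d : ℤ) (r : ℕ), NN p n ∣ h * d - (p : ℤ) ^ r * (toPoly μ).eval ((p : ℤ) ^ κ) →
      Gain p n d ((n : ℝ) / 2 - C2) := by
  obtain ⟨C2, N1, hmain⟩ := realise_half k h B B1 hh
  refine ⟨2 * k + 2 * C2, max N1 (⌈4 * (k : ℝ) + 4 * C2⌉₊ + 1), ?_⟩
  intro p hp hc n κ hN hn hkn hκ μ x w hμ hw hv d r hd
  have hN1 : N1 ≤ n := le_trans (le_max_left _ _) hN
  have hN2 : 4 * (k : ℝ) + 4 * C2 < n := by
    have h1 : ⌈4 * (k : ℝ) + 4 * C2⌉₊ + 1 ≤ n := le_trans (le_max_right _ _) hN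
    have h2 : 4 * (k : ℝ) + 4 * C2 ≤ (⌈4 * (k : ℝ) + 4 * C2⌉₊ : ℝ) := Nat.le_ceil _
    have h3 : ((⌈4 * (k : ℝ) + 4 * C2⌉₊ + 1 : ℕ) : ℝ) ≤ n := by exact_mod_cast h1
    push_cast at h3
    linarith
  have hk : 0 < k := Nat.pos_of_ne_zero (NeZero.ne k)
  have hkR : (0 : ℝ) < k := by exact_mod_cast hk
  have key : ∀ x0 : ℤ[X], (∀ m ∈ Icc 1 n, (h : ℤ) ∣ lam p k (X ^ (n - m) * (toPoly μ * x0)) →
      (h : ℤ) ∣ tw p μ x (m : ZMod k)) → ∃ a : ℤ,
      W p n a ≤ ((Icc 1 n).filter (fun m : ℕ => w (m : ZMod k) < 0)).card + C2 ∧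
        ∑ m ∈ Icc 1 n, ph p n h μ w x0 m - C2 ≤ W p n (d * a) := by
    intro x0 hx0
    refine hmain p hp n κ hN1 hn hkn hκ μ w hμ hw hv.1 x0 ?_ d r hd
    intro m hm hdv
    apply hv.2.1
    unfold zr
    exact mem_filter.mpr ⟨mem_univ _, hx0 m hm hdv⟩
  obtain ⟨a1, ha1, hb1⟩ := key (X ^ ((k - 1) * n) * toPoly x) (by
    intro m hm hdv
    obtain ⟨e, he⟩ := E4b_lam p k μ x n m (mem_Icc.mp hm).2
    rw [he] at hdv
    exact (E4b_dvd p h e hc _).mp hdv)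
  obtain ⟨a2, ha2, hb2⟩ := key (-(X ^ ((k - 1) * n) * toPoly x)) (by
    intro m hm hdv
    obtain ⟨e, he⟩ := E4b_lam p k μ x n m (mem_Icc.mp hm).2
    have h1 : X ^ (n - m) * (toPoly μ * (-(X ^ ((k - 1) * n) * toPoly x))) =
        -(X ^ (n - m) * (toPoly μ * (X ^ ((k - 1) * n) * toPoly x))) := by ring
    rw [h1, E4b_lam_neg, he] at hdv
    exact (E4b_dvd p h e hc _).mp ((dvd_neg).mp hdv))
  have hcard : (((Icc 1 n).filter (fun m : ℕ => w (m : ZMod k) < 0)).card : ℝ) =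
      ∑ m ∈ Icc 1 n, (if w (m : ZMod k) < 0 then (1 : ℝ) else 0) := by
    rw [Finset.sum_boole]
  have hsum : ∑ m ∈ Icc 1 n, ph p n h μ w (X ^ ((k - 1) * n) * toPoly x) m +
      ∑ m ∈ Icc 1 n, ph p n h μ w (-(X ^ ((k - 1) * n) * toPoly x)) m -
      2 * (((Icc 1 n).filter (fun m : ℕ => w (m : ZMod k) < 0)).card : ℝ) =
      ∑ m ∈ Icc 1 n, E4b_psi p h μ x w (m : ZMod k) := by
    rw [hcard, Finset.mul_sum, ← Finset.sum_add_distrib, ← Finset.sum_sub_distrib]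
    exact Finset.sum_congr rfl fun m hm => E4b_ph p n h k hh hc μ x w m (mem_Icc.mp hm).2
  have hper := sum_periodic k n (E4b_psi p h μ x w) (E4b_psi_abs p h μ x w)
  have hpsi := E4b_psi_sum p h μ x w hv
  have hlow : (n : ℝ) ≤ (n : ℝ) / k * ∑ u, E4b_psi p h μ x w u := by
    have h1 : (n : ℝ) / k * k ≤ (n : ℝ) / k * ∑ u, E4b_psi p h μ x w u :=
      mul_le_mul_of_nonneg_left hpsi (by positivity)
    have h2 : (n : ℝ) / k * k = n := by field_simp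
    linarith
  have hper' := (abs_le.mp hper).1
  have htot : (n : ℝ) - 4 * k - 4 * C2 ≤
      (W p n (d * a1) - W p n a1) + (W p n (d * a2) - W p n a2) := by
    linarith
  have hfin : ∀ a : ℤ, (n : ℝ) / 2 - (2 * k + 2 * C2) ≤ W p n (d * a) - W p n a →
      Gain p n d ((n : ℝ) / 2 - (2 * k + 2 * C2)) := by
    intro a ha
    refine ⟨a, ?_, ha⟩
    intro hdv
    rw [E4b_W_zero p n hp hn a hdv, E4b_W_zero p n hp hn (d * a) (Dvd.dvd.mul_left hdv _)] at ha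
    linarith
  by_cases hcase : (n : ℝ) / 2 - (2 * k + 2 * C2) ≤ W p n (d * a1) - W p n a1
  · exact hfin a1 hcase
  · refine hfin a2 ?_
    push Not at hcase
    linarith

end Pool.Agent.Helper21.FC
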