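import Pool.Agent.Helper21.FC.A1

/-!
MP_0aa406_nt, project FC (helper21): the case `g d ≡ g p ^ r`.
-/

set_option autoImplicit false

namespace Pool.Agent.Helper21.FC

open Finset

/-- the elementary inequality behind the case -/
private theorem F1_ineq {G : ℕ} (hG : 2 ≤ G) {y f : ℝ} (hy : 0 ≤ y) (hf1 : 1 / (G : ℝ) ≤ f)
    (hf2 : f ≤ 1 - 1 / (G : ℝ)) :
    1 - (G : ℝ) ^ 2 * y ≤ Int.fract (y + f) + Int.fract (((G : ℝ) - 1) * y - f) := by
  have hG' : (2 : ℝ) ≤ G := by exact_mod_cast hG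
  have hG0 : (0 : ℝ) < G := by linarith
  have hGi : 0 < 1 / (G : ℝ) := by positivity
  rcases le_or_gt 1 ((G : ℝ) ^ 2 * y) with h | h
  · have h1 := Int.fract_nonneg (y + f)
    have h2 := Int.fract_nonneg (((G : ℝ) - 1) * y - f)
    linarith
  · have h3 : (G : ℝ) * y < 1 / G := by
      rw [lt_div_iff₀ hG0]
      nlinarith
    have h4 : y ≤ (G : ℝ) * y := by nlinarith
    have h5 : 0 ≤ ((G : ℝ) - 1) * y := mul_nonneg (by linarith) hy
    have h6 : ((G : ℝ) - 1) * y ≤ (G : ℝ) * y := by nlinarith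
    have e1 : Int.fract (y + f) = y + f := by
      rw [Int.fract_eq_self]
      constructor <;> linarith
    have e2 : Int.fract (((G : ℝ) - 1) * y - f) = ((G : ℝ) - 1) * y - f + 1 := by
      rw [Int.fract_eq_iff]
      refine ⟨by linarith, by linarith, -1, ?_⟩
      push_cast
      ring
    rw [e1, e2]
    have h7 : 0 ≤ (G : ℝ) ^ 2 * y := by positivity
    nlinarith

theorem case_one (g : ℕ) (hg : 0 < g) : ∃ C2 : ℝ, ∀ p n : ℕ, 2 ≤ p → 1 ≤ n → ∀ (d : ℤ) (r : ℕ),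
    (∀ j : ℕ, ¬ NN p n ∣ d - (p : ℤ) ^ j) → NN p n ∣ g * d - g * (p : ℤ) ^ r →
    Gain p n d ((n : ℝ) / 2 - C2) := by
  refine ⟨(g : ℝ) ^ 2 + g, fun p n hp hn d r hd hgd => ?_⟩
  have hNr := A1_pos hp hn
  have hNc : ((NN p n : ℤ) : ℝ) = (p : ℝ) ^ n - 1 := by
    unfold NN
    push_cast
    rfl
  have hN0 : 0 < NN p n := by
    have h : (0 : ℝ) < ((NN p n : ℤ) : ℝ) := by rw [hNc]; exact hNr
    exact_mod_cast h
  -- the gcd
  obtain ⟨G, hG⟩ : ∃ G : ℕ, G = Int.gcd (g : ℤ) (NN p n) := ⟨_, rfl⟩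
  have hGg : G ∣ g := by
    rw [hG]
    exact_mod_cast Int.gcd_dvd_left (g : ℤ) (NN p n)
  have hGN : (G : ℤ) ∣ NN p n := by
    rw [hG]
    exact Int.gcd_dvd_right (g : ℤ) (NN p n)
  have hGle : G ≤ g := Nat.le_of_dvd hg hGg
  have hGpos : 0 < G := Nat.pos_of_dvd_of_pos hGg hg
  have hGz : (G : ℤ) ≠ 0 := by exact_mod_cast hGpos.ne'
  have hbez : (G : ℤ) = g * Int.gcdA g (NN p n) + NN p n * Int.gcdB g (NN p n) := by
    rw [hG]
    exact Int.gcd_eq_gcd_ab _ _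
  obtain ⟨M, hM⟩ := hGN
  have hMd : M ∣ d - (p : ℤ) ^ r := by
    have h1 : NN p n ∣ (G : ℤ) * (d - (p : ℤ) ^ r) := by
      have h2 : (G : ℤ) * (d - (p : ℤ) ^ r) =
          Int.gcdA g (NN p n) * (g * d - g * (p : ℤ) ^ r) +
            NN p n * (Int.gcdB g (NN p n) * (d - (p : ℤ) ^ r)) := by
        conv_lhs => rw [hbez]
        ring
      rw [h2]
      exact dvd_add (Dvd.dvd.mul_left hgd _) (dvd_mul_right _ _)
    rw [hM] at h1
    exact (mul_dvd_mul_iff_left hGz).1 h1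
  obtain ⟨i, hi⟩ := hMd
  have hGi : ¬ (G : ℤ) ∣ i := by
    rintro ⟨j, rfl⟩
    apply hd r
    rw [hi, hM]
    exact ⟨j, by ring⟩
  have hG2 : 2 ≤ G := by
    by_contra h
    have h1 : G = 1 := by omega
    apply hGi
    rw [h1]
    exact ⟨i, by push_cast; ring⟩
  have hGr : (2 : ℝ) ≤ G := by exact_mod_cast hG2
  have hGr0 : (G : ℝ) ≠ 0 := by linarith
  -- powers of `p` are prime to `G`
  have hcop : ∀ x : ℕ, ¬ (G : ℤ) ∣ (p : ℤ) ^ x * i := by
    intro x h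
    apply hGi
    have h2 : IsCoprime (G : ℤ) ((p : ℤ) ^ x) := by
      apply IsCoprime.pow_right
      refine ⟨-M, (p : ℤ) ^ (n - 1), ?_⟩
      have h3 : (p : ℤ) ^ n = (p : ℤ) ^ (n - 1) * p := by
        rw [← pow_succ, Nat.sub_add_cancel hn]
      have h4 : (G : ℤ) * M = (p : ℤ) ^ n - 1 := by
        rw [← hM]
        rfl
      rw [← h3]
      linarith
    exact h2.dvd_of_dvd_mul_left h
  -- the fractional parts of `p ^ x i / G`
  have hf : ∀ x : ℕ, 1 / (G : ℝ) ≤ Int.fract ((((p : ℤ) ^ x * i : ℤ) : ℝ) / (G : ℝ)) ∧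
      Int.fract ((((p : ℤ) ^ x * i : ℤ) : ℝ) / (G : ℝ)) ≤ 1 - 1 / (G : ℝ) := by
    intro x
    have h1 := Int.emod_nonneg ((p : ℤ) ^ x * i) hGz
    have h2 := Int.emod_lt_of_pos ((p : ℤ) ^ x * i) (by exact_mod_cast hGpos : (0 : ℤ) < G)
    have h3 : ((p : ℤ) ^ x * i) % G ≠ 0 := fun h => hcop x (Int.dvd_of_emod_eq_zero h)
    rw [Int.fract_div_intCast_eq_div_intCast_mod]
    have hG0 : (0 : ℝ) < G := by linarith
    constructor
    · apply div_le_div_of_nonneg_right _ hG0.le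
      have : (1 : ℤ) ≤ ((p : ℤ) ^ x * i) % G := by omega
      exact_mod_cast this
    · rw [div_le_iff₀ hG0]
      have h4 : ((p : ℤ) ^ x * i) % G ≤ G - 1 := by omega
      have h5 : ((((p : ℤ) ^ x * i) % G : ℤ) : ℝ) ≤ (G : ℝ) - 1 := by exact_mod_cast h4
      have h6 : (1 - 1 / (G : ℝ)) * G = G - 1 := by field_simp
      rw [h6]
      exact h5
  have hdr : (d : ℝ) = (p : ℝ) ^ r + (M : ℝ) * i := by
    have : d = (p : ℤ) ^ r + M * i := by linarith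
    rw [this]
    push_cast
    rfl
  have hMr : ((p : ℝ) ^ n - 1) = (G : ℝ) * M := by
    rw [← hNc, hM]
    push_cast
    rfl
  have hM0 : (M : ℝ) ≠ 0 := by
    intro h
    rw [h, mul_zero] at hMr
    exact hNr.ne' hMr
  -- the pointwise inequality
  have hpt : ∀ x ∈ range n,
      1 - (G : ℝ) ^ 2 * Int.fract ((p : ℝ) ^ x * (((p : ℤ) ^ r * 1 : ℤ) : ℝ) / ((p : ℝ) ^ n - 1)) ≤
        Int.fract ((p : ℝ) ^ x * ((d * 1 : ℤ) : ℝ) / ((p : ℝ) ^ n - 1)) +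
        Int.fract ((p : ℝ) ^ x * ((d * ((G : ℤ) - 1) : ℤ) : ℝ) / ((p : ℝ) ^ n - 1)) := by
    intro x _
    obtain ⟨h1, h2⟩ := hf x
    obtain ⟨Y, hY⟩ : ∃ Y : ℝ, Y = (p : ℝ) ^ x * (((p : ℤ) ^ r * 1 : ℤ) : ℝ) / ((p : ℝ) ^ n - 1) :=
      ⟨_, rfl⟩
    obtain ⟨F, hF⟩ : ∃ F : ℝ, F = (((p : ℤ) ^ x * i : ℤ) : ℝ) / (G : ℝ) := ⟨_, rfl⟩
    rw [← hY]
    rw [← hF] at h1 h2
    have h3 := F1_ineq hG2 (Int.fract_nonneg Y) h1 h2
    have e1 : Int.fract ((p : ℝ) ^ x * ((d * 1 : ℤ) : ℝ) / ((p : ℝ) ^ n - 1)) =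
        Int.fract (Int.fract Y + Int.fract F) := by
      have h4 : (p : ℝ) ^ x * ((d * 1 : ℤ) : ℝ) / ((p : ℝ) ^ n - 1) =
          Int.fract Y + Int.fract F + ((⌊Y⌋ + ⌊F⌋ : ℤ) : ℝ) := by
        have h5 : (p : ℝ) ^ x * ((d * 1 : ℤ) : ℝ) / ((p : ℝ) ^ n - 1) = Y + F := by
          rw [hY, hF, hMr]
          push_cast
          rw [hdr]
          field_simp
        rw [h5]
        push_cast
        unfold Int.fract
        ring
      rw [h4, Int.fract_add_intCast]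
    have e2 : Int.fract ((p : ℝ) ^ x * ((d * ((G : ℤ) - 1) : ℤ) : ℝ) / ((p : ℝ) ^ n - 1)) =
        Int.fract (((G : ℝ) - 1) * Int.fract Y - Int.fract F) := by
      have h4 : (p : ℝ) ^ x * ((d * ((G : ℤ) - 1) : ℤ) : ℝ) / ((p : ℝ) ^ n - 1) =
          ((G : ℝ) - 1) * Int.fract Y - Int.fract F +
            ((((G : ℤ) - 1) * ⌊Y⌋ - ⌊F⌋ + (p : ℤ) ^ x * i : ℤ) : ℝ) := by
        have h5 : (p : ℝ) ^ x * ((d * ((G : ℤ) - 1) : ℤ) : ℝ) / ((p : ℝ) ^ n - 1) =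
            ((G : ℝ) - 1) * Y - F + (((p : ℤ) ^ x * i : ℤ) : ℝ) := by
          rw [hY, hF, hMr]
          push_cast
          rw [hdr]
          field_simp
          ring
        rw [h5]
        push_cast
        unfold Int.fract
        ring
      rw [h4, Int.fract_add_intCast]
    rw [e1, e2]
    exact h3
  have hsum := Finset.sum_le_sum hpt
  rw [Finset.sum_add_distrib, Finset.sum_sub_distrib, ← Finset.mul_sum] at hsum
  simp only [Finset.sum_const, Finset.card_range, nsmul_eq_mul, mul_one] at hsum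
  have hW1 : W p n 1 ≤ 1 := by
    have h1 := W_le_self hp hn 1
    push_cast at h1
    refine h1.trans ?_
    have : (2 : ℝ) ≤ p := by exact_mod_cast hp
    rw [div_le_one (by linarith)]
    linarith
  have hWG : W p n ((G : ℤ) - 1) ≤ G := by
    have h1 := W_le_self hp hn (G - 1)
    have h2 : ((G - 1 : ℕ) : ℤ) = (G : ℤ) - 1 := by
      rw [Nat.cast_sub (by omega)]
      rfl
    have h3 : ((G - 1 : ℕ) : ℝ) = (G : ℝ) - 1 := by
      rw [Nat.cast_sub (by omega)]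
      simp
    rw [h2, h3] at h1
    refine h1.trans ?_
    have : (2 : ℝ) ≤ p := by exact_mod_cast hp
    rw [div_le_iff₀ (by linarith)]
    nlinarith
  have hWr : W p n ((p : ℤ) ^ r) ≤ 1 := by
    have := W_pow_mul hp hn r 1
    rw [mul_one] at this
    rw [this]
    exact hW1
  have hkey : (n : ℝ) - (G : ℝ) ^ 2 * W p n ((p : ℤ) ^ r) ≤ W p n (d * 1) +
      W p n (d * ((G : ℤ) - 1)) := by
    rw [mul_one]
    exact hsum
  have hGgr : (G : ℝ) ≤ g := by exact_mod_cast hGle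
  have hGsq : (G : ℝ) ^ 2 ≤ (g : ℝ) ^ 2 := by
    apply pow_le_pow_left₀ (by linarith) hGgr
  have h1 : (G : ℝ) ^ 2 * W p n ((p : ℤ) ^ r) ≤ (g : ℝ) ^ 2 := by
    have h2 : (G : ℝ) ^ 2 * W p n ((p : ℤ) ^ r) ≤ (G : ℝ) ^ 2 * 1 :=
      mul_le_mul_of_nonneg_left hWr (by positivity)
    linarith
  have hGNle : (G : ℤ) ≤ NN p n := Int.le_of_dvd hN0 ⟨M, hM⟩
  have hG2z : (2 : ℤ) ≤ G := by exact_mod_cast hG2
  rcases le_total ((n : ℝ) / 2 - ((g : ℝ) ^ 2 + g)) (W p n (d * 1) - W p n 1) with h | h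
  · refine ⟨1, ?_, h⟩
    intro h2
    have := Int.le_of_dvd one_pos h2
    linarith
  · refine ⟨(G : ℤ) - 1, ?_, ?_⟩
    · intro h2
      have := Int.le_of_dvd (by linarith) h2
      linarith
    · have h3 : (1 : ℝ) ≤ g := by exact_mod_cast hg
      have h4 : (0 : ℝ) ≤ (g : ℝ) ^ 2 := by positivity
      linarith

end Pool.Agent.Helper21.FC
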