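import Pool.Agent.Helper21.FC.D9
import Pool.Agent.Helper21.FC.E4b
import Pool.Agent.Helper21.FC.F1
import Pool.Agent.Helper21.FC.P1

/-!
MP_0aa406_nt, project FC (helper21): one class of positions, normalised.
-/

set_option autoImplicit false

namespace Pool.Agent.Helper21.FC

open Finset Polynomial

/-- value `g` at `ρ` means that the polynomial is the constant `g` -/
theorem F2a_const (k : ℕ) [NeZero k] (p : ℕ) (hp : p.Prime) (g : ℕ) (μ : ZMod k → ℤ)
    (h : rev p μ = g) : toPoly μ = C (g : ℤ) := by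
  have h1 : (fun t => μ t - (if t = (0 : ZMod k) then (g : ℤ) else 0)) = 0 := by
    apply rev_eq_zero p k hp
    have h2 : rev p (fun t => μ t - (if t = (0 : ZMod k) then (g : ℤ) else 0)) =
        rev p μ - ∑ t : ZMod k, (if t = (0 : ZMod k) then (g : ℝ) else 0) *
          ((p : ℝ) ^ ((1 : ℝ) / k)) ^ t.val := by
      unfold rev
      rw [← Finset.sum_sub_distrib]
      refine Finset.sum_congr rfl fun t _ => ?_
      push_cast
      ring
    rw [h2, Finset.sum_eq_single (0 : ZMod k)]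
    · rw [if_pos rfl, ZMod.val_zero, pow_zero, mul_one, h, sub_self]
    · intro b _ hb
      rw [if_neg hb, zero_mul]
    · intro h3
      exact absurd (Finset.mem_univ _) h3
  have h3 : ∀ t, μ t = if t = (0 : ZMod k) then (g : ℤ) else 0 := by
    intro t
    have h4 := congrFun h1 t
    have h5 : μ t - (if t = (0 : ZMod k) then (g : ℤ) else 0) = 0 := h4
    linarith
  unfold toPoly
  rw [Finset.sum_eq_single (0 : ZMod k)]
  · rw [h3 0, if_pos rfl, ZMod.val_zero, pow_zero, mul_one]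
  · intro b _ hb
    rw [h3 b, if_neg hb, C_0, zero_mul]
  · intro h4
    exact absurd (Finset.mem_univ _) h4

/-- `g d ≡ p ^ r μ(P)`, `g' d' ≡ p ^ r' μ'(P)`, `d d' ≡ 1`, `μ μ' = g g'` -/
theorem one_class (k : ℕ) [NeZero k] (g g' B : ℕ) (hg : 0 < g) (hg' : 0 < g') :
    ∃ (C2 : ℝ) (N1 : ℕ), ∀ p : ℕ, p.Prime → Nat.Coprime p g → Nat.Coprime p g' →
    ∀ n κ : ℕ, N1 ≤ n → 1 ≤ n → Nat.Coprime k n → (n : ℤ) ∣ (k : ℤ) * κ - 1 →
    ∀ μ μ' : ZMod k → ℤ, (∀ t, |μ t| ≤ (p : ℤ) ^ B) → (∀ t, |μ' t| ≤ (p : ℤ) ^ B) →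
    ((X : ℤ[X]) ^ k - C (p : ℤ)) ∣ toPoly μ * toPoly μ' - C ((g * g' : ℕ) : ℤ) →
    ∀ (d d' : ℤ) (r r' : ℕ), NN p n ∣ d * d' - 1 → (∀ j : ℕ, ¬ NN p n ∣ d - (p : ℤ) ^ j) →
    NN p n ∣ g * d - (p : ℤ) ^ r * (toPoly μ).eval ((p : ℤ) ^ κ) →
    NN p n ∣ g' * d' - (p : ℤ) ^ r' * (toPoly μ').eval ((p : ℤ) ^ κ) →
      Gain p n d ((n : ℝ) / 2 - C2) := by
  obtain ⟨B1, hB1⟩ := local_thm k g B hg
  obtain ⟨B1', hB1'⟩ := local_thm k g' B hg'
  obtain ⟨Ca, Na, ha⟩ := realise k g B B1 hg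
  obtain ⟨Cb, Nb, hb⟩ := realise k g' B B1' hg'
  obtain ⟨Cc, hc⟩ := case_one g hg
  refine ⟨max Ca (max Cb Cc), max Na Nb, ?_⟩
  intro p hp hpg hpg' n κ hN hn hkn hκ μ μ' hμ hμ' hprod d d' r r' hdd hd hgd hgd'
  have hp2 : 2 ≤ p := hp.two_le
  have hNa : Na ≤ n := (le_max_left _ _).trans hN
  have hNb : Nb ≤ n := (le_max_right _ _).trans hN
  have hca : (n : ℝ) / 2 - max Ca (max Cb Cc) ≤ (n : ℝ) / 2 - Ca := by
    have := le_max_left Ca (max Cb Cc)
    linarith
  have hcb : (n : ℝ) / 2 - max Ca (max Cb Cc) ≤ (n : ℝ) / 2 - Cb := by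
    have := (le_max_left Cb Cc).trans (le_max_right Ca (max Cb Cc))
    linarith
  have hcc : (n : ℝ) / 2 - max Ca (max Cb Cc) ≤ (n : ℝ) / 2 - Cc := by
    have := (le_max_right Cb Cc).trans (le_max_right Ca (max Cb Cc))
    linarith
  -- the two ways to use the local theorem
  have useA : (0 < rev p μ ∧ rev p μ < g ∨ rev p μ ≤ -g) →
      Gain p n d ((n : ℝ) / 2 - max Ca (max Cb Cc)) := by
    intro h
    obtain ⟨x, w, hw, hv⟩ := hB1 p hp2 hpg μ hμ h
    exact gain_mono hca (ha p hp2 hpg n κ hNa hn hkn hκ μ x w hμ hw hv d r hgd)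
  have useB : (0 < rev p μ' ∧ rev p μ' < g' ∨ rev p μ' ≤ -g') →
      Gain p n d ((n : ℝ) / 2 - max Ca (max Cb Cc)) := by
    intro h
    obtain ⟨x, w, hw, hv⟩ := hB1' p hp2 hpg' μ' hμ' h
    exact gain_inv hp2 hn hdd
      (gain_mono hcb (hb p hp2 hpg' n κ hNb hn hkn hκ μ' x w hμ' hw hv d' r' hgd'))
  have hprodR : rev p μ * rev p μ' = (g : ℝ) * g' := by
    have h1 := rev_mul p k μ μ' _ hprod
    rw [h1]
    push_cast
    ring
  have hgR : (0 : ℝ) < g := by exact_mod_cast hg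
  have hgR' : (0 : ℝ) < g' := by exact_mod_cast hg'
  have hpos : 0 < rev p μ * rev p μ' := by
    rw [hprodR]
    positivity
  rcases lt_trichotomy (rev p μ) 0 with hneg | hzero | hpos1
  · have hneg' : rev p μ' < 0 := by
      by_contra hcon
      push Not at hcon
      have := mul_nonpos_of_nonpos_of_nonneg hneg.le hcon
      linarith
    rcases le_or_gt (rev p μ) (-g) with h1 | h1
    · exact useA (Or.inr h1)
    · apply useB
      right
      by_contra hcon
      push Not at hcon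
      have h2 : (-rev p μ) * (-rev p μ') < (g : ℝ) * g' :=
        mul_lt_mul'' (by linarith) (by linarith) (by linarith) (by linarith)
      rw [neg_mul_neg] at h2
      linarith
  · rw [hzero, zero_mul] at hpos
    exact absurd hpos (lt_irrefl _)
  · have hpos2 : 0 < rev p μ' := by
      by_contra hcon
      push Not at hcon
      have := mul_nonpos_of_nonneg_of_nonpos hpos1.le hcon
      linarith
    rcases lt_trichotomy (rev p μ) g with h1 | h1 | h1
    · exact useA (Or.inl ⟨hpos1, h1⟩)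
    · have h2 := F2a_const k p hp g μ h1
      rw [h2, eval_C] at hgd
      apply gain_mono hcc
      apply hc p n hp2 hn d r hd
      rwa [mul_comm ((p : ℤ) ^ r) (g : ℤ)] at hgd
    · apply useB
      left
      refine ⟨hpos2, ?_⟩
      by_contra hcon
      push Not at hcon
      have h2 : (g : ℝ) * g' < rev p μ * rev p μ' :=
        mul_lt_mul h1 hcon hgR' hpos1.le
      linarith

end Pool.Agent.Helper21.FC
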