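import Pool.Agent.Helper21.FC.P1

/-!
MP_0aa406_nt, project FC (helper21): normal form of the relation `X ^ t1 M M' = h h' X ^ t2`.
-/

set_option autoImplicit false

namespace Pool.Agent.Helper21.FC

open Finset Polynomial

/-- division by `X` -/
private def P2_shift (p : ℕ) {k : ℕ} (v : ZMod k → ℤ) (c : ZMod k) : ℤ :=
  if c + 1 = 0 then v 0 / p else v (c + 1)

private theorem P2_val {k : ℕ} [NeZero k] (c : ZMod k) (hc : c ≠ 0) :
    (c - 1).val + 1 = c.val := by
  have hk : 0 < k := Nat.pos_of_ne_zero (NeZero.ne k)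
  have h1 : 1 ≤ c.val := by
    rw [Nat.one_le_iff_ne_zero]
    intro h
    exact hc ((ZMod.val_eq_zero c).mp h)
  have h2 : 1 < k := lt_of_le_of_lt h1 c.val_lt
  have h3 : (1 : ZMod k).val = 1 := by
    haveI : Fact (1 < k) := ⟨h2⟩
    exact ZMod.val_one k
  rw [ZMod.val_sub (by rw [h3]; exact h1), h3]
  omega

private theorem P2_val0 {k : ℕ} [NeZero k] : ((0 : ZMod k) - 1).val + 1 = k := by
  obtain ⟨m, rfl⟩ := Nat.exists_eq_succ_of_ne_zero (NeZero.ne k)
  rw [zero_sub, ZMod.val_neg_one]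

private theorem P2_step (p : ℕ) {k : ℕ} [NeZero k] (v : ZMod k → ℤ) (h0 : (p : ℤ) ∣ v 0) :
    ((X : ℤ[X]) ^ k - C (p : ℤ)) ∣ toPoly v - X * toPoly (P2_shift p v) := by
  have h1 : X * toPoly (P2_shift p v) =
      ∑ c : ZMod k, C (P2_shift p v (c - 1)) * (X : ℤ[X]) ^ ((c - 1).val + 1) := by
    unfold toPoly
    rw [Finset.mul_sum]
    rw [← Equiv.sum_comp (Equiv.subRight (1 : ZMod k))
      (fun c => X * (C (P2_shift p v c) * (X : ℤ[X]) ^ c.val))]
    apply Finset.sum_congr rfl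
    intro c _
    simp only [Equiv.subRight_apply]
    ring
  have h2 : toPoly v - X * toPoly (P2_shift p v) =
      ∑ c : ZMod k, (C (v c) * (X : ℤ[X]) ^ c.val -
        C (P2_shift p v (c - 1)) * (X : ℤ[X]) ^ ((c - 1).val + 1)) := by
    rw [h1, Finset.sum_sub_distrib]
    rfl
  rw [h2, Finset.sum_eq_single (0 : ZMod k)]
  · rw [P2_val0]
    obtain ⟨w, hw⟩ := h0
    have h3 : P2_shift p v (0 - 1) = v 0 / p := by simp [P2_shift]
    rcases Nat.eq_zero_or_pos p with hp | hp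
    · subst hp
      simp only [Nat.cast_zero, zero_mul] at hw
      rw [h3, hw]
      simp
    · have h4 : v 0 / p = w := by
        rw [hw]
        exact Int.mul_ediv_cancel_left w (by exact_mod_cast hp.ne')
      rw [h3, h4, hw, ZMod.val_zero]
      exact ⟨-C w, by simp only [C_mul]; ring⟩
  · intro c _ hc
    rw [P2_val c hc]
    have h3 : P2_shift p v (c - 1) = v c := by simp [P2_shift, hc]
    rw [h3, sub_self]
  · intro h
    exact absurd (Finset.mem_univ _) h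

private theorem P2_div (p : ℕ) (hp : 2 ≤ p) {k : ℕ} [NeZero k] (B : ℤ) (N : ℕ) :
    ∀ v : ZMod k → ℤ, v ≠ 0 → (∀ t, |v t| ≤ B) →
      ∑ c, (v c).natAbs * (k + c.val) = N →
      ∃ (j : ℕ) (μ : ZMod k → ℤ), ¬ (p : ℤ) ∣ μ 0 ∧ (∀ t, |μ t| ≤ B) ∧
        ((X : ℤ[X]) ^ k - C (p : ℤ)) ∣ toPoly v - X ^ j * toPoly μ := by
  have hk : 0 < k := Nat.pos_of_ne_zero (NeZero.ne k)
  induction N using Nat.strong_induction_on with
  | _ N ih =>
    intro v hv hB hN
    by_cases h0 : (p : ℤ) ∣ v 0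
    · have hdiv : 2 * (v 0 / p).natAbs ≤ (v 0).natAbs := by
        obtain ⟨w, hw⟩ := h0
        have h4 : v 0 / p = w := by
          rw [hw]
          exact Int.mul_ediv_cancel_left w (by exact_mod_cast (by omega : p ≠ 0))
        rw [h4, hw, Int.natAbs_mul, Int.natAbs_natCast]
        exact Nat.mul_le_mul_right _ hp
      have hsum : ∑ c, (P2_shift p v c).natAbs * (k + c.val) =
          ∑ c : ZMod k, (P2_shift p v (c - 1)).natAbs * (k + (c - 1).val) := by
        rw [← Equiv.sum_comp (Equiv.subRight (1 : ZMod k))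
          (fun c => (P2_shift p v c).natAbs * (k + c.val))]
        rfl
      have hz : P2_shift p v (0 - 1) = v 0 / p := by simp [P2_shift]
      have hnz : ∀ c : ZMod k, c ≠ 0 → P2_shift p v (c - 1) = v c := by
        intro c hc
        simp [P2_shift, hc]
      have hlt : ∑ c, (P2_shift p v c).natAbs * (k + c.val) < N := by
        rw [hsum, ← hN]
        have hle : ∀ c : ZMod k, (P2_shift p v (c - 1)).natAbs * (k + (c - 1).val) ≤
            (v c).natAbs * (k + c.val) ∧ (v c ≠ 0 →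
            (P2_shift p v (c - 1)).natAbs * (k + (c - 1).val) < (v c).natAbs * (k + c.val)) := by
          intro c
          by_cases hc : c = 0
          · subst hc
            rw [hz, ZMod.val_zero, add_zero]
            have h5 := P2_val0 (k := k)
            have h6 : k + ((0 : ZMod k) - 1).val + 1 = 2 * k := by omega
            have h7 : k + ((0 : ZMod k) - 1).val = 2 * k - 1 := by omega
            rw [h7]
            constructor
            · calc (v 0 / p).natAbs * (2 * k - 1) ≤ (v 0 / p).natAbs * (2 * k) :=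
                    Nat.mul_le_mul_left _ (by omega)
                _ = 2 * (v 0 / p).natAbs * k := by ring
                _ ≤ (v 0).natAbs * k := Nat.mul_le_mul_right _ hdiv
            · intro hne
              rcases Nat.eq_zero_or_pos (v 0 / p).natAbs with h8 | h8
              · rw [h8, zero_mul]
                exact Nat.mul_pos (Int.natAbs_pos.mpr hne) hk
              · calc (v 0 / p).natAbs * (2 * k - 1) < (v 0 / p).natAbs * (2 * k) :=
                      Nat.mul_lt_mul_of_pos_left (by omega) h8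
                  _ = 2 * (v 0 / p).natAbs * k := by ring
                  _ ≤ (v 0).natAbs * k := Nat.mul_le_mul_right _ hdiv
          · rw [hnz c hc]
            have h5 := P2_val c hc
            constructor
            · exact Nat.mul_le_mul_left _ (by omega)
            · intro hne
              exact Nat.mul_lt_mul_of_pos_left (by omega) (Int.natAbs_pos.mpr hne)
        obtain ⟨c0, hc0⟩ : ∃ c, v c ≠ 0 := by
          by_contra hcon
          push Not at hcon
          exact hv (funext hcon)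
        exact Finset.sum_lt_sum (fun c _ => (hle c).1) ⟨c0, Finset.mem_univ _, (hle c0).2 hc0⟩
      have hB' : ∀ t, |P2_shift p v t| ≤ B := by
        intro t
        unfold P2_shift
        split_ifs
        · refine le_trans ?_ (hB 0)
          have h9 : ((v 0 / p).natAbs : ℤ) ≤ ((v 0).natAbs : ℤ) := by
            exact_mod_cast (by omega : (v 0 / p).natAbs ≤ (v 0).natAbs)
          simpa [Int.natCast_natAbs] using h9
        · exact hB _
      have hv' : P2_shift p v ≠ 0 := by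
        intro h
        apply hv
        have h9 := P2_step p v h0
        rw [h] at h9
        have h10 : toPoly (0 : ZMod k → ℤ) = 0 := by simp [toPoly]
        rw [h10, mul_zero, sub_zero] at h9
        exact toPoly_eq_zero p k v h9
      obtain ⟨j, μ, hμ0, hμB, hμ⟩ := ih _ hlt (P2_shift p v) hv' hB' rfl
      refine ⟨j + 1, μ, hμ0, hμB, ?_⟩
      have h9 := P2_step p v h0
      have h10 : toPoly v - X ^ (j + 1) * toPoly μ = (toPoly v - X * toPoly (P2_shift p v)) +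
          X * (toPoly (P2_shift p v) - X ^ j * toPoly μ) := by ring
      rw [h10]
      exact dvd_add h9 (hμ.mul_left _)
    · exact ⟨0, v, h0, hB, by simp⟩

private theorem P2_ev (p k : ℕ) [NeZero k] (f : ℤ[X]) (h : ((X : ℤ[X]) ^ k - C (p : ℤ)) ∣ f) :
    f.eval₂ (Int.castRingHom ℝ) ((p : ℝ) ^ ((1 : ℝ) / k)) = 0 := by
  obtain ⟨g, rfl⟩ := h
  have hk : (k : ℝ) ≠ 0 := by exact_mod_cast NeZero.ne k
  have h2 : ((p : ℝ) ^ ((1 : ℝ) / k)) ^ k = p := by
    rw [← Real.rpow_natCast, ← Real.rpow_mul (Nat.cast_nonneg p), one_div, inv_mul_cancel₀ hk,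
      Real.rpow_one]
  rw [eval₂_mul, eval₂_sub, eval₂_X_pow, eval₂_C, h2]
  simp

private theorem P2_cancel (p k : ℕ) [NeZero k] (hp : p.Prime) (a : ℕ) (f : ℤ[X])
    (h : ((X : ℤ[X]) ^ k - C (p : ℤ)) ∣ X ^ a * f) : ((X : ℤ[X]) ^ k - C (p : ℤ)) ∣ f := by
  rcases (prime_Xk k (Nat.pos_of_ne_zero (NeZero.ne k)) p hp).dvd_or_dvd h with h1 | h1
  · exfalso
    have h2 := P2_ev p k _ h1
    rw [eval₂_X_pow] at h2
    have h3 : (0 : ℝ) < (p : ℝ) ^ ((1 : ℝ) / k) :=
      Real.rpow_pos_of_pos (by exact_mod_cast hp.pos) _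
    exact (pow_pos h3 a).ne' h2
  · exact h1

private theorem P2_eval0 (p k : ℕ) [NeZero k] (f : ℤ[X])
    (h : ((X : ℤ[X]) ^ k - C (p : ℤ)) ∣ f) : (p : ℤ) ∣ f.eval 0 := by
  obtain ⟨g, rfl⟩ := h
  rw [eval_mul]
  apply Dvd.dvd.mul_right
  simp [NeZero.ne k]

theorem norm_form (k : ℕ) [NeZero k] (D0 B t1 t2 h h' : ℕ) (hh : 0 < h) (hh' : 0 < h') :
    ∃ B' : ℕ, ∀ p : ℕ, p.Prime → ∀ M M' : ℤ[X], M.natDegree ≤ D0 → M'.natDegree ≤ D0 →
      (∀ m, |M.coeff m| ≤ (p : ℤ) ^ B) → (∀ m, |M'.coeff m| ≤ (p : ℤ) ^ B) →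
      ((X : ℤ[X]) ^ k - C (p : ℤ)) ∣ X ^ t1 * M * M' - C ((h * h' : ℕ) : ℤ) * X ^ t2 →
      ∃ (g g' s s' j j' : ℕ) (μ μ' : ZMod k → ℤ), h = p ^ s * g ∧ h' = p ^ s' * g' ∧
        Nat.Coprime p g ∧ Nat.Coprime p g' ∧
        (∀ t, |μ t| ≤ (p : ℤ) ^ B') ∧ (∀ t, |μ' t| ≤ (p : ℤ) ^ B') ∧
        ((X : ℤ[X]) ^ k - C (p : ℤ)) ∣ M - X ^ j * toPoly μ ∧
        ((X : ℤ[X]) ^ k - C (p : ℤ)) ∣ M' - X ^ j' * toPoly μ' ∧
        ((X : ℤ[X]) ^ k - C (p : ℤ)) ∣ toPoly μ * toPoly μ' - C ((g * g' : ℕ) : ℤ) := by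
  obtain ⟨B', hred⟩ := reduce k D0 B
  refine ⟨B', fun p hp M M' hM hM' hMB hMB' hrel => ?_⟩
  obtain ⟨v, hvB, hv⟩ := hred p hp.two_le M hM hMB
  obtain ⟨v', hvB', hv'⟩ := hred p hp.two_le M' hM' hMB'
  have hρ : (0 : ℝ) < (p : ℝ) ^ ((1 : ℝ) / k) :=
    Real.rpow_pos_of_pos (by exact_mod_cast hp.pos) _
  have hnot : ∀ t : ℕ, ¬ ((X : ℤ[X]) ^ k - C (p : ℤ)) ∣ C ((h * h' : ℕ) : ℤ) * X ^ t := by
    intro t hd
    have h1 := P2_ev p k _ hd
    rw [eval₂_mul, eval₂_C, eval₂_X_pow] at h1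
    have h2 : (0 : ℝ) < (Int.castRingHom ℝ) ((h * h' : ℕ) : ℤ) := by
      have : (0 : ℝ) < ((h * h' : ℕ) : ℝ) := by exact_mod_cast Nat.mul_pos hh hh'
      simpa using this
    exact (mul_pos h2 (pow_pos hρ t)).ne' h1
  have hv0 : v ≠ 0 := by
    rintro rfl
    have h10 : toPoly (0 : ZMod k → ℤ) = 0 := by simp [toPoly]
    rw [h10, sub_zero] at hv
    apply hnot t2
    have h11 := dvd_sub ((hv.mul_left (X ^ t1)).mul_right M') hrel
    rwa [sub_sub_cancel] at h11
  have hv0' : v' ≠ 0 := by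
    rintro rfl
    have h10 : toPoly (0 : ZMod k → ℤ) = 0 := by simp [toPoly]
    rw [h10, sub_zero] at hv'
    apply hnot t2
    have h11 := dvd_sub (hv'.mul_left (X ^ t1 * M)) hrel
    rwa [sub_sub_cancel] at h11
  obtain ⟨j, μ, hμ0, hμB, hμ⟩ := P2_div p hp.two_le _ _ v hv0 hvB rfl
  obtain ⟨j', μ', hμ0', hμB', hμ'⟩ := P2_div p hp.two_le _ _ v' hv0' hvB' rfl
  obtain ⟨s, g, hg, hsg⟩ := Nat.exists_eq_pow_mul_and_not_dvd hh.ne' p hp.one_lt.ne'
  obtain ⟨s', g', hg', hsg'⟩ := Nat.exists_eq_pow_mul_and_not_dvd hh'.ne' p hp.one_lt.ne'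
  have hM1 : ((X : ℤ[X]) ^ k - C (p : ℤ)) ∣ M - X ^ j * toPoly μ := by
    have := dvd_add hv hμ
    rwa [sub_add_sub_cancel] at this
  have hM2 : ((X : ℤ[X]) ^ k - C (p : ℤ)) ∣ M' - X ^ j' * toPoly μ' := by
    have := dvd_add hv' hμ'
    rwa [sub_add_sub_cancel] at this
  refine ⟨g, g', s, s', j, j', μ, μ', hsg, hsg', (Nat.Prime.coprime_iff_not_dvd hp).mpr hg,
    (Nat.Prime.coprime_iff_not_dvd hp).mpr hg', hμB, hμB', hM1, hM2, ?_⟩
  -- the relation for `μ`, `μ'`
  set Q : ℤ[X] := (X : ℤ[X]) ^ k - C (p : ℤ) with hQ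
  have hX : Q ∣ X ^ (k * (s + s')) - C (p : ℤ) ^ (s + s') := by
    rw [pow_mul]
    exact sub_dvd_pow_sub_pow _ _ _
  have hrel2 : Q ∣ X ^ (t1 + j + j') * (toPoly μ * toPoly μ') -
      C ((g * g' : ℕ) : ℤ) * X ^ (t2 + k * (s + s')) := by
    have e1 : X ^ (t1 + j + j') * (toPoly μ * toPoly μ') -
        C ((g * g' : ℕ) : ℤ) * X ^ (t2 + k * (s + s')) =
        (X ^ t1 * M * M' - C ((h * h' : ℕ) : ℤ) * X ^ t2) -
        (X ^ t1 * M' * (M - X ^ j * toPoly μ)) -
        (X ^ t1 * X ^ j * toPoly μ * (M' - X ^ j' * toPoly μ')) -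
        C ((g * g' : ℕ) : ℤ) * X ^ t2 * (X ^ (k * (s + s')) - C (p : ℤ) ^ (s + s')) := by
      have e2 : C ((h * h' : ℕ) : ℤ) = C ((g * g' : ℕ) : ℤ) * C (p : ℤ) ^ (s + s') := by
        rw [hsg, hsg', ← C_pow, ← C_mul]
        congr 1
        push_cast
        ring
      rw [e2]
      ring
    rw [e1]
    exact dvd_sub (dvd_sub (dvd_sub hrel (hM1.mul_left _)) (hM2.mul_left _)) (hX.mul_left _)
  have hc0 : (toPoly μ).eval 0 = μ 0 := by
    rw [← coeff_zero_eq_eval_zero]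
    have := P1b_coeff k μ 0
    rwa [ZMod.val_zero] at this
  have hc0' : (toPoly μ').eval 0 = μ' 0 := by
    rw [← coeff_zero_eq_eval_zero]
    have := P1b_coeff k μ' 0
    rwa [ZMod.val_zero] at this
  have hpz : Prime (p : ℤ) := Nat.prime_iff_prime_int.mp hp
  rcases lt_trichotomy (t1 + j + j') (t2 + k * (s + s')) with hlt | heq | hgt
  · exfalso
    obtain ⟨e, he⟩ := Nat.exists_eq_add_of_lt hlt
    have h1 : Q ∣ X ^ (t1 + j + j') * (toPoly μ * toPoly μ' -
        C ((g * g' : ℕ) : ℤ) * X ^ (e + 1)) := by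
      have : X ^ (t1 + j + j') * (toPoly μ * toPoly μ' - C ((g * g' : ℕ) : ℤ) * X ^ (e + 1)) =
          X ^ (t1 + j + j') * (toPoly μ * toPoly μ') -
          C ((g * g' : ℕ) : ℤ) * X ^ (t2 + k * (s + s')) := by
        rw [he]; ring
      rw [this]
      exact hrel2
    have h2 := P2_eval0 p k _ (P2_cancel p k hp _ _ h1)
    rw [eval_sub, eval_mul, eval_mul, hc0, hc0', eval_pow, eval_X, zero_pow (by omega), mul_zero,
      sub_zero] at h2
    rcases hpz.dvd_or_dvd h2 with h3 | h3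
    · exact hμ0 h3
    · exact hμ0' h3
  · rw [← heq] at hrel2
    apply P2_cancel p k hp (t1 + j + j')
    have : X ^ (t1 + j + j') * (toPoly μ * toPoly μ' - C ((g * g' : ℕ) : ℤ)) =
        X ^ (t1 + j + j') * (toPoly μ * toPoly μ') -
          C ((g * g' : ℕ) : ℤ) * X ^ (t1 + j + j') := by ring
    rw [this]
    exact hrel2
  · exfalso
    obtain ⟨e, he⟩ := Nat.exists_eq_add_of_lt hgt
    have h1 : Q ∣ X ^ (t2 + k * (s + s')) * (X ^ (e + 1) * (toPoly μ * toPoly μ') -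
        C ((g * g' : ℕ) : ℤ)) := by
      have : X ^ (t2 + k * (s + s')) * (X ^ (e + 1) * (toPoly μ * toPoly μ') -
          C ((g * g' : ℕ) : ℤ)) =
          X ^ (t1 + j + j') * (toPoly μ * toPoly μ') -
          C ((g * g' : ℕ) : ℤ) * X ^ (t2 + k * (s + s')) := by
        rw [he]; ring
      rw [this]
      exact hrel2
    have h2 := P2_eval0 p k _ (P2_cancel p k hp _ _ h1)
    rw [eval_sub, eval_mul, eval_pow, eval_X, zero_pow (by omega), zero_mul, zero_sub, eval_C,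
      dvd_neg] at h2
    have h3 : p ∣ g * g' := by exact_mod_cast h2
    rcases hp.dvd_mul.mp h3 with h4 | h4
    · exact hg h4
    · exact hg' h4

end Pool.Agent.Helper21.FC
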