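import Pool.Agent.Helper21.FC.F2a
import Pool.Agent.Helper21.FC.P2

/-!
MP_0aa406_nt, project FC (helper21): one class of positions.
-/

set_option autoImplicit false

namespace Pool.Agent.Helper21.FC

open Finset Polynomial

theorem F2b_gain_mono {p n : ℕ} {d : ℤ} {c c' : ℝ} (h : Gain p n d c) (hc : c' ≤ c) :
    Gain p n d c' := by
  obtain ⟨a, h1, h2⟩ := h
  exact ⟨a, h1, hc.trans h2⟩

theorem F2b_pow_one (p n m : ℕ) : NN p n ∣ (p : ℤ) ^ (n * m) - 1 := by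
  unfold NN
  rw [pow_mul]
  exact sub_one_dvd_pow_sub_one _ m

theorem F2b_root {p n k κ : ℕ} (h : (n : ℤ) ∣ (k : ℤ) * κ - 1) :
    NN p n ∣ ((p : ℤ) ^ κ) ^ k - p := by
  obtain ⟨m, hm⟩ := h
  rcases Nat.eq_zero_or_pos (k * κ) with h0 | h0
  · have h1 : (k : ℤ) * κ = 0 := by exact_mod_cast h0
    rw [h1] at hm
    have h2 : (n : ℤ) ∣ 1 := ⟨-m, by linarith⟩
    have h3 : n = 1 := by
      have := Int.natCast_dvd_natCast.mp (by simpa using h2 : (n : ℤ) ∣ ((1 : ℕ) : ℤ))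
      exact Nat.dvd_one.mp this
    subst h3
    rw [← pow_mul, mul_comm κ k, h0]
    exact ⟨-1, by unfold NN; ring⟩
  · rcases Nat.eq_zero_or_pos n with hn | hn
    · subst hn
      have h1 : (k : ℤ) * κ = 1 := by
        have : (k : ℤ) * κ - 1 = 0 := by rw [hm]; simp
        linarith
      have h2 : k * κ = 1 := by exact_mod_cast h1
      rw [← pow_mul, mul_comm κ k, h2]
      simp
    · have hm0 : 0 ≤ m := by
        by_contra hcon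
        push Not at hcon
        have h1 : (1 : ℤ) ≤ (k : ℤ) * κ := by exact_mod_cast h0
        have h2 : (n : ℤ) * m < 0 := mul_neg_of_pos_of_neg (by exact_mod_cast hn) hcon
        omega
      obtain ⟨m', rfl⟩ := Int.eq_ofNat_of_zero_le hm0
      have h3 : k * κ = 1 + n * m' := by
        have : (k : ℤ) * κ = 1 + n * m' := by linarith
        exact_mod_cast this
      rw [← pow_mul, mul_comm κ k, h3, pow_add, pow_one]
      have h4 := F2b_pow_one p n m'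
      have h5 : (p : ℤ) * (p : ℤ) ^ (n * m') - p = p * ((p : ℤ) ^ (n * m') - 1) := by ring
      rw [h5]
      exact Dvd.dvd.mul_left h4 _

theorem F2b_eval {p n k : ℕ} {z : ℤ} {P Q : ℤ[X]} (hz : NN p n ∣ z ^ k - p)
    (h : ((X : ℤ[X]) ^ k - C (p : ℤ)) ∣ P - Q) : NN p n ∣ P.eval z - Q.eval z := by
  obtain ⟨R, hR⟩ := h
  have h1 : P.eval z - Q.eval z = (z ^ k - p) * R.eval z := by
    rw [← eval_sub, hR]
    simp
  rw [h1]
  exact Dvd.dvd.mul_right hz _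

theorem F2b_shift {p n : ℕ} (hn : 1 ≤ n) {s g r j κ : ℕ} {d x y : ℤ}
    (h1 : NN p n ∣ ((p ^ s * g : ℕ) : ℤ) * d - (p : ℤ) ^ r * x)
    (h2 : NN p n ∣ x - ((p : ℤ) ^ κ) ^ j * y) :
    NN p n ∣ g * d - (p : ℤ) ^ ((n - 1) * s + r + κ * j) * y := by
  have h3 := F2b_pow_one p n s
  have h4 : (n - 1) * s + s = n * s := by
    obtain ⟨m, rfl⟩ : ∃ m, n = m + 1 := ⟨n - 1, by omega⟩
    simp
    ring
  have h5 : (p : ℤ) ^ (n * s) = (p : ℤ) ^ ((n - 1) * s) * (p : ℤ) ^ s := by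
    rw [← h4, pow_add]
  have h6 : (g : ℤ) * d - (p : ℤ) ^ ((n - 1) * s + r + κ * j) * y =
      (p : ℤ) ^ ((n - 1) * s) * (((p ^ s * g : ℕ) : ℤ) * d - (p : ℤ) ^ r * x)
      + (p : ℤ) ^ ((n - 1) * s) * (p : ℤ) ^ r * (x - ((p : ℤ) ^ κ) ^ j * y)
      - ((p : ℤ) ^ (n * s) - 1) * (g * d) := by
    rw [h5]
    push_cast
    rw [pow_add, pow_add, pow_mul _ κ j]
    ring
  rw [h6]
  exact dvd_sub (dvd_add (Dvd.dvd.mul_left h1 _) (Dvd.dvd.mul_left h2 _)) (Dvd.dvd.mul_right h3 _)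

/-- the same before normalisation -/
theorem one_class_raw (k : ℕ) [NeZero k] (D0 B t1 t2 h h' : ℕ) (hh : 0 < h) (hh' : 0 < h') :
    ∃ (C2 : ℝ) (N1 : ℕ), ∀ p : ℕ, p.Prime →
    ∀ n κ : ℕ, N1 ≤ n → 1 ≤ n → Nat.Coprime k n → (n : ℤ) ∣ (k : ℤ) * κ - 1 →
    ∀ M M' : ℤ[X], M.natDegree ≤ D0 → M'.natDegree ≤ D0 →
    (∀ m, |M.coeff m| ≤ (p : ℤ) ^ B) → (∀ m, |M'.coeff m| ≤ (p : ℤ) ^ B) →
    ((X : ℤ[X]) ^ k - C (p : ℤ)) ∣ X ^ t1 * M * M' - C ((h * h' : ℕ) : ℤ) * X ^ t2 →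
    ∀ (d d' : ℤ) (r r' : ℕ), NN p n ∣ d * d' - 1 → (∀ j : ℕ, ¬ NN p n ∣ d - (p : ℤ) ^ j) →
    NN p n ∣ h * d - (p : ℤ) ^ r * M.eval ((p : ℤ) ^ κ) →
    NN p n ∣ h' * d' - (p : ℤ) ^ r' * M'.eval ((p : ℤ) ^ κ) →
      Gain p n d ((n : ℝ) / 2 - C2) := by
  obtain ⟨B', hB'⟩ := norm_form k D0 B t1 t2 h h' hh hh'
  have key : ∀ g g' : ℕ, ∃ (C2 : ℝ) (N1 : ℕ), 0 < g → 0 < g' →
      ∀ p : ℕ, p.Prime → Nat.Coprime p g → Nat.Coprime p g' →
      ∀ n κ : ℕ, N1 ≤ n → 1 ≤ n → Nat.Coprime k n → (n : ℤ) ∣ (k : ℤ) * κ - 1 →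
      ∀ μ μ' : ZMod k → ℤ, (∀ t, |μ t| ≤ (p : ℤ) ^ B') → (∀ t, |μ' t| ≤ (p : ℤ) ^ B') →
      ((X : ℤ[X]) ^ k - C (p : ℤ)) ∣ toPoly μ * toPoly μ' - C ((g * g' : ℕ) : ℤ) →
      ∀ (d d' : ℤ) (r r' : ℕ), NN p n ∣ d * d' - 1 → (∀ j : ℕ, ¬ NN p n ∣ d - (p : ℤ) ^ j) →
      NN p n ∣ g * d - (p : ℤ) ^ r * (toPoly μ).eval ((p : ℤ) ^ κ) →
      NN p n ∣ g' * d' - (p : ℤ) ^ r' * (toPoly μ').eval ((p : ℤ) ^ κ) →
        Gain p n d ((n : ℝ) / 2 - C2) := by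
    intro g g'
    by_cases hg : 0 < g
    · by_cases hg' : 0 < g'
      · obtain ⟨C2, N1, h1⟩ := one_class k g g' B' hg hg'
        exact ⟨C2, N1, fun _ _ => h1⟩
      · exact ⟨0, 0, fun _ h2 => absurd h2 hg'⟩
    · exact ⟨0, 0, fun h2 => absurd h2 hg⟩
  choose C2 N1 hkey using key
  refine ⟨∑ g ∈ range (h + 1), ∑ g' ∈ range (h' + 1), |C2 g g'|,
    ∑ g ∈ range (h + 1), ∑ g' ∈ range (h' + 1), N1 g g', ?_⟩
  intro p hp n κ hN hn hkn hκ M M' hM hM' hMb hMb' hrel d d' r r' hdd hpow h1 h2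
  obtain ⟨g, g', s, s', j, j', μ, μ', e1, e2, c1, c2, b1, b2, q1, q2, q3⟩ :=
    hB' p hp M M' hM hM' hMb hMb' hrel
  have hg : 0 < g := by
    rcases Nat.eq_zero_or_pos g with h0 | h0
    · rw [h0] at e1; simp at e1; omega
    · exact h0
  have hg' : 0 < g' := by
    rcases Nat.eq_zero_or_pos g' with h0 | h0
    · rw [h0] at e2; simp at e2; omega
    · exact h0
  have hgh : g ∈ range (h + 1) := by
    rw [mem_range]
    have : g ≤ p ^ s * g := Nat.le_mul_of_pos_left _ (Nat.pow_pos hp.pos)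
    omega
  have hgh' : g' ∈ range (h' + 1) := by
    rw [mem_range]
    have : g' ≤ p ^ s' * g' := Nat.le_mul_of_pos_left _ (Nat.pow_pos hp.pos)
    omega
  have hz := F2b_root (p := p) hκ
  have m1 : NN p n ∣ M.eval ((p : ℤ) ^ κ) -
      ((p : ℤ) ^ κ) ^ j * (toPoly μ).eval ((p : ℤ) ^ κ) := by
    have := F2b_eval hz q1
    simpa using this
  have m2 : NN p n ∣ M'.eval ((p : ℤ) ^ κ) -
      ((p : ℤ) ^ κ) ^ j' * (toPoly μ').eval ((p : ℤ) ^ κ) := by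
    have := F2b_eval hz q2
    simpa using this
  rw [e1] at h1
  rw [e2] at h2
  have r1 := F2b_shift hn h1 m1
  have r2 := F2b_shift hn h2 m2
  have hNn : N1 g g' ≤ n := by
    refine le_trans ?_ hN
    refine le_trans ?_ (single_le_sum (f := fun g => ∑ g' ∈ range (h' + 1), N1 g g')
      (fun _ _ => Nat.zero_le _) hgh)
    exact single_le_sum (f := fun g' => N1 g g') (fun _ _ => Nat.zero_le _) hgh'
  have hC : C2 g g' ≤ ∑ g ∈ range (h + 1), ∑ g' ∈ range (h' + 1), |C2 g g'| := by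
    refine le_trans (le_abs_self _) ?_
    refine le_trans ?_ (single_le_sum (f := fun g => ∑ g' ∈ range (h' + 1), |C2 g g'|)
      (fun _ _ => sum_nonneg fun _ _ => abs_nonneg _) hgh)
    exact single_le_sum (f := fun g' => |C2 g g'|) (fun _ _ => abs_nonneg _) hgh'
  refine F2b_gain_mono (hkey g g' hg hg' p hp c1 c2 n κ hNn hn hkn hκ μ μ' b1 b2 q3 d d' _ _
    hdd hpow r1 r2) ?_
  linarith

end Pool.Agent.Helper21.FC
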