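import Pool.Agent.Helper21.FC.A1
import Pool.Agent.Helper21.FC.B3c
import Pool.Agent.Helper21.FC.B4
import Pool.Agent.Helper21.FC.C5b
import Pool.Agent.Helper21.FC.F2b

/-!
MP_0aa406_nt, project FC (helper21): no sequence of bad degrees.
-/

set_option autoImplicit false

namespace Pool.Agent.Helper21.FC

open Finset Filter Polynomial

/-- no sequence of bad degrees -/
theorem no_bad_sequence (ε : ℝ) (hε : 0 < ε) (hε2 : ε < 1 / 2) (p n : ℕ → ℕ) (d : ℕ → ℤ)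
    (hp : ∀ ν, (p ν).Prime) (hn : ∀ ν, 2 ≤ n ν) (hmin : ∀ ν, ν ≤ (n ν).minFac)
    (hd : ∀ ν, IsCoprime (d ν) (NN (p ν) (n ν)))
    (hnd : ∀ ν, ∀ j : ℕ, ¬ NN (p ν) (n ν) ∣ d ν - (p ν : ℤ) ^ j)
    (hbad : ∀ ν, ¬ Gain (p ν) (n ν) (d ν) ((1 / 2 - ε) * n ν)) : False := by
  classical
  have hinv : ∀ ν, ∃ d' : ℤ, NN (p ν) (n ν) ∣ d ν * d' - 1 := by
    intro ν
    obtain ⟨a, b, hab⟩ := hd ν
    refine ⟨a, -b, ?_⟩
    linear_combination hab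
  choose d' hd' using hinv
  have hbad' : ∀ ν, ¬ Gain (p ν) (n ν) (d' ν) ((1 / 2 - ε) * n ν) := fun ν hg =>
    hbad ν (gain_inv (hp ν).two_le (by have := hn ν; omega) (hd' ν) hg)
  obtain ⟨H, K, hHK⟩ := small_multiple ε hε hε2
  have h1 : ∀ ν, ∃ h : ℕ, (1 ≤ h ∧ h ≤ H) ∧ ∃ (q : Fin K → ℕ) (u : Fin K → ℤ),
      (∀ i, |u i| ≤ p ν) ∧ NN (p ν) (n ν) ∣ (h : ℤ) * d ν - ∑ i, u i * (p ν : ℤ) ^ q i := by
    intro ν
    obtain ⟨h, hh1, hh2, hc⟩ := hHK (p ν) (n ν) (hp ν).two_le (by have := hn ν; omega) (d ν)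
      (hbad ν)
    obtain ⟨q, u, _, hu, hdv⟩ := telescope (hp ν).two_le (by have := hn ν; omega) _ K hc
    exact ⟨h, ⟨hh1, hh2⟩, q, u, hu, hdv⟩
  have h2 : ∀ ν, ∃ h : ℕ, (1 ≤ h ∧ h ≤ H) ∧ ∃ (q : Fin K → ℕ) (u : Fin K → ℤ),
      (∀ i, |u i| ≤ p ν) ∧ NN (p ν) (n ν) ∣ (h : ℤ) * d' ν - ∑ i, u i * (p ν : ℤ) ^ q i := by
    intro ν
    obtain ⟨h, hh1, hh2, hc⟩ := hHK (p ν) (n ν) (hp ν).two_le (by have := hn ν; omega) (d' ν)
      (hbad' ν)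
    obtain ⟨q, u, _, hu, hdv⟩ := telescope (hp ν).two_le (by have := hn ν; omega) _ K hc
    exact ⟨h, ⟨hh1, hh2⟩, q, u, hu, hdv⟩
  choose h hh q u hu hrel using h1
  choose h' hh' q' u' hu' hrel' using h2
  let U : Ultrafilter ℕ := hyperfilter ℕ
  have hU : (U : Filter ℕ) ≤ atTop := Nat.hyperfilter_le_atTop
  have hc1 : ∃ h0 ∈ Set.Icc 1 H, ∀ᶠ ν in (U : Filter ℕ), h ν = h0 :=
    (Ultrafilter.eventually_exists_mem_iff (Set.finite_Icc 1 H)).mp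
      (Eventually.of_forall fun ν => ⟨h ν, hh ν, rfl⟩)
  have hc2 : ∃ h0 ∈ Set.Icc 1 H, ∀ᶠ ν in (U : Filter ℕ), h' ν = h0 :=
    (Ultrafilter.eventually_exists_mem_iff (Set.finite_Icc 1 H)).mp
      (Eventually.of_forall fun ν => ⟨h' ν, hh' ν, rfl⟩)
  obtain ⟨h0, hh0, e0⟩ := hc1
  obtain ⟨h0', hh0', e0'⟩ := hc2
  have hpos : 0 < h0 := hh0.1
  have hpos' : 0 < h0' := hh0'.1
  have hmin' : ∀ m : ℕ, ∀ᶠ ν in (U : Filter ℕ), m < (n ν).minFac := by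
    intro m
    filter_upwards [hU (eventually_gt_atTop m)] with ν hν
    exact lt_of_lt_of_le hν (hmin ν)
  have hn' : ∀ m : ℕ, ∀ᶠ ν in (U : Filter ℕ), m < n ν := by
    intro m
    filter_upwards [hmin' m] with ν hν
    exact lt_of_lt_of_le hν (Nat.minFac_le (by have := hn ν; omega))
  have hprod : ∀ᶠ ν in (U : Filter ℕ), NN (p ν) (n ν) ∣
      (∑ i, u ν i * (p ν : ℤ) ^ q ν i) * (∑ j, u' ν j * (p ν : ℤ) ^ q' ν j) -
        ((h0 * h0' : ℕ) : ℤ) := by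
    filter_upwards [e0, e0'] with ν h1 h2
    obtain ⟨a, ha⟩ := hrel ν
    obtain ⟨b, hb⟩ := hrel' ν
    obtain ⟨c, hc⟩ := hd' ν
    rw [h1] at ha
    rw [h2] at hb
    refine ⟨h0 * h0' * c - (∑ i, u ν i * (p ν : ℤ) ^ q ν i) * b - h0' * d' ν * a, ?_⟩
    push_cast
    linear_combination (-(h0' : ℤ) * d' ν) * ha -
      (∑ i, u ν i * (p ν : ℤ) ^ q ν i) * hb + (h0 * h0' : ℤ) * hc
  obtain ⟨k, D0, B, t1, t2, κ, r, r', M, M', hk, hst⟩ := structure_thm U p n hp hmin'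
    (fun i ν => q ν i) (fun i ν => u ν i) (fun i ν => q' ν i) (fun i ν => u' ν i)
    (fun i ν => hu ν i) (fun i ν => hu' ν i) (h0 * h0') (Nat.mul_pos hpos hpos') hprod
  have : NeZero k := ⟨hk.ne'⟩
  obtain ⟨C2, N1, hfin⟩ := one_class_raw k D0 B t1 t2 h0 h0' hpos hpos'
  obtain ⟨m0, hm0⟩ := exists_nat_gt (C2 / ε)
  obtain ⟨ν, hν⟩ := (hst.and ((hn' N1).and ((hn' m0).and (e0.and e0')))).exists
  obtain ⟨⟨hκ, hdM, hdM', hcM, hcM', hr1, hr2, hX⟩, hN1, hm1, hh1, hh2⟩ := hν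
  have hcop : Nat.Coprime k (n ν) := by
    rw [← Nat.isCoprime_iff_coprime]
    obtain ⟨c, hc⟩ := hκ
    refine ⟨κ ν, -c, ?_⟩
    linear_combination hc
  have hg := hfin (p ν) (hp ν) (n ν) (κ ν) (by omega) (by have := hn ν; omega) hcop hκ (M ν)
    (M' ν) hdM hdM' hcM hcM' hX (d ν) (d' ν) (r ν) (r' ν) (hd' ν) (hnd ν) (by
      have h3 := hrel ν
      rw [hh1] at h3
      have := dvd_add h3 hr1
      rwa [sub_add_sub_cancel] at this) (by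
      have h3 := hrel' ν
      rw [hh2] at h3
      have := dvd_add h3 hr2
      rwa [sub_add_sub_cancel] at this)
  refine hbad ν (gain_mono ?_ hg)
  have h5 : C2 / ε < n ν := hm0.trans (by exact_mod_cast hm1)
  rw [div_lt_iff₀ hε] at h5
  nlinarith

end Pool.Agent.Helper21.FC
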