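import Pool.Agent.Helper21.FC.A3
import Pool.Agent.Helper21.FC.F3a

/-!
MP_0aa406_nt, project FC (helper21): the theorem.
-/

set_option autoImplicit false

namespace Pool.Agent.Helper21.FC

open Finset Filter Polynomial

private theorem F3b_cast {p n : ℕ} (hp : 2 ≤ p) : ((p ^ n - 1 : ℕ) : ℤ) = NN p n := by
  have h1 : 1 ≤ p ^ n := Nat.one_le_pow _ _ (by omega)
  unfold NN
  rw [Nat.cast_sub h1]
  push_cast
  ring

theorem main (ε : ℝ) (hε : 0 < ε) : ∃ N₀ : ℕ, ∀ p : ℕ, p.Prime → ∀ m : ℕ, 2 ≤ m →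
    (∀ q : ℕ, q.Prime → q ∣ m → N₀ ≤ q) → ∀ n : ℕ, 0 < n → m ∣ n → ∀ d : ℕ,
      Nat.Coprime d (p ^ n - 1) → (∀ k : ℕ, ¬ d ≡ p ^ k [MOD p ^ m - 1]) →
      ∃ a b : ℕ, 0 < a ∧ a < p ^ n - 1 ∧ b < p ^ n - 1 ∧ (p ^ n - 1) ∣ d * a + b ∧
        (((Nat.digits p a).sum + (Nat.digits p b).sum : ℕ) : ℝ) ≤
          (1 / 2 + ε) * n * ((p : ℝ) - 1) := by
  by_contra hcon
  have key : ∀ ν : ℕ, ∃ (p m : ℕ) (d : ℕ), p.Prime ∧ 2 ≤ m ∧ ν ≤ m.minFac ∧
      IsCoprime (d : ℤ) (NN p m) ∧ (∀ j : ℕ, ¬ NN p m ∣ (d : ℤ) - (p : ℤ) ^ j) ∧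
      ¬ Gain p m (d : ℤ) ((1 / 2 - min ε (1 / 4)) * m) := by
    intro ν
    by_contra hν
    apply hcon
    refine ⟨ν, ?_⟩
    intro p hp m hm hq n hn hmn d hd hk
    by_contra hab
    apply hν
    have hp2 : 2 ≤ p := hp.two_le
    obtain ⟨t, rfl⟩ := hmn
    have ht : 0 < t := Nat.pos_of_ne_zero (by rintro rfl; simp at hn)
    have hdvd : (p ^ m - 1) ∣ (p ^ (m * t) - 1) := by
      have := Nat.sub_dvd_pow_sub_pow (p ^ m) 1 t
      rwa [one_pow, ← pow_mul] at this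
    have hdm : Nat.Coprime d (p ^ m - 1) := Nat.Coprime.coprime_dvd_right hdvd hd
    refine ⟨p, m, d, hp, hm, hq _ (Nat.minFac_prime (by omega)) (Nat.minFac_dvd m), ?_, ?_, ?_⟩
    · rw [← F3b_cast hp2]
      exact Nat.isCoprime_iff_coprime.mpr hdm
    · intro j hj
      apply hk j
      rw [← F3b_cast hp2] at hj
      have h2 : ((p ^ m - 1 : ℕ) : ℤ) ∣ (d : ℤ) - ((p ^ j : ℕ) : ℤ) := by
        push_cast at hj ⊢
        exact hj
      exact (Nat.modEq_iff_dvd.mpr h2).symm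
    · intro hg
      apply hab
      have hc : ((1 / 2 - min ε (1 / 4)) * m : ℝ) = m - (1 / 2 + min ε (1 / 4)) * m := by ring
      rw [hc] at hg
      have h3 := digits_of_gain hp2 (by omega) d hdm hg
      obtain ⟨a, b, h4, h5, h6, h7, h8⟩ := lift_real hp2 m t (by omega) ht d _ h3
      refine ⟨a, b, h4, h5, h6, h7, h8.trans ?_⟩
      have h9 : min ε (1 / 4) ≤ ε := min_le_left _ _
      have hp1 : (0 : ℝ) ≤ (p : ℝ) - 1 := by
        have : (2 : ℝ) ≤ p := by exact_mod_cast hp2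
        linarith
      have hmt : (0 : ℝ) ≤ ((m * t : ℕ) : ℝ) * ((p : ℝ) - 1) :=
        mul_nonneg (Nat.cast_nonneg _) hp1
      calc (t : ℝ) * ((1 / 2 + min ε (1 / 4)) * m * ((p : ℝ) - 1))
          = (1 / 2 + min ε (1 / 4)) * (((m * t : ℕ) : ℝ) * ((p : ℝ) - 1)) := by
            push_cast; ring
        _ ≤ (1 / 2 + ε) * (((m * t : ℕ) : ℝ) * ((p : ℝ) - 1)) := by
            apply mul_le_mul_of_nonneg_right _ hmt
            linarith
        _ = (1 / 2 + ε) * ((m * t : ℕ) : ℝ) * ((p : ℝ) - 1) := by ring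
  choose p m d hp hm hmin hcop hnd hbad using key
  refine no_bad_sequence (min ε (1 / 4)) (lt_min hε (by norm_num))
    (lt_of_le_of_lt (min_le_right _ _) (by norm_num)) p m (fun ν => (d ν : ℤ)) hp hm hmin hcop
    hnd hbad

end Pool.Agent.Helper21.FC
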