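import Pool.Agent.Helper21.FC.Defs

/-!
MP_0aa406_nt, project FC (helper21): `X ^ k - p` is prime.
-/

set_option autoImplicit false

namespace Pool.Agent.Helper21.FC

open Finset Polynomial

/-- `X ^ k - p` is irreducible (Eisenstein) -/
theorem P1a_irr (k : ℕ) (hk : 0 < k) (p : ℕ) (hp : p.Prime) :
    Irreducible ((X : ℤ[X]) ^ k - C (p : ℤ)) := by
  have hpi : Prime (p : ℤ) := Nat.prime_iff_prime_int.mp hp
  have hmonic : ((X : ℤ[X]) ^ k - C (p : ℤ)).Monic := monic_X_pow_sub_C _ hk.ne'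
  have hdeg : ((X : ℤ[X]) ^ k - C (p : ℤ)).natDegree = k := natDegree_X_pow_sub_C
  have hprime : (Ideal.span {(p : ℤ)}).IsPrime :=
    (Ideal.span_singleton_prime hpi.ne_zero).mpr hpi
  have hE : ((X : ℤ[X]) ^ k - C (p : ℤ)).IsEisensteinAt (Ideal.span {(p : ℤ)}) := by
    refine ⟨?_, ?_, ?_⟩
    · rw [hmonic.leadingCoeff]
      exact fun h => hprime.ne_top ((Ideal.eq_top_iff_one _).mpr h)
    · intro n hn
      rw [hdeg] at hn
      rw [coeff_sub, coeff_X_pow, coeff_C, if_neg hn.ne, zero_sub]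
      split_ifs with h0
      · exact (Ideal.neg_mem_iff _).mpr (Ideal.mem_span_singleton_self _)
      · rw [neg_zero]; exact Ideal.zero_mem _
    · rw [coeff_sub, coeff_X_pow, coeff_C, if_neg hk.ne, if_pos rfl, zero_sub,
        Ideal.neg_mem_iff, Ideal.span_singleton_pow, Ideal.mem_span_singleton]
      intro h
      have h2 : (p : ℤ) ∣ 1 := by
        rw [pow_two] at h
        obtain ⟨c, hc⟩ := h
        refine ⟨c, ?_⟩
        apply mul_left_cancel₀ hpi.ne_zero
        linarith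
      exact hpi.not_isUnit (isUnit_of_dvd_one h2)
  exact hE.irreducible hprime hmonic.isPrimitive (by rw [hdeg]; exact hk)

/-- `X ^ k - p` is prime -/
theorem prime_Xk (k : ℕ) (hk : 0 < k) (p : ℕ) (hp : p.Prime) :
    Prime ((X : ℤ[X]) ^ k - C (p : ℤ)) :=
  (P1a_irr k hk p hp).prime

/-- a polynomial vanishing at `ρ = p ^ (1 / k)` is divisible by `X ^ k - p` -/
theorem rev_eq_zero (p k : ℕ) [NeZero k] (hp : p.Prime) (v : ZMod k → ℤ) (h : rev p v = 0) :
    v = 0 := by
  have hk : 0 < k := Nat.pos_of_ne_zero (NeZero.ne k)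
  set ρ : ℝ := (p : ℝ) ^ ((1 : ℝ) / k) with hρ
  have hρk : ρ ^ k = (p : ℝ) := by
    rw [hρ, ← Real.rpow_natCast, ← Real.rpow_mul (Nat.cast_nonneg p), one_div,
      inv_mul_cancel₀ (Nat.cast_ne_zero.mpr hk.ne'), Real.rpow_one]
  have hirrZ := P1a_irr k hk p hp
  have hmonicZ : ((X : ℤ[X]) ^ k - C (p : ℤ)).Monic := monic_X_pow_sub_C _ hk.ne'
  have hmap : ((X : ℤ[X]) ^ k - C (p : ℤ)).map (Int.castRingHom ℚ) = X ^ k - C (p : ℚ) := by
    simp
  have hirrQ : Irreducible ((X : ℚ[X]) ^ k - C (p : ℚ)) := by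
    rw [← hmap]
    exact (IsPrimitive.Int.irreducible_iff_irreducible_map_cast hmonicZ.isPrimitive).mp hirrZ
  have hroot : aeval ρ ((X : ℚ[X]) ^ k - C (p : ℚ)) = 0 := by
    simp [hρk]
  have hmin : (X : ℚ[X]) ^ k - C (p : ℚ) = minpoly ℚ ρ :=
    minpoly.eq_of_irreducible_of_monic hirrQ hroot (monic_X_pow_sub_C _ hk.ne')
  -- the polynomial of `v` over `ℚ`
  set q : ℚ[X] := ∑ t : ZMod k, C ((v t : ℤ) : ℚ) * X ^ t.val with hq
  have hqroot : aeval ρ q = 0 := by
    rw [hq, map_sum, ← h, rev]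
    refine Finset.sum_congr rfl fun t _ => ?_
    simp [hρ]
  have hcoeff : ∀ t : ZMod k, q.coeff t.val = ((v t : ℤ) : ℚ) := by
    intro t
    rw [hq, finsetSum_coeff, Finset.sum_eq_single t]
    · simp
    · intro s _ hst
      rw [coeff_C_mul, coeff_X_pow, if_neg, mul_zero]
      intro h1
      exact hst (ZMod.val_injective k h1.symm)
    · intro h1; exact absurd (Finset.mem_univ t) h1
  have hqdeg : q.degree < k := by
    rw [hq]
    refine (degree_sum_le _ _).trans_lt ?_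
    rw [Finset.sup_lt_iff (by exact WithBot.bot_lt_coe k)]
    intro t _
    refine (degree_C_mul_X_pow_le _ _).trans_lt ?_
    exact_mod_cast ZMod.val_lt t
  have hq0 : q = 0 := by
    by_contra hne
    have h1 := minpoly.degree_le_of_ne_zero ℚ ρ hne hqroot
    rw [← hmin, degree_X_pow_sub_C hk] at h1
    exact absurd (h1.trans_lt hqdeg) (lt_irrefl _)
  funext t
  have h1 := hcoeff t
  rw [hq0, coeff_zero] at h1
  have h2 : (v t : ℚ) = 0 := h1.symm
  simpa using h2

end Pool.Agent.Helper21.FC
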